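import Mathlib

set_option autoImplicit false

/-! Definitions and statements for the coefficientwise (H-vector) comparison of
all-terminal reliability polynomials. -/

namespace Pool.Agent.Y373.HV

open Polynomial Finset

/-- coefficientwise order on real polynomials -/
instance instPO : PartialOrder ℝ[X] where
  le f g := ∀ i, f.coeff i ≤ g.coeff i
  le_refl _ _ := le_rfl
  le_trans _ _ _ h1 h2 i := (h1 i).trans (h2 i)
  le_antisymm _ _ h1 h2 := Polynomial.ext fun i => le_antisymm (h1 i) (h2 i)

theorem le_def (f g : ℝ[X]) : f ≤ g ↔ ∀ i, f.coeff i ≤ g.coeff i := Iff.rfl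

instance : IsOrderedAddMonoid ℝ[X] where
  add_le_add_left _ _ h c i := by
    rw [coeff_add, coeff_add]
    exact add_le_add (h i) le_rfl

theorem nonneg_iff (f : ℝ[X]) : 0 ≤ f ↔ ∀ i, 0 ≤ f.coeff i := by
  rw [le_def]; simp

theorem mul_nonneg' {f g : ℝ[X]} (hf : 0 ≤ f) (hg : 0 ≤ g) : 0 ≤ f * g := by
  rw [nonneg_iff] at *
  intro i
  rw [coeff_mul]
  exact Finset.sum_nonneg fun x _ => mul_nonneg (hf _) (hg _)

instance : IsOrderedRing ℝ[X] where
  zero_le_one := by
    rw [nonneg_iff]
    intro i
    rw [coeff_one]
    split_ifs <;> norm_num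
  mul_le_mul_of_nonneg_left a ha b c hbc := by
    have h := mul_nonneg' ha (sub_nonneg.2 hbc)
    rw [mul_sub] at h
    exact sub_nonneg.1 h
  mul_le_mul_of_nonneg_right a ha b c hbc := by
    have h := mul_nonneg' (sub_nonneg.2 hbc) ha
    rw [sub_mul] at h
    exact sub_nonneg.1 h

theorem X_nonneg : (0 : ℝ[X]) ≤ X := by
  rw [nonneg_iff]
  intro i
  rw [coeff_X]
  split_ifs <;> norm_num

theorem C_nonneg {r : ℝ} (h : 0 ≤ r) : (0 : ℝ[X]) ≤ C r := by
  rw [nonneg_iff]
  intro i
  rw [coeff_C]
  split_ifs
  · exact h
  · exact le_rfl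

/-- the equivalence relation generated by one pair -/
def pr {V : Type*} (e : Sym2 V) : Setoid V where
  r x y := x = y ∨ s(x, y) = e
  iseqv :=
    { refl := fun x => Or.inl rfl
      symm := fun {x y} h => by
        rcases h with h | h
        · exact Or.inl h.symm
        · right; rw [Sym2.eq_swap]; exact h
      trans := fun {x y z} h1 h2 => by
        rcases h1 with rfl | h1
        · exact h2
        · rcases h2 with rfl | h2
          · exact Or.inr h1
          · left
            rw [← h2] at h1
            rcases Sym2.eq_iff.1 h1 with ⟨h3, h4⟩ | ⟨h3, h4⟩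
            · exact h3.trans h4
            · exact h3 }

/-- the equivalence relation gluing the set `I` -/
def gl {V : Type*} (I : Finset V) : Setoid V where
  r x y := x = y ∨ (x ∈ I ∧ y ∈ I)
  iseqv :=
    { refl := fun x => Or.inl rfl
      symm := fun {x y} h => by
        rcases h with h | h
        · exact Or.inl h.symm
        · exact Or.inr ⟨h.2, h.1⟩
      trans := fun {x y z} h1 h2 => by
        rcases h1 with rfl | h1
        · exact h2
        · rcases h2 with rfl | h2
          · exact Or.inr h1
          · exact Or.inr ⟨h1.1, h2.2⟩ }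

open Classical in
/-- `T(1,x)` of the multigraph with edge list `l` (only the edges inside `C` are used), vertex
set the blocks of `s`; zero if `C` is not a union of blocks. -/
noncomputable def tc {V : Type*} (B : Finset V) : List (Sym2 V) → Setoid V → ℝ[X]
  | [], s => if (∀ x ∈ B, ∀ y, s x y ↔ y ∈ B) then 1 else 0
  | e :: l, s => if (∃ x ∈ e, x ∉ B) then tc B l s
      else if pr e ≤ s then X * tc B l s else tc B l s + tc B l (s ⊔ pr e)

/-- `T(1,x)` of the multigraph with edge list `l` and vertex set the blocks of `s`. -/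
noncomputable def T {V : Type*} [Fintype V] (l : List (Sym2 V)) (s : Setoid V) : ℝ[X] :=
  tc univ l s

open Classical in
/-- number of edges of `l` inside `B` -/
noncomputable def cnt {V : Type*} (B : Finset V) (l : List (Sym2 V)) : ℕ :=
  (l.filter (fun e => ∀ x ∈ e, x ∈ B)).length

open Classical in
/-- number of blocks of `s` meeting `B` -/
noncomputable def nb {V : Type*} (s : Setoid V) (B : Finset V) : ℕ :=
  (B.image (fun x => (Quotient.mk s x))).card

/-- the partition generated by a set of pairs -/
def ps {V : Type*} (A : Finset (Sym2 V)) : Setoid V := A.sup pr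

/-- rank of a partition -/
noncomputable def rk {V : Type*} [Fintype V] (s : Setoid V) : ℕ :=
  Fintype.card V - Nat.card (Quotient s)

open Classical in
/-- the edge list of a simple graph -/
noncomputable def el {V : Type*} [Fintype V] (G : SimpleGraph V) : List (Sym2 V) :=
  (univ.filter (fun e : Sym2 V => e ∈ G.edgeSet)).toList

/-- all pairs meeting `U` -/
def KU {V : Type*} (U : Finset V) : SimpleGraph V where
  Adj x y := x ≠ y ∧ (x ∈ U ∨ y ∈ U)
  symm := ⟨fun x y h => ⟨h.1.symm, h.2.symm⟩⟩
  loopless := ⟨fun _ h => h.1 rfl⟩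

/-- average over the `i`-subsets of `U` of the polynomial with that subset contracted -/
noncomputable def tau {V : Type*} [Fintype V] (l : List (Sym2 V)) (U : Finset V) (π : Setoid V)
    (i : ℕ) : ℝ[X] :=
  C ((U.card.choose i : ℝ)⁻¹) * ∑ I ∈ U.powersetCard i, T l (π ⊔ gl I)

open Classical in
/-- number of edges of `l` joining the block of `h` to the vertex `t` -/
noncomputable def cbt {V : Type*} (s : Setoid V) (h t : V) (l : List (Sym2 V)) : ℕ :=
  (l.filter (fun e => ∃ x, s h x ∧ e = s(x, t))).length

end Pool.Agent.Y373.HV
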