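import Mathlib
import Pool.Agent.Y373.HV.Def

set_option autoImplicit false

/-! The ring of set functions (subset convolution) with values in `ℝ[X]`. -/

namespace Pool.Agent.Y373.HV

open Polynomial Finset

/-- set functions -/
def SF (Ω : Type) : Type := Finset Ω → ℝ[X]

namespace SF

variable {Ω : Type} [DecidableEq Ω]

noncomputable instance : AddCommGroup (SF Ω) := inferInstanceAs (AddCommGroup (Finset Ω → ℝ[X]))

omit [DecidableEq Ω] in
theorem ext' {f g : SF Ω} (h : ∀ S, f S = g S) : f = g := funext h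

omit [DecidableEq Ω] in
theorem add_apply (f g : SF Ω) (S : Finset Ω) : (f + g) S = f S + g S := rfl

omit [DecidableEq Ω] in
theorem sub_apply (f g : SF Ω) (S : Finset Ω) : (f - g) S = f S - g S := rfl

omit [DecidableEq Ω] in
theorem neg_apply (f : SF Ω) (S : Finset Ω) : (-f) S = -f S := rfl

omit [DecidableEq Ω] in
theorem zero_apply (S : Finset Ω) : (0 : SF Ω) S = 0 := rfl

noncomputable instance : Mul (SF Ω) := ⟨fun f g S => ∑ A ∈ S.powerset, f A * g (S \ A)⟩

noncomputable instance : One (SF Ω) := ⟨fun S => if S = ∅ then 1 else 0⟩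

theorem mul_apply (f g : SF Ω) (S : Finset Ω) :
    (f * g) S = ∑ A ∈ S.powerset, f A * g (S \ A) := rfl

theorem one_apply (S : Finset Ω) : (1 : SF Ω) S = if S = ∅ then 1 else 0 := rfl

theorem mul_comm' (f g : SF Ω) : f * g = g * f := by
  apply ext'
  intro S
  rw [mul_apply, mul_apply]
  apply Finset.sum_nbij' (fun A => S \ A) (fun A => S \ A)
  · intro A _; exact mem_powerset.2 sdiff_subset
  · intro A _; exact mem_powerset.2 sdiff_subset
  · intro A hA; exact Finset.sdiff_sdiff_eq_self (mem_powerset.1 hA)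
  · intro A hA; exact Finset.sdiff_sdiff_eq_self (mem_powerset.1 hA)
  · intro A hA
    rw [Finset.sdiff_sdiff_eq_self (mem_powerset.1 hA), mul_comm]

theorem mul_assoc' (f g h : SF Ω) : f * g * h = f * (g * h) := by
  apply ext'
  intro S
  rw [mul_apply, mul_apply]
  have e1 : ∑ A ∈ S.powerset, (f * g) A * h (S \ A) =
      ∑ A ∈ S.powerset, ∑ B ∈ A.powerset, f B * g (A \ B) * h (S \ A) := by
    apply Finset.sum_congr rfl
    intro A _
    rw [mul_apply, Finset.sum_mul]
  have e2 : ∑ B ∈ S.powerset, f B * (g * h) (S \ B) =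
      ∑ B ∈ S.powerset, ∑ D ∈ (S \ B).powerset, f B * (g D * h ((S \ B) \ D)) := by
    apply Finset.sum_congr rfl
    intro A _
    rw [mul_apply, Finset.mul_sum]
  rw [e1, e2, Finset.sum_sigma', Finset.sum_sigma']
  apply Finset.sum_nbij' (fun p => ⟨p.2, p.1 \ p.2⟩) (fun p => ⟨p.1 ∪ p.2, p.1⟩)
  · rintro ⟨A, B⟩ h
    simp only [mem_sigma, mem_powerset] at h ⊢
    exact ⟨h.2.trans h.1, sdiff_subset_sdiff h.1 (Subset.refl B)⟩
  · rintro ⟨B, D⟩ h
    simp only [mem_sigma, mem_powerset] at h ⊢
    exact ⟨union_subset h.1 (h.2.trans sdiff_subset), subset_union_left⟩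
  · rintro ⟨A, B⟩ h
    simp only [mem_sigma, mem_powerset] at h ⊢
    rw [union_sdiff_of_subset h.2]
  · rintro ⟨B, D⟩ h
    simp only [mem_sigma, mem_powerset] at h ⊢
    rw [union_sdiff_cancel_left]
    exact disjoint_sdiff.mono_right h.2
  · rintro ⟨A, B⟩ h
    simp only [mem_sigma, mem_powerset] at h ⊢
    have : (S \ B) \ (A \ B) = S \ A := by
      ext x
      simp only [mem_sdiff]
      constructor
      · rintro ⟨⟨h1, h2⟩, h3⟩
        exact ⟨h1, fun h4 => h3 ⟨h4, h2⟩⟩
      · rintro ⟨h1, h2⟩
        exact ⟨⟨h1, fun h4 => h2 (h.2 h4)⟩, fun h4 => h2 h4.1⟩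
    rw [this, mul_assoc]

theorem one_mul' (f : SF Ω) : 1 * f = f := by
  apply ext'
  intro S
  rw [mul_apply, Finset.sum_eq_single ∅]
  · rw [one_apply, if_pos rfl, one_mul, sdiff_empty]
  · intro A _ hA
    rw [one_apply, if_neg hA, zero_mul]
  · intro h; exact absurd (empty_mem_powerset S) h

theorem add_mul' (f g h : SF Ω) : (f + g) * h = f * h + g * h := by
  apply ext'
  intro S
  rw [add_apply, mul_apply, mul_apply, mul_apply, ← Finset.sum_add_distrib]
  apply Finset.sum_congr rfl
  intro A _
  rw [add_apply, add_mul]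

noncomputable instance : CommRing (SF Ω) :=
  { (inferInstance : AddCommGroup (SF Ω)), (inferInstance : Mul (SF Ω)),
    (inferInstance : One (SF Ω)) with
    left_distrib := fun a b c => by
      rw [mul_comm', add_mul', mul_comm' b a, mul_comm' c a]
    right_distrib := add_mul'
    zero_mul := fun a => by
      apply ext'; intro S; rw [mul_apply]
      exact Finset.sum_eq_zero fun A _ => by rw [zero_apply, zero_mul]
    mul_zero := fun a => by
      apply ext'; intro S; rw [mul_apply]
      exact Finset.sum_eq_zero fun A _ => by rw [zero_apply, mul_zero]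
    mul_assoc := mul_assoc'
    one_mul := one_mul'
    mul_one := fun a => by rw [mul_comm', one_mul']
    mul_comm := mul_comm' }

instance : PartialOrder (SF Ω) := inferInstanceAs (PartialOrder (Finset Ω → ℝ[X]))

omit [DecidableEq Ω] in
theorem le_iff (f g : SF Ω) : f ≤ g ↔ ∀ S, f S ≤ g S := Iff.rfl

instance : IsOrderedAddMonoid (SF Ω) where
  add_le_add_left _ _ h c S := add_le_add (h S) le_rfl

theorem mul_nn {f g : SF Ω} (hf : 0 ≤ f) (hg : 0 ≤ g) : 0 ≤ f * g := by
  intro S
  rw [mul_apply]
  exact Finset.sum_nonneg fun A _ => mul_nonneg (hf A) (hg _)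

instance : IsOrderedRing (SF Ω) where
  zero_le_one := by
    intro S
    rw [one_apply]
    split_ifs
    · exact zero_le_one
    · exact le_rfl
  mul_le_mul_of_nonneg_left a ha b c hbc := by
    have h := mul_nn ha (sub_nonneg.2 hbc)
    rw [mul_sub] at h
    exact sub_nonneg.1 h
  mul_le_mul_of_nonneg_right a ha b c hbc := by
    have h := mul_nn (sub_nonneg.2 hbc) ha
    rw [sub_mul] at h
    exact sub_nonneg.1 h

/-- constants -/
noncomputable def cf (c : ℝ[X]) : SF Ω := fun S => if S = ∅ then c else 0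

theorem cf_apply (c : ℝ[X]) (S : Finset Ω) : (cf c : SF Ω) S = if S = ∅ then c else 0 := rfl

/-- constants -/
noncomputable def cst : ℝ[X] →+* SF Ω where
  toFun c := cf c
  map_one' := rfl
  map_mul' a b := by
    apply ext'
    intro S
    rw [mul_apply]
    by_cases hS : S = ∅
    · subst hS; simp [cf_apply]
    · rw [cf_apply, if_neg hS, Finset.sum_eq_zero]
      intro A hA
      by_cases h1 : A = ∅
      · subst h1
        rw [sdiff_empty, cf_apply b, if_neg hS, mul_zero]
      · rw [cf_apply, if_neg h1, zero_mul]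
  map_zero' := by
    apply ext'; intro S; rw [zero_apply, cf_apply]; split_ifs <;> rfl
  map_add' a b := by
    apply ext'; intro S; rw [add_apply, cf_apply, cf_apply, cf_apply]
    split_ifs
    · rfl
    · rw [add_zero]

theorem cst_apply (c : ℝ[X]) (S : Finset Ω) : (cst c : SF Ω) S = if S = ∅ then c else 0 := rfl

theorem cst_mul_apply (c : ℝ[X]) (f : SF Ω) (S : Finset Ω) : ((cst c : SF Ω) * f) S = c * f S := by
  rw [mul_apply, Finset.sum_eq_single ∅]
  · rw [cst_apply, if_pos rfl, sdiff_empty]
  · intro A _ hA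
    rw [cst_apply, if_neg hA, zero_mul]
  · intro h; exact absurd (empty_mem_powerset S) h

theorem cst_nonneg {c : ℝ[X]} (h : 0 ≤ c) : 0 ≤ (cst c : SF Ω) := by
  intro S
  rw [cst_apply]
  split_ifs
  · exact h
  · exact le_rfl

theorem sum_apply {ι : Type*} (s : Finset ι) (f : ι → SF Ω) (S : Finset Ω) :
    (∑ i ∈ s, f i) S = ∑ i ∈ s, f i S := by
  classical
  induction s using Finset.induction_on with
  | empty => rfl
  | insert a s ha ih => rw [sum_insert ha, sum_insert ha, add_apply, ih]

/-- elements with value `1` at the empty set are units -/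
theorem exists_inv [Fintype Ω] (f : SF Ω) (hf : f ∅ = 1) : ∃ g : SF Ω, f * g = 1 := by
  have hn : ∀ k, ∀ S : Finset Ω, S.card < k → ((1 - f) ^ k) S = 0 := by
    intro k
    induction k with
    | zero => intro S h; exact absurd h (Nat.not_lt_zero _)
    | succ k ih =>
      intro S hS
      rw [pow_succ, mul_apply]
      apply Finset.sum_eq_zero
      intro A hA
      by_cases h : A.card < k
      · rw [ih A h, zero_mul]
      · have h1 : A = S := by
          apply Finset.eq_of_subset_of_card_le (mem_powerset.1 hA)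
          omega
        rw [h1, Finset.sdiff_self, sub_apply, hf, one_apply, if_pos rfl, sub_self, mul_zero]
  have hnil : IsNilpotent (1 - f) := by
    refine ⟨Fintype.card Ω + 1, ?_⟩
    apply ext'
    intro S
    rw [hn _ S (Nat.lt_succ_of_le (Finset.card_le_univ S)), zero_apply]
  have := hnil.isUnit_one_sub
  rw [sub_sub_cancel] at this
  obtain ⟨u, hu⟩ := this
  exact ⟨↑u⁻¹, by rw [← hu, Units.mul_inv]⟩

/-! multiplication of the value at `S` by a multiplicative function of `S` -/

/-- `f S ↦ χ S * f S` -/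
noncomputable def tw (χ : Finset Ω → ℝ[X]) (f : SF Ω) : SF Ω := fun S => χ S * f S

theorem tw_apply (χ : Finset Ω → ℝ[X]) (f : SF Ω) (S : Finset Ω) : tw χ f S = χ S * f S := rfl

theorem tw_add (χ : Finset Ω → ℝ[X]) (f g : SF Ω) : tw χ (f + g) = tw χ f + tw χ g := by
  apply ext'; intro S; simp only [tw_apply, add_apply]; ring

theorem tw_sub (χ : Finset Ω → ℝ[X]) (f g : SF Ω) : tw χ (f - g) = tw χ f - tw χ g := by
  apply ext'; intro S; simp only [tw_apply, sub_apply]; ring

theorem tw_mul (χ : Finset Ω → ℝ[X]) (hχ : ∀ A S, A ⊆ S → χ S = χ A * χ (S \ A)) (f g : SF Ω) :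
    tw χ (f * g) = tw χ f * tw χ g := by
  apply ext'
  intro S
  rw [tw_apply, mul_apply, mul_apply, Finset.mul_sum]
  apply Finset.sum_congr rfl
  intro A hA
  rw [tw_apply, tw_apply, hχ A S (mem_powerset.1 hA)]
  ring

theorem tw_cst (χ : Finset Ω → ℝ[X]) (h : χ ∅ = 1) (c : ℝ[X]) : tw χ (cst c) = cst c := by
  apply ext'
  intro S
  rw [tw_apply, cst_apply]
  split_ifs with hS
  · rw [hS, h, one_mul]
  · rw [mul_zero]

theorem tw_one (χ : Finset Ω → ℝ[X]) (h : χ ∅ = 1) : tw χ (1 : SF Ω) = 1 := by
  have := tw_cst χ h (1 : ℝ[X])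
  rwa [map_one] at this

theorem tw_nonneg (χ : Finset Ω → ℝ[X]) (h : ∀ S, 0 ≤ χ S) {f : SF Ω} (hf : 0 ≤ f) :
    0 ≤ tw χ f := fun S => mul_nonneg (h S) (hf S)

theorem tw_sum (χ : Finset Ω → ℝ[X]) {ι : Type*} (s : Finset ι) (f : ι → SF Ω) :
    tw χ (∑ i ∈ s, f i) = ∑ i ∈ s, tw χ (f i) := by
  apply ext'
  intro S
  rw [tw_apply, sum_apply, sum_apply, Finset.mul_sum]
  rfl

/-! evaluation with one more element -/

/-- `res u f` forgets the sets containing `u` -/
noncomputable def res (u : Ω) (f : SF Ω) : SF Ω := fun S => if u ∈ S then 0 else f S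

/-- `D u f S = f (insert u S)` for `u ∉ S` -/
noncomputable def D (u : Ω) (f : SF Ω) : SF Ω := fun S => if u ∈ S then 0 else f (insert u S)

theorem res_apply (u : Ω) (f : SF Ω) (S : Finset Ω) (h : u ∉ S) : res u f S = f S := if_neg h

theorem res_mem (u : Ω) (f : SF Ω) (S : Finset Ω) (h : u ∈ S) : res u f S = 0 := if_pos h

theorem D_apply (u : Ω) (f : SF Ω) (S : Finset Ω) (h : u ∉ S) : D u f S = f (insert u S) :=
  if_neg h

theorem D_mem (u : Ω) (f : SF Ω) (S : Finset Ω) (h : u ∈ S) : D u f S = 0 := if_pos h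

theorem res_D (u : Ω) (f : SF Ω) : res u (D u f) = D u f := by
  apply ext'; intro S
  by_cases h : u ∈ S
  · rw [res_mem u _ S h, D_mem u _ S h]
  · rw [res_apply u _ S h]

theorem res_res (u : Ω) (f : SF Ω) : res u (res u f) = res u f := by
  apply ext'; intro S
  by_cases h : u ∈ S
  · rw [res_mem u _ S h, res_mem u _ S h]
  · rw [res_apply u _ S h]

theorem res_add (u : Ω) (f g : SF Ω) : res u (f + g) = res u f + res u g := by
  apply ext'; intro S
  by_cases h : u ∈ S
  · rw [add_apply, res_mem u _ S h, res_mem u _ S h, res_mem u _ S h, add_zero]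
  · rw [add_apply, res_apply u _ S h, res_apply u _ S h, res_apply u _ S h, add_apply]

theorem res_sub (u : Ω) (f g : SF Ω) : res u (f - g) = res u f - res u g := by
  apply ext'; intro S
  by_cases h : u ∈ S
  · rw [sub_apply, res_mem u _ S h, res_mem u _ S h, res_mem u _ S h, sub_zero]
  · rw [sub_apply, res_apply u _ S h, res_apply u _ S h, res_apply u _ S h, sub_apply]

theorem D_add (u : Ω) (f g : SF Ω) : D u (f + g) = D u f + D u g := by
  apply ext'; intro S
  by_cases h : u ∈ S
  · rw [add_apply, D_mem u _ S h, D_mem u _ S h, D_mem u _ S h, add_zero]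
  · rw [add_apply, D_apply u _ S h, D_apply u _ S h, D_apply u _ S h, add_apply]

theorem D_sub (u : Ω) (f g : SF Ω) : D u (f - g) = D u f - D u g := by
  apply ext'; intro S
  by_cases h : u ∈ S
  · rw [sub_apply, D_mem u _ S h, D_mem u _ S h, D_mem u _ S h, sub_zero]
  · rw [sub_apply, D_apply u _ S h, D_apply u _ S h, D_apply u _ S h, sub_apply]

theorem res_mul (u : Ω) (f g : SF Ω) : res u (f * g) = res u f * res u g := by
  apply ext'
  intro S
  by_cases hu : u ∈ S
  · rw [mul_apply, Finset.sum_eq_zero]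
    · rw [res_mem u _ S hu]
    · intro A _
      by_cases hA : u ∈ A
      · rw [res_mem u f A hA, zero_mul]
      · rw [res_mem u g (S \ A) (mem_sdiff.2 ⟨hu, hA⟩), mul_zero]
  · rw [res_apply u _ S hu, mul_apply, mul_apply]
    apply Finset.sum_congr rfl
    intro A hA
    rw [res_apply u f A (fun h => hu (mem_powerset.1 hA h)),
      res_apply u g (S \ A) (fun h => hu (mem_sdiff.1 h).1)]

theorem res_cst (u : Ω) (c : ℝ[X]) : res u (cst c) = cst c := by
  apply ext'
  intro S
  by_cases h : u ∈ S
  · rw [res_mem u _ S h, cst_apply, if_neg (fun h' => by rw [h'] at h; exact absurd h (Finset.notMem_empty u))]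
  · rw [res_apply u _ S h]

theorem D_mul (u : Ω) (f g : SF Ω) : D u (f * g) = D u f * res u g + res u f * D u g := by
  apply ext'
  intro S
  by_cases hu : u ∈ S
  · have h1 : D u (f * g) S = 0 := if_pos hu
    have h2 : (D u f * res u g) S = 0 := by
      rw [← res_D, ← res_mul]; exact if_pos hu
    have h3 : (res u f * D u g) S = 0 := by
      rw [← res_D u g, ← res_mul]; exact if_pos hu
    rw [h1, add_apply, h2, h3, add_zero]
  · rw [D_apply u _ S hu, mul_apply, add_apply, mul_apply, mul_apply,
      Finset.sum_powerset_insert hu, add_comm]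
    congr 1
    · apply Finset.sum_congr rfl
      intro A hA
      have hA' : u ∉ A := fun h => hu (mem_powerset.1 hA h)
      rw [D_apply u f A hA', res_apply u g (S \ A) (fun h => hu (mem_sdiff.1 h).1)]
      congr 2
      ext x
      simp only [mem_sdiff, mem_insert]
      constructor
      · rintro ⟨h1 | h1, h2⟩
        · exact absurd (Or.inl h1) h2
        · exact ⟨h1, fun h => h2 (Or.inr h)⟩
      · rintro ⟨h1, h2⟩
        refine ⟨Or.inr h1, ?_⟩
        rintro (h | h)
        · exact hu (h ▸ h1)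
        · exact h2 h
    · apply Finset.sum_congr rfl
      intro A hA
      have hA' : u ∉ A := fun h => hu (mem_powerset.1 hA h)
      rw [res_apply u f A hA', D_apply u g (S \ A) (fun h => hu (mem_sdiff.1 h).1)]
      congr 2
      ext x
      simp only [mem_sdiff, mem_insert]
      constructor
      · rintro ⟨h1 | h1, h2⟩
        · exact Or.inl h1
        · exact Or.inr ⟨h1, h2⟩
      · rintro (h1 | ⟨h1, h2⟩)
        · subst h1; exact ⟨Or.inl rfl, hA'⟩
        · exact ⟨Or.inr h1, h2⟩

end SF

end Pool.Agent.Y373.HV
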