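import Mathlib
import Pool.Agent.Y373.HV.Def
import Pool.Agent.Helper291.RelFinal

set_option autoImplicit false

/-! Statements of the parts (each is proved in its own file). -/

namespace Pool.Agent.Y373.HV

open Polynomial Finset Pool.Agent.Helper291.RelMain Pool.Agent.Helper291.RelDense
  Pool.Agent.Helper291.RelFinal

/-- Exchange: moving the edges `z w` (`w ∈ ws`) to `h w` does not increase `T` if the remaining
edges at the block of `z` are dominated by those at the block of `h`. -/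
def ExchStm : Prop := ∀ (V : Type) [Fintype V] [DecidableEq V] (s : Setoid V) (h z : V),
  ¬ s h z → ∀ (l : List (Sym2 V)) (ws : List V), (∀ w ∈ ws, ¬ s h w ∧ ¬ s z w) →
  (∀ t, ¬ s h t → ¬ s z t → cbt s z t l ≤ cbt s h t l) →
  T (l ++ ws.map (fun w => s(h, w))) s ≤ T (l ++ ws.map (fun w => s(z, w))) s

/-- Kelmans compression -/
def KelStm : Prop := ∀ (V : Type) [Fintype V] [DecidableEq V] (G : SimpleGraph V) (u v : V),
  u ≠ v → T (el (Pool.Agent.Helper291.RelC.compress G u v)) ⊥ ≤ T (el G) ⊥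

/-- dense graphs -/
def DenseStm : Prop := ∀ (V : Type) [Fintype V] [DecidableEq V] (c : ℕ) (G : SimpleGraph V),
  G.Connected → (mt G).card = c → c + 2 ≤ Fintype.card V →
  ∀ (v : V) (S : Finset V), v ∉ S → S.card = c → T (el (starC v S)) ⊥ ≤ T (el G) ⊥

/-- loops of `F` replaced by contractions in `U` -/
def LpStm : Prop := ∀ (V : Type) [Fintype V] [DecidableEq V] (U : Finset V) (F : Finset (Sym2 V))
  (l : List (Sym2 V)), (∀ e ∈ F, ∀ x ∈ e, x ∉ U) → F.card + 1 ≤ U.card →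
  T (F.toList ++ l) ⊥ ≤ ∑ A ∈ F.powerset, tau l U (ps A) (1 + (A.card - rk (ps A)))

/-- the telescoping argument (abstract) -/
def TeleStm : Prop := ∀ (V : Type) [Fintype V] [DecidableEq V] (F : Finset (Sym2 V))
  (τ : Setoid V → ℕ → ℝ[X]),
  (∀ e ∈ F, ¬ e.IsDiag) →
  (∀ π i, 0 ≤ τ π i) →
  (∀ A ⊆ F, ∀ e ∈ F, ¬ pr e ≤ ps A → ∀ v : ℕ → ℝ, (∀ i, 0 ≤ v i) →
    (∀ i j, 1 ≤ i → i ≤ j → v j ≤ v i) →
    ∑ i ∈ Icc 1 F.card, C (v i * (F.card.choose i : ℝ)) *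
        (τ (ps A ⊔ pr e) i - τ (ps A) (i + 1)) ≤
      C (2 * F.card * v 1 / (F.card + 1)) * τ (ps A) 1) →
  ∑ A ∈ F.powerset, τ (ps A) (1 + (A.card - rk (ps A))) ≤
    ∑ k ∈ range (F.card + 1), C (((F.card + 1).choose (k + 1) : ℕ) : ℝ) * τ ⊥ (k + 1)

/-- the basic inequality, before averaging, for the graph of all pairs meeting `U` -/
def PmStm : Prop := ∀ (V : Type) [Fintype V] [DecidableEq V] (U : Finset V) (u : V), u ∈ U →
  ∀ (π : Setoid V), (∀ x y, π x y → x = y ∨ (x ∉ U ∧ y ∉ U)) →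
  ∀ a b, a ∉ U → b ∉ U → ¬ π a b → ∀ (A B : Finset V), (∀ x, x ∈ A ↔ ¬ π a x) →
  (∀ x, x ∈ B ↔ ¬ π b x) → ∀ m : ℕ,
  0 ≤ ∑ i ∈ Icc 1 m, ∑ I ∈ (U.erase u).powersetCard i,
    (tc A (el (KU U)) (π ⊔ gl I) + tc B (el (KU U)) (π ⊔ gl I)
      - T (el (KU U)) (π ⊔ pr s(a, b) ⊔ gl I) + T (el (KU U)) (π ⊔ gl (insert u I)))

/-- singleton terms -/
def SingStm : Prop := ∀ (V : Type) [Fintype V] [DecidableEq V] (U : Finset V)
  (π : Setoid V), (∀ x y, π x y → x = y ∨ (x ∉ U ∧ y ∉ U)) →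
  ∀ a, a ∉ U → ∀ (A : Finset V), (∀ x, x ∈ A ↔ ¬ π a x) →
  ∑ I ∈ U.powerset.filter (fun I => I.Nonempty), tc A (el (KU U)) (π ⊔ gl I) ≤
    T (el (KU U)) π

/-- the averaged inequality -/
def EIStm : Prop := ∀ (V : Type) [Fintype V] [DecidableEq V] (G : SimpleGraph V) (U : Finset V)
  (δ : ℕ), U.card = δ + 1 → (∀ u ∈ U, ∀ t, t ≠ u → G.Adj u t) →
  ∀ (π : Setoid V), (∀ x y, π x y → x = y ∨ (x ∉ U ∧ y ∉ U)) →
  ∀ a b, a ∉ U → b ∉ U → ¬ π a b →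
  ∀ v : ℕ → ℝ, (∀ i, 0 ≤ v i) → (∀ i j, 1 ≤ i → i ≤ j → v j ≤ v i) →
  ∑ i ∈ Icc 1 δ, C (v i * (δ.choose i : ℝ)) *
      (tau (el G) U (π ⊔ pr s(a, b)) i - tau (el G) U π (i + 1)) ≤
    C (2 * δ * v 1 / (δ + 1)) * tau (el G) U π 1

/-- collapse of a vertex -/
def CollapseStm : Prop := ∀ (V : Type) [Fintype V] [DecidableEq V] (G : SimpleGraph V)
  (U : Finset V) (F : Finset (Sym2 V)), (∀ u ∈ U, ∀ t, t ≠ u → G.Adj u t) → F ⊆ mt G →
  F.card + 1 = U.card →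
  T (el (addF G F)) ⊥ ≤ ∑ I ∈ U.powerset.filter (fun I => I.Nonempty), T (el G) (gl I)

/-- the main result for `T` -/
def MainStm : Prop := ∀ (f : ℕ → ℕ) (s k : ℕ), 1 ≤ k → k ≤ s → ∀ n, s + 1 ≤ n →
  (∀ j, s < j → j < n → f j < j) → ∀ (V : Type) [Fintype V] [DecidableEq V]
  (G : SimpleGraph V), Fintype.card V = n → G.Connected →
  G.edgeSet.ncard = s.choose 2 + k + (n - s - 1) →
  T (el (Lg n s k f)) ⊥ ≤ T (el G) ⊥

/-- moments -/
def MomStm : Prop := ∀ (V : Type) [Fintype V] [DecidableEq V] (l : List (Sym2 V)) (s : Setoid V)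
  (B : Finset V) (r : V), r ∈ B → (∀ x ∈ B, ∀ y, s x y → y ∈ B) →
  (X : ℝ[X]) ^ cnt B l = ∑ D ∈ B.powerset.filter (fun D => r ∈ D),
    (X - 1) ^ (nb s D - 1) * tc D l s * X ^ cnt (B \ D) l

section
variable {Ω : Type} [DecidableEq Ω]

/-- total weight -/
def wS (wt : Ω → ℕ) (S : Finset Ω) : ℕ := ∑ x ∈ S, wt x

/-- number of edges: `U` is a clique, every element `y` outside `U` is joined by `wt y` parallel
edges to every element of `U` -/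
def eS (U : Finset Ω) (wt : Ω → ℕ) (S : Finset Ω) : ℕ :=
  (S ∩ U).card.choose 2 + (S ∩ U).card * wS wt (S \ U)

end

/-- the algebraic core -/
def AlgStm : Prop := ∀ (Ω : Type) [Fintype Ω] [DecidableEq Ω] (U : Finset Ω) (wt : Ω → ℕ),
  (∀ u ∈ U, wt u = 1) → ∀ a b : ℕ, 1 ≤ a → 1 ≤ b →
  ∃ (σ κa κb κm κab : ℕ → Finset Ω → ℝ[X]),
    (∀ i S, (X : ℝ[X]) ^ (i * wS wt S + eS U wt S) =
      ∑ D ∈ S.powerset, (X - 1) ^ D.card * σ i D * X ^ eS U wt (S \ D)) ∧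
    (∀ i S, (X : ℝ[X]) ^ (i * (wS wt S + a) + (eS U wt S + a * (S ∩ U).card)) =
      ∑ D ∈ S.powerset, ((X - 1) ^ (D.card + 1) * κa i D * X ^ eS U wt (S \ D) +
        (X - 1) ^ D.card * σ i D * X ^ (eS U wt (S \ D) + a * ((S \ D) ∩ U).card))) ∧
    (∀ i S, (X : ℝ[X]) ^ (i * (wS wt S + b) + (eS U wt S + b * (S ∩ U).card)) =
      ∑ D ∈ S.powerset, ((X - 1) ^ (D.card + 1) * κb i D * X ^ eS U wt (S \ D) +
        (X - 1) ^ D.card * σ i D * X ^ (eS U wt (S \ D) + b * ((S \ D) ∩ U).card))) ∧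
    (∀ i S, (X : ℝ[X]) ^ (i * (wS wt S + (a + b)) + (eS U wt S + (a + b) * (S ∩ U).card)) =
      ∑ D ∈ S.powerset, ((X - 1) ^ (D.card + 1) * κm i D * X ^ eS U wt (S \ D) +
        (X - 1) ^ D.card * σ i D * X ^ (eS U wt (S \ D) + (a + b) * ((S \ D) ∩ U).card))) ∧
    (∀ i S, (X : ℝ[X]) ^ (i * (wS wt S + (a + b)) + (eS U wt S + (a + b) * (S ∩ U).card)) =
      ∑ D ∈ S.powerset, ((X - 1) ^ (D.card + 2) * κab i D * X ^ eS U wt (S \ D) +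
        (X - 1) ^ (D.card + 1) * κa i D * X ^ (eS U wt (S \ D) + b * ((S \ D) ∩ U).card) +
        (X - 1) ^ (D.card + 1) * κb i D * X ^ (eS U wt (S \ D) + a * ((S \ D) ∩ U).card) +
        (X - 1) ^ D.card * σ i D * X ^ (eS U wt (S \ D) + (a + b) * ((S \ D) ∩ U).card))) ∧
    (∀ u ∈ U, ∀ S, u ∉ S → ∀ m, 0 ≤ ∑ i ∈ Icc 1 m, ∑ I ∈ (S ∩ U).powersetCard i,
      X ^ (i.choose 2) * (κa i (insert u (S \ I)) + κb i (insert u (S \ I))
        - κm i (insert u (S \ I)) + X ^ i * κab (i + 1) (S \ I)))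

end Pool.Agent.Y373.HV
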