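import Mathlib
import Pool.Agent.Y373.HV.Ring
import Pool.Agent.Y373.HV.Stm

set_option autoImplicit false

namespace Pool.Agent.Y373.HV

open Polynomial Finset

namespace SF

section count
variable {Ω : Type} [DecidableEq Ω]

theorem wS_split (wt : Ω → ℕ) (A S : Finset Ω) (h : A ⊆ S) : wS wt S = wS wt A + wS wt (S \ A) := by
  unfold wS
  rw [add_comm, Finset.sum_sdiff h]

theorem wS_insert (wt : Ω → ℕ) (u : Ω) (S : Finset Ω) (h : u ∉ S) :
    wS wt (insert u S) = wt u + wS wt S := by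
  unfold wS
  rw [Finset.sum_insert h]

theorem wS_U (U : Finset Ω) (wt : Ω → ℕ) (hU : ∀ u ∈ U, wt u = 1) (A : Finset Ω) (h : A ⊆ U) :
    wS wt A = A.card := by
  unfold wS
  rw [Finset.card_eq_sum_ones]
  exact Finset.sum_congr rfl fun x hx => hU x (h hx)

theorem wS_parts (U : Finset Ω) (wt : Ω → ℕ) (hU : ∀ u ∈ U, wt u = 1) (S : Finset Ω) :
    wS wt S = (S ∩ U).card + wS wt (S \ U) := by
  rw [wS_split wt (S ∩ U) S inter_subset_left, wS_U U wt hU _ inter_subset_right, sdiff_inter_self_left]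

theorem choose_add2 (i k : ℕ) : (i + k).choose 2 = i.choose 2 + k.choose 2 + i * k := by
  induction k with
  | zero => simp
  | succ k ih =>
    rw [← add_assoc, Nat.choose_succ_succ' (i + k) 1, Nat.choose_one_right, ih,
      Nat.choose_succ_succ' k 1, Nat.choose_one_right]
    ring

theorem eS_split (U : Finset Ω) (wt : Ω → ℕ) (hU : ∀ u ∈ U, wt u = 1) (I S : Finset Ω)
    (h1 : I ⊆ S) (h2 : I ⊆ U) :
    eS U wt S = I.card.choose 2 + I.card * wS wt (S \ I) + eS U wt (S \ I) := by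
  have e1 : (S \ I) \ U = S \ U := by
    ext x
    simp only [mem_sdiff]
    exact ⟨fun h => ⟨h.1.1, h.2⟩, fun h => ⟨⟨h.1, fun hI => h.2 (h2 hI)⟩, h.2⟩⟩
  have e2 : (S ∩ U).card = I.card + ((S \ I) ∩ U).card := by
    rw [← Finset.card_sdiff_add_card_eq_card (show I ⊆ S ∩ U from subset_inter h1 h2), add_comm]
    congr 2
    ext x
    simp only [mem_sdiff, mem_inter]
    tauto
  rw [wS_parts U wt hU (S \ I)]
  unfold eS
  rw [e1, e2, choose_add2]
  ring

theorem cU_split (U : Finset Ω) (I S : Finset Ω) (h1 : I ⊆ S) (h2 : I ⊆ U) :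
    (S ∩ U).card = I.card + ((S \ I) ∩ U).card := by
  rw [← Finset.card_sdiff_add_card_eq_card (show I ⊆ S ∩ U from subset_inter h1 h2), add_comm]
  congr 2
  ext x
  simp only [mem_sdiff, mem_inter]
  tauto

theorem eS_insert (U : Finset Ω) (wt : Ω → ℕ) (hU : ∀ u ∈ U, wt u = 1) (u : Ω) (hu : u ∈ U)
    (S : Finset Ω) (h : u ∉ S) : eS U wt (insert u S) = wS wt S + eS U wt S := by
  rw [eS_split U wt hU {u} (insert u S) (by simp) (by simpa using hu)]
  have : insert u S \ {u} = S := by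
    rw [Finset.sdiff_singleton_eq_erase, Finset.erase_insert h]
  rw [this]
  simp

theorem cU_insert (U : Finset Ω) (u : Ω) (hu : u ∈ U)
    (S : Finset Ω) (h : u ∉ S) : (insert u S ∩ U).card = (S ∩ U).card + 1 := by
  rw [cU_split U {u} (insert u S) (by simp) (by simpa using hu)]
  have : insert u S \ {u} = S := by
    rw [Finset.sdiff_singleton_eq_erase, Finset.erase_insert h]
  rw [this]
  simp [add_comm]

theorem eS_insert' (U : Finset Ω) (wt : Ω → ℕ) (v : Ω) (hv : v ∉ U)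
    (S : Finset Ω) (h : v ∉ S) :
    eS U wt (insert v S) = eS U wt S + wt v * (S ∩ U).card := by
  unfold eS
  have e1 : insert v S ∩ U = S ∩ U := Finset.insert_inter_of_notMem hv
  have e2 : insert v S \ U = insert v (S \ U) := Finset.insert_sdiff_of_notMem _ hv
  rw [e1, e2, wS_insert wt v _ (fun hh => h (mem_sdiff.1 hh).1)]
  ring

end count

section core
variable {Ω : Type} [DecidableEq Ω]

/-- the variable as an element of the ring -/
noncomputable def x : SF Ω := cst X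

theorem x_pow_mul (k : ℕ) (f : SF Ω) (S : Finset Ω) : (x ^ k * f : SF Ω) S = X ^ k * f S := by
  unfold x
  rw [← map_pow, cst_mul_apply]

theorem xm1 : (x - 1 : SF Ω) = cst (X - 1) := by
  unfold x; rw [map_sub, map_one]

theorem xm1_pow_mul (k : ℕ) (f : SF Ω) (S : Finset Ω) :
    ((x - 1) ^ k * f : SF Ω) S = (X - 1) ^ k * f S := by
  rw [xm1, ← map_pow, cst_mul_apply]

/-- geometric sum -/
noncomputable def br (n : ℕ) : ℝ[X] := ∑ j ∈ range n, X ^ j

theorem br_mul (n : ℕ) : (X - 1) * br n = X ^ n - 1 := by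
  unfold br
  rw [mul_comm]
  exact geom_sum_mul X n

theorem br_nonneg (n : ℕ) : 0 ≤ br n := Finset.sum_nonneg fun j _ => pow_nonneg X_nonneg j

theorem br_add (m n : ℕ) : br (m + n) = br m + X ^ m * br n := by
  unfold br
  rw [Finset.sum_range_add, Finset.mul_sum]
  congr 1
  exact Finset.sum_congr rfl fun j _ => by rw [pow_add]

theorem br_mono {m n : ℕ} (h : m ≤ n) : br m ≤ br n := by
  obtain ⟨k, rfl⟩ := Nat.exists_eq_add_of_le h
  rw [br_add]
  exact le_add_of_nonneg_right (mul_nonneg (pow_nonneg X_nonneg _) (br_nonneg _))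

theorem one_le_br {n : ℕ} (h : 1 ≤ n) : 1 ≤ br n := by
  have := br_mono h
  have h1 : br 1 = 1 := by unfold br; simp
  rwa [h1] at this

variable (wt : Ω → ℕ)

/-- the operator `E^i` -/
noncomputable def Ep (i : ℕ) (f : SF Ω) : SF Ω := tw (fun S => X ^ (i * wS wt S)) f

theorem Ep_apply (i : ℕ) (f : SF Ω) (S : Finset Ω) : Ep wt i f S = X ^ (i * wS wt S) * f S := rfl

theorem Ep_mul (i : ℕ) (f g : SF Ω) : Ep wt i (f * g) = Ep wt i f * Ep wt i g := by
  apply tw_mul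
  intro A S h
  rw [wS_split wt A S h, ← pow_add]
  congr 1
  ring

theorem Ep_add (i : ℕ) (f g : SF Ω) : Ep wt i (f + g) = Ep wt i f + Ep wt i g := tw_add _ _ _

theorem Ep_sub (i : ℕ) (f g : SF Ω) : Ep wt i (f - g) = Ep wt i f - Ep wt i g := tw_sub _ _ _

theorem Ep_cst (i : ℕ) (c : ℝ[X]) : Ep wt i (cst c) = cst c := tw_cst _ (by simp [wS]) c

theorem Ep_x_pow (i k : ℕ) : Ep wt i (x ^ k) = x ^ k := by
  unfold x; rw [← map_pow, Ep_cst]

theorem Ep_one (i : ℕ) : Ep wt i 1 = 1 := tw_one _ (by simp [wS])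

theorem Ep_Ep (i j : ℕ) (f : SF Ω) : Ep wt i (Ep wt j f) = Ep wt (i + j) f := by
  apply ext'
  intro S
  rw [Ep_apply, Ep_apply, Ep_apply, ← mul_assoc, ← pow_add]
  congr 2
  ring

theorem Ep_zero (f : SF Ω) : Ep wt 0 f = f := by
  apply ext'; intro S; rw [Ep_apply]; simp

theorem Ep_nonneg (i : ℕ) {f : SF Ω} (hf : 0 ≤ f) : 0 ≤ Ep wt i f :=
  tw_nonneg _ (fun _ => pow_nonneg X_nonneg _) hf

/-- scaling -/
noncomputable def Th (f : SF Ω) : SF Ω := tw (fun S => (X - 1) ^ S.card) f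

theorem Th_apply (f : SF Ω) (S : Finset Ω) : Th f S = (X - 1) ^ S.card * f S := rfl

theorem Th_mul (f g : SF Ω) : Th (f * g) = Th f * Th g := by
  apply tw_mul
  intro A S h
  rw [← pow_add]
  congr 1
  rw [← Finset.card_sdiff_add_card_eq_card h, add_comm]

theorem Th_add (f g : SF Ω) : Th (f + g) = Th f + Th g := tw_add _ _ _
theorem Th_sub (f g : SF Ω) : Th (f - g) = Th f - Th g := tw_sub _ _ _
theorem Th_cst (c : ℝ[X]) : Th (cst c : SF Ω) = cst c := tw_cst _ (by simp) c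
theorem Th_one : Th (1 : SF Ω) = 1 := tw_one _ (by simp)
theorem Th_x_pow (k : ℕ) : Th (x ^ k : SF Ω) = x ^ k := by
  unfold x; rw [← map_pow, Th_cst]

theorem Th_inj {f g : SF Ω} (h : Th f = Th g) : f = g := by
  apply ext'
  intro S
  have h1 : Th f S = Th g S := by rw [h]
  rw [Th_apply, Th_apply] at h1
  have h2 : (X - 1 : ℝ[X]) ^ S.card ≠ 0 := pow_ne_zero _ (X_sub_C_ne_zero 1)
  exact mul_left_cancel₀ h2 h1

theorem xm1_inj {f g : SF Ω} (h : (x - 1) * f = (x - 1) * g) : f = g := by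
  apply ext'
  intro S
  have h1 : ((x - 1) * f : SF Ω) S = ((x - 1) * g : SF Ω) S := by rw [h]
  rw [xm1, cst_mul_apply, cst_mul_apply] at h1
  exact mul_left_cancel₀ (X_sub_C_ne_zero (1 : ℝ)) h1

theorem Th_Ep (i : ℕ) (f : SF Ω) : Th (Ep wt i f) = Ep wt i (Th f) := by
  apply ext'; intro S; rw [Th_apply, Ep_apply, Ep_apply, Th_apply]; ring

/-- the operator `L` -/
noncomputable def Lk (i c : ℕ) (f : SF Ω) : SF Ω := tw (fun S => br (i * (wS wt S + c))) f

theorem Lk_apply (i c : ℕ) (f : SF Ω) (S : Finset Ω) :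
    Lk wt i c f S = br (i * (wS wt S + c)) * f S := rfl

theorem Lk_add (i c : ℕ) (f g : SF Ω) : Lk wt i c (f + g) = Lk wt i c f + Lk wt i c g :=
  tw_add _ _ _

theorem Lk_sum (i c : ℕ) {ι : Type*} (s : Finset ι) (f : ι → SF Ω) :
    Lk wt i c (∑ j ∈ s, f j) = ∑ j ∈ s, Lk wt i c (f j) := tw_sum _ _ _

theorem Lk_nonneg (i c : ℕ) {f : SF Ω} (hf : 0 ≤ f) : 0 ≤ Lk wt i c f :=
  tw_nonneg _ (fun _ => br_nonneg _) hf

theorem Lk_cst_mul (i c : ℕ) (a : ℝ[X]) (f : SF Ω) : Lk wt i c (cst a * f) = cst a * Lk wt i c f := by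
  apply ext'; intro S; rw [Lk_apply, cst_mul_apply, cst_mul_apply, Lk_apply]; ring

theorem Lk_rel (i c : ℕ) (f : SF Ω) :
    (x - 1) * Lk wt i c f = x ^ (i * c) * Ep wt i f - f := by
  apply ext'
  intro S
  rw [xm1, cst_mul_apply, Lk_apply, sub_apply, x_pow_mul, Ep_apply, ← mul_assoc, br_mul,
    ← mul_assoc, ← pow_add, sub_mul, one_mul, ← mul_add, add_comm c]

theorem Th_Lk (i c : ℕ) (f : SF Ω) : Th (Lk wt i c f) = Lk wt i c (Th f) := by
  apply ext'; intro S; rw [Th_apply, Lk_apply, Lk_apply, Th_apply]; ring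

theorem Lk_mono_i {i j c : ℕ} (h : i ≤ j) {f : SF Ω} (hf : 0 ≤ f) : Lk wt i c f ≤ Lk wt j c f := by
  intro S
  rw [Lk_apply, Lk_apply]
  exact mul_le_mul_of_nonneg_right (br_mono (Nat.mul_le_mul_right _ h)) (hf S)

theorem Lk_mono_c {i c c' : ℕ} (h : c ≤ c') {f : SF Ω} (hf : 0 ≤ f) :
    Lk wt i c f ≤ Lk wt i c' f := by
  intro S
  rw [Lk_apply, Lk_apply]
  exact mul_le_mul_of_nonneg_right (br_mono (Nat.mul_le_mul_left _ (by omega))) (hf S)

theorem Lk_mul (c d : ℕ) (f g : SF Ω) :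
    Lk wt 1 (c + d) (f * g) = Lk wt 1 c f * g + x ^ c * Ep wt 1 f * Lk wt 1 d g := by
  apply xm1_inj
  have h1 := Lk_rel wt 1 (c + d) (f * g)
  have h2 := Lk_rel wt 1 c f
  have h3 := Lk_rel wt 1 d g
  rw [Ep_mul] at h1
  rw [h1]
  calc x ^ (1 * (c + d)) * (Ep wt 1 f * Ep wt 1 g) - f * g
      = (x ^ (1 * c) * Ep wt 1 f - f) * g +
        x ^ c * Ep wt 1 f * (x ^ (1 * d) * Ep wt 1 g - g) := by
        rw [one_mul, one_mul, one_mul, pow_add]; ring
    _ = _ := by rw [← h2, ← h3]; ring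

theorem Lk_split (i k c : ℕ) (f : SF Ω) :
    Lk wt (i + k) c f = Lk wt i c f + x ^ (i * c) * Ep wt i (Lk wt k c f) := by
  apply ext'
  intro S
  rw [add_apply, x_pow_mul, Ep_apply, Lk_apply, Lk_apply, Lk_apply, add_mul, br_add]
  rw [mul_add i, pow_add]
  ring

end core

end SF

end Pool.Agent.Y373.HV
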