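import Mathlib
import Pool.Agent.Y373.HV.Alg1

set_option autoImplicit false

namespace Pool.Agent.Y373.HV

open Polynomial Finset

namespace SF

section D
variable {Ω : Type} [DecidableEq Ω]

theorem D_cst_mul (u : Ω) (c : ℝ[X]) (f : SF Ω) : D u (cst c * f) = cst c * D u f := by
  apply ext'
  intro S
  by_cases h : u ∈ S
  · rw [D_mem u _ S h, cst_mul_apply, D_mem u _ S h, mul_zero]
  · rw [D_apply u _ S h, cst_mul_apply, cst_mul_apply, D_apply u _ S h]

theorem D_x_pow_mul (u : Ω) (k : ℕ) (f : SF Ω) : D u (x ^ k * f) = x ^ k * D u f := by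
  unfold x; rw [← map_pow, D_cst_mul]

theorem res_x_pow_mul (u : Ω) (k : ℕ) (f : SF Ω) : res u (x ^ k * f) = x ^ k * res u f := by
  rw [res_mul]
  unfold x; rw [← map_pow, res_cst]

theorem D_one (u : Ω) : D u (1 : SF Ω) = 0 := by
  apply ext'
  intro S
  by_cases h : u ∈ S
  · rw [D_mem u _ S h]; rfl
  · rw [D_apply u _ S h, one_apply, if_neg (Finset.insert_ne_empty u S)]; rfl

theorem res_one (u : Ω) : res u (1 : SF Ω) = 1 := by
  have := res_cst u (1 : ℝ[X])
  rwa [map_one] at this

theorem D_Th (u : Ω) (f : SF Ω) : D u (Th f) = (x - 1) * Th (D u f) := by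
  apply ext'
  intro S
  rw [xm1, cst_mul_apply, Th_apply]
  by_cases h : u ∈ S
  · rw [D_mem u _ S h, D_mem u _ S h]; ring
  · rw [D_apply u _ S h, D_apply u _ S h, Th_apply, Finset.card_insert_of_notMem h]; ring

theorem res_Th (u : Ω) (f : SF Ω) : res u (Th f) = Th (res u f) := by
  apply ext'
  intro S
  rw [Th_apply]
  by_cases h : u ∈ S
  · rw [res_mem u _ S h, res_mem u _ S h]; ring
  · rw [res_apply u _ S h, res_apply u _ S h, Th_apply]

end D

section W
variable {Ω : Type} [Fintype Ω] [DecidableEq Ω] (U : Finset Ω) (wt : Ω → ℕ)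

/-- moments -/
noncomputable def Wc (c : ℕ) : SF Ω := fun S => X ^ (eS U wt S + c * (S ∩ U).card)

omit [Fintype Ω] in
theorem Wc_apply (c : ℕ) (S : Finset Ω) : Wc U wt c S = X ^ (eS U wt S + c * (S ∩ U).card) := rfl

omit [Fintype Ω] in
theorem Wc_empty (c : ℕ) : Wc U wt c ∅ = 1 := by
  rw [Wc_apply]
  simp [eS]

/-- inverse of the moment function -/
noncomputable def Wi : SF Ω := (exists_inv (Wc U wt 0) (Wc_empty U wt 0)).choose

theorem W_Wi : Wc U wt 0 * Wi U wt = 1 :=
  (exists_inv (Wc U wt 0) (Wc_empty U wt 0)).choose_spec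

/-- `x^(ic) E^i(W_c) W⁻¹` -/
noncomputable def om (i c : ℕ) : SF Ω := x ^ (i * c) * Ep wt i (Wc U wt c) * Wi U wt

theorem om_zero_zero : om U wt 0 0 = 1 := by
  unfold om
  rw [Ep_zero, Nat.mul_zero, pow_zero, one_mul, W_Wi]

theorem Ep_W_Wi (i : ℕ) : Ep wt i (Wc U wt 0) * Ep wt i (Wi U wt) = 1 := by
  rw [← Ep_mul, W_Wi, Ep_one]

/-- general product rule -/
theorem om_mul (i j c : ℕ) : om U wt (i + j) c =
    om U wt i 0 * (x ^ (i * c) * Ep wt i (om U wt j c)) := by
  have h := Ep_W_Wi U wt i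
  unfold om
  rw [Ep_mul, Ep_mul, Ep_x_pow, Ep_Ep, add_mul, pow_add, Nat.mul_zero, pow_zero]
  calc x ^ (i * c) * x ^ (j * c) * Ep wt (i + j) (Wc U wt c) * Wi U wt
      = x ^ (i * c) * x ^ (j * c) * Ep wt (i + j) (Wc U wt c) * Wi U wt *
        (Ep wt i (Wc U wt 0) * Ep wt i (Wi U wt)) := by rw [h, mul_one]
    _ = _ := by ring

theorem om_W (i c : ℕ) : om U wt i c * Wc U wt 0 = x ^ (i * c) * Ep wt i (Wc U wt c) := by
  unfold om
  rw [mul_assoc, mul_comm (Wi U wt), W_Wi, mul_one]

theorem om_succ (i c : ℕ) : om U wt (i + 1) c = x ^ c * om U wt 1 0 * Ep wt 1 (om U wt i c) := by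
  rw [add_comm, om_mul, one_mul]; ring

variable (hU : ∀ u ∈ U, wt u = 1)

include hU in
omit [Fintype Ω] in
theorem D_Wc (u : Ω) (hu : u ∈ U) (c : ℕ) :
    D u (Wc U wt c) = res u (x ^ c * Ep wt 1 (Wc U wt c)) := by
  apply ext'
  intro S
  by_cases h : u ∈ S
  · rw [D_mem u _ S h, res_mem u _ S h]
  · rw [D_apply u _ S h, res_apply u _ S h, x_pow_mul, Ep_apply, Wc_apply, Wc_apply,
      eS_insert U wt hU u hu S h, cU_insert U u hu S h, ← pow_add, ← pow_add]
    congr 1
    ring

include hU in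
omit [Fintype Ω] in
theorem D_Ep (u : Ω) (hu : u ∈ U) (i : ℕ) (f : SF Ω) :
    D u (Ep wt i f) = x ^ i * Ep wt i (D u f) := by
  apply ext'
  intro S
  rw [x_pow_mul, Ep_apply]
  by_cases h : u ∈ S
  · rw [D_mem u _ S h, D_mem u _ S h]; ring
  · rw [D_apply u _ S h, D_apply u _ S h, Ep_apply, wS_insert wt u S h, hU u hu, mul_add,
      pow_add, mul_one]
    ring

omit [Fintype Ω] in
theorem Ep_res (u : Ω) (i : ℕ) (f : SF Ω) : Ep wt i (res u f) = res u (Ep wt i f) := by
  apply ext'
  intro S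
  rw [Ep_apply]
  by_cases h : u ∈ S
  · rw [res_mem u _ S h, res_mem u _ S h, mul_zero]
  · rw [res_apply u _ S h, res_apply u _ S h, Ep_apply]

/-- derivative of the inverse, for a general label `v` with `D W = res (W')` -/
theorem D_Wi (v : Ω) (W' : SF Ω) (h : D v (Wc U wt 0) = res v W') :
    D v (Wi U wt) = - res v (Wi U wt * Wi U wt * W') := by
  have h1 : D v (Wc U wt 0 * Wi U wt) = 0 := by rw [W_Wi, D_one]
  rw [D_mul] at h1
  have h2 : res v (Wc U wt 0) * res v (Wi U wt) = 1 := by rw [← res_mul, W_Wi, res_one]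
  have h3 : D v (Wi U wt) = res v (Wi U wt) * (res v (Wc U wt 0) * D v (Wi U wt)) := by
    calc D v (Wi U wt) = (res v (Wc U wt 0) * res v (Wi U wt)) * D v (Wi U wt) := by
          rw [h2, one_mul]
      _ = _ := by ring
  have h4 : res v (Wc U wt 0) * D v (Wi U wt) = - (D v (Wc U wt 0) * res v (Wi U wt)) := by
    rw [eq_neg_iff_add_eq_zero, add_comm]; exact h1
  rw [h3, h4, h, res_mul, res_mul]
  ring

theorem D_mul_Wi (v : Ω) (W' A A' : SF Ω) (h : D v (Wc U wt 0) = res v W')
    (hA : D v A = res v A') :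
    D v (A * Wi U wt) = res v (A' * Wi U wt - A * Wi U wt * (W' * Wi U wt)) := by
  have h1 := D_Wi U wt v W' h
  have h2 : A * Wi U wt * (W' * Wi U wt) = A * (Wi U wt * Wi U wt * W') := by ring
  rw [D_mul, hA, h1, mul_neg, ← res_mul, ← res_mul, ← sub_eq_add_neg, ← res_sub, h2]

theorem om_one_zero : om U wt 1 0 = Ep wt 1 (Wc U wt 0) * Wi U wt := by
  unfold om; rw [Nat.mul_zero, pow_zero, one_mul]

theorem om_zero_c (c : ℕ) : om U wt 0 c = Wc U wt c * Wi U wt := by
  unfold om; rw [Nat.zero_mul, pow_zero, one_mul, Ep_zero]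

include hU in
theorem D_om (u : Ω) (hu : u ∈ U) (i c : ℕ) :
    D u (om U wt i c) = res u (x ^ i * om U wt (i + 1) c - om U wt i c * om U wt 1 0) := by
  have h0 : D u (Wc U wt 0) = res u (Ep wt 1 (Wc U wt 0)) := by
    have := D_Wc U wt hU u hu 0
    rwa [pow_zero, one_mul] at this
  have hc : (i + 1) * c = i * c + c := by ring
  have hE : D u (Ep wt i (Wc U wt c)) = res u (x ^ i * (x ^ c * Ep wt (i + 1) (Wc U wt c))) := by
    rw [D_Ep U wt hU u hu, D_Wc U wt hU u hu, Ep_res, Ep_mul, Ep_x_pow, Ep_Ep, res_x_pow_mul u c,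
      res_x_pow_mul u i, res_x_pow_mul u c]
  have hA : D u (x ^ (i * c) * Ep wt i (Wc U wt c)) =
      res u (x ^ i * (x ^ ((i + 1) * c) * Ep wt (i + 1) (Wc U wt c))) := by
    have e3 : x ^ i * (x ^ ((i + 1) * c) * Ep wt (i + 1) (Wc U wt c)) =
        x ^ (i * c) * (x ^ i * (x ^ c * Ep wt (i + 1) (Wc U wt c))) := by
      rw [hc, pow_add]
      generalize Ep wt (i + 1) (Wc U wt c) = E1
      ring
    rw [e3, D_x_pow_mul, hE, ← res_x_pow_mul]
  have h := D_mul_Wi U wt u _ _ _ h0 hA
  rw [← om_one_zero] at h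
  have e1 : om U wt i c = x ^ (i * c) * Ep wt i (Wc U wt c) * Wi U wt := rfl
  have e2 : x ^ i * om U wt (i + 1) c =
    x ^ i * (x ^ ((i + 1) * c) * Ep wt (i + 1) (Wc U wt c)) * Wi U wt :=
    (mul_assoc (x ^ i) (x ^ ((i + 1) * c) * Ep wt (i + 1) (Wc U wt c)) (Wi U wt)).symm
  rw [e2, e1]
  exact h

/-- labels outside `U` -/
theorem D_om' (v : Ω) (hv : v ∉ U) (i : ℕ) :
    D v (om U wt i 0) = res v (om U wt i (wt v) - om U wt i 0 * om U wt 0 (wt v)) := by
  have hW : D v (Wc U wt 0) = res v (Wc U wt (wt v)) := by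
    apply ext'
    intro S
    by_cases h : v ∈ S
    · rw [D_mem v _ S h, res_mem v _ S h]
    · rw [D_apply v _ S h, res_apply v _ S h, Wc_apply, Wc_apply, eS_insert' U wt v hv S h]
      congr 1
      ring
  have h4 : D v (Ep wt i (Wc U wt 0)) = res v (x ^ (i * wt v) * Ep wt i (Wc U wt (wt v))) := by
    apply ext'
    intro S
    by_cases h : v ∈ S
    · rw [D_mem v _ S h, res_mem v _ S h]
    · have h5 : D v (Wc U wt 0) S = res v (Wc U wt (wt v)) S := by rw [hW]
      rw [D_apply v _ S h, res_apply v _ S h] at h5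
      rw [D_apply v _ S h, res_apply v _ S h, x_pow_mul, Ep_apply, Ep_apply, h5,
        wS_insert wt v S h, mul_add, pow_add]
      ring
  have h := D_mul_Wi U wt v _ _ _ hW h4
  rw [← om_zero_c] at h
  have e1 : om U wt i 0 = Ep wt i (Wc U wt 0) * Wi U wt := by
    unfold om; rw [Nat.mul_zero, pow_zero, one_mul]
  rw [e1]
  exact h

/-! ### divisibility and positivity -/

/-- `f S` is `(X-1)^(|S|+k)` times a nonnegative polynomial -/
def PP (k : ℕ) (f : SF Ω) (S : Finset Ω) : Prop :=
  ∃ g : ℝ[X], 0 ≤ g ∧ f S = (X - 1) ^ (S.card + k) * g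

omit [Fintype Ω] in
theorem PP_mul {j k : ℕ} {f g : SF Ω} {S : Finset Ω} (hf : ∀ A ⊆ S, PP j f A)
    (hg : ∀ A ⊆ S, PP k g A) : PP (j + k) (f * g) S := by
  classical
  choose! F hF1 hF2 using hf
  choose! G hG1 hG2 using hg
  refine ⟨∑ A ∈ S.powerset, F A * G (S \ A), ?_, ?_⟩
  · apply Finset.sum_nonneg
    intro A hA
    exact mul_nonneg (hF1 A (mem_powerset.1 hA)) (hG1 _ sdiff_subset)
  · rw [mul_apply, Finset.mul_sum]
    apply Finset.sum_congr rfl
    intro A hA
    rw [hF2 A (mem_powerset.1 hA), hG2 _ sdiff_subset]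
    have : S.card = A.card + (S \ A).card := by
      rw [← Finset.card_sdiff_add_card_eq_card (mem_powerset.1 hA), add_comm]
    rw [this]
    ring

omit [Fintype Ω] in
theorem PP_add {k : ℕ} {f g : SF Ω} {S : Finset Ω} (hf : PP k f S) (hg : PP k g S) :
    PP k (f + g) S := by
  obtain ⟨F, h1, h2⟩ := hf
  obtain ⟨G, h3, h4⟩ := hg
  exact ⟨F + G, add_nonneg h1 h3, by rw [add_apply, h2, h4]; ring⟩

omit [Fintype Ω] in
/-- `x^(ic) E^i f - f` gains one factor -/
theorem PP_L {k : ℕ} (i c : ℕ) {f : SF Ω} {S : Finset Ω} (hf : PP k f S) :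
    PP (k + 1) (x ^ (i * c) * Ep wt i f - f) S := by
  obtain ⟨F, h1, h2⟩ := hf
  refine ⟨br (i * (wS wt S + c)) * F, mul_nonneg (br_nonneg _) h1, ?_⟩
  rw [← Lk_rel, xm1, cst_mul_apply, Lk_apply, h2]
  ring

omit [Fintype Ω] in
theorem PP_one (S : Finset Ω) : PP 0 (1 : SF Ω) S := by
  by_cases h : S = ∅
  · subst h; exact ⟨1, zero_le_one, by rw [one_apply]; simp⟩
  · exact ⟨0, le_rfl, by rw [one_apply, if_neg h, mul_zero]⟩

omit [Fintype Ω] in
theorem cancel_right {f f' g : SF Ω} (hg : g ∅ = 1) (S : Finset Ω)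
    (h : ∀ A ⊆ S, (f * g) A = (f' * g) A) : f S = f' S := by
  induction S using Finset.strongInduction with
  | H S ih =>
    have h1 := h S (Subset.refl S)
    rw [mul_apply, mul_apply, ← Finset.add_sum_erase _ _ (mem_powerset.2 (Subset.refl S)),
      ← Finset.add_sum_erase _ _ (mem_powerset.2 (Subset.refl S)), Finset.sdiff_self, hg,
      mul_one, mul_one] at h1
    have h2 : ∑ A ∈ S.powerset.erase S, f A * g (S \ A) =
        ∑ A ∈ S.powerset.erase S, f' A * g (S \ A) := by
      apply Finset.sum_congr rfl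
      intro A hA
      rw [mem_erase, mem_powerset] at hA
      rw [ih A (Finset.ssubset_iff_subset_ne.2 ⟨hA.2, hA.1⟩)
        (fun B hB => h B (hB.trans hA.2))]
    rw [h2] at h1
    exact add_right_cancel h1

/-- no unit in `S` -/
theorem om_zero_noU (c : ℕ) (S : Finset Ω) (hS : S ∩ U = ∅) :
    om U wt 0 c S = (1 : SF Ω) S := by
  apply cancel_right (Wc_empty U wt 0) S
  intro A hA
  have hAU : A ∩ U = ∅ := by
    rw [← Finset.subset_empty, ← hS]
    exact inter_subset_inter_right hA
  rw [om_W, one_mul, Nat.zero_mul, pow_zero, one_mul, Ep_zero, Wc_apply, Wc_apply, hAU]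
  simp

include hU in
theorem PP_om (n : ℕ) : ∀ S : Finset Ω, S.card ≤ n →
    (∀ i, PP 0 (om U wt i 0) S) ∧ (∀ c, PP 0 (om U wt 0 c) S) := by
  induction n with
  | zero =>
    intro S hS
    have hS' : S = ∅ := Finset.card_eq_zero.1 (by omega)
    subst hS'
    have hWi : Wi U wt ∅ = 1 := by
      have h1 : (Wc U wt 0 * Wi U wt) ∅ = (1 : SF Ω) ∅ := by rw [W_Wi]
      rw [mul_apply, one_apply, if_pos rfl, Finset.powerset_empty, Finset.sum_singleton,
        Wc_empty, one_mul, Finset.sdiff_self] at h1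
      exact h1
    have key : ∀ i c, om U wt i c ∅ = X ^ (i * c) := by
      intro i c
      unfold om
      rw [mul_assoc, x_pow_mul, mul_apply, Finset.powerset_empty, Finset.sum_singleton,
        Finset.sdiff_self, hWi, Ep_apply, Wc_empty]
      simp [wS]
    constructor
    · intro i
      exact ⟨1, zero_le_one, by rw [key]; simp⟩
    · intro c
      exact ⟨1, zero_le_one, by rw [key]; simp⟩
  | succ n ih =>
    intro S hS
    by_cases hSU : (S ∩ U).Nonempty
    · obtain ⟨u, hu⟩ := hSU
      rw [mem_inter] at hu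
      set S' := S.erase u with hS'
      have huS' : u ∉ S' := by simp [hS']
      have hins : insert u S' = S := Finset.insert_erase hu.1
      have hcard : S'.card + 1 = S.card := by rw [hS']; exact Finset.card_erase_add_one hu.1
      have hsub : ∀ A ⊆ S', A.card ≤ n := fun A hA => by
        have := Finset.card_le_card hA
        omega
      have conv : ∀ f : SF Ω, PP 1 (D u f) S' → PP 0 f S := by
        rintro f ⟨g, h1, h2⟩
        refine ⟨g, h1, ?_⟩
        rw [D_apply u _ S' huS', hins] at h2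
        rw [h2, ← hcard, add_zero]
      have step : ∀ i c, (∀ A ⊆ S', PP 0 (om U wt i c) A) → PP 0 (om U wt i c) S := by
        intro i c h
        apply conv
        have e1 : D u (om U wt i c) S' =
            (om U wt 1 0 * (x ^ (1 * (i + c)) * Ep wt 1 (om U wt i c) - om U wt i c) : SF Ω) S' := by
          rw [D_om U wt hU u hu.2, res_apply u _ S' huS', om_succ]
          have e2 : x ^ i * (x ^ c * om U wt 1 0 * Ep wt 1 (om U wt i c)) -
              om U wt i c * om U wt 1 0 =
              om U wt 1 0 * (x ^ (1 * (i + c)) * Ep wt 1 (om U wt i c) - om U wt i c) := by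
            rw [one_mul, pow_add]
            ring
          rw [e2]
        have h1 : PP (0 + (0 + 1)) (om U wt 1 0 *
            (x ^ (1 * (i + c)) * Ep wt 1 (om U wt i c) - om U wt i c)) S' :=
          PP_mul (fun A hA => (ih A (hsub A hA)).1 1) (fun A hA => PP_L wt 1 (i + c) (h A hA))
        obtain ⟨g, h2, h3⟩ := h1
        exact ⟨g, h2, by rw [e1, h3]⟩
      exact ⟨fun i => step i 0 (fun A hA => (ih A (hsub A hA)).1 i),
        fun c => step 0 c (fun A hA => (ih A (hsub A hA)).2 c)⟩
    · rw [Finset.not_nonempty_iff_eq_empty] at hSU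
      have ht : ∀ A ⊆ S, ∀ c, PP 0 (om U wt 0 c) A := by
        intro A hA c
        have hAU : A ∩ U = ∅ := by
          rw [← Finset.subset_empty, ← hSU]
          exact inter_subset_inter_right hA
        obtain ⟨g, h1, h2⟩ := PP_one A
        exact ⟨g, h1, by rw [om_zero_noU U wt c A hAU, h2]⟩
      refine ⟨?_, ht S (Subset.refl S)⟩
      intro i
      by_cases hS0 : S = ∅
      · subst hS0; exact (ih ∅ (by simp)).1 i
      · obtain ⟨v, hv⟩ := Finset.nonempty_iff_ne_empty.2 hS0
        have hvU : v ∉ U := by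
          intro h
          have : v ∈ S ∩ U := mem_inter.2 ⟨hv, h⟩
          rw [hSU] at this
          exact absurd this (Finset.notMem_empty v)
        set S' := S.erase v with hS'
        have huS' : v ∉ S' := by simp [hS']
        have hins : insert v S' = S := Finset.insert_erase hv
        have hcard : S'.card + 1 = S.card := by rw [hS']; exact Finset.card_erase_add_one hv
        have hsub : ∀ A ⊆ S', A.card ≤ n := fun A hA => by
          have := Finset.card_le_card hA
          omega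
        have e1 : om U wt i 0 S = (om U wt i 0 *
            (x ^ (i * wt v) * Ep wt i (om U wt 0 (wt v)) - om U wt 0 (wt v)) : SF Ω) S' := by
          have h1 := D_om' U wt v hvU i
          have h2 : D v (om U wt i 0) S' = om U wt i 0 S := by
            rw [D_apply v _ S' huS', hins]
          rw [← h2, h1, res_apply v _ S' huS']
          have h3 := om_mul U wt i 0 (wt v)
          rw [add_zero] at h3
          have e2 : om U wt i 0 * (x ^ (i * wt v) * Ep wt i (om U wt 0 (wt v))) -
              om U wt i 0 * om U wt 0 (wt v) = om U wt i 0 *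
              (x ^ (i * wt v) * Ep wt i (om U wt 0 (wt v)) - om U wt 0 (wt v)) := by ring
          rw [h3, e2]
        have h1 : PP (0 + (0 + 1)) (om U wt i 0 *
            (x ^ (i * wt v) * Ep wt i (om U wt 0 (wt v)) - om U wt 0 (wt v))) S' :=
          PP_mul (fun A hA => (ih A (hsub A hA)).1 i)
            (fun A hA => PP_L wt i (wt v) (ht A (hA.trans (Finset.erase_subset _ _)) _))
        obtain ⟨g, h2, h3⟩ := h1
        exact ⟨g, h2, by rw [e1, h3, ← hcard, add_zero]⟩

/-- the two-mark function -/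
noncomputable def mm (a b : ℕ) : SF Ω := om U wt 0 (a + b) - om U wt 0 a * om U wt 0 b

include hU in
theorem PP_mm (a b : ℕ) (n : ℕ) : ∀ S : Finset Ω, S.card ≤ n → PP 1 (mm U wt a b) S := by
  induction n with
  | zero =>
    intro S hS
    have hS' : S = ∅ := Finset.card_eq_zero.1 (by omega)
    subst hS'
    refine ⟨0, le_rfl, ?_⟩
    unfold mm
    rw [sub_apply, mul_apply, Finset.powerset_empty, Finset.sum_singleton, Finset.sdiff_self,
      om_zero_noU U wt _ ∅ (by simp), om_zero_noU U wt _ ∅ (by simp),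
      om_zero_noU U wt _ ∅ (by simp), one_apply, if_pos rfl]
    ring
  | succ n ih =>
    intro S hS
    by_cases hSU : (S ∩ U).Nonempty
    · obtain ⟨u, hu⟩ := hSU
      rw [mem_inter] at hu
      set S' := S.erase u with hS'
      have huS' : u ∉ S' := by simp [hS']
      have hins : insert u S' = S := Finset.insert_erase hu.1
      have hcard : S'.card + 1 = S.card := by rw [hS']; exact Finset.card_erase_add_one hu.1
      have hsub : ∀ A ⊆ S', A.card ≤ n := fun A hA => by
        have := Finset.card_le_card hA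
        omega
      have hP : ∀ A : Finset Ω, (∀ i, PP 0 (om U wt i 0) A) ∧ (∀ c, PP 0 (om U wt 0 c) A) :=
        fun A => PP_om U wt hU A.card A le_rfl
      have e1 : D u (mm U wt a b) S' = (om U wt 1 0 *
          ((x ^ (1 * (a + b)) * Ep wt 1 (mm U wt a b) - mm U wt a b) +
            (x ^ (1 * a) * Ep wt 1 (om U wt 0 a) - om U wt 0 a) *
            (x ^ (1 * b) * Ep wt 1 (om U wt 0 b) - om U wt 0 b)) : SF Ω) S' := by
        have h1 : D u (mm U wt a b) = res u (om U wt 1 0 *
          ((x ^ (1 * (a + b)) * Ep wt 1 (mm U wt a b) - mm U wt a b) +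
            (x ^ (1 * a) * Ep wt 1 (om U wt 0 a) - om U wt 0 a) *
            (x ^ (1 * b) * Ep wt 1 (om U wt 0 b) - om U wt 0 b))) := by
          unfold mm
          rw [D_sub, D_mul, D_om U wt hU u hu.2, D_om U wt hU u hu.2, D_om U wt hU u hu.2,
            ← res_mul, ← res_mul, ← res_add, ← res_sub, om_succ U wt 0 (a + b),
            om_succ U wt 0 a, om_succ U wt 0 b, Ep_sub, Ep_mul]
          congr 1
          rw [pow_zero, one_mul, one_mul, one_mul, pow_add]
          ring
        rw [h1, res_apply u _ S' huS']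
      have h1 : PP (0 + 2) (om U wt 1 0 *
          ((x ^ (1 * (a + b)) * Ep wt 1 (mm U wt a b) - mm U wt a b) +
            (x ^ (1 * a) * Ep wt 1 (om U wt 0 a) - om U wt 0 a) *
            (x ^ (1 * b) * Ep wt 1 (om U wt 0 b) - om U wt 0 b))) S' := by
        apply PP_mul (fun A _ => (hP A).1 1)
        intro A hA
        apply PP_add
        · exact PP_L wt 1 (a + b) (ih A (hsub A hA))
        · exact PP_mul (j := 1) (k := 1) (fun B _ => PP_L wt 1 a ((hP B).2 a))
            (fun B _ => PP_L wt 1 b ((hP B).2 b))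
      obtain ⟨g, h2, h3⟩ := h1
      refine ⟨g, h2, ?_⟩
      rw [D_apply u _ S' huS', hins] at e1
      rw [e1, h3, ← hcard]
    · rw [Finset.not_nonempty_iff_eq_empty] at hSU
      refine ⟨0, le_rfl, ?_⟩
      unfold mm
      have hA : ∀ A ⊆ S, ∀ c, om U wt 0 c A = (1 : SF Ω) A := by
        intro A hA c
        apply om_zero_noU
        rw [← Finset.subset_empty, ← hSU]
        exact inter_subset_inter_right hA
      have h1 : (om U wt 0 a * om U wt 0 b) S = ((1 : SF Ω) * 1) S := by
        rw [mul_apply, mul_apply]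
        apply Finset.sum_congr rfl
        intro A hA'
        rw [hA A (mem_powerset.1 hA'), hA _ sdiff_subset]
      rw [sub_apply, h1, hA S (Subset.refl S), mul_one, sub_self, mul_zero]

end W

end SF

end Pool.Agent.Y373.HV
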