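import Mathlib
import Pool.Agent.Y373.HV.Alg2

set_option autoImplicit false

namespace Pool.Agent.Y373.HV

open Polynomial Finset

namespace SF

section abs

/-- the antisymmetric bracket inequality -/
theorem bracket {R : Type*} [CommRing R] [PartialOrder R] [IsOrderedRing R] (P Q β : ℕ → R)
    (hβ0 : ∀ i, 0 ≤ β i) (hβ : ∀ i j, i ≤ j → β i ≤ β j)
    (h : ∀ i j, 1 ≤ i → i ≤ j → Q i * P j ≤ P i * Q j) (m N : ℕ) (hmN : m ≤ N) :
    (∑ i ∈ Icc 1 m, Q i) * (∑ j ∈ Icc 1 N, β j * P j) ≤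
      (∑ i ∈ Icc 1 m, P i) * (∑ j ∈ Icc 1 N, β j * Q j) := by
  have key : ∀ m, (∑ i ∈ Icc 1 m, Q i) * (∑ j ∈ Icc 1 m, β j * P j) ≤
      (∑ i ∈ Icc 1 m, P i) * (∑ j ∈ Icc 1 m, β j * Q j) := by
    intro m
    induction m with
    | zero => simp
    | succ m ih =>
      rw [Finset.sum_Icc_succ_top (by omega), Finset.sum_Icc_succ_top (by omega),
        Finset.sum_Icc_succ_top (by omega), Finset.sum_Icc_succ_top (by omega)]
      have h1 : 0 ≤ ∑ i ∈ Icc 1 m, (β (m + 1) - β i) * (P i * Q (m + 1) - Q i * P (m + 1)) := by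
        apply Finset.sum_nonneg
        intro i hi
        rw [mem_Icc] at hi
        exact mul_nonneg (sub_nonneg.2 (hβ i (m + 1) (by omega)))
          (sub_nonneg.2 (h i (m + 1) hi.1 (by omega)))
      have h2 : ∑ i ∈ Icc 1 m, (β (m + 1) - β i) * (P i * Q (m + 1) - Q i * P (m + 1)) =
          β (m + 1) * ((∑ i ∈ Icc 1 m, P i) * Q (m + 1) - (∑ i ∈ Icc 1 m, Q i) * P (m + 1)) -
          ((∑ i ∈ Icc 1 m, β i * P i) * Q (m + 1) -
            (∑ i ∈ Icc 1 m, β i * Q i) * P (m + 1)) := by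
        rw [Finset.sum_mul, Finset.sum_mul, Finset.sum_mul, Finset.sum_mul,
          ← Finset.sum_sub_distrib, ← Finset.sum_sub_distrib, Finset.mul_sum,
          ← Finset.sum_sub_distrib]
        exact Finset.sum_congr rfl fun i _ => by ring
      rw [h2] at h1
      have h3 := add_nonneg (sub_nonneg.2 ih) h1
      rw [← sub_nonneg]
      refine h3.trans (le_of_eq ?_)
      ring
  have hsplit : ∀ f : ℕ → R, ∑ j ∈ Icc 1 N, f j = ∑ j ∈ Icc 1 m, f j + ∑ j ∈ Ioc m N, f j := by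
    intro f
    rw [← Finset.sum_union]
    · congr 1
      ext j
      simp only [mem_Icc, mem_union, mem_Ioc]
      omega
    · rw [Finset.disjoint_left]
      intro j h1 h2
      simp only [mem_Icc, mem_Ioc] at h1 h2
      omega
  rw [hsplit, hsplit, mul_add, mul_add]
  apply add_le_add (key m)
  rw [Finset.sum_mul_sum, Finset.sum_mul_sum]
  apply Finset.sum_le_sum
  intro i hi
  apply Finset.sum_le_sum
  intro j hj
  rw [mem_Icc] at hi
  rw [mem_Ioc] at hj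
  have := mul_le_mul_of_nonneg_left (h i j hi.1 (by omega)) (hβ0 j)
  calc Q i * (β j * P j) = β j * (Q i * P j) := by ring
    _ ≤ β j * (P i * Q j) := this
    _ = _ := by ring

end abs

section Z
variable {Ω : Type} [DecidableEq Ω] (U : Finset Ω) (wt : Ω → ℕ)

/-- the marked sets of units -/
noncomputable def Zf (j : ℕ) : SF Ω := fun S => if S.card = j ∧ S ⊆ U then X ^ (j.choose 2) else 0

theorem Zf_apply (j : ℕ) (S : Finset Ω) :
    Zf U j S = if S.card = j ∧ S ⊆ U then X ^ (j.choose 2) else 0 := rfl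

theorem Zf_nonneg (j : ℕ) : 0 ≤ Zf U j := by
  intro S
  rw [Zf_apply]
  split_ifs
  · exact pow_nonneg X_nonneg _
  · exact le_rfl

theorem Zf_mul_apply (j : ℕ) (F : SF Ω) (S : Finset Ω) :
    (Zf U j * F) S = ∑ I ∈ (S ∩ U).powersetCard j, X ^ (j.choose 2) * F (S \ I) := by
  rw [mul_apply]
  have h1 : (S ∩ U).powersetCard j = S.powerset.filter (fun I => I.card = j ∧ I ⊆ U) := by
    ext I
    simp only [mem_powersetCard, mem_filter, mem_powerset, subset_inter_iff]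
    tauto
  rw [h1, Finset.sum_filter]
  apply Finset.sum_congr rfl
  intro I _
  rw [Zf_apply]
  split_ifs <;> simp

theorem Zf_zero : Zf U 0 = 1 := by
  apply ext'
  intro S
  rw [Zf_apply, one_apply]
  by_cases h : S = ∅
  · subst h; simp
  · rw [if_neg h, if_neg]
    rintro ⟨h1, _⟩
    exact h (Finset.card_eq_zero.1 h1)

theorem Th_Zf (j : ℕ) : Th (Zf U j) = (x - 1) ^ j * Zf U j := by
  apply ext'
  intro S
  rw [xm1_pow_mul, Th_apply, Zf_apply]
  split_ifs with h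
  · rw [h.1]
  · rw [mul_zero, mul_zero]

variable (hU : ∀ u ∈ U, wt u = 1)

include hU in
theorem Lk_Zf (c j : ℕ) (f : SF Ω) : Lk wt 1 c (Zf U j * f) = Zf U j * Lk wt 1 (c + j) f := by
  apply ext'
  intro S
  rw [Lk_apply, Zf_mul_apply, Zf_mul_apply, Finset.mul_sum]
  apply Finset.sum_congr rfl
  intro I hI
  rw [mem_powersetCard, subset_inter_iff] at hI
  rw [Lk_apply, wS_split wt I S hI.1.1, wS_U U wt hU I hI.1.2, hI.2]
  have : j + wS wt (S \ I) + c = wS wt (S \ I) + (c + j) := by ring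
  rw [this]
  ring

include hU in
theorem C0 (a c N : ℕ) (hN : U.card ≤ N) : Wc U wt (a + c) =
    ∑ j ∈ range (N + 1), cst (((X - 1) * br c) ^ j) *
      (Zf U j * (x ^ (j * a) * Ep wt j (Wc U wt a))) := by
  apply ext'
  intro S
  rw [sum_apply]
  have e1 : ∀ j ∈ range (N + 1), (cst (((X - 1) * br c) ^ j) *
      (Zf U j * (x ^ (j * a) * Ep wt j (Wc U wt a))) : SF Ω) S =
      ∑ I ∈ (S ∩ U).powersetCard j, (X ^ c - 1) ^ I.card *
        X ^ (eS U wt S + a * (S ∩ U).card) := by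
    intro j _
    rw [cst_mul_apply, Zf_mul_apply, Finset.mul_sum]
    apply Finset.sum_congr rfl
    intro I hI
    rw [mem_powersetCard, subset_inter_iff] at hI
    rw [x_pow_mul, Ep_apply, Wc_apply, br_mul, hI.2, eS_split U wt hU I S hI.1.1 hI.1.2,
      cU_split U I S hI.1.1 hI.1.2, hI.2]
    have : j.choose 2 + j * wS wt (S \ I) + eS U wt (S \ I) + a * (j + ((S \ I) ∩ U).card) =
        j.choose 2 + (j * a + (j * wS wt (S \ I) +
          (eS U wt (S \ I) + a * ((S \ I) ∩ U).card))) := by ring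
    rw [this]
    simp only [pow_add]
  rw [Finset.sum_congr rfl e1, Wc_apply]
  have e2 : ∑ j ∈ range (N + 1), ∑ I ∈ (S ∩ U).powersetCard j, (X ^ c - 1 : ℝ[X]) ^ I.card *
        X ^ (eS U wt S + a * (S ∩ U).card) =
      ∑ I ∈ (S ∩ U).powerset, (X ^ c - 1 : ℝ[X]) ^ I.card *
        X ^ (eS U wt S + a * (S ∩ U).card) := by
    rw [Finset.sum_powerset]
    symm
    apply Finset.sum_subset
    · intro j hj
      rw [mem_range] at hj ⊢
      have : (S ∩ U).card ≤ U.card := Finset.card_le_card inter_subset_right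
      omega
    · intro j _ hj
      rw [mem_range, not_lt] at hj
      rw [Finset.powersetCard_eq_empty.2 (by omega), Finset.sum_empty]
  rw [e2, ← Finset.sum_mul]
  have e3 := Finset.sum_pow_mul_eq_add_pow (X ^ c - 1 : ℝ[X]) 1 (S ∩ U)
  simp only [one_pow, mul_one, sub_add_cancel] at e3
  rw [e3, ← pow_mul, ← pow_add]
  congr 1
  ring

end Z

section data
variable {Ω : Type} [Fintype Ω] [DecidableEq Ω] (U : Finset Ω) (wt : Ω → ℕ)
  (hU : ∀ u ∈ U, wt u = 1)

omit [Fintype Ω] in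
theorem exists_of_PP (k : ℕ) (f : SF Ω) (h : ∀ S, PP k f S) :
    ∃ g : SF Ω, 0 ≤ g ∧ (x - 1) ^ k * Th g = f := by
  obtain ⟨g, hg⟩ : ∃ g : SF Ω, ∀ S, 0 ≤ g S ∧ f S = (X - 1) ^ (S.card + k) * g S := by
    choose g h1 h2 using h
    exact ⟨g, fun S => ⟨h1 S, h2 S⟩⟩
  refine ⟨g, fun S => (hg S).1, ?_⟩
  apply ext'
  intro S
  rw [xm1_pow_mul, Th_apply, (hg S).2, pow_add]
  ring

include hU in
theorem exists_sig : ∃ σ : ℕ → SF Ω, (∀ i, 0 ≤ σ i) ∧ (∀ i, Th (σ i) = om U wt i 0) := by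
  have : ∀ i, ∃ g : SF Ω, 0 ≤ g ∧ Th g = om U wt i 0 := by
    intro i
    obtain ⟨g, h1, h2⟩ := exists_of_PP 0 (om U wt i 0) (fun S => (PP_om U wt hU _ S le_rfl).1 i)
    exact ⟨g, h1, by rw [← h2, pow_zero, one_mul]⟩
  choose g h1 h2 using this
  exact ⟨g, h1, h2⟩

include hU in
theorem exists_tau : ∃ τ : ℕ → SF Ω, (∀ c, 0 ≤ τ c) ∧ (∀ c, Th (τ c) = om U wt 0 c) := by
  have : ∀ i, ∃ g : SF Ω, 0 ≤ g ∧ Th g = om U wt 0 i := by
    intro i
    obtain ⟨g, h1, h2⟩ := exists_of_PP 0 (om U wt 0 i) (fun S => (PP_om U wt hU _ S le_rfl).2 i)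
    exact ⟨g, h1, by rw [← h2, pow_zero, one_mul]⟩
  choose g h1 h2 using this
  exact ⟨g, h1, h2⟩

include hU in
theorem exists_tau2 (a b : ℕ) : ∃ τ : SF Ω, 0 ≤ τ ∧ (x - 1) * Th τ = mm U wt a b := by
  obtain ⟨g, h1, h2⟩ := exists_of_PP 1 (mm U wt a b) (fun S => PP_mm U wt hU a b _ S le_rfl)
  exact ⟨g, h1, by rw [← h2, pow_one]⟩

variable (σ τ : ℕ → SF Ω) (τ2 : SF Ω) (a b : ℕ)

/-- one mark -/
noncomputable def ka (i c : ℕ) : SF Ω := σ i * Lk wt i c (τ c)

/-- two marks -/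
noncomputable def kab (i : ℕ) : SF Ω :=
  σ i * (Lk wt i a (τ a) * Lk wt i b (τ b) + Lk wt i (a + b) τ2)

variable (hσ : ∀ i, Th (σ i) = om U wt i 0) (hτ : ∀ c, Th (τ c) = om U wt 0 c)
  (hτ2 : (x - 1) * Th τ2 = mm U wt a b)

include hσ hτ in
theorem ka_rel (i c : ℕ) :
    (x - 1) * Th (ka wt σ τ i c) = om U wt i c - om U wt i 0 * om U wt 0 c := by
  unfold ka
  have h1 := om_mul U wt i 0 c
  rw [add_zero] at h1
  rw [Th_mul, hσ, Th_Lk, hτ, mul_left_comm, Lk_rel, mul_sub, ← h1]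

omit [Fintype Ω] in
theorem Ep_xm1_mul (i : ℕ) (f : SF Ω) : Ep wt i ((x - 1) * f) = (x - 1) * Ep wt i f := by
  rw [xm1, Ep_mul, Ep_cst]

include hτ2 in
theorem L_tau2 (i c : ℕ) : (x - 1) ^ 2 * Lk wt i c (Th τ2) =
    x ^ (i * c) * Ep wt i (mm U wt a b) - mm U wt a b := by
  rw [pow_two, mul_assoc, Lk_rel, mul_sub, ← hτ2, Ep_xm1_mul]
  ring

include hσ hτ hτ2 in
theorem kab_rel (i : ℕ) :
    (x - 1) ^ 2 * Th (kab wt σ τ τ2 a b i) =
      om U wt i (a + b) - om U wt i a * om U wt 0 b - om U wt i b * om U wt 0 a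
        + 2 * om U wt i 0 * om U wt 0 a * om U wt 0 b - om U wt i 0 * om U wt 0 (a + b) := by
  unfold kab
  have h1 := om_mul U wt i 0 a
  have h2 := om_mul U wt i 0 b
  have h3 := om_mul U wt i 0 (a + b)
  rw [add_zero] at h1 h2 h3
  have h4 := L_tau2 U wt τ2 a b hτ2 i (a + b)
  have h5 := Lk_rel wt i a (om U wt 0 a)
  have h6 := Lk_rel wt i b (om U wt 0 b)
  rw [Th_mul, hσ, Th_add, Th_mul, Th_Lk, Th_Lk, Th_Lk, hτ, hτ]
  calc (x - 1) ^ 2 * (om U wt i 0 * (Lk wt i a (om U wt 0 a) * Lk wt i b (om U wt 0 b) +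
        Lk wt i (a + b) (Th τ2)))
      = om U wt i 0 * (((x - 1) * Lk wt i a (om U wt 0 a)) * ((x - 1) * Lk wt i b (om U wt 0 b))
        + (x - 1) ^ 2 * Lk wt i (a + b) (Th τ2)) := by ring
    _ = _ := by
        rw [h4, h5, h6, h1, h2, h3]
        unfold mm
        rw [Ep_sub, Ep_mul, mul_add i, pow_add]
        ring

include hσ in
theorem sig_add (i k : ℕ) : σ (i + k) = σ i * Ep wt i (σ k) := by
  apply Th_inj
  rw [Th_mul, hσ, hσ, Th_Ep, hσ, om_mul, Nat.mul_zero, pow_zero, one_mul]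

include hσ in
theorem sig_zero : σ 0 = 1 := by
  apply Th_inj
  rw [hσ, om_zero_zero, Th_one]

include hσ in
theorem ka_add (i k c : ℕ) : ka wt σ τ (i + k) c = ka wt σ τ i c * Ep wt i (σ k) +
    σ i * Ep wt i (σ k) * (x ^ (i * c) * Ep wt i (Lk wt k c (τ c))) := by
  unfold ka
  rw [sig_add U wt σ hσ, Lk_split]
  ring

include hU hσ hτ in
theorem C1 (c N : ℕ) (hN : U.card ≤ N) :
    τ c = ∑ j ∈ range (N + 1), cst ((br c) ^ j) * (Zf U j * σ j) := by
  apply Th_inj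
  have h0 := C0 U wt hU 0 c N hN
  have h1 : Th (∑ j ∈ range (N + 1), cst ((br c) ^ j) * (Zf U j * σ j)) =
      ∑ j ∈ range (N + 1), cst (((X - 1) * br c) ^ j) * (Zf U j * om U wt j 0) := by
    have : Th (∑ j ∈ range (N + 1), cst ((br c) ^ j) * (Zf U j * σ j)) =
      ∑ j ∈ range (N + 1), Th (cst ((br c) ^ j) * (Zf U j * σ j)) := tw_sum _ _ _
    rw [this]
    apply Finset.sum_congr rfl
    intro j _
    rw [Th_mul, Th_mul, Th_cst, Th_Zf, hσ, mul_pow, map_mul, map_pow cst (X - 1), ← xm1]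
    ring
  rw [h1, hτ, om_zero_c, ← zero_add c, h0, Finset.sum_mul]
  apply Finset.sum_congr rfl
  intro j _
  rw [zero_add]
  unfold om
  ring

include hU hσ hτ hτ2 in
theorem C2 (N : ℕ) (hN : U.card ≤ N) :
    τ2 = ∑ j ∈ range (N + 1), cst ((br b) ^ j) * (Zf U j * ka wt σ τ j a) := by
  apply Th_inj
  apply xm1_inj
  have h0 := C0 U wt hU 0 b N hN
  have h00 := C0 U wt hU a b N hN
  have h1 : (x - 1) * Th (∑ j ∈ range (N + 1), cst ((br b) ^ j) * (Zf U j * ka wt σ τ j a)) =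
      ∑ j ∈ range (N + 1), cst (((X - 1) * br b) ^ j) *
        (Zf U j * (om U wt j a - om U wt j 0 * om U wt 0 a)) := by
    have : Th (∑ j ∈ range (N + 1), cst ((br b) ^ j) * (Zf U j * ka wt σ τ j a)) =
      ∑ j ∈ range (N + 1), Th (cst ((br b) ^ j) * (Zf U j * ka wt σ τ j a)) := tw_sum _ _ _
    rw [this, Finset.mul_sum]
    apply Finset.sum_congr rfl
    intro j _
    rw [Th_mul, Th_mul, Th_cst, Th_Zf, ← ka_rel U wt σ τ hσ hτ, mul_pow, map_mul,
      map_pow cst (X - 1), ← xm1]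
    ring
  have h2 : om U wt 0 (a + b) = ∑ j ∈ range (N + 1), cst (((X - 1) * br b) ^ j) *
        (Zf U j * om U wt j a) := by
    rw [om_zero_c, h00, Finset.sum_mul]
    apply Finset.sum_congr rfl
    intro j _
    unfold om
    ring
  have h3 : om U wt 0 b = ∑ j ∈ range (N + 1), cst (((X - 1) * br b) ^ j) *
        (Zf U j * om U wt j 0) := by
    rw [om_zero_c, ← zero_add b, h0, Finset.sum_mul]
    apply Finset.sum_congr rfl
    intro j _
    rw [zero_add]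
    unfold om
    ring
  rw [h1, hτ2]
  unfold mm
  rw [h2, h3, Finset.mul_sum, ← Finset.sum_sub_distrib]
  apply Finset.sum_congr rfl
  intro j _
  ring

end data

end SF

end Pool.Agent.Y373.HV
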