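import Mathlib
import Pool.Agent.Y373.HV.Alg3

set_option autoImplicit false

namespace Pool.Agent.Y373.HV

open Polynomial Finset

namespace SF

variable {Ω : Type} [Fintype Ω] [DecidableEq Ω] (U : Finset Ω) (wt : Ω → ℕ)
  (hU : ∀ u ∈ U, wt u = 1)
  (σ τ : ℕ → SF Ω) (τ2 : SF Ω) (a b : ℕ)
  (hσ : ∀ i, Th (σ i) = om U wt i 0) (hτ : ∀ c, Th (τ c) = om U wt 0 c)
  (hτ2 : (x - 1) * Th τ2 = mm U wt a b)

/-- the bracket after dividing by `σ 1` -/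
noncomputable def gg (i : ℕ) : SF Ω :=
  kab wt σ τ τ2 a b i + σ i * (Lk wt 1 (a + b) τ2 + Lk wt 1 a (τ a) * Lk wt 1 b (τ b))
    - (Lk wt 1 a (τ a) * Lk wt 1 i (σ i) + Lk wt 1 (a + i) (ka wt σ τ i a)) * (τ b - 1)
    - (Lk wt 1 b (τ b) * Lk wt 1 i (σ i) + Lk wt 1 (b + i) (ka wt σ τ i b)) * (τ a - 1)

include hU hσ hτ in
theorem D_ka (u : Ω) (hu : u ∈ U) (i c : ℕ) :
    (x - 1) ^ 2 * Th (D u (ka wt σ τ i c)) =
      res u (x ^ i * om U wt (i + 1) c - om U wt i c * om U wt 1 0 -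
        ((x ^ i * om U wt (i + 1) 0 - om U wt i 0 * om U wt 1 0) * om U wt 0 c +
          om U wt i 0 * (om U wt 1 c - om U wt 0 c * om U wt 1 0))) := by
  have h1 : (x - 1) * D u (Th (ka wt σ τ i c)) = D u ((x - 1) * Th (ka wt σ τ i c)) := by
    rw [xm1, D_cst_mul]
  have h2 : (x - 1) ^ 2 * Th (D u (ka wt σ τ i c)) = (x - 1) * D u (Th (ka wt σ τ i c)) := by
    rw [D_Th]; ring
  rw [h2, h1, ka_rel U wt σ τ hσ hτ, D_sub, D_mul, D_om U wt hU u hu, D_om U wt hU u hu,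
    D_om U wt hU u hu, ← res_mul, ← res_mul, ← res_add, ← res_sub]
  simp only [pow_zero, one_mul, zero_add]

include hσ hτ hτ2 in
theorem gg_rel (i : ℕ) : (x - 1) ^ 2 * Th (gg wt σ τ τ2 a b i) =
    (om U wt i (a + b) - om U wt i a * om U wt 0 b - om U wt i b * om U wt 0 a
        + 2 * om U wt i 0 * om U wt 0 a * om U wt 0 b - om U wt i 0 * om U wt 0 (a + b)) +
    om U wt i 0 * ((x ^ (a + b) * Ep wt 1 (mm U wt a b) - mm U wt a b) +
      (x ^ a * Ep wt 1 (om U wt 0 a) - om U wt 0 a) *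
        (x ^ b * Ep wt 1 (om U wt 0 b) - om U wt 0 b)) -
    ((x ^ a * Ep wt 1 (om U wt 0 a) - om U wt 0 a) *
      (x ^ i * Ep wt 1 (om U wt i 0) - om U wt i 0) +
      (x ^ (a + i) * Ep wt 1 (om U wt i a - om U wt i 0 * om U wt 0 a) -
        (om U wt i a - om U wt i 0 * om U wt 0 a))) * (om U wt 0 b - 1) -
    ((x ^ b * Ep wt 1 (om U wt 0 b) - om U wt 0 b) *
      (x ^ i * Ep wt 1 (om U wt i 0) - om U wt i 0) +
      (x ^ (b + i) * Ep wt 1 (om U wt i b - om U wt i 0 * om U wt 0 b) -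
        (om U wt i b - om U wt i 0 * om U wt 0 b))) * (om U wt 0 a - 1) := by
  have h1 := kab_rel U wt σ τ τ2 a b hσ hτ hτ2 i
  have h2 := L_tau2 U wt τ2 a b hτ2 1 (a + b)
  have h3 := Lk_rel wt 1 a (om U wt 0 a)
  have h4 := Lk_rel wt 1 b (om U wt 0 b)
  have h5 := Lk_rel wt 1 i (om U wt i 0)
  have h6 : (x - 1) ^ 2 * Lk wt 1 (a + i) (Th (ka wt σ τ i a)) =
      x ^ (a + i) * Ep wt 1 (om U wt i a - om U wt i 0 * om U wt 0 a) -
        (om U wt i a - om U wt i 0 * om U wt 0 a) := by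
    rw [pow_two, mul_assoc, Lk_rel, mul_sub, ← ka_rel U wt σ τ hσ hτ, Ep_xm1_mul, one_mul]
    ring
  have h7 : (x - 1) ^ 2 * Lk wt 1 (b + i) (Th (ka wt σ τ i b)) =
      x ^ (b + i) * Ep wt 1 (om U wt i b - om U wt i 0 * om U wt 0 b) -
        (om U wt i b - om U wt i 0 * om U wt 0 b) := by
    rw [pow_two, mul_assoc, Lk_rel, mul_sub, ← ka_rel U wt σ τ hσ hτ, Ep_xm1_mul, one_mul]
    ring
  rw [one_mul] at h2 h3 h4 h5
  unfold gg
  rw [Th_sub, Th_sub, Th_add, Th_mul, Th_mul, Th_mul, Th_add, Th_add, Th_add, Th_mul, Th_mul,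
    Th_mul, Th_sub, Th_sub, Th_one, Th_Lk, Th_Lk, Th_Lk, Th_Lk, Th_Lk, Th_Lk, hσ, hτ, hτ,
    ← h1, ← h2, ← h3, ← h4, ← h5, ← h6, ← h7]
  ring

omit [Fintype Ω] in
theorem xm1_res (u : Ω) (f : SF Ω) : (x - 1) * res u f = res u ((x - 1) * f) := by
  rw [res_mul, xm1, res_cst]

include hU hσ hτ hτ2 in
theorem main_id (u : Ω) (hu : u ∈ U) (i : ℕ) :
    D u (ka wt σ τ i a) + D u (ka wt σ τ i b) - D u (ka wt σ τ i (a + b)) +
      res u (x ^ i * kab wt σ τ τ2 a b (i + 1)) = res u (σ 1 * gg wt σ τ τ2 a b i) := by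
  apply Th_inj
  apply xm1_inj
  apply xm1_inj
  have e1 : (x - 1) * ((x - 1) * Th (D u (ka wt σ τ i a) + D u (ka wt σ τ i b) -
      D u (ka wt σ τ i (a + b)) + res u (x ^ i * kab wt σ τ τ2 a b (i + 1)))) =
      (x - 1) ^ 2 * Th (D u (ka wt σ τ i a)) + (x - 1) ^ 2 * Th (D u (ka wt σ τ i b)) -
      (x - 1) ^ 2 * Th (D u (ka wt σ τ i (a + b))) +
      res u (x ^ i * ((x - 1) ^ 2 * Th (kab wt σ τ τ2 a b (i + 1)))) := by
    have h0 : (x - 1) * ((x - 1) * Th (res u (x ^ i * kab wt σ τ τ2 a b (i + 1)))) =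
        res u (x ^ i * ((x - 1) ^ 2 * Th (kab wt σ τ τ2 a b (i + 1)))) := by
      have h00 : x ^ i * ((x - 1) ^ 2 * Th (kab wt σ τ τ2 a b (i + 1))) =
          (x - 1) * ((x - 1) * (x ^ i * Th (kab wt σ τ τ2 a b (i + 1)))) := by
        generalize Th (kab wt σ τ τ2 a b (i + 1)) = k
        generalize (x : SF Ω) ^ i = xi
        ring
      rw [h00, ← xm1_res, ← xm1_res, ← res_Th, Th_mul, Th_x_pow]
    rw [Th_add, Th_sub, Th_add, ← h0]
    ring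
  have e2 : (x - 1) * ((x - 1) * Th (res u (σ 1 * gg wt σ τ τ2 a b i))) =
      res u (om U wt 1 0 * ((x - 1) ^ 2 * Th (gg wt σ τ τ2 a b i))) := by
    have h00 : om U wt 1 0 * ((x - 1) ^ 2 * Th (gg wt σ τ τ2 a b i)) =
        (x - 1) * ((x - 1) * (om U wt 1 0 * Th (gg wt σ τ τ2 a b i))) := by
      generalize Th (gg wt σ τ τ2 a b i) = k
      generalize om U wt 1 0 = o
      ring
    rw [h00, ← xm1_res, ← xm1_res, ← res_Th, Th_mul, hσ]
  rw [e1, e2, gg_rel U wt σ τ τ2 a b hσ hτ hτ2, kab_rel U wt σ τ τ2 a b hσ hτ hτ2,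
    D_ka U wt hU σ τ hσ hτ u hu, D_ka U wt hU σ τ hσ hτ u hu, D_ka U wt hU σ τ hσ hτ u hu,
    ← res_add, ← res_sub, ← res_add]
  congr 1
  rw [om_succ U wt i a, om_succ U wt i b, om_succ U wt i (a + b), om_succ U wt i 0]
  have o1 := om_succ U wt 0 a
  have o2 := om_succ U wt 0 b
  have o3 := om_succ U wt 0 (a + b)
  rw [zero_add] at o1 o2 o3
  rw [o1, o2, o3, Ep_sub, Ep_sub, Ep_mul, Ep_mul, pow_zero, one_mul]
  unfold mm
  rw [Ep_sub, Ep_mul]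
  simp only [pow_add]
  generalize om U wt 1 0 = s1
  generalize Ep wt 1 (om U wt i 0) = Es
  generalize Ep wt 1 (om U wt i a) = Ea
  generalize Ep wt 1 (om U wt i b) = Eb
  generalize Ep wt 1 (om U wt i (a + b)) = Em
  generalize Ep wt 1 (om U wt 0 a) = Fa
  generalize Ep wt 1 (om U wt 0 b) = Fb
  generalize Ep wt 1 (om U wt 0 (a + b)) = Fm
  generalize om U wt i 0 = s
  generalize om U wt i a = oa
  generalize om U wt i b = ob
  generalize om U wt i (a + b) = o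
  generalize om U wt 0 a = ta
  generalize om U wt 0 b = tb
  generalize om U wt 0 (a + b) = tm
  generalize (x : SF Ω) ^ i = xi
  generalize (x : SF Ω) ^ a = xa
  generalize (x : SF Ω) ^ b = xb
  ring

variable (hσ0 : ∀ i, 0 ≤ σ i) (hτ0 : ∀ c, 0 ≤ τ c) (hτ20 : 0 ≤ τ2)

include hσ0 hτ0 in
omit [Fintype Ω] in
theorem ka_nonneg (i c : ℕ) : 0 ≤ ka wt σ τ i c :=
  mul_nonneg (hσ0 i) (Lk_nonneg wt i c (hτ0 c))

omit [Fintype Ω] in
theorem x_nonneg : (0 : SF Ω) ≤ x := cst_nonneg X_nonneg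

include hU hσ hσ0 in
/-- the bracket for `σ` -/
theorem br_sig (i j : ℕ) (hij : i ≤ j) :
    Lk wt 1 0 (Zf U i * σ i) * (Zf U j * σ j) ≤ (Zf U i * σ i) * Lk wt 1 0 (Zf U j * σ j) := by
  obtain ⟨k, rfl⟩ := Nat.exists_eq_add_of_le hij
  rw [Lk_Zf U wt hU, Lk_Zf U wt hU, zero_add, zero_add]
  have h1 : Lk wt 1 (i + k) (σ (i + k)) = Lk wt 1 i (σ i) * Ep wt i (σ k) +
      x ^ i * Ep wt 1 (σ i) * Lk wt 1 k (Ep wt i (σ k)) := by
    rw [sig_add U wt σ hσ, Lk_mul]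
  have h2 := sig_add U wt σ hσ i k
  rw [← sub_nonneg]
  have h3 : Zf U i * σ i * (Zf U (i + k) * Lk wt 1 (i + k) (σ (i + k))) -
      Zf U i * Lk wt 1 i (σ i) * (Zf U (i + k) * σ (i + k)) =
      (Zf U i * Zf U (i + k)) * (σ i * (x ^ i * Ep wt 1 (σ i) * Lk wt 1 k (Ep wt i (σ k)))) := by
    rw [h1, h2]; ring
  rw [h3]
  exact mul_nonneg (mul_nonneg (Zf_nonneg U _) (Zf_nonneg U _)) (mul_nonneg (hσ0 i)
    (mul_nonneg (mul_nonneg (pow_nonneg x_nonneg _) (Ep_nonneg wt 1 (hσ0 i)))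
      (Lk_nonneg wt 1 k (Ep_nonneg wt i (hσ0 k)))))

include hU hσ hσ0 hτ0 in
/-- the bracket for one mark -/
theorem br_ka (c i j : ℕ) (hij : i ≤ j) :
    Lk wt 1 c (Zf U i * ka wt σ τ i c) * (Zf U j * σ j) ≤
      (Zf U i * σ i) * Lk wt 1 c (Zf U j * ka wt σ τ j c) := by
  obtain ⟨k, rfl⟩ := Nat.exists_eq_add_of_le hij
  rw [Lk_Zf U wt hU, Lk_Zf U wt hU]
  have hk := ka_nonneg wt σ τ hσ0 hτ0 i c
  have h1 : Lk wt 1 (c + (i + k)) (ka wt σ τ (i + k) c) =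
      Lk wt 1 (c + i) (ka wt σ τ i c) * Ep wt i (σ k) +
      x ^ (c + i) * Ep wt 1 (ka wt σ τ i c) * Lk wt 1 k (Ep wt i (σ k)) +
      Lk wt 1 (c + (i + k)) (σ i * Ep wt i (σ k) *
        (x ^ (i * c) * Ep wt i (Lk wt k c (τ c)))) := by
    rw [ka_add U wt σ τ hσ, Lk_add, ← add_assoc c i k, Lk_mul]
  have h2 := sig_add U wt σ hσ i k
  have h4 : 0 ≤ Lk wt 1 (c + (i + k)) (σ i * Ep wt i (σ k) *
        (x ^ (i * c) * Ep wt i (Lk wt k c (τ c)))) :=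
    Lk_nonneg wt _ _ (mul_nonneg (mul_nonneg (hσ0 i) (Ep_nonneg wt i (hσ0 k)))
      (mul_nonneg (pow_nonneg x_nonneg _) (Ep_nonneg wt i (Lk_nonneg wt k c (hτ0 c)))))
  rw [← sub_nonneg]
  have h3 : Zf U i * σ i * (Zf U (i + k) * Lk wt 1 (c + (i + k)) (ka wt σ τ (i + k) c)) -
      Zf U i * Lk wt 1 (c + i) (ka wt σ τ i c) * (Zf U (i + k) * σ (i + k)) =
      (Zf U i * Zf U (i + k)) * (σ i * (x ^ (c + i) * Ep wt 1 (ka wt σ τ i c) *
        Lk wt 1 k (Ep wt i (σ k)) + Lk wt 1 (c + (i + k)) (σ i * Ep wt i (σ k) *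
        (x ^ (i * c) * Ep wt i (Lk wt k c (τ c)))))) := by
    rw [h1, h2]; ring
  rw [h3]
  exact mul_nonneg (mul_nonneg (Zf_nonneg U _) (Zf_nonneg U _)) (mul_nonneg (hσ0 i)
    (add_nonneg (mul_nonneg (mul_nonneg (pow_nonneg x_nonneg _) (Ep_nonneg wt 1 hk))
      (Lk_nonneg wt 1 k (Ep_nonneg wt i (hσ0 k)))) h4))

omit [Fintype Ω] in
theorem beta_mono (c : ℕ) (hc : 1 ≤ c) (i j : ℕ) (h : i ≤ j) :
    (cst ((br c) ^ i) : SF Ω) ≤ cst ((br c) ^ j) := by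
  rw [← sub_nonneg, ← map_sub]
  apply cst_nonneg
  rw [sub_nonneg]
  exact pow_le_pow_right₀ (one_le_br hc) h

omit [Fintype Ω] in
theorem beta_nonneg (c i : ℕ) : (0 : SF Ω) ≤ cst ((br c) ^ i) :=
  cst_nonneg (pow_nonneg (br_nonneg c) i)

theorem range_Icc (N : ℕ) (f : ℕ → SF Ω) :
    ∑ j ∈ range (N + 1), f j = f 0 + ∑ j ∈ Icc 1 N, f j := by
  rw [Finset.range_eq_Ico, Finset.sum_eq_sum_Ico_succ_bot (by omega)]
  rfl

include hU hσ hτ hτ2 hσ0 hτ0 hτ20 in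
theorem gg_sum_nonneg (ha : 1 ≤ a) (hb : 1 ≤ b) (m : ℕ) :
    0 ≤ ∑ i ∈ Icc 1 m, Zf U i * gg wt σ τ τ2 a b i := by
  set N := max m U.card with hN
  have hmN : m ≤ N := le_max_left _ _
  have hUN : U.card ≤ N := le_max_right _ _
  -- expansions
  have cb := C1 U wt hU σ τ hσ hτ b N hUN
  have ca := C1 U wt hU σ τ hσ hτ a N hUN
  have c2 := C2 U wt hU σ τ τ2 a b hσ hτ hτ2 N hUN
  have hτ2' : (x - 1) * Th τ2 = mm U wt b a := by
    rw [hτ2]; unfold mm; rw [add_comm b a]; ring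
  have c2' := C2 U wt hU σ τ τ2 b a hσ hτ hτ2' N hUN
  rw [range_Icc, pow_zero, map_one, one_mul, Zf_zero, one_mul] at cb ca c2 c2'
  rw [sig_zero U wt σ hσ] at cb ca
  have hk0 : ∀ c, ka wt σ τ 0 c = 0 := by
    intro c
    apply Th_inj
    apply xm1_inj
    rw [ka_rel U wt σ τ hσ hτ, om_zero_zero, one_mul, sub_self]
    have : Th (0 : SF Ω) = 0 := by
      apply ext'; intro S; rw [Th_apply, zero_apply, mul_zero]
    rw [this, mul_zero]
  rw [hk0, zero_add] at c2 c2'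
  set φ : ℕ → SF Ω := fun i => Zf U i * σ i with hφ
  have hφ0 : ∀ i, 0 ≤ φ i := fun i => mul_nonneg (Zf_nonneg U i) (hσ0 i)
  set ψa : ℕ → SF Ω := fun i => Zf U i * ka wt σ τ i a with hψa
  set ψb : ℕ → SF Ω := fun i => Zf U i * ka wt σ τ i b with hψb
  have hψa0 : ∀ i, 0 ≤ ψa i := fun i =>
    mul_nonneg (Zf_nonneg U i) (ka_nonneg wt σ τ hσ0 hτ0 i a)
  have hψb0 : ∀ i, 0 ≤ ψb i := fun i =>
    mul_nonneg (Zf_nonneg U i) (ka_nonneg wt σ τ hσ0 hτ0 i b)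
  have hA : τ a - 1 = ∑ j ∈ Icc 1 N, cst ((br a) ^ j) * φ j := by rw [ca]; ring
  have hB : τ b - 1 = ∑ j ∈ Icc 1 N, cst ((br b) ^ j) * φ j := by rw [cb]; ring
  have hA0 : 0 ≤ τ a - 1 := by
    rw [hA]; exact Finset.sum_nonneg fun j _ => mul_nonneg (beta_nonneg a j) (hφ0 j)
  have hB0 : 0 ≤ τ b - 1 := by
    rw [hB]; exact Finset.sum_nonneg fun j _ => mul_nonneg (beta_nonneg b j) (hφ0 j)
  set V : SF Ω := ∑ i ∈ Icc 1 m, φ i with hV
  have hV0 : 0 ≤ V := Finset.sum_nonneg fun i _ => hφ0 i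
  -- J1
  have J1 : ∀ c, 1 ≤ c → τ c - 1 = ∑ j ∈ Icc 1 N, cst ((br c) ^ j) * φ j →
      Lk wt 1 0 V * (τ c - 1) ≤ V * Lk wt 1 c (τ c) := by
    intro c hc hcc
    have h1 := bracket (fun i => φ i) (fun i => Lk wt 1 0 (φ i)) (fun i => cst ((br c) ^ i))
      (beta_nonneg c) (beta_mono c hc) (fun i j _ hij => br_sig U wt hU σ hσ hσ0 i j hij)
      m N hmN
    have h2 : ∑ i ∈ Icc 1 m, Lk wt 1 0 (φ i) = Lk wt 1 0 V := by rw [hV, Lk_sum]
    have h3 : ∑ j ∈ Icc 1 N, cst ((br c) ^ j) * Lk wt 1 0 (φ j) = Lk wt 1 0 (τ c - 1) := by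
      rw [hcc, Lk_sum]
      exact Finset.sum_congr rfl fun j _ => (Lk_cst_mul wt 1 0 _ _).symm
    have h4 : ∑ j ∈ Icc 1 N, cst ((br c) ^ j) * φ j = τ c - 1 := hcc.symm
    rw [h2, h3, h4] at h1
    refine h1.trans (mul_le_mul_of_nonneg_left ?_ hV0)
    have hc0 : 0 ≤ τ c - 1 := by
      rw [hcc]; exact Finset.sum_nonneg fun j _ => mul_nonneg (beta_nonneg c j) (hφ0 j)
    refine (Lk_mono_c wt (Nat.zero_le c) hc0).trans ?_
    have h5 : Lk wt 1 c (τ c) = Lk wt 1 c (τ c - 1) + Lk wt 1 c 1 := by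
      rw [← Lk_add, sub_add_cancel]
    rw [h5]
    exact le_add_of_nonneg_right (Lk_nonneg wt 1 c zero_le_one)
  -- J2
  have J2 : ∀ c d, 1 ≤ d → τ d - 1 = ∑ j ∈ Icc 1 N, cst ((br d) ^ j) * φ j →
      τ2 = ∑ j ∈ Icc 1 N, cst ((br d) ^ j) * (Zf U j * ka wt σ τ j c) →
      Lk wt 1 c (∑ i ∈ Icc 1 m, Zf U i * ka wt σ τ i c) * (τ d - 1) ≤
        V * Lk wt 1 c τ2 := by
    intro c d hd hdd h2
    have h1 := bracket (fun i => φ i) (fun i => Lk wt 1 c (Zf U i * ka wt σ τ i c))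
      (fun i => cst ((br d) ^ i))
      (beta_nonneg d) (beta_mono d hd)
      (fun i j _ hij => br_ka U wt hU σ τ hσ hσ0 hτ0 c i j hij) m N hmN
    have h3 : ∑ i ∈ Icc 1 m, Lk wt 1 c (Zf U i * ka wt σ τ i c) =
      Lk wt 1 c (∑ i ∈ Icc 1 m, Zf U i * ka wt σ τ i c) := by rw [Lk_sum]
    have h4 : ∑ j ∈ Icc 1 N, cst ((br d) ^ j) * Lk wt 1 c (Zf U j * ka wt σ τ j c) =
        Lk wt 1 c τ2 := by
      rw [h2, Lk_sum]
      exact Finset.sum_congr rfl fun j _ => (Lk_cst_mul wt 1 c _ _).symm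
    have h5 : ∑ j ∈ Icc 1 N, cst ((br d) ^ j) * φ j = τ d - 1 := hdd.symm
    rw [h3, h4, h5] at h1
    exact h1
  have j1b := J1 b hb hB
  have j1a := J1 a ha hA
  have j2a := J2 a b hb hB c2
  have j2b := J2 b a ha hA c2'
  have j2a' : Lk wt 1 a (∑ i ∈ Icc 1 m, Zf U i * ka wt σ τ i a) * (τ b - 1) ≤
        V * Lk wt 1 (a + b) τ2 :=
    j2a.trans (mul_le_mul_of_nonneg_left (Lk_mono_c wt (by omega) hτ20) hV0)
  have j2b' : Lk wt 1 b (∑ i ∈ Icc 1 m, Zf U i * ka wt σ τ i b) * (τ a - 1) ≤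
        V * Lk wt 1 (a + b) τ2 :=
    j2b.trans (mul_le_mul_of_nonneg_left (Lk_mono_c wt (by omega) hτ20) hV0)
  -- J3
  have j3 : V * (Lk wt 1 (a + b) τ2 + Lk wt 1 a (τ a) * Lk wt 1 b (τ b)) ≤
      ∑ i ∈ Icc 1 m, Zf U i * kab wt σ τ τ2 a b i := by
    rw [hV, Finset.sum_mul]
    apply Finset.sum_le_sum
    intro i hi
    rw [mem_Icc] at hi
    rw [hφ]
    simp only []
    rw [mul_assoc]
    apply mul_le_mul_of_nonneg_left _ (Zf_nonneg U i)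
    unfold kab
    apply mul_le_mul_of_nonneg_left _ (hσ0 i)
    rw [add_comm]
    apply add_le_add
    · exact mul_le_mul (Lk_mono_i wt hi.1 (hτ0 a)) (Lk_mono_i wt hi.1 (hτ0 b))
        (Lk_nonneg wt _ _ (hτ0 b)) (Lk_nonneg wt _ _ (hτ0 a))
    · exact Lk_mono_i wt hi.1 hτ20
  -- the sum
  have hsum : ∑ i ∈ Icc 1 m, Zf U i * gg wt σ τ τ2 a b i =
      ∑ i ∈ Icc 1 m, Zf U i * kab wt σ τ τ2 a b i +
      V * (Lk wt 1 (a + b) τ2 + Lk wt 1 a (τ a) * Lk wt 1 b (τ b)) -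
      (Lk wt 1 a (τ a) * Lk wt 1 0 V +
        Lk wt 1 a (∑ i ∈ Icc 1 m, Zf U i * ka wt σ τ i a)) * (τ b - 1) -
      (Lk wt 1 b (τ b) * Lk wt 1 0 V +
        Lk wt 1 b (∑ i ∈ Icc 1 m, Zf U i * ka wt σ τ i b)) * (τ a - 1) := by
    rw [hV, Lk_sum, Lk_sum, Lk_sum, Finset.mul_sum, Finset.mul_sum, ← Finset.sum_add_distrib,
      ← Finset.sum_add_distrib, Finset.sum_mul, Finset.sum_mul, Finset.sum_mul,
      ← Finset.sum_add_distrib, ← Finset.sum_sub_distrib, ← Finset.sum_sub_distrib]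
    apply Finset.sum_congr rfl
    intro i _
    rw [hφ]
    simp only []
    rw [Lk_Zf U wt hU, Lk_Zf U wt hU, Lk_Zf U wt hU, zero_add]
    unfold gg
    ring
  rw [hsum]
  have hLa : 0 ≤ Lk wt 1 a (τ a) := Lk_nonneg wt _ _ (hτ0 a)
  have hLb : 0 ≤ Lk wt 1 b (τ b) := Lk_nonneg wt _ _ (hτ0 b)
  have t1 := mul_le_mul_of_nonneg_left j1b hLa
  have t2 := mul_le_mul_of_nonneg_left j1a hLb
  have t3 := add_le_add (add_le_add (add_le_add (add_le_add t1 t2) j2a') j2b') j3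
  rw [← sub_nonneg] at t3 ⊢
  rw [sub_zero]
  refine t3.trans (le_of_eq ?_)
  ring

end SF

open SF in
theorem alg : AlgStm := by
  intro Ω _ _ U wt hU a b ha hb
  obtain ⟨σ, hσ0, hσ⟩ := exists_sig U wt hU
  obtain ⟨τ, hτ0, hτ⟩ := exists_tau U wt hU
  obtain ⟨τ2, hτ20, hτ2⟩ := exists_tau2 U wt hU a b
  have hW0 : ∀ S, Wc U wt 0 S = X ^ eS U wt S := by
    intro S; rw [Wc_apply]; simp
  have hkaW : ∀ i c, x ^ (i * c) * Ep wt i (Wc U wt c) =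
      (x - 1) * Th (ka wt σ τ i c) * Wc U wt 0 + Th (σ i) * Wc U wt c := by
    intro i c
    have h1 := om_W U wt 0 c
    rw [Nat.zero_mul, pow_zero, one_mul, Ep_zero] at h1
    rw [ka_rel U wt σ τ hσ hτ, hσ, ← om_W, sub_mul, mul_assoc (om U wt i 0), h1]
    ring
  have one : ∀ c i S, (X : ℝ[X]) ^ (i * (wS wt S + c) + (eS U wt S + c * (S ∩ U).card)) =
      ∑ D ∈ S.powerset, ((X - 1) ^ (D.card + 1) * ka wt σ τ i c D * X ^ eS U wt (S \ D) +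
        (X - 1) ^ D.card * σ i D * X ^ (eS U wt (S \ D) + c * ((S \ D) ∩ U).card)) := by
    intro c i S
    have h1 : (x ^ (i * c) * Ep wt i (Wc U wt c) : SF Ω) S =
      ((x - 1) * Th (ka wt σ τ i c) * Wc U wt 0 + Th (σ i) * Wc U wt c : SF Ω) S := by rw [hkaW]
    rw [x_pow_mul, Ep_apply, Wc_apply, SF.add_apply, SF.mul_apply, SF.mul_apply,
      ← Finset.sum_add_distrib] at h1
    have h2 : (X : ℝ[X]) ^ (i * (wS wt S + c) + (eS U wt S + c * (S ∩ U).card)) =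
        X ^ (i * c) * (X ^ (i * wS wt S) * X ^ (eS U wt S + c * (S ∩ U).card)) := by
      rw [← pow_add, ← pow_add]; congr 1; ring
    rw [h2, h1]
    apply Finset.sum_congr rfl
    intro D _
    rw [xm1, cst_mul_apply, Th_apply, Th_apply, hW0, Wc_apply]
    ring
  refine ⟨fun i => σ i, fun i => ka wt σ τ i a, fun i => ka wt σ τ i b,
    fun i => ka wt σ τ i (a + b), fun i => kab wt σ τ τ2 a b i, ?_, one a, one b,
    one (a + b), ?_, ?_⟩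
  · intro i S
    have h1 := om_W U wt i 0
    rw [Nat.mul_zero, pow_zero, one_mul, ← hσ] at h1
    have h2 : (Th (σ i) * Wc U wt 0) S = (Ep wt i (Wc U wt 0)) S := by rw [h1]
    rw [SF.mul_apply, Ep_apply, hW0, ← pow_add] at h2
    rw [← h2]
    apply Finset.sum_congr rfl
    intro D _
    rw [Th_apply, hW0]
  · intro i S
    have h0 : x ^ (i * (a + b)) * Ep wt i (Wc U wt (a + b)) =
        (x - 1) ^ 2 * Th (kab wt σ τ τ2 a b i) * Wc U wt 0 +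
        (x - 1) * Th (ka wt σ τ i a) * Wc U wt b + (x - 1) * Th (ka wt σ τ i b) * Wc U wt a +
        Th (σ i) * Wc U wt (a + b) := by
      have hw : ∀ c, Wc U wt c = om U wt 0 c * Wc U wt 0 := by
        intro c
        rw [om_W, Nat.zero_mul, pow_zero, one_mul, Ep_zero]
      rw [kab_rel U wt σ τ τ2 a b hσ hτ hτ2, ka_rel U wt σ τ hσ hτ, ka_rel U wt σ τ hσ hτ, hσ,
        ← om_W, hw a, hw b, hw (a + b)]
      ring
    have h1 : (x ^ (i * (a + b)) * Ep wt i (Wc U wt (a + b)) : SF Ω) S =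
        ((x - 1) ^ 2 * Th (kab wt σ τ τ2 a b i) * Wc U wt 0 +
        (x - 1) * Th (ka wt σ τ i a) * Wc U wt b + (x - 1) * Th (ka wt σ τ i b) * Wc U wt a +
        Th (σ i) * Wc U wt (a + b) : SF Ω) S := by rw [h0]
    rw [x_pow_mul, Ep_apply, Wc_apply, SF.add_apply, SF.add_apply, SF.add_apply, SF.mul_apply,
      SF.mul_apply, SF.mul_apply, SF.mul_apply, ← Finset.sum_add_distrib,
      ← Finset.sum_add_distrib, ← Finset.sum_add_distrib] at h1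
    have h2 : (X : ℝ[X]) ^ (i * (wS wt S + (a + b)) +
        (eS U wt S + (a + b) * (S ∩ U).card)) = X ^ (i * (a + b)) *
          (X ^ (i * wS wt S) * X ^ (eS U wt S + (a + b) * (S ∩ U).card)) := by
      rw [← pow_add, ← pow_add]; congr 1; ring
    rw [h2, h1]
    apply Finset.sum_congr rfl
    intro D _
    rw [xm1_pow_mul, xm1, cst_mul_apply, cst_mul_apply, Th_apply, Th_apply, Th_apply, Th_apply,
      hW0, Wc_apply, Wc_apply, Wc_apply]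
    ring
  · intro u hu S huS m
    have h1 := gg_sum_nonneg U wt hU σ τ τ2 a b hσ hτ hτ2 hσ0 hτ0 hτ20 ha hb m
    have h2 : 0 ≤ (σ 1 * ∑ i ∈ Icc 1 m, Zf U i * gg wt σ τ τ2 a b i) S :=
      (mul_nonneg (hσ0 1) h1) S
    refine h2.trans (le_of_eq ?_)
    rw [Finset.mul_sum, SF.sum_apply]
    apply Finset.sum_congr rfl
    intro i _
    have h3 : res u (σ 1 * (Zf U i * gg wt σ τ τ2 a b i)) =
        res u (Zf U i) * (D u (ka wt σ τ i a) + D u (ka wt σ τ i b) -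
          D u (ka wt σ τ i (a + b)) + res u (x ^ i * kab wt σ τ τ2 a b (i + 1))) := by
      have m := main_id U wt hU σ τ τ2 a b hσ hτ hτ2 u hu i
      rw [mul_left_comm, res_mul, ← m]
    have h4 : (σ 1 * (Zf U i * gg wt σ τ τ2 a b i)) S =
        (res u (σ 1 * (Zf U i * gg wt σ τ τ2 a b i))) S := (res_apply u _ S huS).symm
    have h5 : res u (Zf U i) * (D u (ka wt σ τ i a) + D u (ka wt σ τ i b) -
          D u (ka wt σ τ i (a + b)) + res u (x ^ i * kab wt σ τ τ2 a b (i + 1))) =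
        res u (Zf U i * (D u (ka wt σ τ i a) + D u (ka wt σ τ i b) -
          D u (ka wt σ τ i (a + b)) + res u (x ^ i * kab wt σ τ τ2 a b (i + 1)))) := by
      have hF := res_res u (x ^ i * kab wt σ τ τ2 a b (i + 1))
      generalize res u (x ^ i * kab wt σ τ τ2 a b (i + 1)) = F at hF ⊢
      rw [res_mul, res_add, res_sub, res_add, res_D, res_D, res_D, hF]
    rw [h4, h3, h5, res_apply u _ S huS, Zf_mul_apply]
    apply Finset.sum_congr rfl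
    intro I _
    have huI : u ∉ S \ I := fun h => huS (mem_sdiff.1 h).1
    rw [SF.add_apply, SF.sub_apply, SF.add_apply, D_apply u _ _ huI, D_apply u _ _ huI,
      D_apply u _ _ huI, res_apply u _ _ huI, x_pow_mul]

end Pool.Agent.Y373.HV
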