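import Pool.Agent.Y373.HV.Core

set_option autoImplicit false

/-! Lemmas on `tau` (used by `Lp`, `EI`, `Coll`, `Sing`). -/

namespace Pool.Agent.Y373.HV

open Polynomial Finset

section
variable {V : Type*}

/-- nothing is glued in `U` -/
def Tr (U : Finset V) (π : Setoid V) : Prop := ∀ x y, π x y → x = y ∨ (x ∉ U ∧ y ∉ U)

theorem tr_bot (U : Finset V) : Tr U (⊥ : Setoid V) := by
  intro x y h
  rw [Setoid.bot_def] at h
  exact Or.inl h

theorem sup_gl_iff {U : Finset V} {π : Setoid V} (h : Tr U π) {I : Finset V} (hI : I ⊆ U)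
    (x y : V) : (π ⊔ gl I) x y ↔ π x y ∨ (x ∈ I ∧ y ∈ I) := by
  let t : Setoid V :=
    { r := fun x y => π x y ∨ (x ∈ I ∧ y ∈ I)
      iseqv :=
        { refl := fun x => Or.inl (π.refl' x)
          symm := fun {x y} h => by
            rcases h with h | h
            · exact Or.inl (π.symm' h)
            · exact Or.inr ⟨h.2, h.1⟩
          trans := fun {x y z} h1 h2 => by
            rcases h1 with h1 | h1
            · rcases h2 with h2 | h2
              · exact Or.inl (π.trans' h1 h2)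
              · rcases h x y h1 with rfl | h3
                · exact Or.inr h2
                · exact absurd (hI h2.1) h3.2
            · rcases h2 with h2 | h2
              · rcases h y z h2 with rfl | h3
                · exact Or.inr h1
                · exact absurd (hI h1.2) h3.1
              · exact Or.inr ⟨h1.1, h2.2⟩ } }
  have h1 : π ⊔ gl I = t := by
    apply le_antisymm
    · apply sup_le
      · intro x y h; exact Or.inl h
      · intro x y h
        rcases h with rfl | h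
        · exact t.refl' _
        · exact Or.inr h
    · intro x y h
      rcases h with h | h
      · exact (le_sup_left : π ≤ π ⊔ gl I) h
      · exact (le_sup_right : gl I ≤ π ⊔ gl I) (Or.inr h)
  rw [h1]
  exact Iff.rfl

theorem tr_sup_pr {U : Finset V} {π : Setoid V} (h : Tr U π) {e : Sym2 V}
    (he : ∀ x ∈ e, x ∉ U) : Tr U (π ⊔ pr e) := by
  induction e using Sym2.ind with
  | _ a b =>
    have ha := he a (by simp)
    have hb := he b (by simp)
    intro x y hxy
    rw [sup_pr_iff] at hxy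
    rcases hxy with h1 | ⟨h1, h2⟩ | ⟨h1, h2⟩
    · exact h x y h1
    · right
      constructor
      · rcases h x a h1 with rfl | h3
        · exact ha
        · exact h3.1
      · rcases h b y h2 with rfl | h3
        · exact hb
        · exact h3.2
    · right
      constructor
      · rcases h x b h1 with rfl | h3
        · exact hb
        · exact h3.1
      · rcases h a y h2 with rfl | h3
        · exact ha
        · exact h3.2

theorem pr_le_sup_gl {U : Finset V} {π : Setoid V} (h : Tr U π) {I : Finset V} (hI : I ⊆ U)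
    {e : Sym2 V} (he : ∀ x ∈ e, x ∉ U) : pr e ≤ π ⊔ gl I ↔ pr e ≤ π := by
  induction e using Sym2.ind with
  | _ a b =>
    have ha := he a (by simp)
    rw [pr_le_iff, pr_le_iff, sup_gl_iff h hI]
    constructor
    · rintro (h1 | h1)
      · exact h1
      · exact absurd (hI h1.1) ha
    · exact Or.inl

theorem not_pr_le {U : Finset V} {π : Setoid V} (h : Tr U π) {I : Finset V} (hI : I ⊆ U)
    {i u : V} (hi : i ∈ I) (hu : u ∉ I) : ¬ pr s(i, u) ≤ π ⊔ gl I := by
  rw [pr_le_iff, sup_gl_iff h hI]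
  rintro (h1 | h1)
  · rcases h i u h1 with rfl | h2
    · exact hu hi
    · exact h2.1 (hI hi)
  · exact hu h1.2

theorem sup_gl_insert [DecidableEq V] (π : Setoid V) (I : Finset V) (i u : V) (hi : i ∈ I) :
    π ⊔ gl I ⊔ pr s(i, u) = π ⊔ gl (insert u I) := by
  rw [gl_insert I u i hi, sup_assoc]

end

section sums
variable {V : Type*} [DecidableEq V] {M : Type*} [AddCommMonoid M]

/-- swapping -/
theorem sum_swap (U : Finset V) (i : ℕ) (F : V → Finset V → M) :
    ∑ u ∈ U, ∑ I ∈ (U.erase u).powersetCard i, F u I =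
      ∑ I ∈ U.powersetCard i, ∑ u ∈ U \ I, F u I := by
  refine Finset.sum_comm' ?_
  intro u I
  simp only [mem_powersetCard, mem_sdiff]
  constructor
  · rintro ⟨hu, hI, hc⟩
    refine ⟨⟨hu, fun h => ?_⟩, hI.trans (erase_subset _ _), hc⟩
    exact (mem_erase.1 (hI h)).1 rfl
  · rintro ⟨⟨hu, hI⟩, hIU, hc⟩
    refine ⟨hu, fun x hx => mem_erase.2 ⟨?_, hIU hx⟩, hc⟩
    rintro rfl
    exact hI hx

theorem sum_const_sdiff (U : Finset V) (i : ℕ) (f : Finset V → M) :
    ∑ I ∈ U.powersetCard i, ∑ _u ∈ U \ I, f I = (U.card - i) • ∑ I ∈ U.powersetCard i, f I := by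
  rw [Finset.smul_sum]
  refine Finset.sum_congr rfl fun I hI => ?_
  rw [mem_powersetCard] at hI
  rw [Finset.sum_const, card_sdiff_of_subset hI.1, hI.2]

theorem sum_insert_sdiff (U : Finset V) (i : ℕ) (g : Finset V → M) :
    ∑ I ∈ U.powersetCard i, ∑ u ∈ U \ I, g (insert u I) =
      (i + 1) • ∑ J ∈ U.powersetCard (i + 1), g J := by
  have h1 : (i + 1) • ∑ J ∈ U.powersetCard (i + 1), g J =
      ∑ J ∈ U.powersetCard (i + 1), ∑ _u ∈ J, g J := by
    rw [Finset.smul_sum]
    refine Finset.sum_congr rfl fun J hJ => ?_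
    rw [mem_powersetCard] at hJ
    rw [Finset.sum_const, hJ.2]
  rw [h1, Finset.sum_sigma', Finset.sum_sigma']
  refine Finset.sum_bij' (fun p _ => ⟨insert p.2 p.1, p.2⟩) (fun p _ => ⟨p.1.erase p.2, p.2⟩)
    ?_ ?_ ?_ ?_ ?_
  · rintro ⟨I, u⟩ h
    simp only [mem_sigma, mem_powersetCard, mem_sdiff] at h ⊢
    obtain ⟨⟨h1, h2⟩, h3, h4⟩ := h
    exact ⟨⟨insert_subset h3 h1, by rw [card_insert_of_notMem h4, h2]⟩, mem_insert_self _ _⟩
  · rintro ⟨J, u⟩ h
    simp only [mem_sigma, mem_powersetCard, mem_sdiff] at h ⊢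
    obtain ⟨⟨h1, h2⟩, h3⟩ := h
    exact ⟨⟨(erase_subset _ _).trans h1, by rw [card_erase_of_mem h3, h2]; rfl⟩, h1 h3,
      notMem_erase _ _⟩
  · rintro ⟨I, u⟩ h
    simp only [mem_sigma, mem_powersetCard, mem_sdiff] at h
    simp only [Sigma.mk.injEq, heq_eq_eq, and_true]
    exact erase_insert h.2.2
  · rintro ⟨J, u⟩ h
    simp only [mem_sigma, mem_powersetCard, mem_sdiff] at h
    simp only [Sigma.mk.injEq, heq_eq_eq, and_true]
    exact insert_erase h.2
  · rintro ⟨I, u⟩ h
    rfl

theorem sum_Icc_range (n : ℕ) (f : ℕ → M) :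
    ∑ i ∈ Icc 1 n, f i = ∑ k ∈ range n, f (k + 1) := by
  induction n with
  | zero => simp
  | succ n ih => rw [Finset.sum_Icc_succ_top (by omega), ih, Finset.sum_range_succ]

theorem sum_nonempty {M : Type*} [AddCommGroup M] (U : Finset V) (f : Finset V → M) :
    ∑ I ∈ U.powerset.filter (fun I => I.Nonempty), f I =
      ∑ k ∈ range U.card, ∑ I ∈ U.powersetCard (k + 1), f I := by
  have h1 := Finset.sum_powerset U f
  rw [Finset.sum_range_succ'] at h1
  have h2 := Finset.sum_filter_add_sum_filter_not U.powerset (fun I => I.Nonempty) f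
  have h3 : U.powerset.filter (fun I => ¬ I.Nonempty) = {∅} := by
    ext I
    simp only [mem_filter, mem_powerset, not_nonempty_iff_eq_empty, mem_singleton]
    constructor
    · exact fun h => h.2
    · rintro rfl
      exact ⟨empty_subset _, rfl⟩
  rw [h3, Finset.sum_singleton] at h2
  rw [Finset.powersetCard_zero, Finset.sum_singleton] at h1
  exact add_right_cancel (h2.trans h1)

end sums

section tau
variable {V : Type*} [Fintype V]

theorem tau_nonneg (l : List (Sym2 V)) (U : Finset V) (π : Setoid V) (i : ℕ) :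
    0 ≤ tau l U π i := by
  unfold tau
  refine mul_nonneg (C_nonneg (by positivity)) (Finset.sum_nonneg fun I _ => T_nonneg _ _)

theorem tau_perm {l l' : List (Sym2 V)} (h : l.Perm l') (U : Finset V) (π : Setoid V) (i : ℕ) :
    tau l U π i = tau l' U π i := by
  unfold tau
  congr 1
  exact Finset.sum_congr rfl fun I _ => T_perm h _

theorem tau_one (l : List (Sym2 V)) (U : Finset V) (hU : 0 < U.card) (π : Setoid V) :
    tau l U π 1 = T l π := by
  unfold tau
  have h1 : ∑ I ∈ U.powersetCard 1, T l (π ⊔ gl I) = ∑ _I ∈ U.powersetCard 1, T l π := by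
    refine Finset.sum_congr rfl fun I hI => ?_
    rw [mem_powersetCard] at hI
    obtain ⟨a, rfl⟩ := card_eq_one.1 hI.2
    rw [gl_singleton, sup_bot_eq]
  rw [h1, Finset.sum_const, card_powersetCard, Nat.choose_one_right, nsmul_eq_mul, ← mul_assoc]
  have h2 : (C ((U.card : ℝ)⁻¹) : ℝ[X]) * (U.card : ℝ[X]) = 1 := by
    rw [← C_eq_natCast, ← C_mul, inv_mul_cancel₀ (by positivity), C_1]
  rw [h2, one_mul]


theorem tau_loop (e : Sym2 V) (l : List (Sym2 V)) (U : Finset V) (π : Setoid V) (i : ℕ)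
    (h : pr e ≤ π) : tau (e :: l) U π i = X * tau l U π i := by
  unfold tau
  rw [mul_left_comm, Finset.mul_sum _ _ X]
  congr 1
  exact Finset.sum_congr rfl fun I _ => T_loop _ _ _ (h.trans le_sup_left)

theorem tau_cons (e : Sym2 V) (l : List (Sym2 V)) (U : Finset V) (π : Setoid V) (i : ℕ)
    (hπ : Tr U π) (he : ∀ x ∈ e, x ∉ U) (h : ¬ pr e ≤ π) :
    tau (e :: l) U π i = tau l U π i + tau l U (π ⊔ pr e) i := by
  unfold tau
  rw [← mul_add, ← Finset.sum_add_distrib]
  congr 1
  refine Finset.sum_congr rfl fun I hI => ?_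
  rw [mem_powersetCard] at hI
  rw [T_cons, sup_right_comm]
  rw [pr_le_sup_gl hπ hI.1 he]
  exact h

/-- adding a loop against contracting one more element of `U` -/
theorem X_mul_tau_le [DecidableEq V] (l : List (Sym2 V)) (U : Finset V) (π : Setoid V) (i : ℕ)
    (hπ : Tr U π) (hi : 1 ≤ i) (hiU : i + 1 ≤ U.card) :
    X * tau l U π i ≤ tau l U π i + tau l U π (i + 1) := by
  have h1 : ∀ I ∈ U.powersetCard i, ∀ u ∈ U \ I,
      X * T l (π ⊔ gl I) ≤ T l (π ⊔ gl I) + T l (π ⊔ gl (insert u I)) := by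
    intro I hI u hu
    rw [mem_powersetCard] at hI
    rw [mem_sdiff] at hu
    obtain ⟨i0, hi0⟩ : I.Nonempty := by rw [← card_pos]; omega
    have := X_mul_T_le l (π ⊔ gl I) s(i0, u) (not_pr_le hπ hI.1 hi0 hu.2)
    rwa [sup_gl_insert π I i0 u hi0] at this
  have h2 : (U.card - i) • ∑ I ∈ U.powersetCard i, X * T l (π ⊔ gl I) ≤
      (U.card - i) • ∑ I ∈ U.powersetCard i, T l (π ⊔ gl I) +
      (i + 1) • ∑ J ∈ U.powersetCard (i + 1), T l (π ⊔ gl J) := by
    rw [← sum_const_sdiff, ← sum_const_sdiff, ← sum_insert_sdiff U i (fun J => T l (π ⊔ gl J)),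
      ← Finset.sum_add_distrib]
    refine Finset.sum_le_sum fun I hI => ?_
    rw [← Finset.sum_add_distrib]
    exact Finset.sum_le_sum fun u hu => h1 I hI u hu
  have hc : ((U.card.choose i : ℝ)) * ((U.card - i : ℕ) : ℝ) =
      ((U.card.choose (i + 1) : ℝ)) * ((i + 1 : ℕ) : ℝ) := by
    have := Nat.choose_succ_right_eq U.card i
    exact_mod_cast this.symm
  have hp1 : (0 : ℝ) < (U.card.choose i : ℝ) := by
    exact_mod_cast Nat.choose_pos (by omega)
  have hp2 : (0 : ℝ) < ((U.card - i : ℕ) : ℝ) := by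
    exact_mod_cast (by omega : 0 < U.card - i)
  have hp3 : (0 : ℝ) < (U.card.choose (i + 1) : ℝ) := by
    exact_mod_cast Nat.choose_pos hiU
  have hp4 : (0 : ℝ) < ((i + 1 : ℕ) : ℝ) := by positivity
  set c : ℝ := ((U.card.choose i : ℝ) * ((U.card - i : ℕ) : ℝ))⁻¹ with hcdef
  have hc0 : 0 ≤ c := by positivity
  have h3 := mul_le_mul_of_nonneg_left h2 (C_nonneg hc0)
  have e1 : (C c : ℝ[X]) * ((U.card - i : ℕ) : ℝ[X]) = C ((U.card.choose i : ℝ)⁻¹) := by
    rw [← C_eq_natCast, ← C_mul, hcdef]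
    congr 1
    field_simp
  have e2 : (C c : ℝ[X]) * ((i + 1 : ℕ) : ℝ[X]) = C ((U.card.choose (i + 1) : ℝ)⁻¹) := by
    rw [← C_eq_natCast, ← C_mul, hcdef, hc]
    congr 1
    field_simp
  rw [nsmul_eq_mul, nsmul_eq_mul, nsmul_eq_mul, mul_add, ← mul_assoc, ← mul_assoc, ← mul_assoc,
    e1, e2, ← Finset.mul_sum] at h3
  unfold tau
  calc X * (C ((U.card.choose i : ℝ)⁻¹) * ∑ I ∈ U.powersetCard i, T l (π ⊔ gl I))
      = C ((U.card.choose i : ℝ)⁻¹) * (X * ∑ I ∈ U.powersetCard i, T l (π ⊔ gl I)) := by ring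
    _ ≤ _ := h3

theorem rk_mono_ps [DecidableEq V] (π : Setoid V) (A : Finset (Sym2 V)) :
    rk π ≤ rk (π ⊔ ps A) ∧ rk (π ⊔ ps A) ≤ rk π + A.card := by
  classical
  induction A using Finset.induction_on with
  | empty => rw [ps_empty, sup_bot_eq]; simp
  | insert e A he ih =>
    rw [ps_insert, Finset.card_insert_of_notMem he, ← sup_assoc]
    by_cases h : pr e ≤ π ⊔ ps A
    · rw [sup_eq_left.2 h]; omega
    · rw [rk_sup _ _ h]; omega

theorem tr_ps [DecidableEq V] (U : Finset V) (A : Finset (Sym2 V)) (hA : ∀ e ∈ A, ∀ x ∈ e, x ∉ U) :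
    Tr U (ps A) := by
  classical
  induction A using Finset.induction_on with
  | empty => rw [ps_empty]; exact tr_bot U
  | insert e A he ih =>
    rw [ps_insert]
    exact tr_sup_pr (ih fun f hf => hA f (mem_insert_of_mem hf)) (hA e (mem_insert_self _ _))

end tau

end Pool.Agent.Y373.HV
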