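import Pool.Agent.Y373.HV.Stm
import Pool.Agent.Y373.HV.TauLem

set_option autoImplicit false

/-! `CollapseStm` from `LpStm`, `TeleStm` and `EIStm`. -/

namespace Pool.Agent.Y373.HV

open Polynomial Finset Pool.Agent.Helper291.RelMain Pool.Agent.Helper291.RelDense
  Pool.Agent.Helper291.RelFinal

theorem el_addF_perm {V : Type} [Fintype V] [DecidableEq V] (G : SimpleGraph V)
    (F : Finset (Sym2 V)) (hF : F ⊆ mt G) : (el (addF G F)).Perm (F.toList ++ el G) := by
  classical
  rw [List.perm_ext_iff_of_nodup (el_nodup _)]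
  · intro e
    rw [mem_el, List.mem_append, mem_el, Finset.mem_toList]
    induction e using Sym2.ind with
    | _ x y =>
      rw [SimpleGraph.mem_edgeSet, SimpleGraph.mem_edgeSet, addF_adj]
      constructor
      · rintro ⟨_, h | h⟩
        · exact Or.inr h
        · exact Or.inl h
      · rintro (h | h)
        · exact ⟨(mem_mt.1 (hF h)).1, Or.inr h⟩
        · exact ⟨h.ne, Or.inl h⟩
  · rw [List.nodup_append]
    refine ⟨Finset.nodup_toList _, el_nodup _, ?_⟩
    intro a ha b hb
    rintro rfl
    rw [Finset.mem_toList] at ha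
    rw [mem_el] at hb
    induction a using Sym2.ind with
    | _ x y => exact (mem_mt.1 (hF ha)).2 hb

/-- **CollapseStm** -/
theorem coll (h1 : LpStm) (h2 : TeleStm) (h3 : EIStm) : CollapseStm := by
  intro V _ _ G U F hU hF hc
  have hFU : ∀ e ∈ F, ∀ x ∈ e, x ∉ U := by
    intro e he
    induction e using Sym2.ind with
    | _ x y =>
      have hm := mem_mt.1 (hF he)
      intro z hz hzU
      rcases Sym2.mem_iff.1 hz with rfl | rfl
      · exact hm.2 (hU z hzU y hm.1.symm)
      · exact hm.2 (hU z hzU x hm.1).symm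
  have hFd : ∀ e ∈ F, ¬ e.IsDiag := by
    intro e he
    induction e using Sym2.ind with
    | _ x y =>
      rw [Sym2.mk_isDiag_iff]
      exact (mem_mt.1 (hF he)).1
  rw [T_perm (el_addF_perm G F hF)]
  have a1 := h1 V U F (el G) hFU (by omega)
  have a2 := h2 V F (tau (el G) U) hFd (fun π i => tau_nonneg _ _ _ _) ?_
  · refine a1.trans (a2.trans (le_of_eq ?_))
    rw [sum_nonempty, ← hc]
    refine Finset.sum_congr rfl fun k hk => ?_
    rw [mem_range] at hk
    unfold tau
    rw [← hc, ← mul_assoc, ← C_mul, mul_inv_cancel₀, C_1, one_mul]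
    · refine Finset.sum_congr rfl fun I _ => ?_
      rw [bot_sup_eq]
    · have : 0 < (F.card + 1).choose (k + 1) := Nat.choose_pos (by omega)
      positivity
  · intro A hA e he hne v hv hv'
    have hT : Tr U (ps A) := tr_ps U A fun e he => hFU e (hA he)
    induction e using Sym2.ind with
    | _ a b =>
      exact h3 V G U F.card hc.symm hU (ps A) hT a b (hFU _ he a (by simp)) (hFU _ he b (by simp))
        (fun h => hne ((pr_le_iff _ _ _).2 h)) v hv hv'

end Pool.Agent.Y373.HV
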