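import Mathlib
import Pool.Agent.Y373.HV.Def

set_option autoImplicit false

namespace Pool.Agent.Y373.HV

open Polynomial Finset

section setoid
variable {V : Type*}

theorem pr_iff (a b x y : V) : (pr s(a, b)) x y ↔ x = y ∨ (x = a ∧ y = b) ∨ (x = b ∧ y = a) := by
  show x = y ∨ s(x, y) = s(a, b) ↔ _
  rw [Sym2.eq_iff]

theorem pr_le_iff (s : Setoid V) (a b : V) : pr s(a, b) ≤ s ↔ s a b := by
  constructor
  · intro h
    exact h (show (pr s(a, b)) a b from Or.inr rfl)
  · intro h x y hxy
    have hxy' := (pr_iff a b x y).1 hxy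
    rcases hxy' with rfl | ⟨rfl, rfl⟩ | ⟨rfl, rfl⟩
    · exact s.refl' x
    · exact h
    · exact s.symm' h

theorem sup_pr_iff (s : Setoid V) (a b x y : V) :
    (s ⊔ pr s(a, b)) x y ↔ s x y ∨ (s x a ∧ s b y) ∨ (s x b ∧ s a y) := by
  let t : Setoid V :=
    { r := fun x y => s x y ∨ (s x a ∧ s b y) ∨ (s x b ∧ s a y)
      iseqv :=
        { refl := fun x => Or.inl (s.refl' x)
          symm := fun {x y} h => by
            rcases h with h | ⟨h1, h2⟩ | ⟨h1, h2⟩
            · exact Or.inl (s.symm' h)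
            · exact Or.inr (Or.inr ⟨s.symm' h2, s.symm' h1⟩)
            · exact Or.inr (Or.inl ⟨s.symm' h2, s.symm' h1⟩)
          trans := fun {x y z} h h' => by
            rcases h with h | ⟨h1, h2⟩ | ⟨h1, h2⟩
            · rcases h' with h' | ⟨h3, h4⟩ | ⟨h3, h4⟩
              · exact Or.inl (s.trans' h h')
              · exact Or.inr (Or.inl ⟨s.trans' h h3, h4⟩)
              · exact Or.inr (Or.inr ⟨s.trans' h h3, h4⟩)
            · rcases h' with h' | ⟨h3, h4⟩ | ⟨h3, h4⟩
              · exact Or.inr (Or.inl ⟨h1, s.trans' h2 h'⟩)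
              · exact Or.inr (Or.inl ⟨h1, h4⟩)
              · exact Or.inl (s.trans' h1 h4)
            · rcases h' with h' | ⟨h3, h4⟩ | ⟨h3, h4⟩
              · exact Or.inr (Or.inr ⟨h1, s.trans' h2 h'⟩)
              · exact Or.inl (s.trans' h1 h4)
              · exact Or.inr (Or.inr ⟨h1, h4⟩) } }
  have h1 : s ⊔ pr s(a, b) = t := by
    apply le_antisymm
    · apply sup_le
      · intro x y h; exact Or.inl h
      · rw [pr_le_iff]
        exact Or.inr (Or.inl ⟨s.refl' a, s.refl' b⟩)
    · have hab : (s ⊔ pr s(a, b)) a b :=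
        (le_sup_right : pr s(a, b) ≤ s ⊔ pr s(a, b)) (show (pr s(a, b)) a b from Or.inr rfl)
      have hle : s ≤ s ⊔ pr s(a, b) := le_sup_left
      intro x y h
      rcases h with h | ⟨h1, h2⟩ | ⟨h1, h2⟩
      · exact hle h
      · exact (s ⊔ pr s(a, b)).trans' (hle h1) ((s ⊔ pr s(a, b)).trans' hab (hle h2))
      · exact (s ⊔ pr s(a, b)).trans' (hle h1)
          ((s ⊔ pr s(a, b)).trans' ((s ⊔ pr s(a, b)).symm' hab) (hle h2))
  rw [h1]
  exact Iff.rfl

/-- exchange property -/
theorem pr_exch {s : Setoid V} {e f : Sym2 V} (hf : ¬ pr f ≤ s)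
    (h : pr f ≤ s ⊔ pr e) : s ⊔ pr e = s ⊔ pr f := by
  induction e using Sym2.ind with
  | _ a b =>
    induction f using Sym2.ind with
    | _ c d =>
      rw [pr_le_iff] at hf h
      rw [sup_pr_iff] at h
      apply le_antisymm
      · apply sup_le le_sup_left
        rw [pr_le_iff, sup_pr_iff]
        rcases h with h | ⟨h1, h2⟩ | ⟨h1, h2⟩
        · exact absurd h hf
        · exact Or.inr (Or.inl ⟨s.symm' h1, s.symm' h2⟩)
        · exact Or.inr (Or.inr ⟨h2, h1⟩)
      · apply sup_le le_sup_left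
        rw [pr_le_iff, sup_pr_iff]
        exact h

theorem gl_iff (I : Finset V) (x y : V) : (gl I) x y ↔ x = y ∨ (x ∈ I ∧ y ∈ I) := Iff.rfl

theorem gl_empty : gl (∅ : Finset V) = ⊥ := by
  ext x y
  rw [gl_iff, Setoid.bot_def]
  simp

theorem gl_singleton (a : V) : gl ({a} : Finset V) = ⊥ := by
  ext x y
  rw [gl_iff, Setoid.bot_def]
  simp only [mem_singleton]
  constructor
  · rintro (h | ⟨rfl, rfl⟩)
    · exact h
    · rfl
  · exact Or.inl

/-- gluing one more element -/
theorem gl_insert [DecidableEq V] (I : Finset V) (a b : V) (hb : b ∈ I) :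
    gl (insert a I) = gl I ⊔ pr s(b, a) := by
  ext x y
  rw [sup_pr_iff, gl_iff, gl_iff, gl_iff, gl_iff, gl_iff, gl_iff]
  simp only [mem_insert]
  constructor
  · rintro (h | ⟨h1 | h1, h2 | h2⟩)
    · exact Or.inl (Or.inl h)
    · left; left; rw [h1, h2]
    · subst h1
      exact Or.inr (Or.inr ⟨Or.inl rfl, Or.inr ⟨hb, h2⟩⟩)
    · subst h2
      exact Or.inr (Or.inl ⟨Or.inr ⟨h1, hb⟩, Or.inl rfl⟩)
    · exact Or.inl (Or.inr ⟨h1, h2⟩)
  · rintro ((h | ⟨h1, h2⟩) | ⟨h1 | ⟨h1, h1'⟩, h2 | ⟨h2, h2'⟩⟩ | ⟨h1 | ⟨h1, h1'⟩, h2 | ⟨h2, h2'⟩⟩)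
    · exact Or.inl h
    · exact Or.inr ⟨Or.inr h1, Or.inr h2⟩
    · subst h1; subst h2; exact Or.inr ⟨Or.inr hb, Or.inl rfl⟩
    · subst h1; exact Or.inr ⟨Or.inr hb, Or.inr h2'⟩
    · subst h2; exact Or.inr ⟨Or.inr h1, Or.inl rfl⟩
    · exact Or.inr ⟨Or.inr h1, Or.inr h2'⟩
    · subst h1; subst h2; exact Or.inr ⟨Or.inl rfl, Or.inr hb⟩
    · subst h1; exact Or.inr ⟨Or.inl rfl, Or.inr h2'⟩
    · subst h2; exact Or.inr ⟨Or.inr h1, Or.inr hb⟩
    · exact Or.inr ⟨Or.inr h1, Or.inr h2'⟩

theorem ps_empty : ps (∅ : Finset (Sym2 V)) = ⊥ := by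
  rfl

theorem ps_insert [DecidableEq (Sym2 V)] (A : Finset (Sym2 V)) (e : Sym2 V) :
    ps (insert e A) = ps A ⊔ pr e := by
  classical
  unfold ps
  rw [Finset.sup_insert, sup_comm]

end setoid

section tc
variable {V : Type*}

theorem tc_nonneg (B : Finset V) (l : List (Sym2 V)) (s : Setoid V) : 0 ≤ tc B l s := by
  induction l generalizing s with
  | nil => simp only [tc]; split_ifs; exacts [zero_le_one, le_rfl]
  | cons e l ih =>
    simp only [tc]
    split_ifs
    · exact ih s
    · exact mul_nonneg X_nonneg (ih s)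
    · exact add_nonneg (ih s) (ih _)

theorem tc_skip (B : Finset V) (e : Sym2 V) (l : List (Sym2 V)) (s : Setoid V)
    (h : ∃ x ∈ e, x ∉ B) : tc B (e :: l) s = tc B l s := by
  simp only [tc]; rw [if_pos h]

theorem tc_loop (B : Finset V) (e : Sym2 V) (l : List (Sym2 V)) (s : Setoid V)
    (h : ∀ x ∈ e, x ∈ B) (h2 : pr e ≤ s) : tc B (e :: l) s = X * tc B l s := by
  simp only [tc]; rw [if_neg (by push Not; exact h), if_pos h2]

theorem tc_cons (B : Finset V) (e : Sym2 V) (l : List (Sym2 V)) (s : Setoid V)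
    (h : ∀ x ∈ e, x ∈ B) (h2 : ¬ pr e ≤ s) :
    tc B (e :: l) s = tc B l s + tc B l (s ⊔ pr e) := by
  simp only [tc]; rw [if_neg (by push Not; exact h), if_neg h2]

theorem tc_swap (B : Finset V) (x y : Sym2 V) (l : List (Sym2 V)) (s : Setoid V) :
    tc B (y :: x :: l) s = tc B (x :: y :: l) s := by
  by_cases hx : ∃ z ∈ x, z ∉ B
  · rw [tc_skip B x (y :: l) s hx]
    by_cases hy : ∃ z ∈ y, z ∉ B
    · rw [tc_skip B y (x :: l) s hy, tc_skip B y l s hy, tc_skip B x l s hx]
    · push Not at hy
      by_cases h : pr y ≤ s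
      · rw [tc_loop B y _ s hy h, tc_loop B y _ s hy h, tc_skip B x l s hx]
      · rw [tc_cons B y _ s hy h, tc_cons B y _ s hy h, tc_skip B x l s hx, tc_skip B x l _ hx]
  · by_cases hy : ∃ z ∈ y, z ∉ B
    · rw [tc_skip B y (x :: l) s hy]
      push Not at hx
      by_cases h : pr x ≤ s
      · rw [tc_loop B x _ s hx h, tc_loop B x _ s hx h, tc_skip B y l s hy]
      · rw [tc_cons B x _ s hx h, tc_cons B x _ s hx h, tc_skip B y l s hy, tc_skip B y l _ hy]
    · push Not at hx hy
      by_cases h1 : pr x ≤ s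
      · by_cases h2 : pr y ≤ s
        · rw [tc_loop B y _ s hy h2, tc_loop B x _ s hx h1, tc_loop B x _ s hx h1,
            tc_loop B y _ s hy h2]
        · rw [tc_cons B y _ s hy h2, tc_loop B x _ s hx h1, tc_loop B x _ _ hx (h1.trans le_sup_left),
            tc_loop B x _ s hx h1, tc_cons B y _ s hy h2]
          ring
      · by_cases h2 : pr y ≤ s
        · rw [tc_loop B y _ s hy h2, tc_cons B x _ s hx h1, tc_cons B x _ s hx h1,
            tc_loop B y _ s hy h2, tc_loop B y _ _ hy (h2.trans le_sup_left)]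
          ring
        · rw [tc_cons B y _ s hy h2, tc_cons B x _ s hx h1, tc_cons B x _ s hx h1,
            tc_cons B y _ s hy h2]
          by_cases h3 : pr x ≤ s ⊔ pr y
          · have h4 := pr_exch h1 h3
            have h5 : pr y ≤ s ⊔ pr x := h4 ▸ le_sup_right
            rw [tc_loop B x _ _ hx h3, tc_loop B y _ _ hy h5, h4]
          · have h5 : ¬ pr y ≤ s ⊔ pr x := by
              intro h
              exact h3 ((pr_exch h2 h) ▸ le_sup_right)
            rw [tc_cons B x _ _ hx h3, tc_cons B y _ _ hy h5, sup_right_comm]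
            ring

theorem tc_perm (B : Finset V) {l l' : List (Sym2 V)} (h : l.Perm l') (s : Setoid V) :
    tc B l s = tc B l' s := by
  induction h generalizing s with
  | nil => rfl
  | cons x _ ih =>
    simp only [tc]
    rw [ih s, ih (s ⊔ pr x)]
  | swap x y l => exact tc_swap B x y l s
  | trans _ _ ih1 ih2 => exact (ih1 s).trans (ih2 s)

/-- if `B` is not a union of blocks then `tc` vanishes -/
theorem tc_not_closed (B : Finset V) (l : List (Sym2 V)) (s : Setoid V) (x y : V)
    (hx : x ∈ B) (hy : y ∉ B) (h : s x y) : tc B l s = 0 := by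
  induction l generalizing s with
  | nil =>
    simp only [tc]
    rw [if_neg]
    intro hcon
    exact hy ((hcon x hx y).1 h)
  | cons e l ih =>
    simp only [tc]
    split_ifs
    · exact ih s h
    · rw [ih s h, mul_zero]
    · rw [ih s h, ih _ ((le_sup_left : s ≤ s ⊔ pr e) h), add_zero]

/-- edges which agree modulo `s` -/
theorem tc_mod (B : Finset V) (l : List (Sym2 V)) (s : Setoid V) (a b a' b' : V)
    (ha : s a a') (hb : s b b') : tc B (s(a, b) :: l) s = tc B (s(a', b') :: l) s := by
  by_cases hB : ∀ x ∈ B, ∀ y, s x y → y ∈ B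
  · have h1 : (∃ x ∈ s(a, b), x ∉ B) ↔ (∃ x ∈ s(a', b'), x ∉ B) := by
      have ea : a ∈ B ↔ a' ∈ B := ⟨fun h => hB a h a' ha, fun h => hB a' h a (s.symm' ha)⟩
      have eb : b ∈ B ↔ b' ∈ B := ⟨fun h => hB b h b' hb, fun h => hB b' h b (s.symm' hb)⟩
      simp only [Sym2.mem_iff, exists_eq_or_imp, exists_eq_left, ea, eb]
    have h2 : pr s(a, b) ≤ s ↔ pr s(a', b') ≤ s := by
      rw [pr_le_iff, pr_le_iff]
      exact ⟨fun h => s.trans' (s.symm' ha) (s.trans' h hb),
        fun h => s.trans' ha (s.trans' h (s.symm' hb))⟩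
    have h3 : s ⊔ pr s(a, b) = s ⊔ pr s(a', b') := by
      ext x y
      rw [sup_pr_iff, sup_pr_iff]
      have e1 : ∀ x, s x a ↔ s x a' := fun x =>
        ⟨fun h => s.trans' h ha, fun h => s.trans' h (s.symm' ha)⟩
      have e2 : ∀ x, s x b ↔ s x b' := fun x =>
        ⟨fun h => s.trans' h hb, fun h => s.trans' h (s.symm' hb)⟩
      have e3 : ∀ y, s b y ↔ s b' y := fun y =>
        ⟨fun h => s.trans' (s.symm' hb) h, fun h => s.trans' hb h⟩
      have e4 : ∀ y, s a y ↔ s a' y := fun y =>
        ⟨fun h => s.trans' (s.symm' ha) h, fun h => s.trans' ha h⟩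
      rw [e1, e2, e3, e4]
    simp only [tc, h3]
    by_cases c1 : ∃ x ∈ s(a, b), x ∉ B
    · rw [if_pos c1, if_pos (h1.1 c1)]
    · rw [if_neg c1, if_neg (fun h => c1 (h1.2 h))]
      by_cases c2 : pr s(a, b) ≤ s
      · rw [if_pos c2, if_pos (h2.1 c2)]
      · rw [if_neg c2, if_neg (fun h => c2 (h2.2 h))]
  · push Not at hB
    obtain ⟨x, hx, y, hxy, hy⟩ := hB
    rw [tc_not_closed B _ s x y hx hy hxy, tc_not_closed B _ s x y hx hy hxy]

/-- adding a non-loop is at least adding a loop -/
theorem X_mul_tc_le (B : Finset V) (l : List (Sym2 V)) (s : Setoid V) (e : Sym2 V)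
    (h : ∀ x ∈ e, x ∈ B) (h2 : ¬ pr e ≤ s) :
    X * tc B l s ≤ tc B l s + tc B l (s ⊔ pr e) := by
  induction l generalizing s with
  | nil =>
    have h0 : tc B [] s = 0 := by
      simp only [tc]
      rw [if_neg]
      intro hcon
      apply h2
      induction e using Sym2.ind with
      | _ a b =>
        rw [pr_le_iff]
        exact (hcon a (h a (by simp)) b).2 (h b (by simp))
    rw [h0, mul_zero, zero_add]
    exact tc_nonneg _ _ _
  | cons f l ih =>
    by_cases hf : ∃ x ∈ f, x ∉ B
    · rw [tc_skip B f l s hf, tc_skip B f l _ hf]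
      exact ih s h2
    · push Not at hf
      by_cases h3 : pr f ≤ s
      · rw [tc_loop B f l s hf h3, tc_loop B f l _ hf (h3.trans le_sup_left), ← mul_add]
        exact mul_le_mul_of_nonneg_left (ih s h2) X_nonneg
      · rw [tc_cons B f l s hf h3]
        by_cases h4 : pr f ≤ s ⊔ pr e
        · have h5 := pr_exch h3 h4
          rw [tc_loop B f l _ hf h4, mul_add, h5]
          have h6 := ih s h2
          rw [h5] at h6
          exact add_le_add h6 le_rfl
        · have h5 : ¬ pr e ≤ s ⊔ pr f := by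
            intro h
            exact h4 ((pr_exch h2 h) ▸ le_sup_right)
          rw [tc_cons B f l _ hf h4, mul_add, sup_right_comm]
          calc X * tc B l s + X * tc B l (s ⊔ pr f)
              ≤ (tc B l s + tc B l (s ⊔ pr e)) +
                (tc B l (s ⊔ pr f) + tc B l (s ⊔ pr f ⊔ pr e)) :=
                add_le_add (ih s h2) (ih _ h5)
            _ = _ := by ring

theorem tc_replicate_loop (B : Finset V) (e : Sym2 V) (n : ℕ) (l : List (Sym2 V)) (s : Setoid V)
    (h : ∀ x ∈ e, x ∈ B) (h2 : pr e ≤ s) :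
    tc B (List.replicate n e ++ l) s = X ^ n * tc B l s := by
  induction n with
  | zero => simp
  | succ n ih =>
    rw [List.replicate_succ, List.cons_append, tc_loop B e _ s h h2, ih]
    ring

/-- parallel edges -/
theorem tc_replicate (B : Finset V) (e : Sym2 V) (n : ℕ) (l : List (Sym2 V)) (s : Setoid V)
    (h : ∀ x ∈ e, x ∈ B) (h2 : ¬ pr e ≤ s) :
    tc B (List.replicate n e ++ l) s =
      tc B l s + (∑ i ∈ range n, X ^ i) * tc B l (s ⊔ pr e) := by
  induction n with
  | zero => simp
  | succ n ih =>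
    rw [List.replicate_succ, List.cons_append, tc_cons B e _ s h h2, ih,
      tc_replicate_loop B e n l _ h le_sup_right, sum_range_succ]
    ring

theorem sup_away (s : Setoid V) (w a b x : V) (ha : ¬ s w a) (hb : ¬ s w b) :
    (s ⊔ pr s(a, b)) w x ↔ s w x := by
  rw [sup_pr_iff]
  constructor
  · rintro (h | ⟨h, _⟩ | ⟨h, _⟩)
    · exact h
    · exact absurd h ha
    · exact absurd h hb
  · exact Or.inl

/-- the block of `w` is isolated -/
theorem tc_isolated (B : Finset V) (l : List (Sym2 V)) (s : Setoid V) (w v : V)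
    (hw : w ∈ B) (hv : v ∈ B) (hwv : ¬ s w v) (hl : ∀ e ∈ l, ∀ x ∈ e, ¬ s w x) :
    tc B l s = 0 := by
  induction l generalizing s with
  | nil =>
    simp only [tc]
    rw [if_neg]
    intro hcon
    exact hwv ((hcon w hw v).2 hv)
  | cons e l ih =>
    have hl' : ∀ e ∈ l, ∀ x ∈ e, ¬ s w x := fun e he => hl e (List.mem_cons_of_mem _ he)
    simp only [tc]
    split_ifs
    · exact ih s hwv hl'
    · rw [ih s hwv hl', mul_zero]
    · rw [ih s hwv hl', zero_add]
      have he := hl e (List.mem_cons_self)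
      induction e using Sym2.ind with
      | _ a b =>
        have ha := he a (by simp)
        have hb := he b (by simp)
        apply ih
        · rw [sup_away s w a b v ha hb]; exact hwv
        · intro e he x hx
          rw [sup_away s w a b x ha hb]
          exact hl' e he x hx

/-- the block of `w`, untouched by `l`, is absorbed by another block -/
theorem tc_absorb (B : Finset V) (l : List (Sym2 V)) (s : Setoid V) (w a b : V)
    (hw : w ∈ B) (ha : a ∈ B) (hb : b ∈ B)
    (hwa : ¬ s w a) (hwb : ¬ s w b) (hl : ∀ e ∈ l, ∀ x ∈ e, ¬ s w x) :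
    tc B l (s ⊔ pr s(a, w)) = tc B l (s ⊔ pr s(b, w)) := by
  induction l generalizing s with
  | nil =>
    by_cases hab : s a b
    · have h3 : s ⊔ pr s(a, w) = s ⊔ pr s(b, w) := by
        ext x y
        rw [sup_pr_iff, sup_pr_iff]
        have e1 : ∀ x, s x a ↔ s x b := fun x =>
          ⟨fun h => s.trans' h hab, fun h => s.trans' h (s.symm' hab)⟩
        have e4 : ∀ y, s a y ↔ s b y := fun y =>
          ⟨fun h => s.trans' (s.symm' hab) h, fun h => s.trans' hab h⟩
        rw [e1, e4]
      rw [h3]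
    · have key : ∀ a b, a ∈ B → b ∈ B → ¬ s w b → ¬ s a b → tc B [] (s ⊔ pr s(a, w)) = 0 := by
        intro a b ha hb hwb hab
        simp only [tc]
        rw [if_neg]
        intro hcon
        have h := (hcon b hb a).2 ha
        rw [sup_pr_iff] at h
        rcases h with h | ⟨h, _⟩ | ⟨h, _⟩
        · exact hab (s.symm' h)
        · exact hab (s.symm' h)
        · exact hwb (s.symm' h)
      rw [key a b ha hb hwb hab, key b a hb ha hwa (fun h => hab (s.symm' h))]
  | cons e l ih =>
    have hl' : ∀ e ∈ l, ∀ x ∈ e, ¬ s w x := fun e he => hl e (List.mem_cons_of_mem _ he)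
    have he := hl e (List.mem_cons_self)
    induction e using Sym2.ind with
    | _ c d =>
      have hc := he c (by simp)
      have hd := he d (by simp)
      have key : ∀ a, (s ⊔ pr s(a, w)) c d ↔ s c d := by
        intro a
        rw [sup_pr_iff]
        constructor
        · rintro (h | ⟨_, h⟩ | ⟨h, _⟩)
          · exact h
          · exact absurd h hd
          · exact absurd (s.symm' h) hc
        · exact Or.inl
      by_cases h1 : ∃ x ∈ s(c, d), x ∉ B
      · rw [tc_skip B _ l _ h1, tc_skip B _ l _ h1]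
        exact ih s hwa hwb hl'
      · push Not at h1
        by_cases h2 : s c d
        · rw [tc_loop B _ l _ h1 ((pr_le_iff _ _ _).2 ((key a).2 h2)),
            tc_loop B _ l _ h1 ((pr_le_iff _ _ _).2 ((key b).2 h2)), ih s hwa hwb hl']
        · rw [tc_cons B _ l _ h1 (fun h => h2 ((key a).1 ((pr_le_iff _ _ _).1 h))),
            tc_cons B _ l _ h1 (fun h => h2 ((key b).1 ((pr_le_iff _ _ _).1 h))),
            ih s hwa hwb hl', sup_right_comm, sup_right_comm s (pr s(b, w))]
          rw [ih (s ⊔ pr s(c, d))]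
          · rw [sup_away s w c d a hc hd]; exact hwa
          · rw [sup_away s w c d b hc hd]; exact hwb
          · intro e he x hx
            rw [sup_away s w c d x hc hd]
            exact hl' e he x hx

/-- the block of `w`, untouched by `l`, is absorbed by another block, and may be deleted -/
theorem tc_absorb_del (B D : Finset V) (l : List (Sym2 V)) (s : Setoid V) (w a : V)
    (hw : w ∈ B) (ha : a ∈ B) (hB : ∀ x ∈ B, ∀ y, s x y → y ∈ B)
    (hwa : ¬ s w a) (hl : ∀ e ∈ l, ∀ x ∈ e, ¬ s w x) (hD : ∀ x, x ∈ D ↔ x ∈ B ∧ ¬ s w x) :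
    tc B l (s ⊔ pr s(a, w)) = tc D l s := by
  induction l generalizing s with
  | nil =>
    simp only [tc]
    suffices hiff : (∀ x ∈ B, ∀ y, (s ⊔ pr s(a, w)) x y ↔ y ∈ B) ↔
        (∀ x ∈ D, ∀ y, s x y ↔ y ∈ D) by
      by_cases c1 : ∀ x ∈ B, ∀ y, (s ⊔ pr s(a, w)) x y ↔ y ∈ B
      · rw [if_pos c1, if_pos (hiff.1 c1)]
      · rw [if_neg c1, if_neg (fun h => c1 (hiff.2 h))]
    have key : ∀ x y, x ∈ D → (¬ s w y) → ((s ⊔ pr s(a, w)) x y ↔ s x y) := by
      intro x y hx hy
      rw [sup_pr_iff]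
      constructor
      · rintro (h | ⟨_, h⟩ | ⟨h, _⟩)
        · exact h
        · exact absurd h hy
        · exact absurd (s.symm' h) ((hD x).1 hx).2
      · exact Or.inl
    have haD : a ∈ D := (hD a).2 ⟨ha, hwa⟩
    constructor
    · intro h x hx y
      by_cases hy : s w y
      · constructor
        · intro hxy
          exact absurd (s.trans' hy (s.symm' hxy)) ((hD x).1 hx).2
        · intro hyD
          exact absurd hy ((hD y).1 hyD).2
      · rw [← key x y hx hy, h x ((hD x).1 hx).1 y, hD]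
        exact ⟨fun h => ⟨h, hy⟩, fun h => h.1⟩
    · intro h
      -- every element of `D` is `s`-related to `a`
      have hDa : ∀ x, x ∈ D → s a x := fun x hx => (h a haD x).2 hx
      have hall : ∀ x ∈ B, (s ⊔ pr s(a, w)) a x := by
        intro x hx
        by_cases hwx : s w x
        · rw [sup_pr_iff]
          exact Or.inr (Or.inl ⟨s.refl' a, hwx⟩)
        · exact (le_sup_left : s ≤ s ⊔ pr s(a, w)) (hDa x ((hD x).2 ⟨hx, hwx⟩))
      intro x hx y
      constructor
      · intro hxy
        have hay := (s ⊔ pr s(a, w)).trans' (hall x hx) hxy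
        rw [sup_pr_iff] at hay
        rcases hay with h1 | ⟨_, h1⟩ | ⟨h1, _⟩
        · exact hB a ha y h1
        · exact hB w hw y h1
        · exact absurd (s.symm' h1) hwa
      · intro hy
        exact (s ⊔ pr s(a, w)).trans' ((s ⊔ pr s(a, w)).symm' (hall x hx)) (hall y hy)
  | cons e l ih =>
    have hl' : ∀ e ∈ l, ∀ x ∈ e, ¬ s w x := fun e he => hl e (List.mem_cons_of_mem _ he)
    have he := hl e (List.mem_cons_self)
    induction e using Sym2.ind with
    | _ c d =>
      have hc := he c (by simp)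
      have hd := he d (by simp)
      have key : (s ⊔ pr s(a, w)) c d ↔ s c d := by
        rw [sup_pr_iff]
        constructor
        · rintro (h | ⟨_, h⟩ | ⟨h, _⟩)
          · exact h
          · exact absurd h hd
          · exact absurd (s.symm' h) hc
        · exact Or.inl
      have hBD : (∃ x ∈ s(c, d), x ∉ B) ↔ (∃ x ∈ s(c, d), x ∉ D) := by
        constructor
        · rintro ⟨x, hx, hxB⟩
          exact ⟨x, hx, fun h => hxB ((hD x).1 h).1⟩
        · rintro ⟨x, hx, hxB⟩
          exact ⟨x, hx, fun h => hxB ((hD x).2 ⟨h, he x hx⟩)⟩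
      by_cases h1 : ∃ x ∈ s(c, d), x ∉ B
      · rw [tc_skip B _ l _ h1, tc_skip D _ l _ (hBD.1 h1)]
        exact ih s hB hwa hl' hD
      · have h1' : ¬ ∃ x ∈ s(c, d), x ∉ D := fun h => h1 (hBD.2 h)
        push Not at h1 h1'
        by_cases h2 : s c d
        · rw [tc_loop B _ l _ h1 ((pr_le_iff _ _ _).2 (key.2 h2)),
            tc_loop D _ l _ h1' ((pr_le_iff _ _ _).2 h2), ih s hB hwa hl' hD]
        · rw [tc_cons B _ l _ h1 (fun h => h2 (key.1 ((pr_le_iff _ _ _).1 h))),
            tc_cons D _ l _ h1' (fun h => h2 ((pr_le_iff _ _ _).1 h)),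
            ih s hB hwa hl' hD, sup_right_comm]
          rw [ih (s ⊔ pr s(c, d))]
          · intro x hx y hxy
            rw [sup_pr_iff] at hxy
            rcases hxy with h | ⟨_, h⟩ | ⟨_, h⟩
            · exact hB x hx y h
            · exact hB d (h1 d (by simp)) y h
            · exact hB c (h1 c (by simp)) y h
          · rw [sup_away s w c d a hc hd]; exact hwa
          · intro e he x hx
            rw [sup_away s w c d x hc hd]
            exact hl' e he x hx
          · intro x
            rw [sup_away s w c d x hc hd]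
            exact hD x

end tc

section T
variable {V : Type*} [Fintype V]

theorem T_nonneg (l : List (Sym2 V)) (s : Setoid V) : 0 ≤ T l s := tc_nonneg _ _ _

theorem T_nil (s : Setoid V) : T [] s = 1 ↔ s = ⊤ := by
  have h1 : (∀ x ∈ (univ : Finset V), ∀ y, s x y ↔ y ∈ (univ : Finset V)) ↔ s = ⊤ := by
    constructor
    · intro h
      ext x y
      simp only [mem_univ, iff_true] at h
      simp [h x trivial y, Setoid.top_def]
    · rintro rfl x _ y
      simp [Setoid.top_def]
  unfold T
  simp only [tc]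
  by_cases c1 : ∀ x ∈ (univ : Finset V), ∀ y, s x y ↔ y ∈ (univ : Finset V)
  · rw [if_pos c1]; simp [h1.1 c1]
  · rw [if_neg c1]
    constructor
    · intro h; exact absurd h zero_ne_one
    · intro h; exact absurd (h1.2 h) c1

theorem T_perm {l l' : List (Sym2 V)} (h : l.Perm l') (s : Setoid V) : T l s = T l' s :=
  tc_perm _ h s

theorem T_loop (e : Sym2 V) (l : List (Sym2 V)) (s : Setoid V) (h2 : pr e ≤ s) :
    T (e :: l) s = X * T l s := tc_loop _ _ _ _ (fun _ _ => mem_univ _) h2

theorem T_cons (e : Sym2 V) (l : List (Sym2 V)) (s : Setoid V) (h2 : ¬ pr e ≤ s) :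
    T (e :: l) s = T l s + T l (s ⊔ pr e) := tc_cons _ _ _ _ (fun _ _ => mem_univ _) h2

theorem X_mul_T_le (l : List (Sym2 V)) (s : Setoid V) (e : Sym2 V) (h2 : ¬ pr e ≤ s) :
    X * T l s ≤ T l s + T l (s ⊔ pr e) := X_mul_tc_le _ _ _ _ (fun _ _ => mem_univ _) h2

/-- quotients -/
theorem tc_quot {W : Type*} [Fintype W] (f : V → W) (hf : Function.Surjective f)
    (l : List (Sym2 V)) (s : Setoid W) (B : Finset V) (B' : Finset W)
    (hB : ∀ x, x ∈ B ↔ f x ∈ B') :
    tc B l (Setoid.comap f s) = tc B' (l.map (Sym2.map f)) s := by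
  induction l generalizing s with
  | nil =>
    rw [List.map_nil]
    simp only [tc]
    have h1 : (∀ x ∈ B, ∀ y, (Setoid.comap f s) x y ↔ y ∈ B) ↔
        (∀ x ∈ B', ∀ y, s x y ↔ y ∈ B') := by
      constructor
      · intro h x hx y
        obtain ⟨x, rfl⟩ := hf x
        obtain ⟨y, rfl⟩ := hf y
        rw [← hB y, ← h x ((hB x).2 hx) y]
        exact (Setoid.comap_rel f s x y).symm
      · intro h x hx y
        rw [hB y, ← h (f x) ((hB x).1 hx) (f y)]
        exact Setoid.comap_rel f s x y
    by_cases c1 : ∀ x ∈ B, ∀ y, (Setoid.comap f s) x y ↔ y ∈ B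
    · rw [if_pos c1, if_pos (h1.1 c1)]
    · rw [if_neg c1, if_neg (fun h => c1 (h1.2 h))]
  | cons e l ih =>
    induction e using Sym2.ind with
    | _ a b =>
      have e1 : Setoid.comap f s ⊔ pr s(a, b) = Setoid.comap f (s ⊔ pr s(f a, f b)) := by
        ext x y
        rw [sup_pr_iff]
        show _ ↔ (s ⊔ pr s(f a, f b)) (f x) (f y)
        rw [sup_pr_iff]
        rfl
      have e2 : pr s(a, b) ≤ Setoid.comap f s ↔ pr s(f a, f b) ≤ s := by
        rw [pr_le_iff, pr_le_iff]
        exact Setoid.comap_rel f s a b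
      have e3 : (∃ x ∈ s(a, b), x ∉ B) ↔ (∃ x ∈ s(f a, f b), x ∉ B') := by
        simp only [Sym2.mem_iff, exists_eq_or_imp, exists_eq_left, hB]
      rw [List.map_cons, Sym2.map_mk]
      by_cases c1 : ∃ x ∈ s(a, b), x ∉ B
      · rw [tc_skip B _ _ _ c1, tc_skip B' _ _ _ (e3.1 c1), ih s]
      · have c1' : ¬ ∃ x ∈ s(f a, f b), x ∉ B' := fun h => c1 (e3.2 h)
        push Not at c1 c1'
        by_cases c2 : pr s(a, b) ≤ Setoid.comap f s
        · rw [tc_loop B _ _ _ c1 c2, tc_loop B' _ _ _ c1' (e2.1 c2), ih s]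
        · rw [tc_cons B _ _ _ c1 c2, tc_cons B' _ _ _ c1' (fun h => c2 (e2.2 h)), ih s, e1, ih]

theorem T_quot {W : Type*} [Fintype W] (f : V → W) (hf : Function.Surjective f)
    (l : List (Sym2 V)) (s : Setoid W) :
    T l (Setoid.comap f s) = T (l.map (Sym2.map f)) s :=
  tc_quot f hf l s _ _ (fun _ => by simp)

theorem mem_el (G : SimpleGraph V) (e : Sym2 V) : e ∈ el G ↔ e ∈ G.edgeSet := by
  classical
  unfold el
  simp

theorem el_nodup (G : SimpleGraph V) : (el G).Nodup := by
  classical
  unfold el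
  exact Finset.nodup_toList _

open Classical in
/-- the quotient by one more pair has one element less -/
theorem card_quot_sup (s : Setoid V) (e : Sym2 V) (h : ¬ pr e ≤ s) :
    Nat.card (Quotient s) = Nat.card (Quotient (s ⊔ pr e)) + 1 := by
  induction e using Sym2.ind with
  | _ a b =>
    rw [pr_le_iff] at h
    let g : {q : Quotient s // q ≠ Quotient.mk s b} → Quotient (s ⊔ pr s(a, b)) := fun q =>
      Quotient.map' (s₁ := s) (s₂ := s ⊔ pr s(a, b)) id
        (fun x y hxy => (le_sup_left : s ≤ s ⊔ pr s(a, b)) hxy) q.1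
    have hg : Function.Bijective g := by
      constructor
      · rintro ⟨q, hq⟩ ⟨r, hr⟩ heq
        obtain ⟨x, rfl⟩ := Quotient.exists_rep q
        obtain ⟨y, rfl⟩ := Quotient.exists_rep r
        have h1 : (s ⊔ pr s(a, b)) x y := Quotient.exact heq
        have hx : ¬ s x b := fun h => hq (Quotient.sound h)
        have hy : ¬ s y b := fun h => hr (Quotient.sound h)
        rw [sup_pr_iff] at h1
        apply Subtype.ext
        rcases h1 with h1 | ⟨_, h1⟩ | ⟨h1, _⟩
        · exact Quotient.sound h1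
        · exact absurd (s.symm' h1) hy
        · exact absurd h1 hx
      · intro q
        obtain ⟨x, rfl⟩ := Quotient.exists_rep q
        by_cases hx : s x b
        · refine ⟨⟨Quotient.mk s a, fun h' => h (Quotient.exact h')⟩, ?_⟩
          apply Quotient.sound
          show (s ⊔ pr s(a, b)) a x
          rw [sup_pr_iff]
          exact Or.inr (Or.inl ⟨s.refl' a, s.symm' hx⟩)
        · exact ⟨⟨Quotient.mk s x, fun h' => hx (Quotient.exact h')⟩, rfl⟩
    rw [← Nat.card_congr (Equiv.ofBijective g hg), Nat.card_eq_fintype_card,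
      Nat.card_eq_fintype_card]
    have := Fintype.card_subtype_compl (fun q : Quotient s => q = Quotient.mk s b)
    rw [Fintype.card_subtype_eq] at this
    have hpos : 0 < Fintype.card (Quotient s) := Fintype.card_pos_iff.2 ⟨Quotient.mk s b⟩
    have h' : Fintype.card {q : Quotient s // q ≠ Quotient.mk s b} =
        Fintype.card (Quotient s) - 1 := this
    omega

theorem card_quot_le (s : Setoid V) : Nat.card (Quotient s) ≤ Fintype.card V := by
  classical
  rw [Nat.card_eq_fintype_card]
  exact Fintype.card_le_of_surjective _ Quotient.mk_surjective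

theorem rk_bot : rk (⊥ : Setoid V) = 0 := by
  classical
  unfold rk
  have : Nat.card (Quotient (⊥ : Setoid V)) = Fintype.card V := by
    rw [Nat.card_eq_fintype_card]
    apply le_antisymm
    · exact Fintype.card_le_of_surjective _ Quotient.mk_surjective
    · apply Fintype.card_le_of_injective (Quotient.mk (⊥ : Setoid V))
      intro x y hxy
      exact Quotient.exact hxy
  rw [this]
  simp

theorem rk_sup (s : Setoid V) (e : Sym2 V) (h : ¬ pr e ≤ s) : rk (s ⊔ pr e) = rk s + 1 := by
  have h1 := card_quot_sup s e h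
  have h2 := card_quot_le s
  unfold rk
  omega

theorem rk_ps_le (A : Finset (Sym2 V)) : rk (ps A) ≤ A.card := by
  classical
  induction A using Finset.induction_on with
  | empty => rw [ps_empty, rk_bot]; simp
  | insert e A he ih =>
    rw [ps_insert, Finset.card_insert_of_notMem he]
    by_cases h : pr e ≤ ps A
    · rw [sup_eq_left.2 h]; omega
    · rw [rk_sup _ _ h]; omega

theorem nb_sup (s : Setoid V) (B : Finset V) (e : Sym2 V) (he : ∀ x ∈ e, x ∈ B)
    (h : ¬ pr e ≤ s) : nb s B = nb (s ⊔ pr e) B + 1 := by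
  classical
  induction e using Sym2.ind with
  | _ a b =>
    have ha := he a (by simp)
    have hb := he b (by simp)
    rw [pr_le_iff] at h
    unfold nb
    let g : Quotient s → Quotient (s ⊔ pr s(a, b)) :=
      Quotient.map' (s₁ := s) (s₂ := s ⊔ pr s(a, b)) id
        (fun x y hxy => (le_sup_left : s ≤ s ⊔ pr s(a, b)) hxy)
    have h1 : B.image (fun x => Quotient.mk (s ⊔ pr s(a, b)) x) =
        ((B.image (fun x => Quotient.mk s x)).erase (Quotient.mk s b)).image g := by
      ext q
      simp only [mem_image, mem_erase, ne_eq]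
      constructor
      · rintro ⟨x, hx, rfl⟩
        by_cases hxb : s x b
        · refine ⟨Quotient.mk s a, ⟨fun h' => h (Quotient.exact h'), a, ha, rfl⟩, ?_⟩
          apply Quotient.sound
          show (s ⊔ pr s(a, b)) a x
          rw [sup_pr_iff]
          exact Or.inr (Or.inl ⟨s.refl' a, s.symm' hxb⟩)
        · exact ⟨Quotient.mk s x, ⟨fun h' => hxb (Quotient.exact h'), x, hx, rfl⟩, rfl⟩
      · rintro ⟨_, ⟨_, x, hx, rfl⟩, rfl⟩
        exact ⟨x, hx, rfl⟩
    have h2 : (((B.image (fun x => Quotient.mk s x)).erase (Quotient.mk s b)).image g).card =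
        ((B.image (fun x => Quotient.mk s x)).erase (Quotient.mk s b)).card := by
      apply Finset.card_image_of_injOn
      intro q hq r hr heq
      have hq' := (Finset.mem_erase.1 hq).1
      have hr' := (Finset.mem_erase.1 hr).1
      obtain ⟨x, rfl⟩ := Quotient.exists_rep q
      obtain ⟨y, rfl⟩ := Quotient.exists_rep r
      have h1 : (s ⊔ pr s(a, b)) x y := Quotient.exact heq
      have hx : ¬ s x b := fun h => hq' (Quotient.sound h)
      have hy : ¬ s y b := fun h => hr' (Quotient.sound h)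
      rw [sup_pr_iff] at h1
      rcases h1 with h1 | ⟨_, h1⟩ | ⟨h1, _⟩
      · exact Quotient.sound h1
      · exact absurd (s.symm' h1) hy
      · exact absurd h1 hx
    have h3 := Finset.card_erase_add_one (s := B.image (fun x => Quotient.mk s x))
        (a := Quotient.mk s b) (mem_image.2 ⟨b, hb, rfl⟩)
    rw [h1, h2, h3]

end T

end Pool.Agent.Y373.HV
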