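import Pool.Agent.Y373.HV.Stm
import Pool.Agent.Y373.HV.Core

/-! HV-DENSE: dense graphs (written by helper908, after `RelDense`, `RelMain` of Helper291). -/

set_option autoImplicit false
set_option linter.unusedSectionVars false

namespace Pool.Agent.Y373.HV

open Polynomial Finset Pool.Agent.Helper291.RelMain Pool.Agent.Helper291.RelDense
  Pool.Agent.Helper291.RelC Pool.Agent.Helper291.RelStep

section dense
variable {V : Type} [Fintype V] [DecidableEq V]

theorem cbt_le (s : Setoid V) (h z t : V) (l : List (Sym2 V)) (hl : l.Nodup)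
    (hz : ∀ x, s z x → x = z) (hc : s(z, t) ∈ l → ∃ x, s h x ∧ s(x, t) ∈ l) :
    cbt s z t l ≤ cbt s h t l := by
  classical
  by_cases hm : s(z, t) ∈ l
  · have h1 : cbt s z t l ≤ 1 := by
      unfold cbt
      rw [← List.toFinset_card_of_nodup (hl.filter _)]
      refine (Finset.card_le_card (t := {s(z, t)}) ?_).trans (by simp)
      intro e he
      rw [List.mem_toFinset, List.mem_filter] at he
      obtain ⟨_, he2⟩ := he
      have he3 : ∃ x, s z x ∧ e = s(x, t) := by simpa using he2
      obtain ⟨x, hx, rfl⟩ := he3
      rw [hz x hx, Finset.mem_singleton]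
    have h2 : 1 ≤ cbt s h t l := by
      unfold cbt
      rw [Nat.one_le_iff_ne_zero, Ne, List.length_eq_zero_iff, List.filter_eq_nil_iff]
      intro hcon
      obtain ⟨x, hx, hxl⟩ := hc hm
      have := hcon _ hxl
      apply this
      simp only [decide_eq_true_eq]
      exact ⟨x, hx, rfl⟩
    exact h1.trans h2
  · have h1 : cbt s z t l = 0 := by
      unfold cbt
      rw [List.length_eq_zero_iff, List.filter_eq_nil_iff]
      intro e he hcon
      have he3 : ∃ x, s z x ∧ e = s(x, t) := by simpa using hcon
      obtain ⟨x, hx, rfl⟩ := he3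
      rw [hz x hx] at he
      exact hm he
    rw [h1]
    exact Nat.zero_le _

/-- moving the edge `h w'` to `z w`, `w'` glued to `w` -/
theorem stepE (h1 : ExchStm) (s : Setoid V) (G : SimpleGraph V) (h z w w' : V)
    (hhz : ¬ s h z) (hhw : ¬ s h w) (hzw : ¬ s z w) (hw : s w' w) (hf : G.Adj h w')
    (he : ¬ G.Adj z w) (hz : ∀ x, s z x → x = z)
    (hc : ∀ t, ¬ s h t → t ≠ z → G.Adj z t → ∃ x, s h x ∧ G.Adj x t ∧ s(x, t) ≠ s(h, w')) :
    T (el G) s ≤ T (el (exch G s(z, w) s(h, w'))) s := by
  classical
  set l : List (Sym2 V) := (el G).erase s(h, w') with hl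
  have hln : l.Nodup := (el_nodup G).erase _
  have hml : ∀ e, e ∈ l ↔ e ≠ s(h, w') ∧ e ∈ G.edgeSet := by
    intro e
    rw [hl, (el_nodup G).mem_erase_iff, mem_el]
  have hfm : s(h, w') ∈ el G := (mem_el G _).2 hf
  have p1 : (el G).Perm (s(h, w') :: l) := List.perm_cons_erase hfm
  have hne : s(z, w) ≠ s(h, w') := by
    intro hcon
    rcases Sym2.eq_iff.1 hcon with ⟨e1, e2⟩ | ⟨e1, e2⟩
    · exact hhz (e1 ▸ s.refl' _)
    · exact hhw (e2 ▸ s.refl' _)
  have hzl : s(z, w) ∉ l := fun hcon => he ((hml _).1 hcon).2
  have p2 : (el (exch G s(z, w) s(h, w'))).Perm (s(z, w) :: l) := by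
    rw [List.perm_ext_iff_of_nodup (el_nodup _) (List.nodup_cons.2 ⟨hzl, hln⟩)]
    intro e
    rw [mem_el, List.mem_cons, hml]
    induction e using Sym2.ind with
    | _ x y =>
      rw [SimpleGraph.mem_edgeSet, SimpleGraph.mem_edgeSet, exch_adj]
      constructor
      · rintro ⟨a1, a2 | a2, a3⟩
        · exact Or.inr ⟨a3, a2⟩
        · exact Or.inl a2
      · rintro (a1 | ⟨a1, a2⟩)
        · refine ⟨?_, Or.inr a1, by rw [a1]; exact hne⟩
          rintro rfl
          rcases Sym2.eq_iff.1 a1 with ⟨e1, e2⟩ | ⟨e1, e2⟩
          · exact hzw (e1 ▸ e2 ▸ s.refl' _)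
          · exact hzw (e1 ▸ e2 ▸ s.refl' _)
        · exact ⟨a2.ne, Or.inl a2, a1⟩
  have q1 : T (el G) s = T (l ++ [s(h, w)]) s := by
    rw [T_perm p1]
    have : T (s(h, w') :: l) s = T (s(h, w) :: l) s :=
      tc_mod univ l s h w' h w (s.refl' h) hw
    rw [this]
    exact T_perm (List.perm_append_singleton _ _).symm s
  have q2 : T (el (exch G s(z, w) s(h, w'))) s = T (l ++ [s(z, w)]) s := by
    rw [T_perm p2]
    exact T_perm (List.perm_append_singleton _ _).symm s
  rw [q1, q2]
  have := h1 V s h z hhz l [w] (by
    intro x hx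
    rw [List.mem_singleton] at hx
    subst hx
    exact ⟨hhw, hzw⟩) (by
    intro t t1 t2
    apply cbt_le s h z t l hln hz
    intro hm
    have htz : t ≠ z := by
      rintro rfl
      exact t2 (s.refl' _)
    obtain ⟨x, x1, x2, x3⟩ := hc t t1 htz ((hml _).1 hm).2
    exact ⟨x, x1, (hml _).2 ⟨x3, x2⟩⟩)
  simpa using this

theorem DS' (h1 : ExchStm) (v a : V) (hva : v ≠ a) :
    ∀ (r : ℕ) (G : SimpleGraph V), ¬ G.Adj v a →
      (∀ u, G.Adj v u → ∀ t, t ≠ u → G.Adj u t) → (ms G v).card = r → r ≤ (nbs G v).card →
      ∃ S : Finset V, v ∉ S ∧ a ∈ S ∧ S.card = r + (nn G v).card ∧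
        T (el G) (pr s(v, a)) ≤ T (el (starC v S)) (pr s(v, a)) := by
  classical
  intro r
  induction r with
  | zero =>
    intro G hva' hdom hms _
    refine ⟨nn G v, ?_, ?_, by simp, ?_⟩
    · rw [mem_nn]; tauto
    · rw [mem_nn]; exact ⟨hva.symm, hva'⟩
    · have hG : G = starC v (nn G v) := by
        ext x y
        rw [starC_adj, mem_nn, mem_nn]
        have hms0 := Finset.card_eq_zero.1 hms
        constructor
        · intro h
          refine ⟨h.ne, ?_, ?_⟩
          · rintro ⟨rfl, _, h2⟩; exact h2 h
          · rintro ⟨rfl, _, h2⟩; exact h2 h.symm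
        · rintro ⟨h1, h2, h3⟩
          by_cases hx : x = v
          · subst hx
            by_contra hcon
            exact h2 ⟨rfl, h1.symm, hcon⟩
          · by_cases hy : y = v
            · subst hy
              by_contra hcon
              exact h3 ⟨rfl, h1, fun h => hcon h.symm⟩
            · by_contra hcon
              have : s(x, y) ∈ ms G v := mem_ms.2 ⟨h1, Ne.symm hx, Ne.symm hy, hcon⟩
              rw [hms0] at this
              exact absurd this (Finset.notMem_empty _)
      rw [← hG]
  | succ r ih =>
    intro G hva' hdom hms hnb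
    -- a neighbour `u` of `v`
    obtain ⟨u, hu⟩ : (nbs G v).Nonempty := by
      rw [← Finset.card_pos]; omega
    have hvu : G.Adj v u := mem_nbs.1 hu
    have hvu' : v ≠ u := hvu.ne
    have hau : a ≠ u := by rintro rfl; exact hva' hvu
    -- general continuation
    have cont : ∀ e : Sym2 V, e ∈ ms G v →
        T (el G) (pr s(v, a)) ≤ T (el (exch G e s(v, u))) (pr s(v, a)) →
        ∃ S : Finset V, v ∉ S ∧ a ∈ S ∧ S.card = r + 1 + (nn G v).card ∧
        T (el G) (pr s(v, a)) ≤ T (el (starC v S)) (pr s(v, a)) := by
      intro e he hR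
      have he' := he
      unfold ms at he'
      simp only [mem_filter, mem_univ, true_and] at he'
      obtain ⟨hd, hve, hnG⟩ := he'
      have hef : e ≠ s(v, u) := by rintro rfl; simp at hve
      have hea : e ≠ s(v, a) := by rintro rfl; simp at hve
      have hfa : s(v, u) ≠ s(v, a) := s_ne (Or.inr hau.symm) (Or.inl hva)
      set G1 := exch G e s(v, u) with hG1
      have g1 : ¬ G1.Adj v a := by
        rintro ⟨_, h | h, _⟩
        · exact hva' h
        · exact hea h.symm
      have g1v : ∀ w, G1.Adj v w ↔ G.Adj v w ∧ w ≠ u := by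
        intro w
        rw [hG1, exch_adj]
        constructor
        · rintro ⟨h1, h | h, h3⟩
          · refine ⟨h, ?_⟩
            rintro rfl; exact h3 rfl
          · exfalso; apply hve; rw [← h]; simp
        · rintro ⟨h1, h2⟩
          exact ⟨h1.ne, Or.inl h1, s_ne (Or.inr h2) (Or.inl hvu')⟩
      have g2 : ∀ u', G1.Adj v u' → ∀ t, t ≠ u' → G1.Adj u' t := by
        intro u' h' t ht
        obtain ⟨h1, h2⟩ := (g1v u').1 h'
        rw [hG1, exch_adj]
        refine ⟨ht.symm, Or.inl (hdom u' h1 t ht), ?_⟩
        exact s_ne (Or.inl h1.ne') (Or.inl h2)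
      have g3 : ms G1 v = (ms G v).erase e := by
        ext e'
        induction e' using Sym2.ind with
        | _ x y =>
          rw [Finset.mem_erase, mem_ms, mem_ms, hG1, exch_adj]
          constructor
          · rintro ⟨h1, h2, h3, h4⟩
            have hne : s(x, y) ≠ s(v, u) := s_ne (Or.inl h2.symm) (Or.inr h3.symm)
            refine ⟨?_, h1, h2, h3, ?_⟩
            · intro h; exact h4 ⟨h1, Or.inr h, hne⟩
            · intro h; exact h4 ⟨h1, Or.inl h, hne⟩
          · rintro ⟨h0, h1, h2, h3, h4⟩
            refine ⟨h1, h2, h3, ?_⟩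
            rintro ⟨_, h | h, _⟩
            · exact h4 h
            · exact h0 h
      have g4 : nbs G1 v = (nbs G v).erase u := by
        ext w
        rw [Finset.mem_erase, mem_nbs, mem_nbs, g1v]; tauto
      have g5 : nn G1 v = insert u (nn G v) := by
        ext w
        rw [Finset.mem_insert, mem_nn, mem_nn, g1v]
        constructor
        · rintro ⟨h1, h2⟩
          by_cases hw : w = u
          · exact Or.inl hw
          · exact Or.inr ⟨h1, fun h => h2 ⟨h, hw⟩⟩
        · rintro (rfl | ⟨h1, h2⟩)
          · exact ⟨hvu'.symm, fun h => h.2 rfl⟩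
          · exact ⟨h1, fun h => h2 h.1⟩
      have hun : u ∉ nn G v := by rw [mem_nn]; tauto
      obtain ⟨S, t1, t2, t3, t4⟩ := ih G1 g1 g2 (by
        rw [g3, Finset.card_erase_of_mem he, hms]; rfl) (by
        rw [g4, Finset.card_erase_of_mem hu]; omega)
      refine ⟨S, t1, t2, ?_, hR.trans t4⟩
      rw [t3, g5, Finset.card_insert_of_notMem hun]; ring
    have sp : ∀ x y, (pr s(v, a)) x y ↔ x = y ∨ (x = v ∧ y = a) ∨ (x = a ∧ y = v) :=
      fun x y => pr_iff v a x y
    have hsva : (pr s(v, a)) v a := (sp v a).2 (Or.inr (Or.inl ⟨rfl, rfl⟩))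
    by_cases hcase : ∃ w, w ≠ v ∧ w ≠ a ∧ ¬ G.Adj a w
    · obtain ⟨w, hwv, hwa, haw⟩ := hcase
      have hvw : ¬ G.Adj v w := fun h => haw (hdom w h a hwa.symm).symm
      have hwu : w ≠ u := by rintro rfl; exact hvw hvu
      have he : s(a, w) ∈ ms G v := mem_ms.2 ⟨hwa.symm, hva, hwv.symm, haw⟩
      apply cont _ he
      rw [Sym2.eq_swap (a := a) (b := w), Sym2.eq_swap (a := v) (b := u)]
      apply stepE h1 (pr s(v, a)) G u w a v
      · rw [sp]
        rintro (h | ⟨h, _⟩ | ⟨h, _⟩)
        · exact hwu h.symm
        · exact hvu' h.symm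
        · exact hau h.symm
      · rw [sp]
        rintro (h | ⟨h, _⟩ | ⟨h, _⟩)
        · exact hau h.symm
        · exact hvu' h.symm
        · exact hau h.symm
      · rw [sp]
        rintro (h | ⟨h, _⟩ | ⟨h, _⟩)
        · exact hwa h
        · exact hwv h
        · exact hwa h
      · exact hsva
      · exact hvu.symm
      · exact fun h => haw h.symm
      · intro x hx
        rw [sp] at hx
        rcases hx with h | ⟨h, _⟩ | ⟨h, _⟩
        · exact h.symm
        · exact absurd h hwv
        · exact absurd h hwa
      · intro t t1 t2 t3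
        refine ⟨u, (pr s(v, a)).refl' u, ?_, ?_⟩
        · apply hdom u hvu t
          rintro rfl
          exact t1 ((pr s(v, a)).refl' _)
        · apply s_ne
          · right
            rintro rfl
            exact hvw t3.symm
          · exact Or.inl hvu'.symm
    · push Not at hcase
      obtain ⟨e, he⟩ : (ms G v).Nonempty := by
        rw [← Finset.card_pos]; omega
      induction e using Sym2.ind with
      | _ y z =>
        obtain ⟨hyz, hvy, hvz, hnyz⟩ := mem_ms.1 he
        have hya : y ≠ a := by
          rintro rfl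
          exact hnyz (hcase z hvz.symm hyz.symm)
        have hza : z ≠ a := by
          rintro rfl
          exact hnyz (hcase y hvy.symm hyz).symm
        have hvy' : ¬ G.Adj v y := fun h => hnyz (hdom y h z hyz.symm)
        have hyu : y ≠ u := by rintro rfl; exact hvy' hvu
        have hzu : z ≠ u := by
          rintro rfl; exact hnyz (hdom z hvu y hyz).symm
        apply cont _ he
        set G' := exch G s(z, y) s(a, y) with hG'
        have st1 : T (el G) (pr s(v, a)) ≤ T (el G') (pr s(v, a)) := by
          apply stepE h1 (pr s(v, a)) G a z y y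
          · rw [sp]
            rintro (h | ⟨h, _⟩ | ⟨_, h⟩)
            · exact hza h.symm
            · exact hva h.symm
            · exact hvz h.symm
          · rw [sp]
            rintro (h | ⟨h, _⟩ | ⟨_, h⟩)
            · exact hya h.symm
            · exact hva h.symm
            · exact hvy h.symm
          · rw [sp]
            rintro (h | ⟨h, _⟩ | ⟨h, _⟩)
            · exact hyz h.symm
            · exact hvz h.symm
            · exact hza h
          · exact (pr s(v, a)).refl' y
          · exact hcase y hvy.symm hya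
          · exact fun h => hnyz h.symm
          · intro x hx
            rw [sp] at hx
            rcases hx with h | ⟨h, _⟩ | ⟨h, _⟩
            · exact h.symm
            · exact absurd h.symm hvz
            · exact absurd h hza
          · intro t t1 t2 t3
            have ta : t ≠ a := by
              rintro rfl
              exact t1 ((pr s(v, t)).refl' _)
            have tv : t ≠ v := by
              rintro rfl
              exact t1 ((pr s(t, a)).symm' hsva)
            refine ⟨a, (pr s(v, a)).refl' a, hcase t tv ta, ?_⟩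
            apply s_ne
            · right
              rintro rfl
              exact hnyz t3.symm
            · exact Or.inl hya.symm
        have st2 : T (el G') (pr s(v, a)) ≤ T (el (exch G' s(y, a) s(u, v))) (pr s(v, a)) := by
          apply stepE h1 (pr s(v, a)) G' u y a v
          · rw [sp]
            rintro (h | ⟨h, _⟩ | ⟨h, _⟩)
            · exact hyu h.symm
            · exact hvu' h.symm
            · exact hau h.symm
          · rw [sp]
            rintro (h | ⟨h, _⟩ | ⟨h, _⟩)
            · exact hau h.symm
            · exact hvu' h.symm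
            · exact hau h.symm
          · rw [sp]
            rintro (h | ⟨h, _⟩ | ⟨h, _⟩)
            · exact hya h
            · exact hvy h.symm
            · exact hya h
          · exact hsva
          · rw [hG', exch_adj]
            exact ⟨hvu'.symm, Or.inl hvu.symm, s_ne (Or.inl hau.symm) (Or.inl hyu.symm)⟩
          · rw [hG', exch_adj]
            rintro ⟨_, _, h⟩
            exact h Sym2.eq_swap
          · intro x hx
            rw [sp] at hx
            rcases hx with h | ⟨h, _⟩ | ⟨h, _⟩
            · exact h.symm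
            · exact absurd h.symm hvy
            · exact absurd h hya
          · intro t t1 t2 t3
            have tu : t ≠ u := by
              rintro rfl
              exact t1 ((pr s(v, a)).refl' _)
            refine ⟨u, (pr s(v, a)).refl' u, ?_, ?_⟩
            · rw [hG', exch_adj]
              exact ⟨tu.symm, Or.inl (hdom u hvu t tu), s_ne (Or.inl hau.symm) (Or.inl hyu.symm)⟩
            · apply s_ne
              · right
                rintro rfl
                rw [hG', exch_adj] at t3
                rcases t3.2.1 with h | h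
                · exact hvy' h.symm
                · rcases Sym2.eq_iff.1 h with ⟨h, _⟩ | ⟨_, h⟩
                  · exact hyz h
                  · exact hvz h
              · exact Or.inl hvu'.symm
        have e3 : exch G' s(y, a) s(u, v) = exch G s(y, z) s(v, u) := by
          ext x x'
          rw [hG', exch_adj, exch_adj, exch_adj, Sym2.eq_swap (a := u) (b := v),
            Sym2.eq_swap (a := z) (b := y), Sym2.eq_swap (a := a) (b := y)]
          constructor
          · rintro ⟨b1, (⟨_, b2 | b2, _⟩ | b2), b3⟩
            · exact ⟨b1, Or.inl b2, b3⟩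
            · exact ⟨b1, Or.inr b2, b3⟩
            · refine ⟨b1, Or.inl ?_, b3⟩
              rcases Sym2.eq_iff.1 b2 with ⟨rfl, rfl⟩ | ⟨rfl, rfl⟩
              · exact (hcase _ hvy.symm hya).symm
              · exact hcase _ hvy.symm hya
          · rintro ⟨b1, b2, b3⟩
            refine ⟨b1, ?_, b3⟩
            by_cases b4 : s(x, x') = s(y, a)
            · exact Or.inr b4
            · exact Or.inl ⟨b1, b2, b4⟩
        rw [← e3]
        exact st1.trans st2

/-- isomorphic graphs -/
theorem T_isoD (G H : SimpleGraph V) (f : V ≃ V) (hf : ∀ a b, G.Adj a b ↔ H.Adj (f a) (f b)) :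
    T (el G) ⊥ = T (el H) ⊥ := by
  have e1 : (Setoid.comap f (⊥ : Setoid V)) = ⊥ := by
    ext x y
    rw [Setoid.comap_rel, Setoid.bot_def]
    exact f.injective.eq_iff
  have e2 : ((el G).map (Sym2.map f)).Perm (el H) := by
    rw [List.perm_ext_iff_of_nodup
      ((el_nodup G).map (Sym2.map.injective f.injective)) (el_nodup H)]
    intro e
    rw [List.mem_map, mem_el]
    constructor
    · rintro ⟨e', he', rfl⟩
      rw [mem_el] at he'
      induction e' using Sym2.ind with
      | _ x y =>
        rw [Sym2.map_mk, SimpleGraph.mem_edgeSet]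
        exact (hf x y).1 he'
    · intro he
      induction e using Sym2.ind with
      | _ x y =>
        refine ⟨s(f.symm x, f.symm y), ?_, ?_⟩
        · rw [mem_el, SimpleGraph.mem_edgeSet, hf]
          simpa using he
        · rw [Sym2.map_mk]; simp
  have := T_quot f f.surjective (el G) (⊥ : Setoid V)
  rw [e1] at this
  rw [this, T_perm e2]

theorem star_relabelD (v : V) (S : Finset V) (v' : V)
    (S' : Finset V) (hv : v ∉ S) (hv' : v' ∉ S') (hS : S.card = S'.card) :
    T (el (starC v S)) ⊥ = T (el (starC v' S')) ⊥ := by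
  classical
  let cl : V → Fin 3 := fun w => if w = v then 0 else if w ∈ S then 1 else 2
  let cl' : V → Fin 3 := fun w => if w = v' then 0 else if w ∈ S' then 1 else 2
  have hcard : ∀ i, Fintype.card {w // cl w = i} = Fintype.card {w // cl' w = i} := by
    have c0 : Fintype.card {w // cl w = 0} = 1 := by
      rw [Fintype.card_subtype]
      have : univ.filter (fun w => cl w = 0) = {v} := by
        ext w; simp only [cl, mem_filter, mem_univ, true_and, mem_singleton]
        split_ifs <;> simp_all
      rw [this, card_singleton]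
    have c0' : Fintype.card {w // cl' w = 0} = 1 := by
      rw [Fintype.card_subtype]
      have : univ.filter (fun w => cl' w = 0) = {v'} := by
        ext w; simp only [cl', mem_filter, mem_univ, true_and, mem_singleton]
        split_ifs <;> simp_all
      rw [this, card_singleton]
    have c1 : Fintype.card {w // cl w = 1} = S.card := by
      rw [Fintype.card_subtype]
      congr 1
      ext w; simp only [cl, mem_filter, mem_univ, true_and]
      split_ifs with h1 h2 <;> simp_all
    have c1' : Fintype.card {w // cl' w = 1} = S'.card := by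
      rw [Fintype.card_subtype]
      congr 1
      ext w; simp only [cl', mem_filter, mem_univ, true_and]
      split_ifs with h1 h2 <;> simp_all
    have tot : Fintype.card V = ∑ i, Fintype.card {w // cl w = i} := by
      rw [← Fintype.card_sigma]
      exact Fintype.card_congr (Equiv.sigmaFiberEquiv cl).symm
    have tot' : Fintype.card V = ∑ i, Fintype.card {w // cl' w = i} := by
      rw [← Fintype.card_sigma]
      exact Fintype.card_congr (Equiv.sigmaFiberEquiv cl').symm
    rw [Fin.sum_univ_three] at tot tot'
    intro i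
    fin_cases i
    · exact c0.trans c0'.symm
    · exact c1.trans (hS.trans c1'.symm)
    · simp only [Fin.reduceFinMk]
      omega
  let e : ∀ i, {w // cl w = i} ≃ {w // cl' w = i} := fun i => Fintype.equivOfCardEq (hcard i)
  let f : V ≃ V := (Equiv.sigmaFiberEquiv cl).symm.trans
    ((Equiv.sigmaCongrRight e).trans (Equiv.sigmaFiberEquiv cl'))
  have hf : ∀ w, cl' (f w) = cl w := by
    intro w
    exact (e (cl w) ⟨w, rfl⟩).2
  have hfv : ∀ w, f w = v' ↔ w = v := by
    intro w
    have h1 : cl w = 0 ↔ w = v := by
      simp only [cl]; split_ifs <;> simp_all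
    have h2 : cl' (f w) = 0 ↔ f w = v' := by
      simp only [cl']; split_ifs <;> simp_all
    rw [← h1, ← h2, hf]
  have hfT : ∀ w, f w ∈ S' ↔ w ∈ S := by
    intro w
    have h1 : cl w = 1 ↔ w ∈ S := by
      simp only [cl]; split_ifs with a b <;> simp_all
    have h2 : ∀ y, cl' y = 1 ↔ y ∈ S' := by
      intro y
      simp only [cl']; split_ifs with a b <;> simp_all
    rw [← h1, ← h2, hf]
  apply T_isoD _ _ f
  intro a b
  rw [starC_adj, starC_adj, hfv, hfv, hfT, hfT, f.injective.ne_iff]

/-- adding an edge -/
theorem T_addE (G : SimpleGraph V) (a b : V) (hab : a ≠ b) (h : ¬ G.Adj a b) :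
    T (el (addE G s(a, b))) ⊥ = T (el G) ⊥ + T (el G) (pr s(a, b)) := by
  have hnm : s(a, b) ∉ el G := fun hh => h ((mem_el G _).1 hh)
  have p1 : (el (addE G s(a, b))).Perm (s(a, b) :: el G) := by
    rw [List.perm_ext_iff_of_nodup (el_nodup _) (List.nodup_cons.2 ⟨hnm, el_nodup G⟩)]
    intro e
    rw [mem_el, List.mem_cons, mem_el]
    induction e using Sym2.ind with
    | _ x y =>
      rw [SimpleGraph.mem_edgeSet, SimpleGraph.mem_edgeSet, addE_adj]
      constructor
      · rintro ⟨_, a2 | a2⟩
        · exact Or.inr a2
        · exact Or.inl a2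
      · rintro (a1 | a1)
        · refine ⟨?_, Or.inr a1⟩
          rintro rfl
          rcases Sym2.eq_iff.1 a1 with ⟨e1, e2⟩ | ⟨e1, e2⟩
          · exact hab (e1.symm.trans e2)
          · exact hab (e2.symm.trans e1)
        · exact ⟨a1.ne, Or.inl a1⟩
  rw [T_perm p1, T_cons _ _ _ (fun hh => hab ((pr_le_iff _ _ _).1 hh)), bot_sup_eq]

end dense

theorem dense (h1 : ExchStm) (h2 : KelStm) : DenseStm := by
  intro V _ _ c
  classical
  induction c with
  | zero =>
    intro G _ hG _ v S _ hS
    have h1 : G = starC v S := by
      ext x y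
      rw [Finset.card_eq_zero] at hS hG
      rw [starC_adj, hS]
      constructor
      · intro h; exact ⟨h.ne, by simp, by simp⟩
      · rintro ⟨h, _, _⟩
        by_contra hcon
        have := mem_mt.2 ⟨h, hcon⟩
        rw [hG] at this
        exact absurd this (Finset.notMem_empty _)
    rw [← h1]
  | succ c ih =>
    intro G hGc hG hcard v S hv hS j
    obtain ⟨H, hHc, hHe, hHN, hHP⟩ := exists_nested (fun G => (T (el G) ⊥).coeff j)
      (fun G u v huv => h2 V G u v huv j) G hGc
    refine le_trans ?_ hHP
    have hHm : (mt H).card = c + 1 := by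
      have h1 := mt_card G
      have h2 := mt_card H
      omega
    obtain ⟨v0, _, hv0⟩ := Finset.exists_min_image (univ : Finset V) (fun w => (nbs H w).card)
      ⟨v, mem_univ v⟩
    have hdom := nested_dom H hHN v0 (fun w => hv0 w (mem_univ w))
    have hsplit := mt_split H v0
    have hnn := nn_nbs H v0
    -- v0 has a non-neighbour
    have hne : (nn H v0).Nonempty := by
      by_contra hcon
      rw [Finset.not_nonempty_iff_eq_empty] at hcon
      have h0 : (nbs H v0).card + 1 = Fintype.card V := by
        rw [hcon] at hnn; simpa using hnn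
      have : (ms H v0).card = 0 := by
        rw [Finset.card_eq_zero, Finset.eq_empty_iff_forall_notMem]
        intro e
        induction e using Sym2.ind with
        | _ x y =>
          intro he
          rw [mem_ms] at he
          have hx : x ∈ nn H v0 ∨ H.Adj v0 x := by
            by_cases h : H.Adj v0 x
            · exact Or.inr h
            · exact Or.inl (mem_nn.2 ⟨he.2.1.symm, h⟩)
          rw [hcon] at hx
          rcases hx with hx | hx
          · exact absurd hx (Finset.notMem_empty _)
          · exact he.2.2.2 (hdom x hx y he.1.symm)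
      rw [hcon] at hsplit
      simp at hsplit
      omega
    obtain ⟨a, ha⟩ := hne
    rw [mem_nn] at ha
    have hva : v0 ≠ a := ha.1.symm
    obtain ⟨T0, t1, t2, t3, t4⟩ := DS' h1 v0 a hva (ms H v0).card H ha.2 hdom rfl (by omega)
    have hT0 : T0.card = c + 1 := by rw [t3, ← hsplit, hHm]
    -- induction hypothesis
    have hadd := ih (addE H s(v0, a)) (hHc.mono (le_addE H _)) (by
      rw [mt_addE, Finset.card_erase_of_mem (mem_mt.2 ⟨hva, ha.2⟩), hHm]; rfl) (by omega)
      v0 (T0.erase a) (fun h => t1 (Finset.mem_of_mem_erase h)) (by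
      rw [Finset.card_erase_of_mem t2, hT0]; rfl)
    have hstar : starC v0 (T0.erase a) = addE (starC v0 T0) s(v0, a) := by
      ext x y
      rw [addE_adj, starC_adj, starC_adj, mem_erase, mem_erase]
      constructor
      · rintro ⟨h1, h2, h3⟩
        refine ⟨h1, ?_⟩
        by_cases hxy : s(x, y) = s(v0, a)
        · exact Or.inr hxy
        · left
          refine ⟨h1, ?_, ?_⟩
          · rintro ⟨rfl, hy⟩
            apply h2
            refine ⟨rfl, ?_, hy⟩
            rintro rfl; exact hxy rfl
          · rintro ⟨rfl, hx⟩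
            apply h3
            refine ⟨rfl, ?_, hx⟩
            rintro rfl; exact hxy Sym2.eq_swap
      · rintro ⟨h1, ⟨_, h2, h3⟩ | h⟩
        · exact ⟨h1, fun h => h2 ⟨h.1, h.2.2⟩, fun h => h3 ⟨h.1, h.2.2⟩⟩
        · rcases Sym2.eq_iff.1 h with ⟨rfl, rfl⟩ | ⟨rfl, rfl⟩
          · exact ⟨h1, by simp, fun h => h1.symm h.1⟩
          · exact ⟨h1, fun h => h1 h.1, by simp⟩
    have hsna : ¬ (starC v0 T0).Adj v0 a := by
      rw [starC_adj]; rintro ⟨_, h, _⟩; exact h ⟨rfl, t2⟩
    rw [hstar, T_addE _ v0 a hva hsna, T_addE H v0 a hva ha.2] at hadd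
    rw [star_relabelD v S v0 T0 hv t1 (hS.trans hT0.symm)]
    have e1 := hadd j
    have e2 := t4 j
    rw [coeff_add, coeff_add] at e1
    show (T (el (starC v0 T0)) ⊥).coeff j ≤ (T (el H) ⊥).coeff j
    linarith

end Pool.Agent.Y373.HV
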