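import Pool.Agent.Y373.HV.Stm
import Pool.Agent.Y373.HV.TauLem

set_option autoImplicit false

/-! `EIStm` from `PmStm` and `SingStm`. -/

namespace Pool.Agent.Y373.HV

open Polynomial Finset

/-- summation by parts -/
theorem abel_real (v d : ℕ → ℝ) (hv : ∀ i, 0 ≤ v i) (hv' : ∀ i j, 1 ≤ i → i ≤ j → v j ≤ v i)
    (hd : ∀ m, 0 ≤ ∑ i ∈ Icc 1 m, d i) (n : ℕ) : 0 ≤ ∑ i ∈ Icc 1 n, v i * d i := by
  have key : ∀ m, v (m + 1) * ∑ i ∈ Icc 1 (m + 1), d i ≤ ∑ i ∈ Icc 1 (m + 1), v i * d i := by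
    intro m
    induction m with
    | zero => simp
    | succ m ih =>
      have g1 := Finset.sum_Icc_succ_top (show 1 ≤ m + 1 + 1 by omega) d
      have g2 := Finset.sum_Icc_succ_top (show 1 ≤ m + 1 + 1 by omega) (fun i => v i * d i)
      rw [g1, g2, mul_add]
      have h1 : v (m + 1 + 1) * ∑ i ∈ Icc 1 (m + 1), d i ≤
          v (m + 1) * ∑ i ∈ Icc 1 (m + 1), d i :=
        mul_le_mul_of_nonneg_right (hv' _ _ (by omega) (by omega)) (hd _)
      linarith
  rcases Nat.eq_zero_or_pos n with rfl | h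
  · simp
  · obtain ⟨m, rfl⟩ : ∃ m, n = m + 1 := ⟨n - 1, by omega⟩
    exact (mul_nonneg (hv _) (hd _)).trans (key m)

theorem abel_poly (v : ℕ → ℝ) (D : ℕ → ℝ[X]) (hv : ∀ i, 0 ≤ v i)
    (hv' : ∀ i j, 1 ≤ i → i ≤ j → v j ≤ v i)
    (hD : ∀ m, 0 ≤ ∑ i ∈ Icc 1 m, D i) (n : ℕ) : 0 ≤ ∑ i ∈ Icc 1 n, C (v i) * D i := by
  rw [nonneg_iff]
  intro j
  rw [finsetSum_coeff]
  simp only [coeff_C_mul]
  refine abel_real v (fun i => (D i).coeff j) hv hv' (fun m => ?_) n
  have := (nonneg_iff _).1 (hD m) j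
  rwa [finsetSum_coeff] at this

section
variable {V : Type} [Fintype V] [DecidableEq V]

/-- the case without further edges -/
theorem ei_base (h1 : PmStm) (h2 : SingStm) (U : Finset V) (δ : ℕ) (hUc : U.card = δ + 1)
    (π : Setoid V) (hπ : Tr U π) (a b : V) (ha : a ∉ U) (hb : b ∉ U) (hab : ¬ π a b)
    (v : ℕ → ℝ) (hv : ∀ i, 0 ≤ v i) (hv' : ∀ i j, 1 ≤ i → i ≤ j → v j ≤ v i) :
    ∑ i ∈ Icc 1 δ, C (v i * (δ.choose i : ℝ)) *
      (tau (el (KU U)) U (π ⊔ pr s(a, b)) i - tau (el (KU U)) U π (i + 1)) ≤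
    C (2 * δ * v 1 / (δ + 1)) * tau (el (KU U)) U π 1 := by
  classical
  set K := el (KU U) with hK
  set A : Finset V := univ.filter (fun x => ¬ π a x) with hA
  set B : Finset V := univ.filter (fun x => ¬ π b x) with hB
  have hA' : ∀ x, x ∈ A ↔ ¬ π a x := by intro x; simp [hA]
  have hB' : ∀ x, x ∈ B ↔ ¬ π b x := by intro x; simp [hB]
  set π' := π ⊔ pr s(a, b) with hπ'
  -- the inequality for every `u`
  have s1 : ∀ u ∈ U, 0 ≤ ∑ i ∈ Icc 1 δ, C (v i) * ∑ I ∈ (U.erase u).powersetCard i,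
      (tc A K (π ⊔ gl I) + tc B K (π ⊔ gl I) - T K (π' ⊔ gl I) + T K (π ⊔ gl (insert u I))) := by
    intro u hu
    refine abel_poly v _ hv hv' (fun m => ?_) δ
    exact h1 V U u hu π hπ a b ha hb hab A B hA' hB' m
  -- sums
  set SA : ℕ → ℝ[X] := fun i => ∑ I ∈ U.powersetCard i, tc A K (π ⊔ gl I) with hSA
  set SB : ℕ → ℝ[X] := fun i => ∑ I ∈ U.powersetCard i, tc B K (π ⊔ gl I) with hSB
  set ST' : ℕ → ℝ[X] := fun i => ∑ I ∈ U.powersetCard i, T K (π' ⊔ gl I) with hST'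
  set ST : ℕ → ℝ[X] := fun i => ∑ I ∈ U.powersetCard i, T K (π ⊔ gl I) with hST
  have s2 : 0 ≤ ∑ i ∈ Icc 1 δ, C (v i) * (((δ + 1 - i : ℕ) : ℝ[X]) * (SA i + SB i - ST' i) +
      ((i + 1 : ℕ) : ℝ[X]) * ST (i + 1)) := by
    have s3 := Finset.sum_nonneg s1
    rw [Finset.sum_comm] at s3
    refine s3.trans (le_of_eq ?_)
    refine Finset.sum_congr rfl fun i _ => ?_
    rw [← Finset.mul_sum, sum_swap U i (fun u I => tc A K (π ⊔ gl I) + tc B K (π ⊔ gl I) -
      T K (π' ⊔ gl I) + T K (π ⊔ gl (insert u I)))]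
    congr 1
    have e1 : ∀ I ∈ U.powersetCard i, ∑ u ∈ U \ I, (tc A K (π ⊔ gl I) + tc B K (π ⊔ gl I) -
        T K (π' ⊔ gl I) + T K (π ⊔ gl (insert u I))) =
        ∑ _u ∈ U \ I, (tc A K (π ⊔ gl I) + tc B K (π ⊔ gl I) - T K (π' ⊔ gl I)) +
        ∑ u ∈ U \ I, T K (π ⊔ gl (insert u I)) := fun I _ => Finset.sum_add_distrib
    rw [Finset.sum_congr rfl e1, Finset.sum_add_distrib,
      sum_const_sdiff U i (fun I => tc A K (π ⊔ gl I) + tc B K (π ⊔ gl I) - T K (π' ⊔ gl I)),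
      sum_insert_sdiff U i (fun J => T K (π ⊔ gl J)), nsmul_eq_mul, nsmul_eq_mul, hUc,
      Finset.sum_sub_distrib, Finset.sum_add_distrib]
  -- binomials
  have hδ : (0 : ℝ) < (δ : ℝ) + 1 := by positivity
  have b1 : ∀ i ∈ Icc 1 δ, C (v i) * (((δ + 1 - i : ℕ) : ℝ[X]) * ST' i) =
      C ((δ : ℝ) + 1) * (C (v i * (δ.choose i : ℝ)) * tau K U π' i) := by
    intro i hi
    rw [mem_Icc] at hi
    have hb : ((δ : ℝ) + 1) * (δ.choose i : ℝ) = ((δ + 1).choose i : ℝ) * ((δ + 1 - i : ℕ) : ℝ) := by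
      have := Nat.add_one_mul_choose_eq δ i
      have h3 := Nat.choose_succ_right_eq (δ + 1) i
      exact_mod_cast this.trans h3
    have hp : (0 : ℝ) < ((δ + 1).choose i : ℝ) := by
      exact_mod_cast Nat.choose_pos (by omega)
    unfold tau
    rw [hUc]
    rw [← C_eq_natCast, ← mul_assoc, ← C_mul, ← mul_assoc, ← mul_assoc, ← C_mul, ← C_mul]
    congr 2
    have : ((δ : ℝ) + 1) * (v i * (δ.choose i : ℝ)) * ((δ + 1).choose i : ℝ)⁻¹ =
        v i * (((δ : ℝ) + 1) * (δ.choose i : ℝ)) * ((δ + 1).choose i : ℝ)⁻¹ := by ring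
    rw [this, hb]
    field_simp
  have b2 : ∀ i ∈ Icc 1 δ, C (v i) * (((i + 1 : ℕ) : ℝ[X]) * ST (i + 1)) =
      C ((δ : ℝ) + 1) * (C (v i * (δ.choose i : ℝ)) * tau K U π (i + 1)) := by
    intro i hi
    rw [mem_Icc] at hi
    have hb : ((δ : ℝ) + 1) * (δ.choose i : ℝ) = ((δ + 1).choose (i + 1) : ℝ) * ((i + 1 : ℕ) : ℝ) := by
      have := Nat.add_one_mul_choose_eq δ i
      exact_mod_cast this
    have hp : (0 : ℝ) < ((δ + 1).choose (i + 1) : ℝ) := by
      exact_mod_cast Nat.choose_pos (by omega)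
    unfold tau
    rw [hUc]
    rw [← C_eq_natCast, ← mul_assoc, ← C_mul, ← mul_assoc, ← mul_assoc, ← C_mul, ← C_mul]
    congr 2
    have : ((δ : ℝ) + 1) * (v i * (δ.choose i : ℝ)) * ((δ + 1).choose (i + 1) : ℝ)⁻¹ =
        v i * (((δ : ℝ) + 1) * (δ.choose i : ℝ)) * ((δ + 1).choose (i + 1) : ℝ)⁻¹ := by ring
    rw [this, hb]
    field_simp
  -- rewrite `s2`
  have s4 : C ((δ : ℝ) + 1) * ∑ i ∈ Icc 1 δ, C (v i * (δ.choose i : ℝ)) *
      (tau K U π' i - tau K U π (i + 1)) ≤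
      ∑ i ∈ Icc 1 δ, C (v i) * (((δ + 1 - i : ℕ) : ℝ[X]) * (SA i + SB i)) := by
    rw [← sub_nonneg]
    refine s2.trans (le_of_eq ?_)
    rw [Finset.mul_sum, ← Finset.sum_sub_distrib]
    refine Finset.sum_congr rfl fun i hi => ?_
    have c1 := b1 i hi
    have c2 := b2 i hi
    linear_combination c2 - c1
  -- bound of the right hand side
  have hSA0 : ∀ i, 0 ≤ SA i := fun i => Finset.sum_nonneg fun I _ => tc_nonneg _ _ _
  have hSB0 : ∀ i, 0 ≤ SB i := fun i => Finset.sum_nonneg fun I _ => tc_nonneg _ _ _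
  have s5 : ∀ S : ℕ → ℝ[X], (∀ i, 0 ≤ S i) → ∑ k ∈ range (δ + 1), S (k + 1) ≤ T K π →
      ∑ i ∈ Icc 1 δ, S i ≤ T K π := by
    intro S hS h
    refine le_trans ?_ h
    rw [sum_Icc_range, Finset.sum_range_succ]
    exact le_add_of_nonneg_right (hS _)
  have s6 : ∑ i ∈ Icc 1 δ, SA i ≤ T K π := by
    refine s5 SA hSA0 ?_
    have := h2 V U π hπ a ha A hA'
    rwa [sum_nonempty, hUc] at this
  have s7 : ∑ i ∈ Icc 1 δ, SB i ≤ T K π := by
    refine s5 SB hSB0 ?_
    have := h2 V U π hπ b hb B hB'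
    rwa [sum_nonempty, hUc] at this
  have s8 : ∑ i ∈ Icc 1 δ, C (v i) * (((δ + 1 - i : ℕ) : ℝ[X]) * (SA i + SB i)) ≤
      C (δ * v 1) * (T K π + T K π) := by
    calc ∑ i ∈ Icc 1 δ, C (v i) * (((δ + 1 - i : ℕ) : ℝ[X]) * (SA i + SB i))
        ≤ ∑ i ∈ Icc 1 δ, C (δ * v 1) * (SA i + SB i) := by
          refine Finset.sum_le_sum fun i hi => ?_
          rw [mem_Icc] at hi
          rw [← C_eq_natCast, ← mul_assoc, ← C_mul]
          rw [← sub_nonneg, ← sub_mul, ← C_sub]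
          refine mul_nonneg (C_nonneg ?_) (add_nonneg (hSA0 i) (hSB0 i))
          have k1 : v i ≤ v 1 := hv' 1 i le_rfl hi.1
          have k2 : ((δ + 1 - i : ℕ) : ℝ) ≤ δ := by
            exact_mod_cast (by omega : δ + 1 - i ≤ δ)
          have k3 : v i * ((δ + 1 - i : ℕ) : ℝ) ≤ v 1 * δ :=
            mul_le_mul k1 k2 (by positivity) (hv 1)
          linarith
      _ = C (δ * v 1) * (∑ i ∈ Icc 1 δ, SA i + ∑ i ∈ Icc 1 δ, SB i) := by
          rw [← Finset.mul_sum, Finset.sum_add_distrib]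
      _ ≤ _ := mul_le_mul_of_nonneg_left (add_le_add s6 s7)
          (C_nonneg (mul_nonneg (by positivity) (hv 1)))
  have s9 := mul_le_mul_of_nonneg_left (s4.trans s8) (C_nonneg (inv_nonneg.2 hδ.le))
  rw [← mul_assoc, ← C_mul, inv_mul_cancel₀ hδ.ne', C_1, one_mul] at s9
  refine s9.trans (le_of_eq ?_)
  rw [tau_one _ _ (by omega), ← mul_assoc, ← C_mul, ← two_mul, ← mul_assoc]
  congr 1
  have : (2 : ℝ[X]) = C 2 := (map_ofNat C 2).symm
  rw [this, ← C_mul]
  congr 1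
  field_simp

/-- adding edges outside `U` -/
theorem ei_list (h1 : PmStm) (h2 : SingStm) (U : Finset V) (δ : ℕ) (hUc : U.card = δ + 1)
    (a b : V) (ha : a ∉ U) (hb : b ∉ U)
    (v : ℕ → ℝ) (hv : ∀ i, 0 ≤ v i) (hv' : ∀ i j, 1 ≤ i → i ≤ j → v j ≤ v i) :
    ∀ (lX : List (Sym2 V)), (∀ e ∈ lX, ∀ x ∈ e, x ∉ U) → ∀ π : Setoid V, Tr U π → ¬ π a b →
    ∑ i ∈ Icc 1 δ, C (v i * (δ.choose i : ℝ)) *
      (tau (lX ++ el (KU U)) U (π ⊔ pr s(a, b)) i - tau (lX ++ el (KU U)) U π (i + 1)) ≤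
    C (2 * δ * v 1 / (δ + 1)) * tau (lX ++ el (KU U)) U π 1 := by
  intro lX
  have habU : ∀ x ∈ s(a, b), x ∉ U := by
    intro x hx
    rcases Sym2.mem_iff.1 hx with rfl | rfl
    · exact ha
    · exact hb
  have hc0 : (0 : ℝ[X]) ≤ C (2 * δ * v 1 / (δ + 1)) := by
    apply C_nonneg
    have := hv 1
    positivity
  induction lX with
  | nil =>
    intro _ π hπ hab
    exact ei_base h1 h2 U δ hUc π hπ a b ha hb hab v hv hv'
  | cons e lX ih =>
    intro hlX π hπ hab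
    have hlX' : ∀ e ∈ lX, ∀ x ∈ e, x ∉ U := fun f hf => hlX f (List.mem_cons_of_mem _ hf)
    have heU := hlX e (List.mem_cons_self)
    have hπ' : Tr U (π ⊔ pr s(a, b)) := tr_sup_pr hπ habU
    rw [List.cons_append]
    set L := lX ++ el (KU U) with hL
    by_cases c1 : pr e ≤ π
    · have i1 := mul_le_mul_of_nonneg_left (ih hlX' π hπ hab) X_nonneg
      rw [tau_loop _ _ _ _ _ c1, mul_left_comm]
      refine le_trans (le_of_eq ?_) i1
      rw [Finset.mul_sum]
      refine Finset.sum_congr rfl fun i _ => ?_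
      rw [tau_loop _ _ _ _ _ c1, tau_loop _ _ _ _ _ (c1.trans le_sup_left)]
      ring
    · by_cases c2 : pr e ≤ π ⊔ pr s(a, b)
      · have e1 : π ⊔ pr s(a, b) = π ⊔ pr e := pr_exch c1 c2
        have i1 := ih hlX' π hπ hab
        rw [tau_cons _ _ _ _ _ hπ heU c1, mul_add]
        have i2 : ∑ i ∈ Icc 1 δ, C (v i * (δ.choose i : ℝ)) *
            (tau (e :: L) U (π ⊔ pr s(a, b)) i - tau (e :: L) U π (i + 1)) =
            ∑ i ∈ Icc 1 δ, C (v i * (δ.choose i : ℝ)) *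
              (tau L U (π ⊔ pr s(a, b)) i - tau L U π (i + 1)) -
            ∑ i ∈ Icc 1 δ, C (v i * (δ.choose i : ℝ)) *
              (tau L U (π ⊔ pr s(a, b)) i + tau L U (π ⊔ pr s(a, b)) (i + 1) -
                X * tau L U (π ⊔ pr s(a, b)) i) := by
          rw [← Finset.sum_sub_distrib]
          refine Finset.sum_congr rfl fun i _ => ?_
          rw [tau_loop _ _ _ _ _ c2, tau_cons _ _ _ _ _ hπ heU c1, ← e1]
          ring
        rw [i2]
        have i3 : 0 ≤ ∑ i ∈ Icc 1 δ, C (v i * (δ.choose i : ℝ)) *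
              (tau L U (π ⊔ pr s(a, b)) i + tau L U (π ⊔ pr s(a, b)) (i + 1) -
                X * tau L U (π ⊔ pr s(a, b)) i) := by
          refine Finset.sum_nonneg fun i hi => ?_
          rw [mem_Icc] at hi
          refine mul_nonneg (C_nonneg (mul_nonneg (hv i) (by positivity))) (sub_nonneg.2 ?_)
          exact X_mul_tau_le L U _ i hπ' hi.1 (by omega)
        refine (sub_le_self _ i3).trans (i1.trans ?_)
        exact le_add_of_nonneg_right (mul_nonneg hc0 (tau_nonneg _ _ _ _))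
      · have c3 : ¬ (π ⊔ pr e) a b := by
          intro h
          apply c2
          have h3 : pr s(a, b) ≤ π ⊔ pr e := (pr_le_iff _ _ _).2 h
          have h4 := pr_exch (fun h => hab ((pr_le_iff _ _ _).1 h)) h3
          rw [← h4]
          exact le_sup_right
        have i1 := ih hlX' π hπ hab
        have i2 := ih hlX' (π ⊔ pr e) (tr_sup_pr hπ heU) c3
        have i3 := add_le_add i1 i2
        rw [tau_cons _ _ _ _ _ hπ heU c1, mul_add]
        refine le_trans (le_of_eq ?_) i3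
        rw [← Finset.sum_add_distrib]
        refine Finset.sum_congr rfl fun i _ => ?_
        rw [tau_cons _ _ _ _ _ hπ' heU c2, tau_cons _ _ _ _ _ hπ heU c1,
          sup_right_comm π (pr s(a, b)) (pr e)]
        ring

end

/-- **EIStm** -/
theorem ei (h1 : PmStm) (h2 : SingStm) : EIStm := by
  classical
  intro V _ _ G U δ hUc hU π hπ a b ha hb hab v hv hv'
  set LX : Finset (Sym2 V) := univ.filter (fun e => e ∈ G.edgeSet ∧ ∀ x ∈ e, x ∉ U) with hLX
  have hperm : (el G).Perm (LX.toList ++ el (KU U)) := by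
    rw [List.perm_ext_iff_of_nodup (el_nodup _)]
    · intro e
      rw [mem_el, List.mem_append, Finset.mem_toList, mem_el, hLX, mem_filter]
      induction e using Sym2.ind with
      | _ x y =>
        constructor
        · intro h
          by_cases hx : x ∈ U
          · exact Or.inr ⟨h.ne, Or.inl hx⟩
          · by_cases hy : y ∈ U
            · exact Or.inr ⟨h.ne, Or.inr hy⟩
            · left
              refine ⟨mem_univ _, h, ?_⟩
              intro z hz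
              rcases Sym2.mem_iff.1 hz with rfl | rfl
              · exact hx
              · exact hy
        · rintro (⟨_, h, _⟩ | ⟨hne, hx | hy⟩)
          · exact h
          · exact hU x hx y hne.symm
          · exact (hU y hy x hne).symm
    · rw [List.nodup_append]
      refine ⟨Finset.nodup_toList _, el_nodup _, ?_⟩
      intro e he f hf
      rintro rfl
      rw [Finset.mem_toList, hLX, mem_filter] at he
      rw [mem_el] at hf
      induction e using Sym2.ind with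
      | _ x y =>
        obtain ⟨_, h | h⟩ := hf
        · exact he.2.2 x (by simp) h
        · exact he.2.2 y (by simp) h
  have hmain := ei_list h1 h2 U δ hUc a b ha hb v hv hv' LX.toList
    (fun e he => (mem_filter.1 (Finset.mem_toList.1 he)).2.2) π hπ hab
  rw [tau_perm hperm]
  refine le_trans (le_of_eq ?_) hmain
  refine Finset.sum_congr rfl fun i _ => ?_
  rw [tau_perm hperm, tau_perm hperm]

end Pool.Agent.Y373.HV
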