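import Mathlib
import Pool.Agent.Y373.HV.Stm
import Pool.Agent.Y373.HV.Core

set_option autoImplicit false

/-! Relation of `T` to the all-terminal reliability polynomial, and the final statement. -/

namespace Pool.Agent.Y373.HV

open Polynomial Finset Pool.Agent.Helper291.RelFinal

open Classical in
/-- All-terminal reliability: the probability that the spanning subgraph formed by the operating
edges is connected, when each edge of `G` operates independently with probability `p`. -/
noncomputable def Rel {V : Type*} [Fintype V] (G : SimpleGraph V) (p : ℝ) : ℝ :=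
  ∑ S ∈ G.edgeFinset.powerset,
    if (SimpleGraph.fromEdgeSet (S : Set (Sym2 V))).Connected then
      p ^ S.card * (1 - p) ^ (G.edgeFinset.card - S.card) else 0

/-- The graph `L_{n,m}`, `m = s(s-1)/2 + k + (n-s-1)`, on the vertices `0,...,n-1`:
the vertices `0,...,s-1` form a complete graph, vertex `s` is joined to the vertices `0,...,k-1`,
and every vertex `j > s` is joined, among the smaller vertices, only to the vertex `f j`. -/
def L (n s k : ℕ) (f : ℕ → ℕ) : SimpleGraph (Fin n) where
  Adj i j := i ≠ j ∧ (max i.1 j.1 < s ∨ (max i.1 j.1 = s ∧ min i.1 j.1 < k) ∨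
    (s < max i.1 j.1 ∧ min i.1 j.1 = f (max i.1 j.1)))
  symm := ⟨fun i j h => by
    rw [max_comm j.1 i.1, min_comm j.1 i.1]
    exact ⟨h.1.symm, h.2⟩⟩
  loopless := ⟨fun _ h => h.1 rfl⟩

theorem L_eq (n s k : ℕ) (f : ℕ → ℕ) : L n s k f = Lg n s k f := rfl

section
variable {V : Type*} [Fintype V]

/-- number of blocks -/
noncomputable def cb (s : Setoid V) : ℕ := Nat.card (Quotient s)

theorem cb_le (s : Setoid V) : cb s ≤ Fintype.card V := by
  classical
  unfold cb
  rw [← Nat.card_eq_fintype_card]
  exact Nat.card_le_card_of_surjective (Quotient.mk s) Quotient.exists_rep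

theorem cb_pos [Nonempty V] (s : Setoid V) : 1 ≤ cb s := by
  unfold cb
  have : Nonempty (Quotient s) := ⟨Quotient.mk s (Classical.arbitrary V)⟩
  exact Nat.card_pos

theorem cb_sup (s : Setoid V) (e : Sym2 V) (h : ¬ pr e ≤ s) : cb (s ⊔ pr e) + 1 = cb s := by
  have h1 := rk_sup s e h
  have h2 := cb_le s
  unfold rk at h1
  unfold cb at *
  omega

theorem cb_bot : cb (⊥ : Setoid V) = Fintype.card V := by
  unfold cb
  rw [← Nat.card_eq_fintype_card]
  symm
  exact Nat.card_congr (Equiv.ofBijective (Quotient.mk ⊥)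
    ⟨fun x y h => Quotient.exact h, Quotient.exists_rep⟩)

omit [Fintype V] in
theorem cb_top [Nonempty V] : cb (⊤ : Setoid V) = 1 := by
  unfold cb
  rw [Nat.card_eq_one_iff_unique]
  refine ⟨⟨fun a b => ?_⟩, ⟨Quotient.mk _ (Classical.arbitrary V)⟩⟩
  induction a using Quotient.inductionOn
  induction b using Quotient.inductionOn
  exact Quotient.sound trivial

theorem T_nil_top : T ([] : List (Sym2 V)) ⊤ = 1 := (T_nil ⊤).2 rfl

theorem T_nil_ne (s : Setoid V) (h : s ≠ ⊤) : T ([] : List (Sym2 V)) s = 0 := by
  have h1 : T ([] : List (Sym2 V)) s ≠ 1 := fun h' => h ((T_nil s).1 h')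
  unfold T tc at *
  split_ifs at * <;> simp_all

open Classical in
/-- reliability, by deletion and contraction -/
noncomputable def Rl (p : ℝ) : List (Sym2 V) → Setoid V → ℝ
  | [], s => if s = ⊤ then 1 else 0
  | e :: l, s => p * Rl p l (s ⊔ pr e) + (1 - p) * Rl p l s

theorem Rl_T [Nonempty V] (p : ℝ) (hq : 1 - p ≠ 0) (l : List (Sym2 V)) : ∀ s : Setoid V,
    (1 - p) ^ cb s * Rl p l s =
      p ^ (cb s - 1) * (1 - p) ^ (l.length + 1) * (T l s).eval ((1 - p)⁻¹) := by
  induction l with
  | nil =>
    intro s
    unfold Rl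
    by_cases h : s = ⊤
    · rw [if_pos h, h, T_nil_top, cb_top]
      simp
    · rw [if_neg h, T_nil_ne s h]
      simp
  | cons e l ih =>
    intro s
    unfold Rl
    by_cases h : pr e ≤ s
    · have h1 : s ⊔ pr e = s := sup_eq_left.2 h
      rw [h1, T_loop e l s h, eval_mul, eval_X, List.length_cons]
      have h2 : p * Rl p l s + (1 - p) * Rl p l s = Rl p l s := by ring
      rw [h2, ih s]
      have h3 : (1 - p) ^ (l.length + 1 + 1) * (1 - p)⁻¹ = (1 - p) ^ (l.length + 1) := by
        rw [pow_succ]
        field_simp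
      calc _ = p ^ (cb s - 1) * ((1 - p) ^ (l.length + 1 + 1) * (1 - p)⁻¹) *
            (T l s).eval ((1 - p)⁻¹) := by rw [h3]
        _ = _ := by ring
    · have hc := cb_sup s e h
      have hp := cb_pos (s ⊔ pr e)
      rw [T_cons e l s h, eval_add, List.length_cons]
      have h1 := ih s
      have h2 := ih (s ⊔ pr e)
      obtain ⟨c, hc'⟩ : ∃ c, cb (s ⊔ pr e) = c + 1 := ⟨cb (s ⊔ pr e) - 1, by omega⟩
      have hcs : cb s = c + 2 := by omega
      rw [hc'] at h2
      rw [hcs] at h1 ⊢
      have e1 : c + 1 - 1 = c := rfl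
      have e2 : c + 2 - 1 = c + 1 := rfl
      rw [e1] at h2
      rw [e2] at h1 ⊢
      calc (1 - p) ^ (c + 2) * (p * Rl p l (s ⊔ pr e) + (1 - p) * Rl p l s)
          = (1 - p) * p * ((1 - p) ^ (c + 1) * Rl p l (s ⊔ pr e)) +
            (1 - p) * ((1 - p) ^ (c + 2) * Rl p l s) := by ring
        _ = _ := by rw [h1, h2]; ring

theorem T_deg [Nonempty V] (l : List (Sym2 V)) : ∀ (s : Setoid V) (i : ℕ),
    (T l s).coeff i ≠ 0 → i + cb s ≤ l.length + 1 := by
  induction l with
  | nil =>
    intro s i hi
    by_cases h : s = ⊤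
    · rw [h, T_nil_top, coeff_one] at hi
      rw [h, cb_top]
      split_ifs at hi with h2
      · simp [h2]
      · exact absurd rfl hi
    · rw [T_nil_ne s h] at hi
      exact absurd (coeff_zero i) hi
  | cons e l ih =>
    intro s i hi
    rw [List.length_cons]
    by_cases h : pr e ≤ s
    · rw [T_loop e l s h] at hi
      cases i with
      | zero => rw [coeff_X_mul_zero] at hi; exact absurd rfl hi
      | succ i =>
        rw [coeff_X_mul] at hi
        have := ih s i hi
        omega
    · rw [T_cons e l s h, coeff_add] at hi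
      have hc := cb_sup s e h
      by_cases h1 : (T l s).coeff i = 0
      · rw [h1, zero_add] at hi
        have := ih _ i hi
        omega
      · have := ih s i h1
        omega

open Classical in
omit [Fintype V] in
theorem Rl_sum (p : ℝ) (l : List (Sym2 V)) (hl : l.Nodup) : ∀ s : Setoid V,
    Rl p l s = ∑ S ∈ l.toFinset.powerset,
      if s ⊔ ps S = ⊤ then p ^ S.card * (1 - p) ^ (l.length - S.card) else 0 := by
  induction l with
  | nil =>
    intro s
    simp only [Rl, List.toFinset_nil, powerset_empty, sum_singleton, ps_empty, sup_bot_eq,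
      card_empty, pow_zero, List.length_nil, Nat.sub_zero, mul_one]
  | cons e l ih =>
    intro s
    rw [List.nodup_cons] at hl
    have he : e ∉ l.toFinset := fun h => hl.1 (List.mem_toFinset.1 h)
    rw [List.toFinset_cons, sum_powerset_insert he]
    unfold Rl
    rw [ih hl.2, ih hl.2, mul_sum, mul_sum, add_comm]
    congr 1
    · refine sum_congr rfl fun S hS => ?_
      rw [mem_powerset] at hS
      have hc : S.card ≤ l.length := (card_le_card hS).trans (List.toFinset_card_le l)
      rw [List.length_cons, Nat.succ_sub hc, pow_succ]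
      split_ifs
      · ring
      · ring
    · refine sum_congr rfl fun S hS => ?_
      rw [mem_powerset] at hS
      have heS : e ∉ S := fun h => he (hS h)
      have hc : S.card ≤ l.length := (card_le_card hS).trans (List.toFinset_card_le l)
      have e1 : s ⊔ ps (insert e S) = s ⊔ pr e ⊔ ps S := by
        rw [ps_insert, sup_assoc, sup_comm (ps S)]
      rw [List.length_cons, card_insert_of_notMem heS, e1, Nat.add_sub_add_right]
      split_ifs
      · ring
      · ring

omit [Fintype V] in
theorem ps_top_iff [Nonempty V] (S : Finset (Sym2 V)) :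
    ps S = ⊤ ↔ (SimpleGraph.fromEdgeSet (S : Set (Sym2 V))).Connected := by
  constructor
  · intro h
    have h1 : ps S ≤ (SimpleGraph.fromEdgeSet (S : Set (Sym2 V))).reachableSetoid := by
      unfold ps
      apply Finset.sup_le
      intro e he
      induction e with
      | _ a b =>
        rw [pr_le_iff]
        by_cases hab : a = b
        · rw [hab]
        · have : (SimpleGraph.fromEdgeSet (S : Set (Sym2 V))).Adj a b := by
            rw [SimpleGraph.fromEdgeSet_adj]
            exact ⟨he, hab⟩
          exact this.reachable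
    rw [h] at h1
    exact SimpleGraph.Connected.mk (fun a b => h1 (x := a) (y := b) trivial)
  · intro h
    rw [eq_top_iff]
    intro a b hab'
    clear hab'
    have key : ∀ a b, (SimpleGraph.fromEdgeSet (S : Set (Sym2 V))).Adj a b → ps S a b := by
      intro a b hab
      rw [SimpleGraph.fromEdgeSet_adj] at hab
      have h2 : pr s(a, b) ≤ ps S := Finset.le_sup (f := pr) hab.1
      rw [pr_le_iff] at h2
      exact h2
    obtain ⟨w⟩ := h.preconnected a b
    induction w with
    | nil => exact (ps S).refl' _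
    | cons hab _ ih => exact (ps S).trans' (key _ _ hab) ih

theorem Rel_Rl [Nonempty V] (G : SimpleGraph V) (p : ℝ) : Rel G p = Rl p (el G) ⊥ := by
  classical
  rw [Rl_sum p _ (el_nodup G)]
  unfold Rel
  have e1 : (el G).toFinset = G.edgeFinset := by
    ext e
    rw [List.mem_toFinset, mem_el, SimpleGraph.mem_edgeFinset]
  have e2 : (el G).length = G.edgeFinset.card := by
    rw [← e1, List.toFinset_card_of_nodup (el_nodup G)]
  rw [e2]
  refine sum_congr (by rw [← e1]) fun S _ => ?_
  rw [bot_sup_eq]
  exact if_congr (ps_top_iff S).symm rfl rfl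

theorem el_length (G : SimpleGraph V) : (el G).length = G.edgeSet.ncard := by
  classical
  have e1 : ((el G).toFinset : Set (Sym2 V)) = G.edgeSet := by
    ext e
    rw [mem_coe, List.mem_toFinset, mem_el]
  rw [← e1, Set.ncard_coe_finset, List.toFinset_card_of_nodup (el_nodup G)]

/-- the H-polynomial -/
noncomputable def Hp (G : SimpleGraph V) : ℝ[X] :=
  (T (el G) ⊥).reflect (G.edgeSet.ncard + 1 - Fintype.card V)

theorem T_natDegree (G : SimpleGraph V) (hG : G.Connected) :
    (T (el G) ⊥).natDegree ≤ G.edgeSet.ncard + 1 - Fintype.card V := by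
  have := hG.nonempty
  by_cases h : T (el G) ⊥ = 0
  · rw [h]; simp
  · have h1 := T_deg (el G) ⊥ (T (el G) ⊥).natDegree
      (by rw [coeff_natDegree]; exact leadingCoeff_ne_zero.2 h)
    rw [cb_bot, el_length] at h1
    omega

theorem conn_le (G : SimpleGraph V) (hG : G.Connected) :
    Fintype.card V ≤ G.edgeSet.ncard + 1 := by
  classical
  have := hG.card_vert_le_card_edgeSet_add_one
  rw [Nat.card_eq_fintype_card, Nat.card_coe_set_eq] at this
  exact this

theorem Hp_natDegree (G : SimpleGraph V) (hG : G.Connected) :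
    (Hp G).natDegree ≤ G.edgeSet.ncard + 1 - Fintype.card V := by
  unfold Hp
  rw [natDegree_le_iff_coeff_eq_zero]
  intro N hN
  rw [coeff_reflect]
  rw [revAt_eq_self_of_lt hN]
  exact coeff_eq_zero_of_natDegree_lt (lt_of_le_of_lt (T_natDegree G hG) hN)

theorem Rel_cont (G : SimpleGraph V) : Continuous (Rel G) := by
  classical
  unfold Rel
  refine continuous_finsetSum _ fun S _ => ?_
  split_ifs
  · fun_prop
  · exact continuous_const

theorem Rel_HV (G : SimpleGraph V) (hG : G.Connected) (p : ℝ) :
    Rel G p = p ^ (Fintype.card V - 1) * (Hp G).eval (1 - p) := by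
  have := hG.nonempty
  have key : ∀ p : ℝ, p ≠ 1 →
      Rel G p = p ^ (Fintype.card V - 1) * (Hp G).eval (1 - p) := by
    intro p hp
    have hq : 1 - p ≠ 0 := fun h => hp (by linarith)
    have h1 := Rl_T p hq (el G) ⊥
    rw [← Rel_Rl, cb_bot, el_length] at h1
    have hle := conn_le G hG
    have h2 : (Hp G).eval (1 - p) = (1 - p) ^ (G.edgeSet.ncard + 1 - Fintype.card V) *
        (T (el G) ⊥).eval ((1 - p)⁻¹) := by
      have hinv : Invertible ((1 - p)⁻¹ : ℝ) := invertibleOfNonzero (inv_ne_zero hq)
      have h3 := eval₂_reflect_mul_pow (RingHom.id ℝ) ((1 - p)⁻¹)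
        (G.edgeSet.ncard + 1 - Fintype.card V) (T (el G) ⊥) (T_natDegree G hG)
      have h4 : ⅟((1 - p)⁻¹ : ℝ) = 1 - p := by
        rw [invOf_eq_inv, inv_inv]
      rw [h4] at h3
      unfold Hp
      rw [eval, eval, ← h3, inv_pow]
      field_simp
    rw [h2]
    have h5 : (1 - p) ^ Fintype.card V ≠ 0 := pow_ne_zero _ hq
    apply mul_left_cancel₀ h5
    rw [h1]
    have h6 : (1 - p) ^ (G.edgeSet.ncard + 1) = (1 - p) ^ Fintype.card V *
        (1 - p) ^ (G.edgeSet.ncard + 1 - Fintype.card V) := by
      rw [← pow_add]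
      congr 1
      omega
    rw [h6]
    ring
  have h7 : Rel G = fun p => p ^ (Fintype.card V - 1) * (Hp G).eval (1 - p) := by
    apply Continuous.ext_on (dense_compl_singleton (1 : ℝ)) (Rel_cont G)
    · have := (Hp G).continuous
      fun_prop
    · intro p hp
      exact key p hp
  exact congrFun h7 p

theorem Hp_unique (G : SimpleGraph V) (hG : G.Connected) (H : ℝ[X])
    (h : ∀ p : ℝ, Rel G p = p ^ (Fintype.card V - 1) * H.eval (1 - p)) : H = Hp G := by
  apply eq_of_infinite_eval_eq
  have h1 : Set.Infinite {x : ℝ | x ≠ 1} := by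
    have : {x : ℝ | x ≠ 1} = ({1} : Set ℝ)ᶜ := rfl
    rw [this]
    exact (Set.finite_singleton (1 : ℝ)).infinite_compl
  refine h1.mono ?_
  intro x hx
  have h2 := h (1 - x)
  rw [Rel_HV G hG (1 - x)] at h2
  have h3 : (1 - x) ^ (Fintype.card V - 1) ≠ 0 :=
    pow_ne_zero _ (fun h => hx (by linarith : x = 1))
  have h4 := mul_left_cancel₀ h3 h2
  rw [sub_sub_cancel] at h4
  exact h4.symm

theorem T_isoF {W : Type*} [Fintype W] (G : SimpleGraph V) (e : V ≃ W) :
    T (el (G.map e.toEmbedding)) ⊥ = T (el G) ⊥ := by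
  classical
  have h1 : (⊥ : Setoid V) = Setoid.comap e (⊥ : Setoid W) := by
    ext x y
    change x = y ↔ e x = e y
    exact e.apply_eq_iff_eq.symm
  rw [h1, T_quot e e.surjective]
  apply T_perm
  rw [List.perm_ext_iff_of_nodup (el_nodup _)
    ((el_nodup G).map (Sym2.map.injective e.injective))]
  intro x
  rw [mem_el, List.mem_map]
  induction x with
  | _ a b =>
    rw [SimpleGraph.mem_edgeSet, SimpleGraph.map_adj]
    constructor
    · rintro ⟨u, v, huv, rfl, rfl⟩
      exact ⟨s(u, v), by rw [mem_el]; exact huv, rfl⟩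
    · rintro ⟨y, hy, hyx⟩
      rw [mem_el] at hy
      induction y with
      | _ u v =>
        rw [SimpleGraph.mem_edgeSet] at hy
        rw [Sym2.map_mk, Sym2.eq_iff] at hyx
        rcases hyx with ⟨h2, h3⟩ | ⟨h2, h3⟩
        · exact ⟨u, v, hy, h2, h3⟩
        · exact ⟨v, u, hy.symm, h3, h2⟩

end

section
open Pool.Agent.Helper291.RelCore Pool.Agent.Helper291.RelDense

/-- Sanity: for all `n ≥ 2` and `n - 1 ≤ m ≤ n(n-1)/2` the parameters `s, k` exist. -/
theorem exists_params (n m : ℕ) (hn : 2 ≤ n) (h1 : n - 1 ≤ m) (h2 : m ≤ n.choose 2) :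
    ∃ s k, 1 ≤ k ∧ k ≤ s ∧ s + 1 ≤ n ∧ m = s.choose 2 + k + (n - s - 1) := by
  have key : ∀ t, 1 ≤ t → t + 1 ≤ n → m ≤ t.choose 2 + t + (n - t - 1) →
      ∃ s k, 1 ≤ k ∧ k ≤ s ∧ s + 1 ≤ n ∧ m = s.choose 2 + k + (n - s - 1) := by
    intro t ht
    induction t, ht using Nat.le_induction with
    | base =>
      intro h3 h4
      refine ⟨1, 1, le_rfl, le_rfl, h3, ?_⟩
      simp at h4 ⊢
      omega
    | succ t ht ih =>
      intro h3 h4
      by_cases h5 : m ≤ t.choose 2 + t + (n - t - 1)
      · exact ih (by omega) h5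
      · have hch : (t + 1).choose 2 = t.choose 2 + t := by
          rw [Nat.choose_succ_succ' t 1, Nat.choose_one_right]; ring
        rw [hch] at h4
        refine ⟨t + 1, m - (t.choose 2 + t + (n - (t + 1) - 1)), ?_, ?_, h3, ?_⟩
        · omega
        · omega
        · rw [hch]; omega
  obtain ⟨r, rfl⟩ : ∃ r, n = r + 1 := ⟨n - 1, by omega⟩
  apply key r (by omega) le_rfl
  have hch : (r + 1).choose 2 = r.choose 2 + r := by
    rw [Nat.choose_succ_succ' r 1, Nat.choose_one_right]; ring
  omega

/-- Sanity: `L n s k f` is connected. -/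
theorem L_connected (n s k : ℕ) (hk : 1 ≤ k) (hks : k ≤ s) (hsn : s + 1 ≤ n) (f : ℕ → ℕ)
    (hf : ∀ j, s < j → j < n → f j < j) : (L n s k f).Connected := by
  have h0 : 0 < n := by omega
  have hr : ∀ (j : ℕ) (hj : j < n), (L n s k f).Reachable ⟨j, hj⟩ ⟨0, h0⟩ := by
    intro j
    induction j using Nat.strong_induction_on with
    | _ j ih =>
      intro hj
      rcases Nat.eq_zero_or_pos j with rfl | hpos
      · exact SimpleGraph.Reachable.refl _
      · by_cases hjs : j ≤ s
        · apply SimpleGraph.Adj.reachable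
          refine ⟨?_, ?_⟩
          · intro h; have := Fin.ext_iff.1 h; simp at this; omega
          · simp only [Nat.zero_le, max_eq_left, min_eq_right]
            omega
        · have hfj := hf j (by omega) hj
          have hadj : (L n s k f).Adj ⟨j, hj⟩ ⟨f j, by omega⟩ := by
            refine ⟨?_, Or.inr (Or.inr ?_)⟩
            · intro h; have := Fin.ext_iff.1 h; simp at this; omega
            · simp only [max_eq_left hfj.le, min_eq_right hfj.le]
              exact ⟨by omega, trivial⟩
          exact hadj.reachable.trans (ih (f j) hfj (by omega))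
  have : Nonempty (Fin n) := ⟨⟨0, h0⟩⟩
  exact SimpleGraph.Connected.mk (fun a b => (hr a.1 a.2).trans (hr b.1 b.2).symm)

/-- Sanity: `L n s k f` has `m = s(s-1)/2 + k + (n-s-1)` edges. -/
theorem L_edges (s k : ℕ) (_hk : 1 ≤ k) (hks : k ≤ s) (f : ℕ → ℕ) :
    ∀ n, s + 1 ≤ n → (∀ j, s < j → j < n → f j < j) →
      (L n s k f).edgeSet.ncard = s.choose 2 + k + (n - s - 1) := by
  classical
  intro n hn
  induction n, hn using Nat.le_induction with
  | base =>
    intro _
    have hch : (s + 1).choose 2 = s.choose 2 + s := by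
      rw [Nat.choose_succ_succ' s 1, Nat.choose_one_right]; ring
    have h1 := Pool.Agent.Helper291.RelMain.mt_card (L (s + 1) s k f)
    have h2 : (Pool.Agent.Helper291.RelMain.mt (L (s + 1) s k f)).card = s - k := by
      have : Pool.Agent.Helper291.RelMain.mt (L (s + 1) s k f) =
          ((Finset.Ico k s).attachFin (n := s + 1) (fun i hi => by
            have := (Finset.mem_Ico.1 hi).2; omega)).image (fun i => s(i, Fin.last s)) := by
        rw [L_eq, Lg_dense]
        ext e
        induction e using Sym2.ind with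
        | _ x y =>
          rw [Pool.Agent.Helper291.RelMain.mem_mt, starC_adj, mem_image]
          simp only [Finset.mem_attachFin, Finset.mem_Ico, mem_filter, mem_univ, true_and]
          constructor
          · rintro ⟨h1, h2⟩
            by_cases h3 : x = Fin.last s ∧ k ≤ y.1 ∧ y.1 < s
            · exact ⟨y, h3.2, by rw [h3.1, Sym2.eq_swap]⟩
            · by_cases h4 : y = Fin.last s ∧ k ≤ x.1 ∧ x.1 < s
              · exact ⟨x, h4.2, by rw [h4.1]⟩
              · exact absurd ⟨h1, h3, h4⟩ h2
          · rintro ⟨i, hi, he⟩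
            rcases Sym2.eq_iff.1 he with ⟨rfl, rfl⟩ | ⟨rfl, rfl⟩
            · refine ⟨?_, ?_⟩
              · intro h; have := Fin.ext_iff.1 h; simp at this; omega
              · rintro ⟨_, _, h⟩; exact h ⟨rfl, hi⟩
            · refine ⟨?_, ?_⟩
              · intro h; have := Fin.ext_iff.1 h; simp at this; omega
              · rintro ⟨_, h, _⟩; exact h ⟨rfl, hi⟩
      rw [this, Finset.card_image_of_injOn, Finset.card_attachFin, Nat.card_Ico]
      intro a _ b _ hab
      simp only [] at hab
      rcases Sym2.eq_iff.1 hab with ⟨h, _⟩ | ⟨h1, h2⟩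
      · exact h
      · exact h1.trans h2
    rw [Fintype.card_fin] at h1
    omega
  | succ m hm ih =>
    intro hf
    have ih' := ih (fun j h1 h2 => hf j h1 (by omega))
    have hfm := hf m (by omega) (by omega)
    have c1 := Pool.Agent.Helper291.RelMain.mt_card (L (m + 1) s k f)
    have c2 := Pool.Agent.Helper291.RelMain.mt_split (L (m + 1) s k f) (Fin.last m)
    have c3 := Pool.Agent.Helper291.RelMain.nn_nbs (L (m + 1) s k f) (Fin.last m)
    have c4 := ms_card (L (m + 1) s k f) (Fin.last m)
    have c5 := Pool.Agent.Helper291.RelMain.mt_card (delV (L (m + 1) s k f) (Fin.last m))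
    have hch : (m + 1).choose 2 = m.choose 2 + m := by
      rw [Nat.choose_succ_succ' m 1, Nat.choose_one_right]; ring
    have hcard : Fintype.card {w : Fin (m + 1) // w ≠ Fin.last m} = m := by
      have := card_sub (Fin.last m)
      rw [Fintype.card_fin] at this
      omega
    have hiso : (delV (L (m + 1) s k f) (Fin.last m)).edgeSet.ncard =
        (L m s k f).edgeSet.ncard := by
      have iso : L m s k f ≃g delV (L (m + 1) s k f) (Fin.last m) :=
        { toEquiv := finSuccAboveEquiv (Fin.last m)
          map_rel_iff' := by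
            intro a b
            rw [delV_adj, L_eq, L_eq, Lg_adj, Lg_adj]
            simp only [finSuccAboveEquiv_apply, Fin.succAbove_last]
            simp }
      rw [← Nat.card_coe_set_eq, ← Nat.card_coe_set_eq]
      exact (Nat.card_congr iso.mapEdgeSet).symm
    have hnb : (nbs (L (m + 1) s k f) (Fin.last m)).card = 1 := by
      have : nbs (L (m + 1) s k f) (Fin.last m) = {(⟨f m, by omega⟩ : Fin (m + 1))} := by
        ext w
        rw [mem_nbs, mem_singleton, L_eq, Lg_adj]
        constructor
        · rintro ⟨h1, h⟩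
          have hw : w.1 < m := by
            have := w.2
            have h3 : w.1 ≠ m := fun h => h1 (Fin.ext h).symm
            omega
          have e1 : max (Fin.last m).1 w.1 = m := by simp; omega
          have e2 : min (Fin.last m).1 w.1 = w.1 := by simp; omega
          rw [e1, e2] at h
          rcases h with h | h | h
          · omega
          · omega
          · exact Fin.ext h.2
        · rintro rfl
          refine ⟨?_, Or.inr (Or.inr ?_)⟩
          · intro h; have := Fin.ext_iff.1 h; simp at this; omega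
          · have h1 : max (Fin.last m).1 (f m) = m := by simp; omega
            have h2 : min (Fin.last m).1 (f m) = f m := by simp; omega
            simp only [h1, h2]
            exact ⟨by omega, trivial⟩
      rw [this, card_singleton]
    rw [Fintype.card_fin] at c1 c3
    rw [hcard] at c5
    rw [hiso, ih'] at c5
    rw [hnb] at c3
    omega

end

/-- existence of the H-form -/
theorem hform_exists {V : Type*} [Fintype V] (G : SimpleGraph V) (hG : G.Connected) :
    ∃ H : ℝ[X], H.natDegree ≤ G.edgeSet.ncard + 1 - Fintype.card V ∧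
      ∀ p : ℝ, Rel G p = p ^ (Fintype.card V - 1) * H.eval (1 - p) :=
  ⟨Hp G, Hp_natDegree G hG, Rel_HV G hG⟩

/-- **Comparison of the H-vectors.** -/
theorem hvec (h : MainStm) (n s k : ℕ) (hk : 1 ≤ k) (hks : k ≤ s) (hsn : s + 1 ≤ n) (f : ℕ → ℕ)
    (hf : ∀ j, s < j → j < n → f j < j) {V : Type*} [Fintype V] (hV : Fintype.card V = n)
    (G : SimpleGraph V) (hG : G.Connected)
    (hm : G.edgeSet.ncard = s.choose 2 + k + (n - s - 1))
    (HL HG : ℝ[X]) (hL : ∀ p : ℝ, Rel (L n s k f) p = p ^ (n - 1) * HL.eval (1 - p))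
    (hH : ∀ p : ℝ, Rel G p = p ^ (n - 1) * HG.eval (1 - p)) (i : ℕ) :
    HL.coeff i ≤ HG.coeff i := by
  classical
  have hLc := L_connected n s k hk hks hsn f hf
  have hLe := L_edges s k hk hks f n hsn hf
  have e1 : HL = Hp (L n s k f) := by
    apply Hp_unique _ hLc
    rw [Fintype.card_fin]
    exact hL
  have e2 : HG = Hp G := by
    apply Hp_unique _ hG
    rw [hV]
    exact hH
  rw [e1, e2]
  unfold Hp
  rw [coeff_reflect, coeff_reflect, hLe, hm, hV, Fintype.card_fin]
  let e : V ≃ Fin n := Fintype.equivFinOfCardEq hV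
  rw [← T_isoF G e]
  have hG' : (G.map e.toEmbedding).Connected :=
    ((SimpleGraph.Iso.map e G).connected_iff).1 hG
  have hm' : (G.map e.toEmbedding).edgeSet.ncard = s.choose 2 + k + (n - s - 1) := by
    rw [← hm, ← Nat.card_coe_set_eq, ← Nat.card_coe_set_eq]
    exact (Nat.card_congr (SimpleGraph.Iso.map e G).mapEdgeSet).symm
  exact h f s k hk hks n hsn hf (Fin n) (G.map e.toEmbedding) (Fintype.card_fin n) hG' hm' _

end Pool.Agent.Y373.HV
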