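import Pool.Agent.Y373.HV.Stm
import Pool.Agent.Y373.HV.Core

set_option autoImplicit false

/-! Kelmans compression from the exchange inequality. -/

namespace Pool.Agent.Y373.HV

open Polynomial Finset Pool.Agent.Helper291.RelC

section
variable {V : Type}

theorem cbt_bot [DecidableEq V] (u t : V) (l : List (Sym2 V)) :
    cbt ⊥ u t l = l.count s(u, t) := by
  classical
  unfold cbt
  rw [List.count, List.countP_eq_length_filter]
  congr 1
  refine List.filter_congr fun e _ => ?_
  have h1 : (∃ x, (⊥ : Setoid V) u x ∧ e = s(x, t)) ↔ e = s(u, t) := by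
    constructor
    · rintro ⟨x, hx, rfl⟩
      have : u = x := by simpa [Setoid.bot_def] using hx
      rw [this]
    · rintro rfl
      exact ⟨u, (⊥ : Setoid V).refl u, rfl⟩
  by_cases h2 : e = s(u, t)
  · rw [decide_eq_true (h1.2 h2), h2]
    simp
  · rw [decide_eq_false (fun h3 => h2 (h1.1 h3))]
    simp [h2]

/-- adjacency in the compression in terms of the moved neighbours -/
theorem comp_iff (G : SimpleGraph V) {u v : V} (huv : u ≠ v) (P : V → Prop)
    (hP : ∀ w, P w ↔ G.Adj u w ∧ w ≠ v ∧ ¬ G.Adj v w) (x y : V) :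
    (compress G u v).Adj x y ↔
      (G.Adj x y ∧ ¬ ∃ w, P w ∧ s(u, w) = s(x, y)) ∨ ∃ w, P w ∧ s(v, w) = s(x, y) := by
  have key : ∀ c : V, (∃ w, P w ∧ s(c, w) = s(x, y)) ↔ (c = x ∧ P y) ∨ (c = y ∧ P x) := by
    intro c
    constructor
    · rintro ⟨w, hw, he⟩
      rcases Sym2.eq_iff.1 he with ⟨h1, h2⟩ | ⟨h1, h2⟩
      · exact Or.inl ⟨h1, h2 ▸ hw⟩
      · exact Or.inr ⟨h1, h2 ▸ hw⟩
    · rintro (⟨rfl, h⟩ | ⟨rfl, h⟩)
      · exact ⟨y, h, rfl⟩
      · exact ⟨x, h, Sym2.eq_swap⟩
  rw [key, key, hP, hP]
  by_cases hxu : x = u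
  · subst hxu
    by_cases hyv : y = v
    · subst hyv
      rw [comp_uv G huv]
      simp [huv.symm]
    · by_cases hyx : y = x
      · subst hyx
        simp [huv.symm]
      · rw [comp_u G huv hyx hyv]
        have h1 : x ≠ y := Ne.symm hyx
        have h2 : v ≠ x := huv.symm
        have h3 : v ≠ y := Ne.symm hyv
        simp only [h1, h2, h3, false_and, or_false, true_and, not_and, not_not]
        tauto
  · by_cases hxv : x = v
    · subst hxv
      by_cases hyu : y = u
      · subst hyu
        rw [(compress G y x).adj_comm, comp_uv G huv, G.adj_comm x y]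
        simp [huv, huv.symm]
      · by_cases hyx : y = x
        · subst hyx
          simp [huv]
        · rw [comp_v G huv hyu hyx]
          have h1 : u ≠ x := huv
          have h2 : u ≠ y := Ne.symm hyu
          have h3 : x ≠ y := Ne.symm hyx
          simp only [h1, h2, h3, false_and, or_false, true_and, not_false_eq_true, and_true]
          tauto
    · have h1 : u ≠ x := Ne.symm hxu
      have h2 : v ≠ x := Ne.symm hxv
      by_cases hyu : y = u
      · subst hyu
        rw [(compress G y v).adj_comm, comp_u G huv hxu hxv, G.adj_comm x y]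
        simp only [h1, h2, huv.symm, false_and, false_or, or_false, true_and, not_and, not_not]
        tauto
      · by_cases hyv : y = v
        · subst hyv
          rw [(compress G u y).adj_comm, comp_v G huv hxu hxv, G.adj_comm x y]
          simp only [h1, h2, huv, false_and, false_or, or_false, true_and, not_false_eq_true,
            and_true]
          tauto
        · rw [comp_off G hxu hxv hyu hyv]
          have h3 : u ≠ y := Ne.symm hyu
          have h4 : v ≠ y := Ne.symm hyv
          simp only [h1, h2, h3, h4, false_and, or_false, not_false_eq_true, and_true]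

end

/-- Kelmans compression -/
theorem kel (hE : ExchStm) : KelStm := by
  classical
  intro V _ _ G u v huv
  set Ex : Finset V := univ.filter (fun w => G.Adj u w ∧ w ≠ v ∧ ¬ G.Adj v w) with hEx
  have hmem : ∀ w, w ∈ Ex ↔ G.Adj u w ∧ w ≠ v ∧ ¬ G.Adj v w := by
    intro w; rw [hEx]; simp
  set ws := Ex.toList with hws
  have hmemw : ∀ w, w ∈ ws ↔ G.Adj u w ∧ w ≠ v ∧ ¬ G.Adj v w := by
    intro w; rw [hws, Finset.mem_toList, hmem]
  set l := (el G).filter (fun e => ¬ ∃ w, w ∈ ws ∧ s(u, w) = e) with hl
  have hmeml : ∀ e, e ∈ l ↔ e ∈ G.edgeSet ∧ ¬ ∃ w, w ∈ ws ∧ s(u, w) = e := by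
    intro e
    rw [hl, List.mem_filter, mem_el, decide_eq_true_eq]
  have hlnd : l.Nodup := (el_nodup G).filter _
  have hwnd : ws.Nodup := Finset.nodup_toList _
  have hmapnd : ∀ c : V, (ws.map (fun w => s(c, w))).Nodup := by
    intro c
    refine hwnd.map ?_
    intro a b hab
    exact Sym2.congr_right.1 hab
  have hu : (el G).Perm (l ++ ws.map (fun w => s(u, w))) := by
    rw [List.perm_ext_iff_of_nodup (el_nodup G)]
    · intro e
      rw [List.mem_append, mem_el, hmeml, List.mem_map]
      constructor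
      · intro he
        by_cases h1 : ∃ w, w ∈ ws ∧ s(u, w) = e
        · exact Or.inr h1
        · exact Or.inl ⟨he, h1⟩
      · rintro (⟨h1, -⟩ | ⟨w, hw, rfl⟩)
        · exact h1
        · exact ((hmemw w).1 hw).1
    · refine List.Nodup.append hlnd (hmapnd u) ?_
      intro e he he'
      exact ((hmeml e).1 he).2 (List.mem_map.1 he')
  have hv : (el (compress G u v)).Perm (l ++ ws.map (fun w => s(v, w))) := by
    rw [List.perm_ext_iff_of_nodup (el_nodup _)]
    · intro e
      rw [List.mem_append, mem_el, hmeml, List.mem_map]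
      induction e using Sym2.ind with
      | _ x y =>
      exact comp_iff G huv (fun w => w ∈ ws) hmemw x y
    · refine List.Nodup.append hlnd (hmapnd v) ?_
      intro e he he'
      obtain ⟨w, hw, rfl⟩ := List.mem_map.1 he'
      exact ((hmemw w).1 hw).2.2 ((hmeml _).1 he).1
  rw [T_perm hu, T_perm hv]
  have hb : ∀ x y : V, (⊥ : Setoid V) x y ↔ x = y := by
    intro x y; simp
  refine hE V ⊥ v u ?_ l ws ?_ ?_
  · rw [hb]; exact huv.symm
  · intro w hw
    rw [hb, hb]
    have := (hmemw w).1 hw
    exact ⟨this.2.1.symm, this.1.ne⟩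
  · intro t ht1 ht2
    rw [hb] at ht1 ht2
    rw [cbt_bot, cbt_bot]
    by_cases h1 : s(u, t) ∈ l
    · have h2 : l.count s(u, t) ≤ 1 := List.nodup_iff_count_le_one.1 hlnd _
      refine h2.trans ?_
      rw [Nat.succ_le_iff, List.count_pos_iff, hmeml]
      have h3 := (hmeml _).1 h1
      constructor
      · show G.Adj v t
        by_contra h4
        exact h3.2 ⟨t, (hmemw t).2 ⟨h3.1, fun h5 => ht1 h5.symm, h4⟩, rfl⟩
      · rintro ⟨w, hw, he⟩
        rcases Sym2.eq_iff.1 he with ⟨h4, -⟩ | ⟨h4, -⟩
        · exact huv h4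
        · exact ht2 h4
    · rw [List.count_eq_zero_of_not_mem h1]
      exact Nat.zero_le _

end Pool.Agent.Y373.HV
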