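import Mathlib
import Pool.Agent.Y373.HV.Stm
import Pool.Agent.Y373.HV.Core

set_option autoImplicit false

namespace Pool.Agent.Y373.HV

open Polynomial Finset

section mq

/-- the moment identity, in terms of blocks -/
theorem mq (h1 : MomStm) {V : Type} [Fintype V] [DecidableEq V] (l : List (Sym2 V))
    (s : Setoid V) (J : Finset V) (r : V) (hr : r ∈ J) (hJ : ∀ x ∈ J, ∀ y, s x y ↔ y ∈ J)
    {K : Type} [DecidableEq K] (blk : K → Finset V) (D : Finset K)
    (hne : ∀ k ∈ D, (blk k).Nonempty) (hb : ∀ k ∈ D, ∀ x ∈ blk k, ∀ y, s x y ↔ y ∈ blk k)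
    (hd : ∀ k ∈ D, Disjoint J (blk k))
    (hpd : ∀ k ∈ D, ∀ k' ∈ D, k ≠ k' → Disjoint (blk k) (blk k')) :
    (X : ℝ[X]) ^ cnt (J ∪ D.biUnion blk) l =
      ∑ D' ∈ D.powerset, (X - 1) ^ D'.card * tc (J ∪ D'.biUnion blk) l s *
        X ^ cnt ((D \ D').biUnion blk) l := by
  classical
  have hclosed : ∀ x ∈ J ∪ D.biUnion blk, ∀ y, s x y → y ∈ J ∪ D.biUnion blk := by
    intro x hx y hxy
    rw [mem_union, mem_biUnion] at hx
    rw [mem_union, mem_biUnion]
    rcases hx with hx | ⟨k, hk, hx⟩
    · exact Or.inl ((hJ x hx y).1 hxy)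
    · exact Or.inr ⟨k, hk, (hb k hk x hx y).1 hxy⟩
  rw [h1 V l s (J ∪ D.biUnion blk) r (mem_union_left _ hr) hclosed]
  symm
  have key : ∀ D1 ⊆ D, ∀ k ∈ D, (blk k ⊆ J ∪ D1.biUnion blk ↔ k ∈ D1) := by
    intro D1 hD1 k hk
    constructor
    · intro h
      obtain ⟨x, hx⟩ := hne k hk
      have := h hx
      rw [mem_union, mem_biUnion] at this
      rcases this with h3 | ⟨k', hk', h3⟩
      · exact absurd hx (Finset.disjoint_left.1 (hd k hk) h3)
      · by_contra hcon
        have hne' : k ≠ k' := fun h => hcon (h ▸ hk')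
        exact Finset.disjoint_left.1 (hpd k hk k' (hD1 hk') hne') hx h3
    · intro h
      exact (subset_biUnion_of_mem blk h).trans subset_union_right
  refine Finset.sum_of_injOn (fun D' => J ∪ D'.biUnion blk) ?_ ?_ ?_ ?_
  · intro D1 hD1 D2 hD2 h
    rw [mem_coe, mem_powerset] at hD1 hD2
    simp only at h
    ext k
    constructor
    · intro hk
      rw [← key D2 hD2 k (hD1 hk), ← h, key D1 hD1 k (hD1 hk)]
      exact hk
    · intro hk
      rw [← key D1 hD1 k (hD2 hk), h, key D2 hD2 k (hD2 hk)]
      exact hk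
  · intro D1 hD1
    rw [mem_coe, mem_powerset] at hD1
    rw [mem_coe, mem_filter, mem_powerset]
    exact ⟨union_subset_union le_rfl (biUnion_subset_biUnion_of_subset_left _ hD1),
      mem_union_left _ hr⟩
  · intro D0 hD0 hn
    rw [mem_filter, mem_powerset] at hD0
    have : ∃ x ∈ D0, ∃ y, y ∉ D0 ∧ s x y := by
      by_contra hcon
      push Not at hcon
      apply hn
      refine ⟨D.filter (fun k => blk k ⊆ D0), ?_, ?_⟩
      · rw [mem_coe, mem_powerset]
        exact filter_subset _ _
      · simp only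
        ext x
        rw [mem_union, mem_biUnion]
        constructor
        · rintro (hx | ⟨k, hk, hx⟩)
          · by_contra hx0
            exact hcon r hD0.2 x hx0 ((hJ r hr x).2 hx)
          · rw [mem_filter] at hk
            exact hk.2 hx
        · intro hx
          have := hD0.1 hx
          rw [mem_union, mem_biUnion] at this
          rcases this with h3 | ⟨k, hk, h3⟩
          · exact Or.inl h3
          · right
            refine ⟨k, ?_, h3⟩
            rw [mem_filter]
            refine ⟨hk, ?_⟩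
            intro y hy
            by_contra hy0
            exact hcon x hx y hy0 ((hb k hk x h3 y).2 hy)
    obtain ⟨x, hx, y, hy, hxy⟩ := this
    rw [tc_not_closed D0 l s x y hx hy hxy]
    ring
  · intro D1 hD1
    rw [mem_powerset] at hD1
    have e1 : nb s (J ∪ D1.biUnion blk) = D1.card + 1 := by
      unfold nb
      have e2 : (J ∪ D1.biUnion blk).image (fun x => (Quotient.mk s x)) =
          insert (Quotient.mk s r) (D1.image (fun k =>
            Quotient.mk s (if h : (blk k).Nonempty then h.choose else r))) := by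
        ext q
        rw [mem_image, mem_insert, mem_image]
        constructor
        · rintro ⟨x, hx, rfl⟩
          rw [mem_union, mem_biUnion] at hx
          rcases hx with hx | ⟨k, hk, hx⟩
          · left
            exact Quotient.sound ((hJ x hx r).2 hr)
          · right
            refine ⟨k, hk, ?_⟩
            rw [dif_pos (hne k (hD1 hk))]
            exact Quotient.sound ((hb k (hD1 hk) _ (hne k (hD1 hk)).choose_spec x).2 hx)
        · rintro (rfl | ⟨k, hk, rfl⟩)
          · exact ⟨r, mem_union_left _ hr, rfl⟩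
          · rw [dif_pos (hne k (hD1 hk))]
            exact ⟨_, mem_union_right _ (mem_biUnion.2 ⟨k, hk, (hne k (hD1 hk)).choose_spec⟩), rfl⟩
      rw [e2, card_insert_of_notMem, card_image_of_injOn]
      · intro k hk k' hk' h
        rw [mem_coe] at hk hk'
        simp only at h
        rw [dif_pos (hne k (hD1 hk)), dif_pos (hne k' (hD1 hk'))] at h
        have h3 : s (hne k (hD1 hk)).choose (hne k' (hD1 hk')).choose := Quotient.exact h
        rw [hb k (hD1 hk) _ (hne k (hD1 hk)).choose_spec] at h3
        by_contra hkk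
        exact Finset.disjoint_left.1 (hpd k (hD1 hk) k' (hD1 hk') hkk) h3
          (hne k' (hD1 hk')).choose_spec
      · rw [mem_image]
        rintro ⟨k, hk, h⟩
        rw [dif_pos (hne k (hD1 hk))] at h
        have h3 : s (hne k (hD1 hk)).choose r := Quotient.exact h
        rw [hb k (hD1 hk) _ (hne k (hD1 hk)).choose_spec] at h3
        exact Finset.disjoint_left.1 (hd k (hD1 hk)) hr h3
    have e3 : (J ∪ D.biUnion blk) \ (J ∪ D1.biUnion blk) = (D \ D1).biUnion blk := by
      ext x
      rw [mem_sdiff, mem_union, mem_union, mem_biUnion, mem_biUnion, mem_biUnion]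
      constructor
      · rintro ⟨h3 | ⟨k, hk, h3⟩, h4⟩
        · exact absurd (Or.inl h3) h4
        · refine ⟨k, ?_, h3⟩
          rw [mem_sdiff]
          exact ⟨hk, fun h5 => h4 (Or.inr ⟨k, h5, h3⟩)⟩
      · rintro ⟨k, hk, h3⟩
        rw [mem_sdiff] at hk
        refine ⟨Or.inr ⟨k, hk.1, h3⟩, ?_⟩
        rintro (h4 | ⟨k', hk', h4⟩)
        · exact Finset.disjoint_left.1 (hd k hk.1) h4 h3
        · have : k ≠ k' := fun h => hk.2 (h ▸ hk')
          exact Finset.disjoint_left.1 (hpd k hk.1 k' (hD1 hk') this) h3 h4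
    rw [e1, e3, Nat.add_sub_cancel]

end mq

/-- uniqueness -/
theorem uniq {Ω : Type} [DecidableEq Ω] (R : Finset Ω) (h w c : Finset Ω → ℝ[X])
    (hw : ∀ D, w D ≠ 0) (hc : c ∅ ≠ 0)
    (H : ∀ D ⊆ R, ∑ D' ∈ D.powerset, w D' * h D' * c (D \ D') = 0) :
    ∀ D ⊆ R, h D = 0 := by
  intro D
  induction D using Finset.strongInduction with
  | H D ih =>
    intro hD
    have h1 := H D hD
    rw [Finset.sum_eq_single_of_mem D (mem_powerset_self D)] at h1
    · rw [sdiff_self] at h1
      have h2 : w D * h D = 0 := by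
        rcases mul_eq_zero.1 h1 with h2 | h2
        · exact h2
        · exact absurd h2 hc
      rcases mul_eq_zero.1 h2 with h3 | h3
      · exact absurd h3 (hw D)
      · exact h3
    · intro D' hD' hne
      rw [mem_powerset] at hD'
      rw [ih D' (lt_of_le_of_ne hD' hne) (hD'.trans hD)]
      ring

theorem choose_two_add (j k : ℕ) : (j + k).choose 2 = j.choose 2 + k.choose 2 + j * k := by
  induction k with
  | zero => simp
  | succ k ih =>
    have e1 : (j + (k + 1)).choose 2 = (j + k) + (j + k).choose 2 := by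
      rw [← add_assoc, Nat.choose_succ_succ' (j + k) 1, Nat.choose_one_right]
    have e2 : (k + 1).choose 2 = k + k.choose 2 := by
      rw [Nat.choose_succ_succ' k 1, Nat.choose_one_right]
    rw [e1, e2, ih]
    ring

theorem cnt_KU {V : Type} [Fintype V] [DecidableEq V] (U B : Finset V) :
    cnt B (el (KU U)) = (B ∩ U).card.choose 2 + (B ∩ U).card * (B \ U).card := by
  classical
  suffices key : ∀ p : Sym2 V → Bool, (∀ e, p e = true ↔ ∀ x ∈ e, x ∈ B) →
      ((el (KU U)).filter p).length = (B ∩ U).card.choose 2 + (B ∩ U).card * (B \ U).card by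
    unfold cnt
    exact key _ (fun e => by simp)
  intro p hp
  have hnd : (List.filter p (el (KU U))).Nodup := (el_nodup (KU U)).filter _
  rw [← List.toFinset_card_of_nodup hnd]
  have e1 : (List.filter p (el (KU U))).toFinset =
      ((B ∩ U).offDiag.image (fun p => s(p.1, p.2))) ∪
        (((B ∩ U) ×ˢ (B \ U)).image (fun p => s(p.1, p.2))) := by
    ext e
    rw [List.mem_toFinset, List.mem_filter, mem_el, mem_union, mem_image, mem_image, hp]
    induction e with
    | _ x y =>
      simp only [SimpleGraph.mem_edgeSet, KU, Sym2.mem_iff, forall_eq_or_imp,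
        forall_eq, mem_offDiag, mem_inter, mem_product, mem_sdiff, Prod.exists]
      constructor
      · rintro ⟨⟨hxy, hU⟩, hx, hy⟩
        by_cases h1 : x ∈ U
        · by_cases h2 : y ∈ U
          · exact Or.inl ⟨x, y, ⟨⟨hx, h1⟩, ⟨hy, h2⟩, hxy⟩, rfl⟩
          · exact Or.inr ⟨x, y, ⟨⟨hx, h1⟩, ⟨hy, h2⟩⟩, rfl⟩
        · have h2 : y ∈ U := by tauto
          exact Or.inr ⟨y, x, ⟨⟨hy, h2⟩, ⟨hx, h1⟩⟩, Sym2.eq_swap⟩
      · rintro (⟨x', y', ⟨⟨h1, h2⟩, ⟨h3, h4⟩, h5⟩, h6⟩ | ⟨x', y', ⟨⟨h1, h2⟩, ⟨h3, h4⟩⟩, h6⟩)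
        · rw [Sym2.eq_iff] at h6
          rcases h6 with ⟨rfl, rfl⟩ | ⟨rfl, rfl⟩
          · exact ⟨⟨h5, Or.inl h2⟩, h1, h3⟩
          · exact ⟨⟨Ne.symm h5, Or.inr h2⟩, h3, h1⟩
        · rw [Sym2.eq_iff] at h6
          have h5 : x' ≠ y' := fun h => h4 (h ▸ h2)
          rcases h6 with ⟨rfl, rfl⟩ | ⟨rfl, rfl⟩
          · exact ⟨⟨h5, Or.inl h2⟩, h1, h3⟩
          · exact ⟨⟨Ne.symm h5, Or.inr h2⟩, h3, h1⟩
  rw [e1, card_union_of_disjoint]
  · congr 1
    · exact Sym2.card_image_offDiag _
    · rw [card_image_of_injOn, card_product]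
      rintro ⟨x, y⟩ hx ⟨x', y'⟩ hx' h
      simp only [coe_product, Set.mem_prod, mem_coe, mem_inter, mem_sdiff] at hx hx'
      simp only [Sym2.eq_iff] at h
      rcases h with ⟨h1, h2⟩ | ⟨h1, h2⟩
      · rw [h1, h2]
      · exact absurd (h1 ▸ hx.1.2) hx'.2.2
  · rw [Finset.disjoint_left]
    intro e he he'
    rw [mem_image] at he he'
    obtain ⟨⟨x, y⟩, h1, rfl⟩ := he
    obtain ⟨⟨x', y'⟩, h3, h4⟩ := he'
    rw [mem_offDiag] at h1
    rw [mem_product] at h3
    simp only [mem_inter, mem_sdiff] at h1 h3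
    simp only [Sym2.eq_iff] at h4
    rcases h4 with ⟨h5, h6⟩ | ⟨h5, h6⟩
    · exact h3.2.2 (h6 ▸ h1.2.1.2)
    · exact h3.2.2 (h6 ▸ h1.1.2)

section main
variable {V : Type} [Fintype V] [DecidableEq V] {Ω : Type} [Fintype Ω] [DecidableEq Ω]

/-- fibre -/
def fib (g : V → Ω) (q : Ω) : Finset V := univ.filter (fun x => g x = q)

omit [DecidableEq V] [Fintype Ω] in
theorem mem_fib (g : V → Ω) (q : Ω) (x : V) : x ∈ fib g q ↔ g x = q := by
  unfold fib; simp

omit [Fintype Ω] in
theorem cu_pre (g : V → Ω) (U : Finset V) (hinj : ∀ x ∈ U, ∀ y, g x = g y → x = y)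
    (D : Finset Ω) : ((D.biUnion (fib g)) ∩ U).card = (D ∩ U.image g).card := by
  rw [← card_image_of_injOn (s := (D.biUnion (fib g)) ∩ U) (f := g)]
  · congr 1
    ext q
    simp only [mem_image, mem_inter, mem_biUnion, mem_fib]
    constructor
    · rintro ⟨x, ⟨⟨q', hq', h1⟩, h2⟩, rfl⟩
      exact ⟨h1 ▸ hq', x, h2, rfl⟩
    · rintro ⟨h1, x, h2, rfl⟩
      exact ⟨x, ⟨⟨g x, h1, rfl⟩, h2⟩, rfl⟩
  · intro x hx y hy h
    rw [mem_coe, mem_inter] at hx
    exact hinj x hx.2 y h

omit [Fintype Ω] in
theorem co_pre (g : V → Ω) (U : Finset V) (hinj : ∀ x ∈ U, ∀ y, g x = g y → x = y)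
    (D : Finset Ω) : ((D.biUnion (fib g)) \ U).card =
      wS (fun q => (fib g q).card) (D \ U.image g) := by
  unfold wS
  have e1 : (D.biUnion (fib g)) \ U = (D \ U.image g).biUnion (fib g) := by
    ext x
    simp only [mem_sdiff, mem_biUnion, mem_fib, mem_image, not_exists, not_and]
    constructor
    · rintro ⟨⟨q, hq, rfl⟩, h2⟩
      exact ⟨g x, ⟨hq, fun y hy h => h2 ((hinj y hy x h) ▸ hy)⟩, rfl⟩
    · rintro ⟨q, ⟨hq, h2⟩, rfl⟩
      exact ⟨⟨g x, hq, rfl⟩, fun hx => h2 x hx rfl⟩
  rw [e1, card_biUnion]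
  intro q _ q' _ hqq
  refine Finset.disjoint_left.2 ?_
  intro x hx hx'
  rw [mem_fib] at hx hx'
  exact hqq (hx.symm.trans hx')

end main

section cases
variable {V : Type} [Fintype V] [DecidableEq V] {Ω : Type} [DecidableEq Ω]

theorem cntJ {U J Y : Finset V} (hJU : J ⊆ U) (hd : Disjoint J Y) :
    cnt (J ∪ Y) (el (KU U)) = J.card.choose 2 + J.card * Y.card + cnt Y (el (KU U)) := by
  rw [cnt_KU, cnt_KU]
  have e1 : ((J ∪ Y) ∩ U).card = J.card + (Y ∩ U).card := by
    rw [union_inter_distrib_right, inter_eq_left.2 hJU, card_union_of_disjoint]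
    exact hd.mono_right inter_subset_left
  have e2 : (J ∪ Y) \ U = Y \ U := by
    rw [union_sdiff_distrib, sdiff_eq_empty_iff_subset.2 hJU, empty_union]
  have e3 : Y.card = (Y ∩ U).card + (Y \ U).card := by
    rw [card_inter_add_card_sdiff]
  rw [e1, e2, choose_two_add, e3]
  ring

theorem cntE {U E Y : Finset V} (hEU : Disjoint E U) (hd : Disjoint E Y) :
    cnt (E ∪ Y) (el (KU U)) = cnt Y (el (KU U)) + E.card * (Y ∩ U).card := by
  rw [cnt_KU, cnt_KU]
  have e1 : (E ∪ Y) ∩ U = Y ∩ U := by
    rw [union_inter_distrib_right, disjoint_iff_inter_eq_empty.1 hEU, empty_union]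
  have e2 : ((E ∪ Y) \ U).card = E.card + (Y \ U).card := by
    rw [union_sdiff_distrib, sdiff_eq_self_of_disjoint hEU, card_union_of_disjoint]
    exact hd.mono_right sdiff_subset
  rw [e1, e2]
  ring

/-- the common hypotheses -/
structure Hyp (g : V → Ω) (U : Finset V) (s : Setoid V) (J : Finset V) (R : Finset Ω)
    (blk : Ω → Finset V) : Prop where
  inj : ∀ x ∈ U, ∀ y, g x = g y → x = y
  JU : J ⊆ U
  Jne : J.Nonempty
  Jb : ∀ x ∈ J, ∀ y, s x y ↔ y ∈ J
  RJ : ∀ x ∈ J, g x ∉ R
  surj : ∀ q, ∃ x, g x = q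
  Rb : ∀ x, g x ∈ R → ∀ y, s x y ↔ g x = g y
  blkR : ∀ q ∈ R, blk q = fib g q

/-- a marked block -/
structure Mark (g : V → Ω) (U : Finset V) (s : Setoid V) (J : Finset V) (R : Finset Ω)
    (blk : Ω → Finset V) (m : Ω) : Prop where
  notR : m ∉ R
  ne : (blk m).Nonempty
  b : ∀ x ∈ blk m, ∀ y, s x y ↔ y ∈ blk m
  dJ : Disjoint J (blk m)
  dU : Disjoint (blk m) U
  dR : ∀ x ∈ blk m, g x ∉ R

variable {g : V → Ω} {U : Finset V} {s : Setoid V} {J : Finset V} {R : Finset Ω}
    {blk : Ω → Finset V}

theorem Hyp.bi (H : Hyp g U s J R blk) {D : Finset Ω} (hD : D ⊆ R) :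
    D.biUnion blk = D.biUnion (fib g) :=
  biUnion_congr rfl fun q hq => H.blkR q (hD hq)

theorem Hyp.cnt0 (H : Hyp g U s J R blk) {D : Finset Ω} (hD : D ⊆ R) :
    cnt (D.biUnion blk) (el (KU U)) = eS (U.image g) (fun q => (fib g q).card) D := by
  rw [H.bi hD, cnt_KU, cu_pre g U H.inj, co_pre g U H.inj]
  rfl

theorem Hyp.cu (H : Hyp g U s J R blk) {D : Finset Ω} (hD : D ⊆ R) :
    (D.biUnion blk ∩ U).card = (D ∩ U.image g).card := by
  rw [H.bi hD, cu_pre g U H.inj]

theorem Hyp.card (H : Hyp g U s J R blk) {D : Finset Ω} (hD : D ⊆ R) :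
    (D.biUnion blk).card = wS (fun q => (fib g q).card) D := by
  rw [H.bi hD, card_biUnion]
  · rfl
  · intro q _ q' _ hqq
    refine Finset.disjoint_left.2 ?_
    intro x hx hx'
    rw [mem_fib] at hx hx'
    exact hqq (hx.symm.trans hx')

omit [DecidableEq V] in
theorem Hyp.dJ (H : Hyp g U s J R blk) {q : Ω} (hq : q ∈ R) : Disjoint J (blk q) := by
  rw [Finset.disjoint_left]
  intro x hx hx'
  rw [H.blkR q hq, mem_fib] at hx'
  exact H.RJ x hx (hx' ▸ hq)

theorem Hyp.dJ' (H : Hyp g U s J R blk) {D : Finset Ω} (hD : D ⊆ R) :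
    Disjoint J (D.biUnion blk) := by
  rw [disjoint_biUnion_right]
  exact fun q hq => H.dJ (hD hq)

omit [DecidableEq V] in
theorem Mark.dD {m : Ω} (H : Hyp g U s J R blk) (M : Mark g U s J R blk m) {q : Ω} (hq : q ∈ R) :
    Disjoint (blk m) (blk q) := by
  rw [Finset.disjoint_left]
  intro x hx hx'
  rw [H.blkR q hq, mem_fib] at hx'
  exact M.dR x hx (hx' ▸ hq)

theorem Mark.dD' {m : Ω} (H : Hyp g U s J R blk) (M : Mark g U s J R blk m) {D : Finset Ω}
    (hD : D ⊆ R) : Disjoint (blk m) (D.biUnion blk) := by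
  rw [disjoint_biUnion_right]
  exact fun q hq => M.dD H (hD hq)

omit [DecidableEq V] in
theorem Hyp.ne (H : Hyp g U s J R blk) {q : Ω} (hq : q ∈ R) : (blk q).Nonempty := by
  obtain ⟨x, hx⟩ := H.surj q
  exact ⟨x, by rw [H.blkR q hq, mem_fib]; exact hx⟩

omit [DecidableEq V] in
theorem Hyp.b (H : Hyp g U s J R blk) {q : Ω} (hq : q ∈ R) :
    ∀ x ∈ blk q, ∀ y, s x y ↔ y ∈ blk q := by
  intro x hx y
  rw [H.blkR q hq, mem_fib] at hx
  rw [H.Rb x (hx ▸ hq), H.blkR q hq, mem_fib, ← hx]
  exact eq_comm

omit [DecidableEq V] in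
theorem Hyp.pd (H : Hyp g U s J R blk) {q q' : Ω} (hq : q ∈ R) (hq' : q' ∈ R) (h : q ≠ q') :
    Disjoint (blk q) (blk q') := by
  rw [Finset.disjoint_left]
  intro x hx hx'
  rw [H.blkR q hq, mem_fib] at hx
  rw [H.blkR q' hq', mem_fib] at hx'
  exact h (hx.symm.trans hx')

theorem Mark.cnt1 {m : Ω} (H : Hyp g U s J R blk) (M : Mark g U s J R blk m) {D : Finset Ω}
    (hD : D ⊆ R) : cnt ((insert m D).biUnion blk) (el (KU U)) =
      eS (U.image g) (fun q => (fib g q).card) D + (blk m).card * (D ∩ (U.image g)).card := by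
  rw [biUnion_insert, cntE M.dU (M.dD' H hD), H.cnt0 hD, H.cu hD]

theorem X_sub_one_ne : (X - 1 : ℝ[X]) ≠ 0 := X_sub_C_ne_zero (1 : ℝ)

theorem case0 (h1 : MomStm) (H : Hyp g U s J R blk) (σ : ℕ → Finset Ω → ℝ[X])
    (hσ : ∀ i S, (X : ℝ[X]) ^ (i * wS (fun q => (fib g q).card) S +
      eS (U.image g) (fun q => (fib g q).card) S) =
      ∑ D ∈ S.powerset, (X - 1) ^ D.card * σ i D *
        X ^ eS (U.image g) (fun q => (fib g q).card) (S \ D)) :
    ∀ D ⊆ R, tc (J ∪ D.biUnion blk) (el (KU U)) s = X ^ (J.card.choose 2) * σ J.card D := by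
  intro D hD
  have h := uniq R (fun D => tc (J ∪ D.biUnion blk) (el (KU U)) s -
    X ^ (J.card.choose 2) * σ J.card D) (fun D => (X - 1) ^ D.card)
    (fun D => X ^ eS (U.image g) (fun q => (fib g q).card) D)
    (fun D => pow_ne_zero _ X_sub_one_ne) (pow_ne_zero _ X_ne_zero) ?_ D hD
  · exact sub_eq_zero.1 h
  · intro D hD
    obtain ⟨r, hr⟩ := H.Jne
    have h2 := mq h1 (el (KU U)) s J r hr H.Jb blk D (fun k hk => H.ne (hD hk))
      (fun k hk => H.b (hD hk)) (fun k hk => H.dJ (hD hk))
      (fun k hk k' hk' => H.pd (hD hk) (hD hk'))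
    rw [cntJ H.JU (H.dJ' hD), H.card hD, H.cnt0 hD, add_assoc, pow_add, hσ, mul_sum] at h2
    rw [← sub_eq_zero] at h2
    rw [← neg_eq_zero, ← h2, ← sum_sub_distrib, ← sum_neg_distrib]
    refine sum_congr rfl fun D' hD' => ?_
    rw [H.cnt0 (sdiff_subset.trans hD)]
    ring

theorem case1 (h1 : MomStm) (H : Hyp g U s J R blk) {m : Ω} (M : Mark g U s J R blk m)
    (σ κ : ℕ → Finset Ω → ℝ[X])
    (hσ : ∀ i S, (X : ℝ[X]) ^ (i * wS (fun q => (fib g q).card) S +
      eS (U.image g) (fun q => (fib g q).card) S) =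
      ∑ D ∈ S.powerset, (X - 1) ^ D.card * σ i D *
        X ^ eS (U.image g) (fun q => (fib g q).card) (S \ D))
    (hκ : ∀ i S, (X : ℝ[X]) ^ (i * (wS (fun q => (fib g q).card) S + (blk m).card) +
      (eS (U.image g) (fun q => (fib g q).card) S + (blk m).card * (S ∩ (U.image g)).card)) =
      ∑ D ∈ S.powerset, ((X - 1) ^ (D.card + 1) * κ i D *
          X ^ eS (U.image g) (fun q => (fib g q).card) (S \ D) +
        (X - 1) ^ D.card * σ i D * X ^ (eS (U.image g) (fun q => (fib g q).card) (S \ D) +
          (blk m).card * ((S \ D) ∩ (U.image g)).card))) :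
    ∀ D ⊆ R, tc (J ∪ (insert m D).biUnion blk) (el (KU U)) s =
      X ^ (J.card.choose 2) * κ J.card D := by
  intro D hD
  have h := uniq R (fun D => tc (J ∪ (insert m D).biUnion blk) (el (KU U)) s -
    X ^ (J.card.choose 2) * κ J.card D) (fun D => (X - 1) ^ (D.card + 1))
    (fun D => X ^ eS (U.image g) (fun q => (fib g q).card) D)
    (fun D => pow_ne_zero _ X_sub_one_ne) (pow_ne_zero _ X_ne_zero) ?_ D hD
  · exact sub_eq_zero.1 h
  · intro D hD
    obtain ⟨r, hr⟩ := H.Jne
    have hmD : m ∉ D := fun h => M.notR (hD h)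
    have h2 := mq h1 (el (KU U)) s J r hr H.Jb blk (insert m D)
      (fun k hk => by
        rcases mem_insert.1 hk with hk | hk
        · rw [hk]; exact M.ne
        · exact H.ne (hD hk))
      (fun k hk => by
        rcases mem_insert.1 hk with hk | hk
        · rw [hk]; exact M.b
        · exact H.b (hD hk))
      (fun k hk => by
        rcases mem_insert.1 hk with hk | hk
        · rw [hk]; exact M.dJ
        · exact H.dJ (hD hk))
      (fun k hk k' hk' hkk => by
        rcases mem_insert.1 hk with hk | hk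
        · rcases mem_insert.1 hk' with hk' | hk'
          · exact absurd (hk.trans hk'.symm) hkk
          · rw [hk]; exact M.dD H (hD hk')
        · rcases mem_insert.1 hk' with hk' | hk'
          · rw [hk']; exact (M.dD H (hD hk)).symm
          · exact H.pd (hD hk) (hD hk') hkk)
    rw [sum_powerset_insert hmD] at h2
    have e0 : cnt (J ∪ (insert m D).biUnion blk) (el (KU U)) = J.card.choose 2 +
        (J.card * (wS (fun q => (fib g q).card) D + (blk m).card) +
        (eS (U.image g) (fun q => (fib g q).card) D +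
          (blk m).card * (D ∩ (U.image g)).card)) := by
      have hdj : Disjoint J ((insert m D).biUnion blk) := by
        rw [biUnion_insert]
        exact disjoint_union_right.2 ⟨M.dJ, H.dJ' hD⟩
      rw [cntJ H.JU hdj, M.cnt1 H hD, biUnion_insert,
        card_union_of_disjoint (M.dD' H hD), H.card hD]
      ring
    rw [e0, pow_add, hκ, mul_sum] at h2
    rw [← sub_eq_zero] at h2
    rw [← neg_eq_zero, ← h2, ← sum_add_distrib, ← sum_sub_distrib, ← sum_neg_distrib]
    refine sum_congr rfl fun D' hD' => ?_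
    rw [mem_powerset] at hD'
    have hmD' : m ∉ D' := fun h => hmD (hD' h)
    have e1 : insert m D \ D' = insert m (D \ D') := insert_sdiff_of_notMem _ hmD'
    have e2 : insert m D \ insert m D' = D \ D' := by
      ext q
      simp only [mem_sdiff, mem_insert, not_or]
      constructor
      · rintro ⟨rfl | h3, h4, h5⟩
        · exact absurd rfl h4
        · exact ⟨h3, h5⟩
      · rintro ⟨h3, h4⟩
        exact ⟨Or.inr h3, fun h => hmD (h ▸ h3), h4⟩
    rw [e1, e2, card_insert_of_notMem hmD', H.cnt0 (sdiff_subset.trans hD),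
      M.cnt1 H (sdiff_subset.trans hD), case0 h1 H σ hσ D' (hD'.trans hD)]
    ring

theorem insert_sdiff_insert_of {m : Ω} {D D' : Finset Ω} (hmD : m ∉ D) :
    insert m D \ insert m D' = D \ D' := by
  ext q
  simp only [mem_sdiff, mem_insert, not_or]
  constructor
  · rintro ⟨rfl | h3, h4, h5⟩
    · exact absurd rfl h4
    · exact ⟨h3, h5⟩
  · rintro ⟨h3, h4⟩
    exact ⟨Or.inr h3, fun h => hmD (h ▸ h3), h4⟩

theorem case2 (h1 : MomStm) (H : Hyp g U s J R blk) {m n : Ω} (M : Mark g U s J R blk m)
    (N : Mark g U s J R blk n) (hmn : m ≠ n) (hdmn : Disjoint (blk m) (blk n))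
    (σ κ κ' lam : ℕ → Finset Ω → ℝ[X])
    (hσ : ∀ i S, (X : ℝ[X]) ^ (i * wS (fun q => (fib g q).card) S +
      eS (U.image g) (fun q => (fib g q).card) S) =
      ∑ D ∈ S.powerset, (X - 1) ^ D.card * σ i D *
        X ^ eS (U.image g) (fun q => (fib g q).card) (S \ D))
    (hκ : ∀ i S, (X : ℝ[X]) ^ (i * (wS (fun q => (fib g q).card) S + (blk m).card) +
      (eS (U.image g) (fun q => (fib g q).card) S + (blk m).card * (S ∩ (U.image g)).card)) =
      ∑ D ∈ S.powerset, ((X - 1) ^ (D.card + 1) * κ i D *
          X ^ eS (U.image g) (fun q => (fib g q).card) (S \ D) +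
        (X - 1) ^ D.card * σ i D * X ^ (eS (U.image g) (fun q => (fib g q).card) (S \ D) +
          (blk m).card * ((S \ D) ∩ (U.image g)).card)))
    (hκ' : ∀ i S, (X : ℝ[X]) ^ (i * (wS (fun q => (fib g q).card) S + (blk n).card) +
      (eS (U.image g) (fun q => (fib g q).card) S + (blk n).card * (S ∩ (U.image g)).card)) =
      ∑ D ∈ S.powerset, ((X - 1) ^ (D.card + 1) * κ' i D *
          X ^ eS (U.image g) (fun q => (fib g q).card) (S \ D) +
        (X - 1) ^ D.card * σ i D * X ^ (eS (U.image g) (fun q => (fib g q).card) (S \ D) +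
          (blk n).card * ((S \ D) ∩ (U.image g)).card)))
    (hlam : ∀ i S, (X : ℝ[X]) ^ (i * (wS (fun q => (fib g q).card) S +
          ((blk m).card + (blk n).card)) +
        (eS (U.image g) (fun q => (fib g q).card) S +
          ((blk m).card + (blk n).card) * (S ∩ (U.image g)).card)) =
      ∑ D ∈ S.powerset, ((X - 1) ^ (D.card + 2) * lam i D *
          X ^ eS (U.image g) (fun q => (fib g q).card) (S \ D) +
        (X - 1) ^ (D.card + 1) * κ i D *
          X ^ (eS (U.image g) (fun q => (fib g q).card) (S \ D) +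
            (blk n).card * ((S \ D) ∩ (U.image g)).card) +
        (X - 1) ^ (D.card + 1) * κ' i D *
          X ^ (eS (U.image g) (fun q => (fib g q).card) (S \ D) +
            (blk m).card * ((S \ D) ∩ (U.image g)).card) +
        (X - 1) ^ D.card * σ i D * X ^ (eS (U.image g) (fun q => (fib g q).card) (S \ D) +
          ((blk m).card + (blk n).card) * ((S \ D) ∩ (U.image g)).card))) :
    ∀ D ⊆ R, tc (J ∪ (insert m (insert n D)).biUnion blk) (el (KU U)) s =
      X ^ (J.card.choose 2) * lam J.card D := by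
  intro D hD
  have h := uniq R (fun D => tc (J ∪ (insert m (insert n D)).biUnion blk) (el (KU U)) s -
    X ^ (J.card.choose 2) * lam J.card D) (fun D => (X - 1) ^ (D.card + 2))
    (fun D => X ^ eS (U.image g) (fun q => (fib g q).card) D)
    (fun D => pow_ne_zero _ X_sub_one_ne) (pow_ne_zero _ X_ne_zero) ?_ D hD
  · exact sub_eq_zero.1 h
  · intro D hD
    obtain ⟨r, hr⟩ := H.Jne
    have hmD0 : m ∉ D := fun h => M.notR (hD h)
    have hmD : m ∉ insert n D := by
      rw [mem_insert, not_or]
      exact ⟨hmn, hmD0⟩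
    have hnD : n ∉ D := fun h => N.notR (hD h)
    have h2 := mq h1 (el (KU U)) s J r hr H.Jb blk (insert m (insert n D))
      (fun k hk => by
        rcases mem_insert.1 hk with hk | hk
        · rw [hk]; exact M.ne
        · rcases mem_insert.1 hk with hk | hk
          · rw [hk]; exact N.ne
          · exact H.ne (hD hk))
      (fun k hk => by
        rcases mem_insert.1 hk with hk | hk
        · rw [hk]; exact M.b
        · rcases mem_insert.1 hk with hk | hk
          · rw [hk]; exact N.b
          · exact H.b (hD hk))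
      (fun k hk => by
        rcases mem_insert.1 hk with hk | hk
        · rw [hk]; exact M.dJ
        · rcases mem_insert.1 hk with hk | hk
          · rw [hk]; exact N.dJ
          · exact H.dJ (hD hk))
      (fun k hk k' hk' hkk => by
        rcases mem_insert.1 hk with hk | hk
        · rcases mem_insert.1 hk' with hk' | hk'
          · exact absurd (hk.trans hk'.symm) hkk
          · rcases mem_insert.1 hk' with hk' | hk'
            · rw [hk, hk']; exact hdmn
            · rw [hk]; exact M.dD H (hD hk')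
        · rcases mem_insert.1 hk with hk | hk
          · rcases mem_insert.1 hk' with hk' | hk'
            · rw [hk, hk']; exact hdmn.symm
            · rcases mem_insert.1 hk' with hk' | hk'
              · exact absurd (hk.trans hk'.symm) hkk
              · rw [hk]; exact N.dD H (hD hk')
          · rcases mem_insert.1 hk' with hk' | hk'
            · rw [hk']; exact (M.dD H (hD hk)).symm
            · rcases mem_insert.1 hk' with hk' | hk'
              · rw [hk']; exact (N.dD H (hD hk)).symm
              · exact H.pd (hD hk) (hD hk') hkk)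
    rw [sum_powerset_insert hmD, sum_powerset_insert hnD, sum_powerset_insert hnD] at h2
    have hdm : ∀ D ⊆ R, Disjoint (blk m) ((insert n D).biUnion blk) := by
      intro D hD
      rw [biUnion_insert]
      exact disjoint_union_right.2 ⟨hdmn, M.dD' H hD⟩
    have c2 : ∀ D ⊆ R, cnt ((insert m (insert n D)).biUnion blk) (el (KU U)) =
        eS (U.image g) (fun q => (fib g q).card) D +
          ((blk m).card + (blk n).card) * (D ∩ (U.image g)).card := by
      intro D hD
      have e5 : (((insert n D).biUnion blk) ∩ U).card = (D ∩ (U.image g)).card := by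
        rw [biUnion_insert, union_inter_distrib_right, disjoint_iff_inter_eq_empty.1 N.dU,
          empty_union, H.cu hD]
      rw [biUnion_insert, cntE M.dU (hdm D hD), N.cnt1 H hD, e5]
      ring
    have e0 : cnt (J ∪ (insert m (insert n D)).biUnion blk) (el (KU U)) = J.card.choose 2 +
        (J.card * (wS (fun q => (fib g q).card) D + ((blk m).card + (blk n).card)) +
        (eS (U.image g) (fun q => (fib g q).card) D +
          ((blk m).card + (blk n).card) * (D ∩ (U.image g)).card)) := by
      have hdj : Disjoint J ((insert m (insert n D)).biUnion blk) := by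
        rw [biUnion_insert, biUnion_insert]
        exact disjoint_union_right.2 ⟨M.dJ, disjoint_union_right.2 ⟨N.dJ, H.dJ' hD⟩⟩
      rw [cntJ H.JU hdj, c2 D hD, biUnion_insert,
        card_union_of_disjoint (hdm D hD), biUnion_insert, card_union_of_disjoint (N.dD' H hD),
        H.card hD]
      ring
    rw [e0, pow_add, hlam, mul_sum] at h2
    rw [← sub_eq_zero] at h2
    rw [← neg_eq_zero, ← h2, ← sum_add_distrib, ← sum_add_distrib, ← sum_add_distrib,
      ← sum_sub_distrib, ← sum_neg_distrib]
    refine sum_congr rfl fun D' hD' => ?_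
    rw [mem_powerset] at hD'
    have hnD' : n ∉ D' := fun h => hnD (hD' h)
    have hmD0' : m ∉ D' := fun h => hmD0 (hD' h)
    have hmD' : m ∉ insert n D' := by
      rw [mem_insert, not_or]
      exact ⟨hmn, hmD0'⟩
    have e1 : insert m (insert n D) \ D' = insert m (insert n (D \ D')) := by
      rw [insert_sdiff_of_notMem _ hmD0', insert_sdiff_of_notMem _ hnD']
    have e2 : insert m (insert n D) \ insert n D' = insert m (D \ D') := by
      rw [insert_sdiff_of_notMem _ hmD', insert_sdiff_insert_of hnD]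
    have e3 : insert m (insert n D) \ insert m D' = insert n (D \ D') := by
      rw [insert_sdiff_insert_of hmD, insert_sdiff_of_notMem _ hnD']
    have e4 : insert m (insert n D) \ insert m (insert n D') = D \ D' := by
      rw [insert_sdiff_insert_of hmD, insert_sdiff_insert_of hnD]
    rw [e1, e2, e3, e4, card_insert_of_notMem hmD', card_insert_of_notMem hnD',
      card_insert_of_notMem hmD0', H.cnt0 (sdiff_subset.trans hD),
      M.cnt1 H (sdiff_subset.trans hD), N.cnt1 H (sdiff_subset.trans hD),
      c2 _ (sdiff_subset.trans hD), case0 h1 H σ hσ D' (hD'.trans hD),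
      case1 h1 H M σ κ hσ hκ D' (hD'.trans hD), case1 h1 H N σ κ' hσ hκ' D' (hD'.trans hD)]
    ring

end cases

section final
variable {V : Type} [Fintype V] [DecidableEq V]

omit [Fintype V] [DecidableEq V] in
theorem sup_gl_iffL (π : Setoid V) (J : Finset V) (hJ : ∀ x ∈ J, ∀ y, π x y → x = y) (x y : V) :
    (π ⊔ gl J) x y ↔ π x y ∨ (x ∈ J ∧ y ∈ J) := by
  have key : π ⊔ gl J =
      { r := fun x y => π x y ∨ (x ∈ J ∧ y ∈ J)
        iseqv :=
          { refl := fun x => Or.inl (π.refl' x)
            symm := fun {x y} h => by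
              rcases h with h | h
              · exact Or.inl (π.symm' h)
              · exact Or.inr ⟨h.2, h.1⟩
            trans := fun {x y z} h1 h2 => by
              rcases h1 with h1 | h1
              · rcases h2 with h2 | h2
                · exact Or.inl (π.trans' h1 h2)
                · have h3 := hJ y h2.1 x (π.symm' h1)
                  rw [← h3]
                  exact Or.inr h2
              · rcases h2 with h2 | h2
                · have h3 := hJ y h1.2 z h2
                  rw [← h3]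
                  exact Or.inr h1
                · exact Or.inr ⟨h1.1, h2.2⟩ } } := by
    apply le_antisymm
    · apply sup_le
      · intro x y h
        exact Or.inl h
      · intro x y h
        rcases h with rfl | h
        · exact Or.inl (π.refl' _)
        · exact Or.inr h
    · intro x y h
      rcases h with h | h
      · exact (le_sup_left : π ≤ π ⊔ gl J) h
      · exact (le_sup_right : gl J ≤ π ⊔ gl J) (Or.inr h)
  rw [key]
  rfl

variable {Ω : Type} [DecidableEq Ω] {g : V → Ω} {U : Finset V} {ρ : Setoid V} {J : Finset V}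
    {R : Finset Ω} {blk : Ω → Finset V}

omit [DecidableEq V] in
theorem hyp_mk (hinj : ∀ x ∈ U, ∀ y, g x = g y → x = y) (hJU : J ⊆ U) (hne : J.Nonempty)
    (hρ : ∀ x ∈ U, ∀ y, ρ x y → x = y) (hRJ : ∀ x ∈ J, g x ∉ R) (hsurj : ∀ q, ∃ x, g x = q)
    (hR : ∀ x, g x ∈ R → ∀ y, ρ x y ↔ g x = g y) (hblk : ∀ q ∈ R, blk q = fib g q) :
    Hyp g U (ρ ⊔ gl J) J R blk where
  inj := hinj
  JU := hJU
  Jne := hne
  Jb := by
    intro x hx y
    rw [sup_gl_iffL ρ J (fun x hx => hρ x (hJU hx))]
    constructor
    · rintro (h | h)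
      · exact (hρ x (hJU hx) y h) ▸ hx
      · exact h.2
    · exact fun h => Or.inr ⟨hx, h⟩
  RJ := hRJ
  surj := hsurj
  Rb := by
    intro x hx y
    rw [sup_gl_iffL ρ J (fun x hx => hρ x (hJU hx)), ← hR x hx y]
    constructor
    · rintro (h | h)
      · exact h
      · exact absurd hx (hRJ x h.1)
    · exact Or.inl
  blkR := hblk

omit [Fintype V] [DecidableEq V] [DecidableEq Ω] in
theorem mark_mk {m : Ω} (hJU : J ⊆ U) (hρ : ∀ x ∈ U, ∀ y, ρ x y → x = y)
    (hm : m ∉ R) (hne : (blk m).Nonempty) (hb : ∀ x ∈ blk m, ∀ y, ρ x y ↔ y ∈ blk m)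
    (hd : Disjoint (blk m) U) (hR : ∀ x ∈ blk m, g x ∉ R) :
    Mark g U (ρ ⊔ gl J) J R blk m where
  notR := hm
  ne := hne
  b := by
    intro x hx y
    rw [sup_gl_iffL ρ J (fun x hx => hρ x (hJU hx)), ← hb x hx y]
    constructor
    · rintro (h | h)
      · exact h
      · exact absurd (hJU h.1) (Finset.disjoint_left.1 hd hx)
    · exact Or.inl
  dJ := (hd.mono_right hJU).symm
  dU := hd
  dR := hR

end final

theorem link (h1 : MomStm) (h2 : AlgStm) : PmStm := by
  classical
  intro V _ _ U u hu π hπ a b ha hb hab A B hA hB m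
  let _ : Fintype (Quotient π) := Fintype.ofFinite _
  obtain ⟨g, hgdef⟩ : ∃ g : V → Quotient π, g = Quotient.mk π := ⟨_, rfl⟩
  have hg : ∀ x y, g x = g y ↔ π x y := by
    intro x y
    rw [hgdef]
    exact Quotient.eq
  have hsurj : ∀ q, ∃ x, g x = q := by
    rw [hgdef]
    exact fun q => Quotient.exists_rep q
  have hπU : ∀ x ∈ U, ∀ y, π x y → x = y := by
    intro x hx y hxy
    rcases hπ x y hxy with h | h
    · exact h
    · exact absurd hx h.1
  have hinj : ∀ x ∈ U, ∀ y, g x = g y → x = y := fun x hx y h => hπU x hx y ((hg x y).1 h)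
  have hab' : g a ≠ g b := fun h => hab ((hg a b).1 h)
  have hga : ∀ x ∈ U, g x ≠ g a := fun x hx h => ha ((hinj x hx a h) ▸ hx)
  have hgb : ∀ x ∈ U, g x ≠ g b := fun x hx h => hb ((hinj x hx b h) ▸ hx)
  obtain ⟨σ, κa, κb, κm, κab, p0, p1, p2, p3, p4, p5⟩ := h2 (Quotient π) (U.image g)
    (fun q => (fib g q).card) (by
      intro q hq
      rw [mem_image] at hq
      obtain ⟨x, hx, rfl⟩ := hq
      rw [card_eq_one]
      refine ⟨x, ?_⟩
      ext y
      rw [mem_fib, mem_singleton]
      constructor
      · intro h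
        exact (hinj x hx y h.symm).symm
      · rintro rfl
        rfl) (fib g (g a)).card (fib g (g b)).card
    (card_pos.2 ⟨a, by rw [mem_fib]⟩) (card_pos.2 ⟨b, by rw [mem_fib]⟩)
  obtain ⟨S, hS⟩ : ∃ S : Finset (Quotient π), S = univ \ {g u, g a, g b} := ⟨_, rfl⟩
  have hmS : ∀ q, q ∈ S ↔ q ≠ g u ∧ q ≠ g a ∧ q ≠ g b := by
    intro q
    rw [hS]
    simp
  have hfin := p5 (g u) (mem_image_of_mem g hu) S (fun h => ((hmS _).1 h).1 rfl) m
  refine le_of_le_of_eq hfin ?_
  refine sum_congr rfl fun i hi => ?_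
  rw [mem_Icc] at hi
  have hsub : ∀ I, I ⊆ U.erase u → I ⊆ U := fun I h => h.trans (erase_subset _ _)
  symm
  refine Finset.sum_nbij (fun I => I.image g) ?_ ?_ ?_ ?_
  · intro I hI
    rw [mem_powersetCard] at hI ⊢
    constructor
    · intro q hq
      rw [mem_image] at hq
      obtain ⟨x, hx, rfl⟩ := hq
      have hxU := hsub I hI.1 hx
      rw [mem_inter, hmS]
      refine ⟨⟨fun h => ?_, hga x hxU, hgb x hxU⟩, mem_image_of_mem g hxU⟩
      have := hinj x hxU u h
      have h3 := hI.1 hx
      rw [mem_erase] at h3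
      exact h3.1 this
    · rw [card_image_of_injOn, hI.2]
      intro x hx y hy h
      exact hinj x (hsub I hI.1 hx) y h
  · intro I hI I' hI' h
    rw [mem_coe, mem_powersetCard] at hI hI'
    simp only at h
    ext x
    constructor
    · intro hx
      have : g x ∈ I'.image g := h ▸ mem_image_of_mem g hx
      rw [mem_image] at this
      obtain ⟨y, hy, hyx⟩ := this
      rw [← hinj y (hsub I' hI'.1 hy) x hyx]
      exact hy
    · intro hx
      have : g x ∈ I.image g := h ▸ mem_image_of_mem g hx
      rw [mem_image] at this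
      obtain ⟨y, hy, hyx⟩ := this
      rw [← hinj y (hsub I hI.1 hy) x hyx]
      exact hy
  · intro I' hI'
    rw [mem_coe, mem_powersetCard] at hI'
    have e1 : ((U.erase u).filter (fun x => g x ∈ I')).image g = I' := by
      ext q
      rw [mem_image]
      constructor
      · rintro ⟨x, hx, rfl⟩
        rw [mem_filter] at hx
        exact hx.2
      · intro hq
        have h3 := hI'.1 hq
        rw [mem_inter, hmS, mem_image] at h3
        obtain ⟨h4, x, hx, rfl⟩ := h3
        refine ⟨x, ?_, rfl⟩
        rw [mem_filter, mem_erase]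
        exact ⟨⟨fun h => h4.1 (by rw [h]), hx⟩, hq⟩
    refine ⟨(U.erase u).filter (fun x => g x ∈ I'), ?_, e1⟩
    rw [mem_coe, mem_powersetCard]
    refine ⟨filter_subset _ _, ?_⟩
    rw [← hI'.2]
    conv_rhs => rw [← e1]
    rw [card_image_of_injOn]
    intro x hx y hy h
    rw [mem_coe, mem_filter, mem_erase] at hx
    exact hinj x hx.1.2 y h
  · intro I hI
    rw [mem_powersetCard] at hI
    have hIU := hsub I hI.1
    have huI : u ∉ I := fun h => by
      have := hI.1 h
      rw [mem_erase] at this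
      exact this.1 rfl
    have hIne : I.Nonempty := by
      rw [← card_pos, hI.2]
      omega
    have hgI : ∀ x, g x ∈ I.image g ↔ x ∈ I := by
      intro x
      rw [mem_image]
      constructor
      · rintro ⟨y, hy, h⟩
        rw [← hinj y (hIU hy) x h]
        exact hy
      · exact fun h => ⟨x, h, rfl⟩
    -- the region
    have hR : ∀ q, q ∈ insert (g u) (S \ I.image g) ↔ q ∉ I.image g ∧ q ≠ g a ∧ q ≠ g b := by
      intro q
      rw [mem_insert, mem_sdiff, hmS]
      constructor
      · rintro (rfl | h)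
        · exact ⟨fun h => huI ((hgI u).1 h), hga u hu, hgb u hu⟩
        · exact ⟨h.2, h.1.2⟩
      · rintro ⟨h3, h4⟩
        by_cases h5 : q = g u
        · exact Or.inl h5
        · exact Or.inr ⟨⟨h5, h4⟩, h3⟩
    have hRJ : ∀ x ∈ I, g x ∉ insert (g u) (S \ I.image g) := by
      intro x hx h
      rw [hR] at h
      exact h.1 ((hgI x).2 hx)
    have hbs : ∀ c : V, c ∉ U → Disjoint (fib g (g c)) U := by
      intro c hc
      rw [Finset.disjoint_left]
      intro x hx hxU
      rw [mem_fib] at hx
      exact hc ((hinj x hxU c hx) ▸ hxU)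
    have hbb : ∀ c : V, ∀ x ∈ fib g (g c), ∀ y, π x y ↔ y ∈ fib g (g c) := by
      intro c x hx y
      rw [mem_fib] at hx ⊢
      rw [← hg, hx]
      exact eq_comm
    have Hπ : Hyp g U (π ⊔ gl I) I (insert (g u) (S \ I.image g)) (fib g) :=
      hyp_mk hinj hIU hIne hπU hRJ hsurj (fun x _ y => (hg x y).symm) (fun _ _ => rfl)
    have Ma : Mark g U (π ⊔ gl I) I (insert (g u) (S \ I.image g)) (fib g) (g a) :=
      mark_mk hIU hπU (fun h => ((hR _).1 h).2.1 rfl) ⟨a, by rw [mem_fib]⟩ (hbb a) (hbs a ha)
        (fun x hx h => ((hR _).1 h).2.1 ((mem_fib g (g a) x).1 hx))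
    have Mb : Mark g U (π ⊔ gl I) I (insert (g u) (S \ I.image g)) (fib g) (g b) :=
      mark_mk hIU hπU (fun h => ((hR _).1 h).2.2 rfl) ⟨b, by rw [mem_fib]⟩ (hbb b) (hbs b hb)
        (fun x hx h => ((hR _).1 h).2.2 ((mem_fib g (g b) x).1 hx))
    -- first value
    have v1 : tc A (el (KU U)) (π ⊔ gl I) =
        X ^ (i.choose 2) * κb i (insert (g u) (S \ I.image g)) := by
      have h3 := case1 h1 Hπ Mb σ κb p0 p2 _ (le_refl _)
      rw [hI.2] at h3
      rw [← h3]
      congr 1
      ext x
      simp only [hA, mem_union, mem_biUnion, mem_insert (b := g b), mem_fib, ← hg]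
      constructor
      · intro h
        by_cases hx : x ∈ I
        · exact Or.inl hx
        · right
          refine ⟨g x, ?_, rfl⟩
          by_cases hxb : g x = g b
          · exact Or.inl hxb
          · right
            rw [hR, hgI]
            exact ⟨hx, fun h' => h h'.symm, hxb⟩
      · rintro (hx | ⟨q, hq, rfl⟩) h
        · exact hga x (hIU hx) h.symm
        · rcases hq with hq | hq
          · exact hab' (h.trans hq)
          · rw [hR] at hq
            exact hq.2.1 h.symm
    have v2 : tc B (el (KU U)) (π ⊔ gl I) =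
        X ^ (i.choose 2) * κa i (insert (g u) (S \ I.image g)) := by
      have h3 := case1 h1 Hπ Ma σ κa p0 p1 _ (le_refl _)
      rw [hI.2] at h3
      rw [← h3]
      congr 1
      ext x
      simp only [hB, mem_union, mem_biUnion, mem_insert (b := g a), mem_fib, ← hg]
      constructor
      · intro h
        by_cases hx : x ∈ I
        · exact Or.inl hx
        · right
          refine ⟨g x, ?_, rfl⟩
          by_cases hxa : g x = g a
          · exact Or.inl hxa
          · right
            rw [hR, hgI]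
            exact ⟨hx, hxa, fun h' => h h'.symm⟩
      · rintro (hx | ⟨q, hq, rfl⟩) h
        · exact hgb x (hIU hx) h.symm
        · rcases hq with hq | hq
          · exact hab' (hq.symm.trans h.symm)
          · rw [hR] at hq
            exact hq.2.2 h.symm
    have v3 : T (el (KU U)) (π ⊔ pr s(a, b) ⊔ gl I) =
        X ^ (i.choose 2) * κm i (insert (g u) (S \ I.image g)) := by
      have hρU : ∀ x ∈ U, ∀ y, (π ⊔ pr s(a, b)) x y → x = y := by
        intro x hx y h
        rw [sup_pr_iff] at h
        rcases h with h | h | h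
        · exact hπU x hx y h
        · exact absurd ((hπU x hx a h.1) ▸ hx) ha
        · exact absurd ((hπU x hx b h.1) ▸ hx) hb
      obtain ⟨blk, hblk⟩ : ∃ blk : Quotient π → Finset V,
          blk = Function.update (fib g) (g a) (fib g (g a) ∪ fib g (g b)) := ⟨_, rfl⟩
      have hblka : blk (g a) = fib g (g a) ∪ fib g (g b) := by
        rw [hblk, Function.update_self]
      have hblkR : ∀ q ∈ insert (g u) (S \ I.image g), blk q = fib g q := by
        intro q hq
        rw [hR] at hq
        rw [hblk, Function.update_of_ne hq.2.1]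
      have Hρ : Hyp g U (π ⊔ pr s(a, b) ⊔ gl I) I (insert (g u) (S \ I.image g)) blk := by
        refine hyp_mk hinj hIU hIne hρU hRJ hsurj ?_ hblkR
        intro x hx y
        rw [hR] at hx
        rw [sup_pr_iff, ← hg, ← hg, ← hg, ← hg, ← hg]
        constructor
        · rintro (h | h | h)
          · exact h
          · exact absurd h.1 hx.2.1
          · exact absurd h.1 hx.2.2
        · exact Or.inl
      have Mρ : Mark g U (π ⊔ pr s(a, b) ⊔ gl I) I (insert (g u) (S \ I.image g)) blk (g a) := by
        refine mark_mk hIU hρU (fun h => ((hR _).1 h).2.1 rfl) ?_ ?_ ?_ ?_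
        · rw [hblka]
          exact ⟨a, mem_union_left _ (by rw [mem_fib])⟩
        · intro x hx y
          rw [hblka, mem_union, mem_fib, mem_fib] at hx ⊢
          rw [sup_pr_iff, ← hg, ← hg, ← hg, ← hg, ← hg]
          rcases hx with hx | hx
          · rw [hx]
            constructor
            · rintro (h | h | h)
              · exact Or.inl h.symm
              · exact Or.inr h.2.symm
              · exact absurd h.1 hab'
            · rintro (h | h)
              · exact Or.inl h.symm
              · exact Or.inr (Or.inl ⟨rfl, h.symm⟩)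
          · rw [hx]
            constructor
            · rintro (h | h | h)
              · exact Or.inr h.symm
              · exact absurd h.1.symm hab'
              · exact Or.inl h.2.symm
            · rintro (h | h)
              · exact Or.inr (Or.inr ⟨rfl, h.symm⟩)
              · exact Or.inl h.symm
        · rw [hblka]
          exact disjoint_union_left.2 ⟨hbs a ha, hbs b hb⟩
        · intro x hx h
          rw [hblka, mem_union, mem_fib, mem_fib] at hx
          rw [hR] at h
          rcases hx with hx | hx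
          · exact h.2.1 hx
          · exact h.2.2 hx
      have hcard : (blk (g a)).card = (fib g (g a)).card + (fib g (g b)).card := by
        rw [hblka, card_union_of_disjoint]
        rw [Finset.disjoint_left]
        intro x hx hx'
        rw [mem_fib] at hx hx'
        exact hab' (hx.symm.trans hx')
      have h3 := case1 h1 Hρ Mρ σ κm p0 (by rw [hcard]; exact p3) _ (le_refl _)
      rw [hI.2] at h3
      rw [← h3]
      unfold T
      congr 1
      ext x
      simp only [mem_univ, true_iff, mem_union, mem_biUnion]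
      by_cases hx : x ∈ I
      · exact Or.inl hx
      · right
        by_cases hxa : g x = g a
        · refine ⟨g a, mem_insert_self _ _, ?_⟩
          rw [hblka, mem_union, mem_fib]
          exact Or.inl hxa
        · by_cases hxb : g x = g b
          · refine ⟨g a, mem_insert_self _ _, ?_⟩
            rw [hblka, mem_union, mem_fib, mem_fib]
            exact Or.inr hxb
          · have : g x ∈ insert (g u) (S \ I.image g) := by
              rw [hR, hgI]
              exact ⟨hx, hxa, hxb⟩
            refine ⟨g x, mem_insert_of_mem this, ?_⟩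
            rw [hblkR _ this, mem_fib]
    have v4 : T (el (KU U)) (π ⊔ gl (insert u I)) =
        X ^ ((i + 1).choose 2) * κab (i + 1) (S \ I.image g) := by
      have hJU : insert u I ⊆ U := insert_subset hu hIU
      have hRJ' : ∀ x ∈ insert u I, g x ∉ S \ I.image g := by
        intro x hx h
        rw [mem_sdiff, hmS, hgI] at h
        rcases mem_insert.1 hx with hx | hx
        · exact h.1.1 (by rw [hx])
        · exact h.2 hx
      have H' : Hyp g U (π ⊔ gl (insert u I)) (insert u I) (S \ I.image g) (fib g) :=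
        hyp_mk hinj hJU (insert_nonempty _ _) hπU hRJ' hsurj (fun x _ y => (hg x y).symm)
          (fun _ _ => rfl)
      have Ma' : Mark g U (π ⊔ gl (insert u I)) (insert u I) (S \ I.image g) (fib g) (g a) :=
        mark_mk hJU hπU (fun h => ((hmS _).1 (mem_sdiff.1 h).1).2.1 rfl) ⟨a, by rw [mem_fib]⟩
          (hbb a) (hbs a ha)
          (fun x hx h => ((hmS _).1 (mem_sdiff.1 h).1).2.1 ((mem_fib g (g a) x).1 hx))
      have Mb' : Mark g U (π ⊔ gl (insert u I)) (insert u I) (S \ I.image g) (fib g) (g b) :=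
        mark_mk hJU hπU (fun h => ((hmS _).1 (mem_sdiff.1 h).1).2.2 rfl) ⟨b, by rw [mem_fib]⟩
          (hbb b) (hbs b hb)
          (fun x hx h => ((hmS _).1 (mem_sdiff.1 h).1).2.2 ((mem_fib g (g b) x).1 hx))
      have hdj : Disjoint (fib g (g a)) (fib g (g b)) := by
        rw [Finset.disjoint_left]
        intro x hx hx'
        rw [mem_fib] at hx hx'
        exact hab' (hx.symm.trans hx')
      have h3 := case2 h1 H' Ma' Mb' hab' hdj σ κa κb κab p0 p1 p2 p4 _ (le_refl _)
      rw [card_insert_of_notMem huI, hI.2] at h3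
      rw [← h3]
      unfold T
      congr 1
      ext x
      simp only [mem_univ, true_iff, mem_union, mem_biUnion]
      by_cases hx : x ∈ insert u I
      · exact Or.inl hx
      · right
        refine ⟨g x, ?_, by rw [mem_fib]⟩
        rw [mem_insert, not_or] at hx
        rw [mem_insert, mem_insert, mem_sdiff, hmS, hgI]
        by_cases hxa : g x = g a
        · exact Or.inl hxa
        · by_cases hxb : g x = g b
          · exact Or.inr (Or.inl hxb)
          · refine Or.inr (Or.inr ⟨⟨?_, hxa, hxb⟩, hx.2⟩)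
            intro h
            exact hx.1 (hinj u hu x h.symm).symm
    have e5 : (i + 1).choose 2 = i.choose 2 + i := by
      rw [Nat.choose_succ_succ' i 1, Nat.choose_one_right, add_comm]
    rw [v1, v2, v3, v4, e5, pow_add]
    ring

end Pool.Agent.Y373.HV
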