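import Pool.Agent.Y373.HV.Stm
import Pool.Agent.Y373.HV.TauLem

set_option autoImplicit false

/-! `LpStm`: loops replaced by contractions in `U`. -/

namespace Pool.Agent.Y373.HV

open Polynomial Finset

theorem lp_aux {V : Type} [Fintype V] [DecidableEq V] (U : Finset V) (l : List (Sym2 V))
    (fl : List (Sym2 V)) (hnd : fl.Nodup) (hU : ∀ e ∈ fl, ∀ x ∈ e, x ∉ U) :
    ∀ (π : Setoid V), Tr U π → ∀ i, 1 ≤ i → i + fl.length ≤ U.card →
    tau (fl ++ l) U π i ≤ ∑ A ∈ fl.toFinset.powerset,
      tau l U (π ⊔ ps A) (i + (A.card - (rk (π ⊔ ps A) - rk π))) := by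
  induction fl with
  | nil =>
    intro π _ i _ _
    simp [ps_empty]
  | cons e fl ih =>
    intro π hπ i hi hle
    have hnd' := (List.nodup_cons.1 hnd).2
    have hen : e ∉ fl.toFinset := by
      rw [List.mem_toFinset]; exact (List.nodup_cons.1 hnd).1
    have hU' : ∀ e ∈ fl, ∀ x ∈ e, x ∉ U := fun f hf => hU f (List.mem_cons_of_mem _ hf)
    have heU := hU e (List.mem_cons_self)
    simp only [List.length_cons] at hle
    have hsum : ∀ f : Finset (Sym2 V) → ℝ[X], ∑ A ∈ (e :: fl).toFinset.powerset, f A =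
        ∑ A ∈ fl.toFinset.powerset, f A + ∑ A ∈ fl.toFinset.powerset, f (insert e A) := by
      intro f
      rw [List.toFinset_cons, Finset.sum_powerset_insert hen]
    rw [hsum, List.cons_append]
    have hcard : ∀ A ∈ fl.toFinset.powerset, (insert e A).card = A.card + 1 := by
      intro A hA
      rw [card_insert_of_notMem]
      exact fun h => hen (mem_powerset.1 hA h)
    by_cases h : pr e ≤ π
    · rw [tau_loop _ _ _ _ _ h]
      refine (X_mul_tau_le (fl ++ l) U π i hπ hi (by omega)).trans ?_
      refine add_le_add (ih hnd' hU' π hπ i hi (by omega)) ?_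
      refine (ih hnd' hU' π hπ (i + 1) (by omega) (by omega)).trans (le_of_eq ?_)
      refine Finset.sum_congr rfl fun A hA => ?_
      rw [hcard A hA, ps_insert]
      have e1 : π ⊔ (ps A ⊔ pr e) = π ⊔ ps A := by
        rw [← sup_assoc, sup_eq_left]
        exact h.trans le_sup_left
      rw [e1]
      have := (rk_mono_ps π A).2
      congr 1
      omega
    · rw [tau_cons _ _ _ _ _ hπ heU h]
      refine add_le_add (ih hnd' hU' π hπ i hi (by omega)) ?_
      refine (ih hnd' hU' (π ⊔ pr e) (tr_sup_pr hπ heU) i hi (by omega)).trans (le_of_eq ?_)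
      refine Finset.sum_congr rfl fun A hA => ?_
      rw [hcard A hA, ps_insert]
      have e1 : π ⊔ (ps A ⊔ pr e) = π ⊔ pr e ⊔ ps A := by
        rw [← sup_assoc, sup_right_comm]
      rw [e1]
      have h1 := (rk_mono_ps (π ⊔ pr e) A)
      have h2 := rk_sup π e h
      congr 1
      omega

/-- **LpStm** -/
theorem lp : LpStm := by
  intro V _ _ U F l hF hc
  have h := lp_aux U l F.toList (Finset.nodup_toList F)
    (fun e he => hF e (Finset.mem_toList.1 he)) ⊥ (tr_bot U) 1 le_rfl
    (by rw [Finset.length_toList]; omega)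
  rw [tau_one _ _ (by omega), Finset.toList_toFinset] at h
  refine h.trans (le_of_eq ?_)
  refine Finset.sum_congr rfl fun A _ => ?_
  rw [bot_sup_eq, rk_bot, Nat.sub_zero]

end Pool.Agent.Y373.HV
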