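import Mathlib
import Pool.Agent.Y373.HV.Stm
import Pool.Agent.Y373.HV.Core

set_option autoImplicit false

/-! The main result for `T` from Kelmans compression, dense graphs and collapse of a vertex. -/

namespace Pool.Agent.Y373.HV

open Polynomial Finset Pool.Agent.Helper291.RelMain Pool.Agent.Helper291.RelDense
  Pool.Agent.Helper291.RelFinal Pool.Agent.Helper291.RelC

theorem T_isoM {V W : Type*} [Fintype V] [Fintype W] (G : SimpleGraph V) (H : SimpleGraph W)
    (f : V ≃ W) (hf : ∀ a b, G.Adj a b ↔ H.Adj (f a) (f b)) : T (el G) ⊥ = T (el H) ⊥ := by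
  have h1 : (⊥ : Setoid V) = Setoid.comap f ⊥ := by
    ext x y
    have : (Setoid.comap f (⊥ : Setoid W)) x y ↔ f x = f y := Iff.rfl
    rw [this, f.injective.eq_iff]
    rfl
  rw [h1, T_quot f f.surjective]
  apply T_perm
  rw [List.perm_ext_iff_of_nodup ((el_nodup G).map (Sym2.map.injective f.injective)) (el_nodup H)]
  intro e
  rw [List.mem_map, mem_el]
  induction e using Sym2.ind with
  | _ x y =>
    constructor
    · rintro ⟨e', he', heq⟩
      rw [mem_el] at he'
      rw [← heq]
      induction e' using Sym2.ind with
      | _ a b =>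
        rw [Sym2.map_mk, SimpleGraph.mem_edgeSet]
        exact (hf a b).1 ((SimpleGraph.mem_edgeSet G).1 he')
    · intro h
      refine ⟨s(f.symm x, f.symm y), ?_, ?_⟩
      · rw [mem_el, SimpleGraph.mem_edgeSet, hf, f.apply_symm_apply, f.apply_symm_apply]
        exact h
      · rw [Sym2.map_mk, f.apply_symm_apply, f.apply_symm_apply]

theorem star_relabelM {V W : Type*} [Fintype V] [DecidableEq V] [Fintype W] [DecidableEq W]
    (v : V) (T₀ : Finset V) (v' : W)
    (T' : Finset W) (hv : v ∉ T₀) (hv' : v' ∉ T') (hT : T₀.card = T'.card)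
    (hc : Fintype.card V = Fintype.card W) :
    T (el (starC v T₀)) ⊥ = T (el (starC v' T')) ⊥ := by
  classical
  let cl : V → Fin 3 := fun w => if w = v then 0 else if w ∈ T₀ then 1 else 2
  let cl' : W → Fin 3 := fun w => if w = v' then 0 else if w ∈ T' then 1 else 2
  have hcard : ∀ i, Fintype.card {w // cl w = i} = Fintype.card {w // cl' w = i} := by
    have c0 : Fintype.card {w // cl w = 0} = 1 := by
      rw [Fintype.card_subtype]
      have : univ.filter (fun w => cl w = 0) = {v} := by
        ext w; simp only [cl, mem_filter, mem_univ, true_and, mem_singleton]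
        split_ifs <;> simp_all
      rw [this, card_singleton]
    have c0' : Fintype.card {w // cl' w = 0} = 1 := by
      rw [Fintype.card_subtype]
      have : univ.filter (fun w => cl' w = 0) = {v'} := by
        ext w; simp only [cl', mem_filter, mem_univ, true_and, mem_singleton]
        split_ifs <;> simp_all
      rw [this, card_singleton]
    have c1 : Fintype.card {w // cl w = 1} = T₀.card := by
      rw [Fintype.card_subtype]
      congr 1
      ext w; simp only [cl, mem_filter, mem_univ, true_and]
      split_ifs with h1 h2 <;> simp_all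
    have c1' : Fintype.card {w // cl' w = 1} = T'.card := by
      rw [Fintype.card_subtype]
      congr 1
      ext w; simp only [cl', mem_filter, mem_univ, true_and]
      split_ifs with h1 h2 <;> simp_all
    have tot : Fintype.card V = ∑ i, Fintype.card {w // cl w = i} := by
      rw [← Fintype.card_sigma]
      exact Fintype.card_congr (Equiv.sigmaFiberEquiv cl).symm
    have tot' : Fintype.card W = ∑ i, Fintype.card {w // cl' w = i} := by
      rw [← Fintype.card_sigma]
      exact Fintype.card_congr (Equiv.sigmaFiberEquiv cl').symm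
    rw [Fin.sum_univ_three] at tot tot'
    intro i
    fin_cases i
    · exact c0.trans c0'.symm
    · exact c1.trans (hT.trans c1'.symm)
    · simp only [Fin.reduceFinMk]
      omega
  let e : ∀ i, {w // cl w = i} ≃ {w // cl' w = i} := fun i => Fintype.equivOfCardEq (hcard i)
  let f : V ≃ W := (Equiv.sigmaFiberEquiv cl).symm.trans
    ((Equiv.sigmaCongrRight e).trans (Equiv.sigmaFiberEquiv cl'))
  have hf : ∀ w, cl' (f w) = cl w := by
    intro w
    exact (e (cl w) ⟨w, rfl⟩).2
  have hfv : ∀ w, f w = v' ↔ w = v := by
    intro w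
    have h1 : cl w = 0 ↔ w = v := by
      simp only [cl]; split_ifs <;> simp_all
    have h2 : cl' (f w) = 0 ↔ f w = v' := by
      simp only [cl']; split_ifs <;> simp_all
    rw [← h1, ← h2, hf]
  have hfT : ∀ w, f w ∈ T' ↔ w ∈ T₀ := by
    intro w
    have h1 : cl w = 1 ↔ w ∈ T₀ := by
      simp only [cl]; split_ifs with a b <;> simp_all
    have h2 : ∀ y, cl' y = 1 ↔ y ∈ T' := by
      intro y
      simp only [cl']; split_ifs with a b <;> simp_all
    rw [← h1, ← h2, hf]
  apply T_isoM _ _ f
  intro a b
  rw [starC_adj, starC_adj, hfv, hfv, hfT, hfT, f.injective.ne_iff]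

section expand

variable {V : Type*} [Fintype V] [DecidableEq V] (v : V)

/-- expansion of the edges at `v` -/
theorem expand (l' : List (Sym2 V)) (us : List {w : V // w ≠ v}) (hus : us.Nodup) :
    ∀ J : Finset {w : V // w ≠ v}, (∀ u ∈ us, u ∉ J) →
    T (us.map (fun u => s(v, u.1)) ++ l') (gl (insert v (J.map (Function.Embedding.subtype _)))) =
      ∑ I ∈ us.toFinset.powerset,
        T l' (gl (insert v ((J ∪ I).map (Function.Embedding.subtype _)))) := by
  induction us with
  | nil =>
    intro J _
    simp
  | cons u us ih =>
    intro J hJ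
    rw [List.nodup_cons] at hus
    have hu : u ∉ J := hJ u List.mem_cons_self
    have hJ' : ∀ w ∈ us, w ∉ J := fun w hw => hJ w (List.mem_cons_of_mem _ hw)
    have hJ'' : ∀ w ∈ us, w ∉ insert u J := fun w hw h => by
      rcases mem_insert.1 h with h | h
      · exact hus.1 (h ▸ hw)
      · exact hJ' w hw h
    have h1 : ¬ pr s(v, u.1) ≤ gl (insert v (J.map (Function.Embedding.subtype _))) := by
      rw [pr_le_iff, gl_iff]
      rintro (h | ⟨-, h⟩)
      · exact u.2 h.symm
      · rcases mem_insert.1 h with h | h
        · exact u.2 h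
        · rw [mem_map] at h
          obtain ⟨w, hw, hw'⟩ := h
          exact hu ((Subtype.ext hw' : w = u) ▸ hw)
    rw [List.map_cons, List.cons_append, T_cons _ _ _ h1, ih hus.2 J hJ']
    have h2 : gl (insert v (J.map (Function.Embedding.subtype _))) ⊔ pr s(v, u.1) =
        gl (insert v ((insert u J).map (Function.Embedding.subtype _))) := by
      rw [← gl_insert _ _ _ (mem_insert_self _ _), Finset.map_insert, Finset.insert_comm]
      rfl
    rw [h2, ih hus.2 (insert u J) hJ'', List.toFinset_cons,
      Finset.sum_powerset_insert (by rw [List.mem_toFinset]; exact hus.1)]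
    congr 1
    refine sum_congr rfl fun I _ => ?_
    rw [Finset.insert_union, Finset.union_insert]

theorem T_collapse (l : List (Sym2 {w : V // w ≠ v})) (I : Finset {w : V // w ≠ v})
    (hI : I.Nonempty) :
    T (l.map (Sym2.map Subtype.val)) (gl (insert v (I.map (Function.Embedding.subtype _)))) =
      T l (gl I) := by
  classical
  obtain ⟨i₀, hi₀⟩ := hI
  let f : V → {w : V // w ≠ v} := fun x => if h : x = v then i₀ else ⟨x, h⟩
  have fv : f v = i₀ := by simp [f]
  have fw : ∀ w : {w : V // w ≠ v}, f w.1 = w := fun w => by simp [f, w.2]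
  have hsur : Function.Surjective f := fun w => ⟨w.1, fw w⟩
  have hmem : ∀ x, f x ∈ I ↔ x ∈ insert v (I.map (Function.Embedding.subtype _)) := by
    intro x
    by_cases hx : x = v
    · subst hx
      rw [fv]
      simp [hi₀]
    · rw [mem_insert, mem_map]
      have : f x = ⟨x, hx⟩ := fw ⟨x, hx⟩
      rw [this]
      constructor
      · intro h
        exact Or.inr ⟨⟨x, hx⟩, h, rfl⟩
      · rintro (h | ⟨w, hw, hw'⟩)
        · exact absurd h hx
        · have : w = ⟨x, hx⟩ := Subtype.ext hw'
          rwa [this] at hw
  have hcomap : gl (insert v (I.map (Function.Embedding.subtype _))) = Setoid.comap f (gl I) := by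
    ext x y
    have e1 : (Setoid.comap f (gl I)) x y ↔ f x = f y ∨ (f x ∈ I ∧ f y ∈ I) := Iff.rfl
    rw [gl_iff, e1, hmem, hmem]
    constructor
    · rintro (rfl | h)
      · exact Or.inl rfl
      · exact Or.inr h
    · rintro (h | h)
      · by_cases hx : x = v
        · by_cases hy : y = v
          · left; rw [hx, hy]
          · right
            have h3 : f y ∈ I := by rw [← h, hx, fv]; exact hi₀
            exact ⟨(hmem x).1 (by rw [h]; exact h3), (hmem y).1 h3⟩
        · by_cases hy : y = v
          · right
            have h3 : f x ∈ I := by rw [h, hy, fv]; exact hi₀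
            exact ⟨(hmem x).1 h3, (hmem y).1 (by rw [← h]; exact h3)⟩
          · left
            have hx' : f x = ⟨x, hx⟩ := fw ⟨x, hx⟩
            have hy' : f y = ⟨y, hy⟩ := fw ⟨y, hy⟩
            rw [hx', hy'] at h
            exact congrArg Subtype.val h
      · exact Or.inr h
  rw [hcomap, T_quot f hsur, List.map_map, ← Sym2.map_comp]
  have : f ∘ Subtype.val = id := funext fw
  rw [this, Sym2.map_id, List.map_id]

/-- expansion at a vertex -/
theorem T_vertex (H : SimpleGraph V) (hcard : 2 ≤ Fintype.card V) (U : Finset {w : V // w ≠ v})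
    (hU : ∀ w, w ∈ U ↔ H.Adj v w.1) :
    T (el H) ⊥ = ∑ I ∈ U.powerset.filter (fun I => I.Nonempty), T (el (delV H v)) (gl I) := by
  classical
  have hperm : (el H).Perm (U.toList.map (fun u => s(v, u.1)) ++
      (el (delV H v)).map (Sym2.map Subtype.val)) := by
    rw [List.perm_ext_iff_of_nodup (el_nodup H)]
    · intro e
      rw [mem_el, List.mem_append, List.mem_map, List.mem_map]
      induction e using Sym2.ind with
      | _ x y =>
        rw [SimpleGraph.mem_edgeSet]
        constructor
        · intro h
          by_cases hx : x = v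
          · subst hx
            left
            exact ⟨⟨y, h.ne'⟩, by rw [mem_toList, hU]; exact h, rfl⟩
          · by_cases hy : y = v
            · subst hy
              left
              exact ⟨⟨x, hx⟩, by rw [mem_toList, hU]; exact h.symm, Sym2.eq_swap⟩
            · right
              refine ⟨s(⟨x, hx⟩, ⟨y, hy⟩), ?_, rfl⟩
              rw [mem_el, SimpleGraph.mem_edgeSet, delV_adj]
              exact h
        · rintro (⟨u, hu, he⟩ | ⟨e', he', heq⟩)
          · rw [mem_toList, hU] at hu
            rw [← SimpleGraph.mem_edgeSet, ← he, SimpleGraph.mem_edgeSet]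
            exact hu
          · rw [mem_el] at he'
            rw [← SimpleGraph.mem_edgeSet, ← heq]
            induction e' using Sym2.ind with
            | _ a b =>
              rw [Sym2.map_mk, SimpleGraph.mem_edgeSet]
              rw [SimpleGraph.mem_edgeSet, delV_adj] at he'
              exact he'
    · rw [List.nodup_append']
      refine ⟨?_, ?_, ?_⟩
      · refine (Finset.nodup_toList U).map fun a b hab => ?_
        have hab' : s(v, a.1) = s(v, b.1) := hab
        rcases Sym2.eq_iff.1 hab' with ⟨_, h⟩ | ⟨h, h'⟩
        · exact Subtype.ext h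
        · exact absurd h.symm b.2
      · exact (el_nodup _).map (Sym2.map.injective Subtype.val_injective)
      · intro e h1 h2
        rw [List.mem_map] at h1 h2
        obtain ⟨u, -, rfl⟩ := h1
        obtain ⟨e', -, heq⟩ := h2
        induction e' using Sym2.ind with
        | _ a b =>
          rw [Sym2.map_mk] at heq
          rcases Sym2.eq_iff.1 heq with ⟨h, _⟩ | ⟨_, h⟩
          · exact a.2 h
          · exact b.2 h
  rw [T_perm hperm]
  have h1 := expand v ((el (delV H v)).map (Sym2.map Subtype.val)) U.toList
    (Finset.nodup_toList U) ∅ (fun _ _ => notMem_empty _)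
  rw [Finset.map_empty, insert_empty_eq, gl_singleton, Finset.toList_toFinset] at h1
  rw [h1, ← Finset.sum_filter_add_sum_filter_not U.powerset (fun I => I.Nonempty)]
  have h2 : ∑ I ∈ U.powerset.filter (fun I => ¬ I.Nonempty),
      T ((el (delV H v)).map (Sym2.map Subtype.val))
        (gl (insert v ((∅ ∪ I).map (Function.Embedding.subtype _)))) = 0 := by
    refine sum_eq_zero fun I hI => ?_
    rw [mem_filter, not_nonempty_iff_eq_empty] at hI
    rw [hI.2, Finset.union_empty, Finset.map_empty, insert_empty_eq, gl_singleton]
    obtain ⟨w, hw⟩ := Fintype.exists_ne_of_one_lt_card (by omega : 1 < Fintype.card V) v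
    refine tc_isolated _ _ _ v w (mem_univ _) (mem_univ _) (fun h => hw h.symm) ?_
    intro e he x hx h
    rw [List.mem_map] at he
    obtain ⟨e', -, rfl⟩ := he
    have h' : v = x := h
    subst h'
    rw [Sym2.mem_map] at hx
    obtain ⟨a, -, ha⟩ := hx
    exact a.2 ha
  rw [h2, add_zero]
  refine sum_congr rfl fun I hI => ?_
  rw [mem_filter] at hI
  rw [Finset.empty_union]
  exact T_collapse v _ I hI.2

end expand

theorem Lg_pendant' (m s k : ℕ) (f : ℕ → ℕ) (hs : s < m) (hf : f m < m) :
    T (el (Lg (m + 1) s k f)) ⊥ = T (el (Lg m s k f)) ⊥ := by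
  classical
  have hne : (⟨f m, by omega⟩ : Fin (m + 1)) ≠ Fin.last m := by
    intro h
    have := Fin.ext_iff.1 h
    simp at this
    omega
  rw [T_vertex (Fin.last m) (Lg (m + 1) s k f) (by rw [Fintype.card_fin]; omega)
    {⟨⟨f m, by omega⟩, hne⟩}]
  · have h1 : (({⟨⟨f m, by omega⟩, hne⟩} : Finset {w : Fin (m + 1) // w ≠ Fin.last m}).powerset.filter
        (fun I => I.Nonempty)) = {{⟨⟨f m, by omega⟩, hne⟩}} := by
      ext I
      rw [mem_filter, mem_powerset, mem_singleton, Finset.subset_singleton_iff]
      constructor
      · rintro ⟨h | h, h'⟩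
        · rw [h] at h'
          exact absurd h' not_nonempty_empty
        · exact h
      · rintro rfl
        exact ⟨Or.inr rfl, singleton_nonempty _⟩
    rw [h1, sum_singleton, gl_singleton]
    symm
    apply T_isoM _ _ (finSuccAboveEquiv (Fin.last m))
    intro a b
    rw [delV_adj, Lg_adj, Lg_adj]
    simp only [finSuccAboveEquiv_apply, Fin.succAbove_last]
    simp
  · rintro ⟨w, hw⟩
    rw [mem_singleton, Subtype.mk.injEq, Lg_adj]
    have hw' : w.1 < m := by
      have := w.2
      have h3 : w.1 ≠ m := fun h => hw (Fin.ext h)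
      omega
    have e1 : max (Fin.last m).1 w.1 = m := by simp; omega
    have e2 : min (Fin.last m).1 w.1 = w.1 := by simp; omega
    rw [e1, e2]
    constructor
    · rintro rfl
      exact ⟨hw.symm, Or.inr (Or.inr ⟨hs, rfl⟩)⟩
    · rintro ⟨_, h | h | h⟩
      · omega
      · omega
      · exact Fin.ext h.2

theorem main_stm (h1 : KelStm) (h2 : DenseStm) (h3 : CollapseStm) : MainStm := by
  intro f s k hk hks n hn
  induction n, hn using Nat.le_induction with
  | base =>
    intro _ V _ _ G hV hG hE
    classical
    have hm := mt_card G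
    have hch : (s + 1).choose 2 = s.choose 2 + s := by
      rw [Nat.choose_succ_succ' s 1, Nat.choose_one_right]; ring
    have hmt : (mt G).card = s - k := by
      rw [hV, hch] at hm
      have : G.edgeSet.ncard = s.choose 2 + k := by rw [hE]; omega
      omega
    have hne : Nonempty V := hG.nonempty
    obtain ⟨v⟩ := hne
    obtain ⟨T₀, hT1, hT2⟩ := Finset.exists_subset_card_eq
      (s := (univ.erase v : Finset V)) (n := s - k) (by
        rw [Finset.card_erase_of_mem (mem_univ v), Finset.card_univ, hV]; omega)
    have hvT : v ∉ T₀ := fun h => by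
      have := hT1 h
      simp at this
    have hd := h2 V (s - k) G hG hmt (by omega) v T₀ hvT hT2
    refine le_trans (le_of_eq ?_) hd
    rw [Lg_dense]
    apply star_relabelM
    · simp
    · exact hvT
    · rw [hT2]
      have : (univ.filter (fun i : Fin (s + 1) => k ≤ i.1 ∧ i.1 < s)) =
          (Finset.Ico k s).attachFin (fun i hi => by
            have := (Finset.mem_Ico.1 hi).2; omega) := by
        ext i
        simp [Finset.mem_attachFin]
      rw [this, Finset.card_attachFin, Nat.card_Ico]
    · rw [hV, Fintype.card_fin]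
  | succ m hm ih =>
    intro hf V _ _ G hV hG hE
    classical
    have hLp := Lg_pendant' m s k f (by omega) (hf m (by omega) (by omega))
    rw [hLp]
    intro j
    obtain ⟨H, hHc, hHe, hHN, hHP⟩ := exists_nested (fun G => (T (el G) ⊥).coeff j)
      (fun G u v huv => h1 V G u v huv j) G hG
    refine le_trans ?_ hHP
    have hne : Nonempty V := hG.nonempty
    obtain ⟨v1⟩ := hne
    obtain ⟨v, _, hv⟩ := Finset.exists_min_image (univ : Finset V) (fun w => (nbs H w).card)
      ⟨v1, mem_univ v1⟩
    have hdom := nested_dom H hHN v (fun w => hv w (mem_univ w))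
    -- v has a neighbour
    have hnb : (nbs H v).Nonempty := by
      have : 1 < Fintype.card V := by omega
      obtain ⟨w, hw⟩ := Fintype.exists_ne_of_one_lt_card this v
      obtain ⟨q⟩ := hHc.preconnected v w
      cases q with
      | nil => exact absurd rfl hw
      | cons h _ => exact ⟨_, mem_nbs.2 h⟩
    set d := (nbs H v).card with hd
    have hd1 : 1 ≤ d := Finset.card_pos.2 hnb
    have hcV' : Fintype.card {w : V // w ≠ v} = m := by
      have := card_sub v
      omega
    set H' := delV H v with hH'
    set U : Finset {w : V // w ≠ v} := univ.filter (fun w => H.Adj v w.1) with hU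
    have hUd : U.card = d := by
      rw [hd]
      have : nbs H v = U.image Subtype.val := by
        ext w
        rw [mem_nbs, mem_image]
        constructor
        · intro h; exact ⟨⟨w, h.ne'⟩, by simp [hU, h], rfl⟩
        · rintro ⟨a, ha, rfl⟩; simpa [hU] using ha
      rw [this, Finset.card_image_of_injective _ Subtype.val_injective]
    have hUdom : ∀ u ∈ U, ∀ t, t ≠ u → H'.Adj u t := by
      intro u hu t ht
      rw [hH', delV_adj]
      apply hdom u.1 (by simpa [hU] using hu)
      intro h; exact ht (Subtype.ext h)
    -- counting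
    have c1 := mt_card H
    have c2 := mt_split H v
    have c3 := nn_nbs H v
    have c4 := ms_card H v
    have c5 := mt_card H'
    have hch : (m + 1).choose 2 = m.choose 2 + m := by
      rw [Nat.choose_succ_succ' m 1, Nat.choose_one_right]; ring
    have hchs : s.choose 2 + m ≤ m.choose 2 + 1 := by
      obtain ⟨r, rfl⟩ : ∃ r, m = r + 1 := ⟨m - 1, by omega⟩
      have h1 : s.choose 2 ≤ r.choose 2 := Nat.choose_le_choose 2 (by omega)
      have h2 : (r + 1).choose 2 = r.choose 2 + r := by
        rw [Nat.choose_succ_succ' r 1, Nat.choose_one_right]; ring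
      omega
    rw [hV, hch] at c1
    have hE' : H.edgeSet.ncard = s.choose 2 + k + (m - s) := by
      rw [hHe, hE]
      have : m + 1 - s - 1 = m - s := by omega
      rw [this]
    rw [← hH'] at c4
    rw [← hd] at c3
    rw [hE'] at c1
    rw [c2, c4] at c1
    rw [hV] at c3
    have c6 : (mt H').card + s.choose 2 + k + (m - s) = m.choose 2 + d := by
      omega
    obtain ⟨F, hF1, hF2⟩ := Finset.exists_subset_card_eq (s := mt H') (n := d - 1) (by omega)
    -- the new graph
    have hH''c : (addF H' F).Connected := by
      obtain ⟨u, hu⟩ : U.Nonempty := by rw [← Finset.card_pos]; omega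
      apply conn_of_dom _ u
      intro t ht
      exact ⟨ht.symm, Or.inl (hUdom u hu t ht)⟩
    have hH''e : (addF H' F).edgeSet.ncard = s.choose 2 + k + (m - s - 1) := by
      have h1 := mt_card (addF H' F)
      rw [mt_addF, Finset.card_sdiff_of_subset hF1, hF2, hcV'] at h1
      have h2 : d - 1 ≤ (mt H').card := hF2 ▸ Finset.card_le_card hF1
      omega
    have hIH := ih (fun j h1 h2 => hf j h1 (by omega)) {w : V // w ≠ v} (addF H' F) hcV' hH''c hH''e
    have hcol := h3 {w : V // w ≠ v} H' U F hUdom hF1 (by omega)
    have hver := T_vertex v H (by omega) U (fun w => by simp [hU])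
    rw [← hver] at hcol
    exact (hIH.trans hcol) j

end Pool.Agent.Y373.HV
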