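import Pool.Agent.Y373.HV.Stm
import Pool.Agent.Y373.HV.Core

/-! HV-MOM: the moment identity (written by helper908). -/

set_option autoImplicit false

namespace Pool.Agent.Y373.HV

open Polynomial Finset

section mom
variable {V : Type*}

/-- a relation added outside a closed set is not seen by that set -/
theorem sup_out (s : Setoid V) (D : Finset V) (a b : V) (ha : a ∉ D) (hb : b ∉ D)
    (hD : ∀ x ∈ D, ∀ y, s x y → y ∈ D) (x y : V) (hx : x ∈ D) :
    (s ⊔ pr s(a, b)) x y ↔ s x y := by
  rw [sup_pr_iff]
  constructor
  · rintro (h | ⟨h, _⟩ | ⟨h, _⟩)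
    · exact h
    · exact absurd (hD x hx a h) ha
    · exact absurd (hD x hx b h) hb
  · exact Or.inl

theorem tc_out (D : Finset V) (l : List (Sym2 V)) (s : Setoid V) (a b : V) (ha : a ∉ D)
    (hb : b ∉ D) (hD : ∀ x ∈ D, ∀ y, s x y → y ∈ D) :
    tc D l (s ⊔ pr s(a, b)) = tc D l s := by
  induction l generalizing s with
  | nil =>
    simp only [tc]
    have h1 : (∀ x ∈ D, ∀ y, (s ⊔ pr s(a, b)) x y ↔ y ∈ D) ↔ (∀ x ∈ D, ∀ y, s x y ↔ y ∈ D) := by
      refine forall_congr' fun x => forall_congr' fun hx => forall_congr' fun y => ?_
      rw [sup_out s D a b ha hb hD x y hx]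
    by_cases c : ∀ x ∈ D, ∀ y, s x y ↔ y ∈ D
    · rw [if_pos (h1.2 c), if_pos c]
    · rw [if_neg (fun h => c (h1.1 h)), if_neg c]
  | cons f l ih =>
    by_cases hf : ∃ x ∈ f, x ∉ D
    · rw [tc_skip D f l _ hf, tc_skip D f l _ hf]
      exact ih s hD
    · push Not at hf
      induction f using Sym2.ind with
      | _ c d =>
        have hc : c ∈ D := hf c (by simp)
        have hd : d ∈ D := hf d (by simp)
        by_cases h1 : s c d
        · rw [tc_loop D _ l s hf ((pr_le_iff _ _ _).2 h1),
            tc_loop D _ l _ hf ((pr_le_iff _ _ _).2 ((sup_out s D a b ha hb hD c d hc).2 h1)),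
            ih s hD]
        · rw [tc_cons D _ l s hf (fun h => h1 ((pr_le_iff _ _ _).1 h)),
            tc_cons D _ l _ hf (fun h => h1 ((sup_out s D a b ha hb hD c d hc).1
              ((pr_le_iff _ _ _).1 h))), ih s hD, sup_right_comm, ih (s ⊔ pr s(c, d))]
          intro x hx y hxy
          rw [sup_pr_iff] at hxy
          rcases hxy with h | ⟨_, h⟩ | ⟨_, h⟩
          · exact hD x hx y h
          · exact hD d hd y h
          · exact hD c hc y h

theorem nb_out (s : Setoid V) (D : Finset V) (a b : V) (ha : a ∉ D) (hb : b ∉ D)
    (hD : ∀ x ∈ D, ∀ y, s x y → y ∈ D) : nb (s ⊔ pr s(a, b)) D = nb s D := by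
  classical
  unfold nb
  let g : Quotient s → Quotient (s ⊔ pr s(a, b)) :=
    Quotient.map' (s₁ := s) (s₂ := s ⊔ pr s(a, b)) id
      (fun x y hxy => (le_sup_left : s ≤ s ⊔ pr s(a, b)) hxy)
  have h1 : D.image (fun x => Quotient.mk (s ⊔ pr s(a, b)) x) =
      (D.image (fun x => Quotient.mk s x)).image g := by
    rw [Finset.image_image]
    rfl
  rw [h1]
  apply Finset.card_image_of_injOn
  intro q hq r hr heq
  rw [Finset.mem_coe, Finset.mem_image] at hq hr
  obtain ⟨x, hx, rfl⟩ := hq
  obtain ⟨y, hy, rfl⟩ := hr
  have h2 : (s ⊔ pr s(a, b)) x y := Quotient.exact heq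
  exact Quotient.sound ((sup_out s D a b ha hb hD x y hx).1 h2)

theorem cnt_cons_in (B : Finset V) (e : Sym2 V) (l : List (Sym2 V)) (h : ∀ x ∈ e, x ∈ B) :
    cnt B (e :: l) = cnt B l + 1 := by
  classical
  unfold cnt
  rw [List.filter_cons, if_pos (by simpa using h), List.length_cons]

theorem cnt_cons_out (B : Finset V) (e : Sym2 V) (l : List (Sym2 V)) (h : ∃ x ∈ e, x ∉ B) :
    cnt B (e :: l) = cnt B l := by
  classical
  unfold cnt
  rw [List.filter_cons, if_neg]
  intro h2
  obtain ⟨x, hx, hxB⟩ := h
  have h3 : ∀ x ∈ e, x ∈ B := by simpa using h2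
  exact hxB (h3 x hx)

end mom

theorem mom : MomStm := by
  intro V _ _ l
  induction l with
  | nil =>
    intro s B r hr hB
    classical
    set D0 : Finset V := B.filter (fun x => s r x) with hD0
    have hrD0 : r ∈ D0 := by
      rw [hD0, Finset.mem_filter]; exact ⟨hr, s.refl' r⟩
    rw [Finset.sum_eq_single D0]
    · have h1 : nb s D0 = 1 := by
        unfold nb
        rw [Finset.card_eq_one]
        refine ⟨Quotient.mk s r, ?_⟩
        ext q
        rw [Finset.mem_image, Finset.mem_singleton]
        constructor
        · rintro ⟨x, hx, rfl⟩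
          rw [hD0, Finset.mem_filter] at hx
          exact Quotient.sound (s.symm' hx.2)
        · rintro rfl
          exact ⟨r, hrD0, rfl⟩
      have h2 : tc D0 [] s = 1 := by
        simp only [tc]
        rw [if_pos]
        intro x hx y
        rw [hD0, Finset.mem_filter] at hx ⊢
        constructor
        · intro hxy
          exact ⟨hB x hx.1 y hxy, s.trans' hx.2 hxy⟩
        · intro hy
          exact s.trans' (s.symm' hx.2) hy.2
      rw [h1, h2]
      simp [cnt]
    · intro D hD hne
      rw [Finset.mem_filter, Finset.mem_powerset] at hD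
      have h2 : tc D [] s = 0 := by
        simp only [tc]
        rw [if_neg]
        intro hcon
        apply hne
        ext x
        rw [hD0, Finset.mem_filter]
        constructor
        · intro hx
          exact ⟨hD.1 hx, (hcon r hD.2 x).2 hx⟩
        · intro hx
          exact (hcon r hD.2 x).1 hx.2
      rw [h2]
      ring
    · intro h
      exfalso
      apply h
      rw [Finset.mem_filter, Finset.mem_powerset]
      exact ⟨Finset.filter_subset _ _, hrD0⟩
  | cons e l ih =>
    intro s B r hr hB
    classical
    by_cases he : ∃ x ∈ e, x ∉ B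
    · rw [cnt_cons_out B e l he, ih s B r hr hB]
      refine Finset.sum_congr rfl fun D hD => ?_
      rw [Finset.mem_filter, Finset.mem_powerset] at hD
      obtain ⟨x, hx, hxB⟩ := he
      rw [tc_skip D e l s ⟨x, hx, fun h => hxB (hD.1 h)⟩,
        cnt_cons_out (B \ D) e l ⟨x, hx, fun h => hxB (Finset.mem_sdiff.1 h).1⟩]
    · push Not at he
      rw [cnt_cons_in B e l he]
      induction e using Sym2.ind with
      | _ a b =>
        have ha : a ∈ B := he a (by simp)
        have hb : b ∈ B := he b (by simp)
        by_cases hs : s a b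
        · rw [pow_succ, ih s B r hr hB, Finset.sum_mul]
          refine Finset.sum_congr rfl fun D hD => ?_
          rw [Finset.mem_filter, Finset.mem_powerset] at hD
          by_cases haD : a ∈ D
          · by_cases hbD : b ∈ D
            · rw [tc_loop D _ l s (by
                intro x hx
                rw [Sym2.mem_iff] at hx
                rcases hx with rfl | rfl <;> assumption) ((pr_le_iff _ _ _).2 hs),
                cnt_cons_out (B \ D) _ l ⟨a, by simp, by simp [haD]⟩]
              ring
            · rw [tc_not_closed D _ s a b haD hbD hs, tc_not_closed D _ s a b haD hbD hs]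
              ring
          · by_cases hbD : b ∈ D
            · rw [tc_not_closed D _ s b a hbD haD (s.symm' hs),
                tc_not_closed D _ s b a hbD haD (s.symm' hs)]
              ring
            · rw [tc_skip D _ l s ⟨a, by simp, haD⟩, cnt_cons_in (B \ D) _ l (by
                intro x hx
                rw [Sym2.mem_iff] at hx
                rcases hx with rfl | rfl
                · exact Finset.mem_sdiff.2 ⟨ha, haD⟩
                · exact Finset.mem_sdiff.2 ⟨hb, hbD⟩)]
              ring
        · have hBt : ∀ x ∈ B, ∀ y, (s ⊔ pr s(a, b)) x y → y ∈ B := by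
            intro x hx y hxy
            rw [sup_pr_iff] at hxy
            rcases hxy with h | ⟨_, h⟩ | ⟨_, h⟩
            · exact hB x hx y h
            · exact hB b hb y h
            · exact hB a ha y h
          have e1 : (X : ℝ[X]) ^ (cnt B l + 1) =
              X ^ cnt B l + (X - 1) * X ^ cnt B l := by ring
          rw [e1]
          nth_rewrite 1 [ih s B r hr hB]
          rw [ih (s ⊔ pr s(a, b)) B r hr hBt, Finset.mul_sum, ← Finset.sum_add_distrib]
          refine Finset.sum_congr rfl fun D hD => ?_
          rw [Finset.mem_filter, Finset.mem_powerset] at hD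
          by_cases haD : a ∈ D
          · by_cases hbD : b ∈ D
            · have hin : ∀ x ∈ s(a, b), x ∈ D := by
                intro x hx
                rw [Sym2.mem_iff] at hx
                rcases hx with rfl | rfl <;> assumption
              have hnle : ¬ pr s(a, b) ≤ s := fun h => hs ((pr_le_iff _ _ _).1 h)
              rw [tc_cons D _ l s hin hnle, cnt_cons_out (B \ D) _ l ⟨a, by simp, by simp [haD]⟩,
                nb_sup s D _ hin hnle]
              have hpos : 0 < nb (s ⊔ pr s(a, b)) D := by
                unfold nb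
                exact Finset.card_pos.2 ⟨_, Finset.mem_image_of_mem _ hD.2⟩
              obtain ⟨m, hm⟩ := Nat.exists_eq_succ_of_ne_zero hpos.ne'
              rw [hm, Nat.succ_eq_add_one, Nat.add_sub_cancel, Nat.add_sub_cancel]
              ring
            · rw [tc_skip D _ l s ⟨b, by simp, hbD⟩,
                cnt_cons_out (B \ D) _ l ⟨a, by simp, by simp [haD]⟩,
                tc_not_closed D _ (s ⊔ pr s(a, b)) a b haD hbD
                  ((pr_le_iff _ _ _).1 le_sup_right)]
              ring
          · by_cases hbD : b ∈ D
            · rw [tc_skip D _ l s ⟨a, by simp, haD⟩,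
                cnt_cons_out (B \ D) _ l ⟨b, by simp, by simp [hbD]⟩,
                tc_not_closed D _ (s ⊔ pr s(a, b)) b a hbD haD
                  ((s ⊔ pr s(a, b)).symm' ((pr_le_iff _ _ _).1 le_sup_right))]
              ring
            · rw [tc_skip D _ l s ⟨a, by simp, haD⟩, cnt_cons_in (B \ D) _ l (by
                intro x hx
                rw [Sym2.mem_iff] at hx
                rcases hx with rfl | rfl
                · exact Finset.mem_sdiff.2 ⟨ha, haD⟩
                · exact Finset.mem_sdiff.2 ⟨hb, hbD⟩)]
              by_cases hDc : ∀ x ∈ D, ∀ y, s x y → y ∈ D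
              · rw [tc_out D l s a b haD hbD hDc, nb_out s D a b haD hbD hDc]
                ring
              · push Not at hDc
                obtain ⟨x, hx, y, hxy, hyD⟩ := hDc
                rw [tc_not_closed D l s x y hx hyD hxy,
                  tc_not_closed D l (s ⊔ pr s(a, b)) x y hx hyD
                    ((le_sup_left : s ≤ s ⊔ pr s(a, b)) hxy)]
                ring

end Pool.Agent.Y373.HV
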