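import Pool.Agent.Y373.HV.Stm
import Pool.Agent.Y373.HV.TauLem

set_option autoImplicit false

/-! `SingStm`: singleton terms. -/

namespace Pool.Agent.Y373.HV

open Polynomial Finset

section
variable {V : Type} [Fintype V] [DecidableEq V]

/-- several edges parallel to `s(a, u)` modulo `s` -/
theorem T_par (a u : V) (l : List (Sym2 V)) : ∀ (E : List (Sym2 V)), E ≠ [] →
    ∀ s : Setoid V, ¬ s a u → (∀ e ∈ E, ∃ x, s a x ∧ e = s(x, u)) →
    T l s + T l (s ⊔ pr s(a, u)) ≤ T (E ++ l) s := by
  intro E
  induction E with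
  | nil => intro h; exact absurd rfl h
  | cons e E ih =>
    intro _ s hs hE
    obtain ⟨x, hx, rfl⟩ := hE e (List.mem_cons_self)
    have hE' : ∀ e ∈ E, ∃ x, s a x ∧ e = s(x, u) := fun f hf => hE f (List.mem_cons_of_mem _ hf)
    have hne : ¬ pr s(x, u) ≤ s := by
      rw [pr_le_iff]
      exact fun h => hs (s.trans' hx h)
    rw [List.cons_append, T_cons _ _ _ hne]
    have hmod : s ⊔ pr s(x, u) = s ⊔ pr s(a, u) := by
      apply pr_exch
      · rw [pr_le_iff]; exact hs
      · rw [pr_le_iff, sup_pr_iff]
        exact Or.inr (Or.inl ⟨hx, s.refl' u⟩)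
    rw [hmod]
    by_cases hE0 : E = []
    · rw [hE0, List.nil_append]
    · refine (ih hE0 s hs hE').trans ?_
      exact le_add_of_nonneg_right (T_nonneg _ _)

/-- edges joining the block of `a` to `u` -/
noncomputable def Eu (π : Setoid V) (a u : V) : Finset (Sym2 V) := by
  classical exact (univ.filter (fun x => π a x)).image (fun x => s(x, u))

theorem mem_Eu (π : Setoid V) (a u : V) (e : Sym2 V) :
    e ∈ Eu π a u ↔ ∃ x, π a x ∧ e = s(x, u) := by
  classical
  unfold Eu
  simp only [mem_image, mem_filter, mem_univ, true_and]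
  constructor
  · rintro ⟨x, h1, h2⟩; exact ⟨x, h1, h2.symm⟩
  · rintro ⟨x, h1, h2⟩; exact ⟨x, h1, h2.symm⟩

theorem toList_union_perm {α : Type} [DecidableEq α] (A B : Finset α) (h : Disjoint A B) :
    (A ∪ B).toList.Perm (A.toList ++ B.toList) := by
  rw [List.perm_ext_iff_of_nodup (Finset.nodup_toList _)]
  · intro e
    rw [List.mem_append, Finset.mem_toList, Finset.mem_toList, Finset.mem_toList, mem_union]
  · rw [List.nodup_append]
    refine ⟨Finset.nodup_toList _, Finset.nodup_toList _, ?_⟩
    intro x hx y hy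
    rintro rfl
    rw [Finset.mem_toList] at hx hy
    exact Finset.disjoint_left.1 h hx hy

theorem sing_aux (π : Setoid V) (a : V) (L : Finset (Sym2 V))
    (hL : ∀ e ∈ L, ∀ x ∈ e, ¬ π a x) (U1 : Finset V) :
    (∀ u ∈ U1, ¬ π a u) → ∀ s : Setoid V, π ≤ s → (∀ u ∈ U1, ∀ x, s u x → x = u) →
    ∑ I ∈ U1.powerset, T L.toList (s ⊔ gl (insert a I)) ≤
      T (U1.biUnion (Eu π a) ∪ L).toList s := by
  induction U1 using Finset.induction_on with
  | empty =>
    intro _ s _ _
    simp only [powerset_empty, sum_singleton, insert_empty_eq, biUnion_empty, empty_union]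
    rw [gl_singleton, sup_bot_eq]
  | insert u U1 hu ih =>
    intro hU s hs hs1
    have hU' : ∀ v ∈ U1, ¬ π a v := fun v hv => hU v (mem_insert_of_mem hv)
    have hua : ¬ π a u := hU u (mem_insert_self _ _)
    have hdis : Disjoint (Eu π a u) (U1.biUnion (Eu π a) ∪ L) := by
      rw [Finset.disjoint_left]
      intro e he he'
      obtain ⟨x, hx, rfl⟩ := (mem_Eu π a u e).1 he
      rcases mem_union.1 he' with h | h
      · obtain ⟨v, hv, h⟩ := mem_biUnion.1 h
        obtain ⟨y, hy, h⟩ := (mem_Eu π a v _).1 h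
        rcases Sym2.eq_iff.1 h with ⟨rfl, rfl⟩ | ⟨h3, h4⟩
        · exact hu hv
        · rw [h4] at hua; exact hua hy
      · exact hL _ h x (by simp) hx
    have hun : (insert u U1).biUnion (Eu π a) ∪ L = Eu π a u ∪ (U1.biUnion (Eu π a) ∪ L) := by
      rw [Finset.biUnion_insert, Finset.union_assoc]
    rw [hun, T_perm (toList_union_perm _ _ hdis), Finset.sum_powerset_insert hu]
    have hsau : ¬ s a u := by
      intro h
      have h1 := hs1 u (mem_insert_self _ _) a (s.symm' h)
      apply hua
      rw [h1]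
    refine le_trans ?_ (T_par a u _ (Eu π a u).toList ?_ s hsau ?_)
    · refine add_le_add (ih hU' s hs fun v hv => hs1 v (mem_insert_of_mem hv)) ?_
      have h2 := ih hU' (s ⊔ pr s(a, u)) (hs.trans le_sup_left) ?_
      · refine le_trans (le_of_eq ?_) h2
        refine Finset.sum_congr rfl fun I hI => ?_
        congr 1
        rw [Finset.insert_comm a u I, gl_insert (insert a I) u a (mem_insert_self _ _),
          ← sup_assoc, sup_right_comm]
      · intro v hv x hvx
        rw [sup_pr_iff] at hvx
        have hvu : v ≠ u := fun h => hu (h ▸ hv)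
        rcases hvx with h | ⟨h, _⟩ | ⟨h, _⟩
        · exact hs1 v (mem_insert_of_mem hv) x h
        · have h3 := hs1 v (mem_insert_of_mem hv) a h
          exact absurd (by rw [h3] : π a v) (hU' v hv)
        · have h3 := hs1 v (mem_insert_of_mem hv) u h
          exact absurd h3.symm hvu
    · intro h
      have h3 : s(a, u) ∈ (Eu π a u).toList := by
        rw [Finset.mem_toList, mem_Eu]
        exact ⟨a, π.refl' a, rfl⟩
      rw [h] at h3
      exact absurd h3 (by simp)
    · intro e he
      rw [Finset.mem_toList, mem_Eu] at he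
      obtain ⟨x, hx, h⟩ := he
      exact ⟨x, hs hx, h⟩

theorem tc_skip_list (A : Finset V) (l : List (Sym2 V)) (s : Setoid V) : ∀ E : List (Sym2 V),
    (∀ e ∈ E, ∃ x ∈ e, x ∉ A) → tc A (E ++ l) s = tc A l s := by
  intro E
  induction E with
  | nil => intro _; rfl
  | cons e E ih =>
    intro h
    rw [List.cons_append, tc_skip _ _ _ _ (h e (List.mem_cons_self)),
      ih fun f hf => h f (List.mem_cons_of_mem _ hf)]

end

/-- **SingStm** -/
theorem sing : SingStm := by
  classical
  intro V _ _ U π hπ a ha A hA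
  set L : Finset (Sym2 V) :=
    univ.filter (fun e => e ∈ (KU U).edgeSet ∧ ∀ x ∈ e, ¬ π a x) with hL
  have hLm : ∀ e ∈ L, ∀ x ∈ e, ¬ π a x := fun e he => (mem_filter.1 he).2.2
  have hUa : ∀ u ∈ U, ¬ π a u := by
    intro u hu h
    rcases hπ a u h with rfl | h1
    · exact ha hu
    · exact h1.2 hu
  have hperm : (el (KU U)).Perm (U.biUnion (Eu π a) ∪ L).toList := by
    rw [List.perm_ext_iff_of_nodup (el_nodup _) (Finset.nodup_toList _)]
    intro e
    rw [mem_el, Finset.mem_toList, mem_union, mem_biUnion]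
    constructor
    · intro he
      by_cases hx : ∀ x ∈ e, ¬ π a x
      · exact Or.inr (mem_filter.2 ⟨mem_univ _, he, hx⟩)
      · left
        push Not at hx
        obtain ⟨x, hx, hax⟩ := hx
        obtain ⟨y, rfl⟩ := Sym2.mem_iff_exists.1 hx
        have hxU : x ∉ U := fun h => hUa x h hax
        rw [SimpleGraph.mem_edgeSet] at he
        obtain ⟨_, h | h⟩ := he
        · exact absurd h hxU
        · exact ⟨y, h, (mem_Eu _ _ _ _).2 ⟨x, hax, rfl⟩⟩
    · rintro (⟨u, hu, h⟩ | h)
      · obtain ⟨x, hx, rfl⟩ := (mem_Eu _ _ _ _).1 h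
        rw [SimpleGraph.mem_edgeSet]
        refine ⟨?_, Or.inr hu⟩
        rintro rfl
        exact hUa x hu hx
      · exact (mem_filter.1 h).2.1
  have hdis : Disjoint (U.biUnion (Eu π a)) L := by
    rw [Finset.disjoint_left]
    intro e he he'
    obtain ⟨u, hu, h⟩ := mem_biUnion.1 he
    obtain ⟨x, hx, rfl⟩ := (mem_Eu _ _ _ _).1 h
    exact hLm _ he' x (by simp) hx
  rw [T_perm hperm]
  refine le_trans ?_ (sing_aux π a L hLm U hUa π le_rfl ?_)
  · calc ∑ I ∈ U.powerset.filter (fun I => I.Nonempty), tc A (el (KU U)) (π ⊔ gl I)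
        = ∑ I ∈ U.powerset.filter (fun I => I.Nonempty), T L.toList (π ⊔ gl (insert a I)) := by
          refine Finset.sum_congr rfl fun I hI => ?_
          rw [mem_filter, mem_powerset] at hI
          obtain ⟨hIU, u0, hu0⟩ := hI
          have h0 : ∀ x, (π ⊔ gl I) a x ↔ π a x := by
            intro x
            rw [sup_gl_iff hπ hIU]
            constructor
            · rintro (h | h)
              · exact h
              · exact absurd (hIU h.1) ha
            · exact Or.inl
          have h1 : π ⊔ gl (insert a I) = π ⊔ gl I ⊔ pr s(u0, a) := by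
            rw [sup_gl_insert π I u0 a hu0]
          have h2 := tc_absorb_del (B := univ) (D := A) L.toList (π ⊔ gl I) a u0 (mem_univ _)
            (mem_univ _) (fun _ _ _ _ => mem_univ _) ?_ ?_ ?_
          · rw [h1]
            change _ = tc univ _ _
            rw [h2, tc_perm _ (hperm.trans (toList_union_perm _ _ hdis)), tc_skip_list]
            intro e he
            rw [Finset.mem_toList, mem_biUnion] at he
            obtain ⟨u, hu, he⟩ := he
            obtain ⟨x, hx, rfl⟩ := (mem_Eu _ _ _ _).1 he
            exact ⟨x, by simp, fun h => ((hA x).1 h) hx⟩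
          · rw [h0]; exact hUa u0 (hIU hu0)
          · intro e he x hx
            rw [h0]
            exact hLm e (Finset.mem_toList.1 he) x hx
          · intro x
            rw [h0, hA x]
            simp
      _ ≤ ∑ I ∈ U.powerset, T L.toList (π ⊔ gl (insert a I)) :=
          Finset.sum_le_sum_of_subset_of_nonneg (filter_subset _ _)
            (fun I _ _ => T_nonneg _ _)
  · intro u hu x h
    rcases hπ u x h with h1 | h1
    · exact h1.symm
    · exact absurd hu h1.1

end Pool.Agent.Y373.HV
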