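import Mathlib
import Pool.Agent.Y373.HV.Def
import Pool.Agent.Y373.HV.Core

set_option autoImplicit false

/-! Monotone weights attached to a flat of a simple graph. -/

namespace Pool.Agent.Y373.HV

open Finset

section
variable {V : Type} [Fintype V] [DecidableEq V]

theorem ps_mono {A B : Finset (Sym2 V)} (h : A ⊆ B) : ps A ≤ ps B := Finset.sup_mono h

theorem pr_le_ps {A : Finset (Sym2 V)} {e : Sym2 V} (h : e ∈ A) : pr e ≤ ps A :=
  Finset.le_sup (f := pr) h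

/-- bridges: the rank of a set of bridges together with other edges -/
theorem rk_bridges (A I : Finset (Sym2 V)) (hI : I ⊆ A) (B : Finset (Sym2 V)) (hB : B ⊆ A)
    (hd : Disjoint B I) (hbr : ∀ b ∈ B, ¬ pr b ≤ ps (A.erase b)) :
    rk (ps (B ∪ I)) = B.card + rk (ps I) := by
  induction B using Finset.induction_on with
  | empty => simp
  | insert b B hb ih =>
    have hB' : B ⊆ A := (Finset.subset_insert b B).trans hB
    have hbA : b ∈ A := hB (Finset.mem_insert_self b B)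
    have hd' : Disjoint B I := Finset.disjoint_of_subset_left (Finset.subset_insert b B) hd
    have hbI : b ∉ I := Finset.disjoint_left.1 hd (Finset.mem_insert_self b B)
    have h1 := ih hB' hd' (fun c hc => hbr c (Finset.mem_insert_of_mem hc))
    have h2 : ¬ pr b ≤ ps (B ∪ I) := by
      intro h
      apply hbr b (Finset.mem_insert_self b B)
      refine h.trans (ps_mono ?_)
      intro x hx
      rw [Finset.mem_erase]
      rcases Finset.mem_union.1 hx with h3 | h3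
      · exact ⟨fun h4 => hb (h4 ▸ h3), hB' h3⟩
      · exact ⟨fun h4 => hbI (h4 ▸ h3), hI h3⟩
    rw [Finset.insert_union, ps_insert, rk_sup _ _ h2, h1, Finset.card_insert_of_notMem hb]
    ring

theorem rk_ps_mono {A B : Finset (Sym2 V)} (h : A ⊆ B) : rk (ps A) ≤ rk (ps B) := by
  have key : ∀ C : Finset (Sym2 V), rk (ps A) ≤ rk (ps (C ∪ A)) := by
    intro C
    induction C using Finset.induction_on with
    | empty => simp
    | insert c C hc ih =>
      rw [Finset.insert_union, ps_insert]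
      by_cases h1 : pr c ≤ ps (C ∪ A)
      · rw [sup_eq_left.2 h1]; exact ih
      · rw [rk_sup _ _ h1]; omega
  have h2 := key B
  rwa [Finset.union_eq_left.2 h] at h2

theorem rk_two {f g : Sym2 V} (hf : ¬ f.IsDiag) (hg : ¬ g.IsDiag) (h : f ≠ g) :
    rk (ps {f, g}) = 2 := by
  induction f with | _ a b =>
  induction g with | _ c d =>
  have hab : a ≠ b := by simpa using hf
  have hcd : c ≠ d := by simpa using hg
  have h1 : ¬ pr s(c, d) ≤ (⊥ : Setoid V) := by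
    rw [pr_le_iff]; exact hcd
  have h2 : ps ({s(c, d)} : Finset (Sym2 V)) = ⊥ ⊔ pr s(c, d) := by
    rw [← ps_empty, ← ps_insert]; rfl
  have h3 : ¬ pr s(a, b) ≤ ps ({s(c, d)} : Finset (Sym2 V)) := by
    rw [h2, bot_sup_eq, pr_le_iff, pr_iff]
    rintro (h3 | ⟨h3, h4⟩ | ⟨h3, h4⟩)
    · exact hab h3
    · exact h (by rw [h3, h4])
    · exact h (by rw [h3, h4, Sym2.eq_swap])
  have h4 : ps ({s(a, b), s(c, d)} : Finset (Sym2 V)) = ps {s(c, d)} ⊔ pr s(a, b) := by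
    rw [← ps_insert]
  rw [h4, rk_sup _ _ h3, h2, rk_sup _ _ h1, rk_bot]

open Classical in
/-- removable elements -/
noncomputable def rem (A : Finset (Sym2 V)) : Finset (Sym2 V) :=
  A.filter (fun f => ps (A.erase f) = ps A)

theorem rem_card (A : Finset (Sym2 V)) (hA : ∀ e ∈ A, ¬ e.IsDiag) (i : ℕ) (hi : 1 ≤ i)
    (hc : A.card = rk (ps A) + i) : 2 ≤ rk (ps A) ∧ i + 2 ≤ (rem A).card := by
  classical
  set B := A \ rem A with hBdef
  have hB : B ⊆ A := Finset.sdiff_subset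
  have hR : rem A ⊆ A := Finset.filter_subset _ _
  have hbr : ∀ b ∈ B, ¬ pr b ≤ ps (A.erase b) := by
    intro b hb h
    rw [hBdef, Finset.mem_sdiff] at hb
    apply hb.2
    rw [rem, Finset.mem_filter]
    refine ⟨hb.1, ?_⟩
    conv_rhs => rw [← Finset.insert_erase hb.1, ps_insert, sup_eq_left.2 h]
  have hd : Disjoint B (rem A) := Finset.sdiff_disjoint
  have hcard : B.card + (rem A).card = A.card := by
    have := Finset.card_sdiff_add_card_eq_card hR
    exact this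
  have key : ∀ I ⊆ rem A, B.card + rk (ps I) ≤ rk (ps A) := by
    intro I hI
    rw [← rk_bridges A I (hI.trans hR) B hB (Finset.disjoint_of_subset_right hI hd) hbr]
    exact rk_ps_mono (Finset.union_subset hB (hI.trans hR))
  have hR2 : 1 < (rem A).card := by
    by_contra hcon
    push Not at hcon
    rcases Nat.lt_or_ge 0 (rem A).card with h1 | h1
    · have h2 : (rem A).card = 1 := by omega
      obtain ⟨f, hf⟩ := Finset.card_eq_one.1 h2
      have h3 := key {f} (by rw [hf])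
      have hfA : f ∈ A := hR (by rw [hf]; exact Finset.mem_singleton_self f)
      have h4 : ¬ pr f ≤ (⊥ : Setoid V) := by
        have h5 := hA f hfA
        induction f with | _ a b =>
        rw [pr_le_iff]
        intro h6
        exact h5 (by simpa using h6)
      have h5 : rk (ps {f}) = 1 := by
        have h6 : ps ({f} : Finset (Sym2 V)) = ⊥ ⊔ pr f := by
          rw [← ps_empty, ← ps_insert]; rfl
        rw [h6, rk_sup _ _ h4, rk_bot]
      omega
    · have h3 := key ∅ (Finset.empty_subset _)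
      omega
  obtain ⟨f, hf, g, hg, hfg⟩ := Finset.one_lt_card.1 hR2
  have h3 := key {f, g} (by
    intro x hx
    rcases Finset.mem_insert.1 hx with h4 | h4
    · rw [h4]; exact hf
    · rw [Finset.mem_singleton.1 h4]; exact hg)
  rw [rk_two (hA f (hR hf)) (hA g (hR hg)) hfg] at h3
  constructor
  · omega
  · omega

open Classical in
/-- the sets of size `rank + ν` spanning the same flat as `A0` -/
noncomputable def cls (F A0 : Finset (Sym2 V)) (ν : ℕ) : Finset (Finset (Sym2 V)) :=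
  F.powerset.filter (fun A => ps A = ps A0 ∧ A.card = rk (ps A0) + ν)

theorem mem_cls (F A0 : Finset (Sym2 V)) (ν : ℕ) (A : Finset (Sym2 V)) :
    A ∈ cls F A0 ν ↔ A ⊆ F ∧ ps A = ps A0 ∧ A.card = rk (ps A0) + ν := by
  classical
  rw [cls, Finset.mem_filter, Finset.mem_powerset]

/-- double counting -/
theorem cls_step (F A0 : Finset (Sym2 V)) (hF : ∀ e ∈ F, ¬ e.IsDiag) (e : Sym2 V)
    (he : e ∈ F) (hne : ¬ pr e ≤ ps A0) (i : ℕ) :
    (cls F A0 (i + 1)).card * (i + 3) ≤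
      (cls F A0 i).card * (F.card - (rk (ps A0) + (i + 1))) := by
  classical
  set S := (cls F A0 (i + 1)).sigma (fun A => rem A) with hS
  set T' := (cls F A0 i).sigma (fun A => (F \ A).erase e) with hT
  have h1 : (cls F A0 (i + 1)).card * (i + 3) ≤ S.card := by
    rw [hS, Finset.card_sigma, ← smul_eq_mul, ← Finset.sum_const]
    refine Finset.sum_le_sum fun A hA => ?_
    rw [mem_cls] at hA
    have := (rem_card A (fun f hf => hF f (hA.1 hf)) (i + 1) (by omega)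
      (by rw [hA.2.1, hA.2.2])).2
    omega
  have h2 : T'.card = (cls F A0 i).card * (F.card - (rk (ps A0) + (i + 1))) := by
    rw [hT, Finset.card_sigma, ← smul_eq_mul, ← Finset.sum_const]
    refine Finset.sum_congr rfl fun A hA => ?_
    rw [mem_cls] at hA
    have heA : e ∉ A := fun h => hne (hA.2.1 ▸ pr_le_ps h)
    rw [Finset.card_erase_of_mem (Finset.mem_sdiff.2 ⟨he, heA⟩),
      Finset.card_sdiff_of_subset hA.1, hA.2.2]
    omega
  rw [← h2]
  refine h1.trans ?_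
  refine Finset.card_le_card_of_injOn (fun p => ⟨p.1.erase p.2, p.2⟩) ?_ ?_
  · rintro ⟨A, f⟩ hp
    rw [Finset.mem_coe, hS, Finset.mem_sigma, mem_cls] at hp
    obtain ⟨⟨hAF, hps, hc⟩, hf⟩ := hp
    simp only at hAF hps hc hf
    rw [rem, Finset.mem_filter] at hf
    rw [Finset.mem_coe, hT, Finset.mem_sigma, mem_cls]
    simp only
    have heA : e ∉ A := fun h => hne (hps ▸ pr_le_ps h)
    refine ⟨⟨(Finset.erase_subset _ _).trans hAF, hf.2.trans hps, ?_⟩, ?_⟩
    · rw [Finset.card_erase_of_mem hf.1, hc]; omega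
    · rw [Finset.mem_erase, Finset.mem_sdiff]
      exact ⟨fun h => heA (h ▸ hf.1), hAF hf.1, Finset.notMem_erase _ _⟩
  · rintro ⟨A, f⟩ hp ⟨A', f'⟩ hp' heq
    rw [Finset.mem_coe, hS, Finset.mem_sigma] at hp hp'
    simp only at hp hp'
    simp only [Sigma.mk.injEq, heq_eq_eq] at heq
    obtain ⟨h3, h4⟩ := heq
    subst h4
    have h5 : A = A' := by
      rw [← Finset.insert_erase (Finset.mem_filter.1 hp.2).1, h3,
        Finset.insert_erase (Finset.mem_filter.1 hp'.2).1]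
    rw [h5]

/-- the coefficients -/
noncomputable def cw (F A0 : Finset (Sym2 V)) (ν : ℕ) : ℝ :=
  ∑ _A ∈ cls F A0 ν, 1 / ((F.card.choose (rk (ps A0) + ν) : ℝ) *
    ((F.card : ℝ) - ((rk (ps A0) + ν : ℕ) : ℝ)))

/-- partial sums -/
noncomputable def cG (F A0 : Finset (Sym2 V)) (i : ℕ) : ℝ := ∑ ν ∈ range i, cw F A0 ν

/-- the weights -/
noncomputable def cW (F A0 : Finset (Sym2 V)) (i : ℕ) : ℝ :=
  (F.card.choose (rk (ps A0) + i) : ℝ) * cG F A0 i

theorem cls_card_lt (F A0 : Finset (Sym2 V)) (e : Sym2 V)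
    (he : e ∈ F) (hne : ¬ pr e ≤ ps A0) (ν : ℕ) (A : Finset (Sym2 V)) (hA : A ∈ cls F A0 ν) :
    rk (ps A0) + ν < F.card := by
  classical
  rw [mem_cls] at hA
  have heA : e ∉ A := fun h => hne (hA.2.1 ▸ pr_le_ps h)
  rw [← hA.2.2]
  exact Finset.card_lt_card ⟨hA.1, fun h => heA (h he)⟩

theorem cw_nonneg (F A0 : Finset (Sym2 V)) (e : Sym2 V)
    (he : e ∈ F) (hne : ¬ pr e ≤ ps A0) (ν : ℕ) : 0 ≤ cw F A0 ν := by
  refine Finset.sum_nonneg fun A hA => ?_
  have h1 := cls_card_lt F A0 e he hne ν A hA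
  have h2 : ((rk (ps A0) + ν : ℕ) : ℝ) < (F.card : ℝ) := by exact_mod_cast h1
  have h3 : (0 : ℝ) ≤ (F.card.choose (rk (ps A0) + ν) : ℝ) := Nat.cast_nonneg _
  have h4 : (0 : ℝ) ≤ (F.card : ℝ) - ((rk (ps A0) + ν : ℕ) : ℝ) := by linarith
  positivity

theorem choose_rec (n k : ℕ) (h : k ≤ n) :
    (n.choose (k + 1) : ℝ) * ((k : ℝ) + 1) = (n.choose k : ℝ) * ((n : ℝ) - k) := by
  have h1 := Nat.choose_succ_right_eq n k
  have h2 : ((n - k : ℕ) : ℝ) = (n : ℝ) - k := by push_cast [h]; ring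
  rw [← h2]
  exact_mod_cast h1

/-- the ratio of consecutive coefficients -/
theorem cw_step (F A0 : Finset (Sym2 V)) (hF : ∀ e ∈ F, ¬ e.IsDiag) (e : Sym2 V)
    (he : e ∈ F) (hne : ¬ pr e ≤ ps A0) (i : ℕ) :
    cw F A0 (i + 1) * ((i : ℝ) + 3) ≤ cw F A0 i * ((rk (ps A0) : ℝ) + i + 1) := by
  classical
  set l := rk (ps A0) with hl
  set δ := F.card with hδ
  have h0 := cls_step F A0 hF e he hne i
  rw [← hl, ← hδ] at h0
  rcases Finset.eq_empty_or_nonempty (cls F A0 (i + 1)) with hem | ⟨A, hA⟩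
  · have h1 : cw F A0 (i + 1) = 0 := by rw [cw, hem, Finset.sum_empty]
    rw [h1, zero_mul]
    have := cw_nonneg F A0 e he hne i
    positivity
  · have hlt := cls_card_lt F A0 e he hne (i + 1) A hA
    rw [← hl, ← hδ] at hlt
    have hC : ((δ.choose (l + (i + 1)) : ℕ) : ℝ) * (((l + i : ℕ) : ℝ) + 1) =
        (δ.choose (l + i) : ℝ) * ((δ : ℝ) - ((l + i : ℕ) : ℝ)) :=
      choose_rec δ (l + i) (by omega)
    have hp1 : (0 : ℝ) < (δ.choose (l + (i + 1)) : ℝ) := by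
      exact_mod_cast Nat.choose_pos (by omega)
    have hp2 : (0 : ℝ) < (δ.choose (l + i) : ℝ) := by
      exact_mod_cast Nat.choose_pos (by omega)
    have hp3 : (0 : ℝ) < (δ : ℝ) - ((l + (i + 1) : ℕ) : ℝ) := by
      have : ((l + (i + 1) : ℕ) : ℝ) < (δ : ℝ) := by exact_mod_cast hlt
      linarith
    have hp4 : (0 : ℝ) < (δ : ℝ) - ((l + i : ℕ) : ℝ) := by
      have : ((l + i : ℕ) : ℝ) < (δ : ℝ) := by exact_mod_cast (by omega : l + i < δ)
      linarith
    have hs : (((cls F A0 (i + 1)).card : ℕ) : ℝ) * ((i : ℝ) + 3) ≤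
        ((cls F A0 i).card : ℝ) * ((δ : ℝ) - ((l + (i + 1) : ℕ) : ℝ)) := by
      have h2 : ((δ - (l + (i + 1)) : ℕ) : ℝ) = (δ : ℝ) - ((l + (i + 1) : ℕ) : ℝ) := by
        rw [Nat.cast_sub hlt.le]
      rw [← h2]
      exact_mod_cast h0
    rw [cw, cw, Finset.sum_const, Finset.sum_const, nsmul_eq_mul, nsmul_eq_mul, ← hl, ← hδ]
    have e1 : ((cls F A0 (i + 1)).card : ℝ) *
        (1 / (((δ.choose (l + (i + 1)) : ℕ) : ℝ) * ((δ : ℝ) - ((l + (i + 1) : ℕ) : ℝ)))) *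
          ((i : ℝ) + 3) =
        (((cls F A0 (i + 1)).card : ℝ) * ((i : ℝ) + 3)) /
          (((δ.choose (l + (i + 1)) : ℕ) : ℝ) * ((δ : ℝ) - ((l + (i + 1) : ℕ) : ℝ))) := by
      ring
    have e2 : ((cls F A0 i).card : ℝ) *
        (1 / (((δ.choose (l + i) : ℕ) : ℝ) * ((δ : ℝ) - ((l + i : ℕ) : ℝ)))) *
          ((l : ℝ) + i + 1) =
        ((cls F A0 i).card : ℝ) / ((δ.choose (l + (i + 1)) : ℕ) : ℝ) := by
      rw [← hC]
      have : ((l : ℝ) + i + 1) = (((l + i : ℕ) : ℝ) + 1) := by push_cast; ring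
      rw [this]
      have hq : (0 : ℝ) < (((l + i : ℕ) : ℝ) + 1) := by positivity
      field_simp
    rw [e1, e2, div_le_div_iff₀ (by positivity) hp1]
    calc ((cls F A0 (i + 1)).card : ℝ) * ((i : ℝ) + 3) * ((δ.choose (l + (i + 1)) : ℕ) : ℝ)
        ≤ (((cls F A0 i).card : ℝ) * ((δ : ℝ) - ((l + (i + 1) : ℕ) : ℝ))) *
          ((δ.choose (l + (i + 1)) : ℕ) : ℝ) := mul_le_mul_of_nonneg_right hs hp1.le
      _ = _ := by ring

theorem cw_bound (F A0 : Finset (Sym2 V)) (hF : ∀ e ∈ F, ¬ e.IsDiag) (e : Sym2 V)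
    (he : e ∈ F) (hne : ¬ pr e ≤ ps A0) (i : ℕ) :
    cw F A0 (i + 1) * ((i : ℝ) + 2) ≤ (rk (ps A0) : ℝ) * cG F A0 (i + 1) := by
  classical
  induction i with
  | zero =>
    rcases Finset.eq_empty_or_nonempty (cls F A0 (0 + 1)) with hem | ⟨A, hA⟩
    · have h1 : cw F A0 (0 + 1) = 0 := by rw [cw, hem, Finset.sum_empty]
      rw [h1, zero_mul, cG]
      exact mul_nonneg (Nat.cast_nonneg _)
        (Finset.sum_nonneg fun ν _ => cw_nonneg F A0 e he hne ν)
    · rw [mem_cls] at hA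
      have h2 := (rem_card A (fun f hf => hF f (hA.1 hf)) 1 le_rfl
        (by rw [hA.2.1, hA.2.2])).1
      rw [hA.2.1] at h2
      have h3 := cw_step F A0 hF e he hne 0
      have h4 := cw_nonneg F A0 e he hne 0
      have h5 : (2 : ℝ) ≤ (rk (ps A0) : ℝ) := by exact_mod_cast h2
      rw [cG, Finset.sum_range_one]
      push_cast at h3 ⊢
      nlinarith
  | succ i ih =>
    have h3 := cw_step F A0 hF e he hne (i + 1)
    have h4 := cw_nonneg F A0 e he hne (i + 1)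
    have h5 := cw_nonneg F A0 e he hne (i + 2)
    have h6 : cG F A0 (i + 1 + 1) = cG F A0 (i + 1) + cw F A0 (i + 1) := by
      rw [cG, Finset.sum_range_succ]; rfl
    rw [h6, mul_add]
    push_cast at h3 ih ⊢
    have h7 : (0 : ℝ) ≤ (rk (ps A0) : ℝ) := Nat.cast_nonneg _
    have h8 : (0 : ℝ) ≤ (i : ℝ) := Nat.cast_nonneg _
    nlinarith

/-- the main statement -/
theorem tele_mono (F : Finset (Sym2 V)) (hF : ∀ e ∈ F, ¬ e.IsDiag) (A0 : Finset (Sym2 V))
    (e : Sym2 V) (he : e ∈ F) (hne : ¬ pr e ≤ ps A0) (i : ℕ) (hi : 1 ≤ i) :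
    cW F A0 (i + 1) * (F.card.choose i : ℝ) ≤ cW F A0 i * (F.card.choose (i + 1) : ℝ) := by
  classical
  obtain ⟨i, rfl⟩ : ∃ j, i = j + 1 := ⟨i - 1, by omega⟩
  have hb := cw_bound F A0 hF e he hne i
  have hG : 0 ≤ cG F A0 (i + 1) := Finset.sum_nonneg fun ν _ => cw_nonneg F A0 e he hne ν
  have h6 : cG F A0 (i + 1 + 1) = cG F A0 (i + 1) + cw F A0 (i + 1) := by
    rw [cG, Finset.sum_range_succ]; rfl
  set l := rk (ps A0) with hl
  set δ := F.card with hδ
  rcases Nat.lt_or_ge δ (l + (i + 1)) with hlt | hge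
  · have h1 : δ.choose (l + (i + 1 + 1)) = 0 := Nat.choose_eq_zero_of_lt (by omega)
    rw [cW, ← hl, ← hδ, h1, cW, ← hl, ← hδ]
    rw [Nat.cast_zero, zero_mul, zero_mul]
    positivity
  · have hC : ((δ.choose (l + (i + 1 + 1)) : ℕ) : ℝ) * (((l + (i + 1) : ℕ) : ℝ) + 1) =
        (δ.choose (l + (i + 1)) : ℝ) * ((δ : ℝ) - ((l + (i + 1) : ℕ) : ℝ)) :=
      choose_rec δ (l + (i + 1)) hge
    have hD : ((δ.choose (i + 1 + 1) : ℕ) : ℝ) * (((i + 1 : ℕ) : ℝ) + 1) =
        (δ.choose (i + 1) : ℝ) * ((δ : ℝ) - ((i + 1 : ℕ) : ℝ)) :=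
      choose_rec δ (i + 1) (by omega)
    have hx : (0 : ℝ) ≤ (δ : ℝ) - ((l + (i + 1) : ℕ) : ℝ) := by
      have : ((l + (i + 1) : ℕ) : ℝ) ≤ (δ : ℝ) := by exact_mod_cast hge
      linarith
    have hC2 : ((δ.choose (l + (i + 1 + 1)) : ℕ) : ℝ) =
        (δ.choose (l + (i + 1)) : ℝ) * ((δ : ℝ) - ((l + (i + 1) : ℕ) : ℝ)) /
          (((l + (i + 1) : ℕ) : ℝ) + 1) := by
      rw [← hC]; field_simp
    have hD2 : ((δ.choose (i + 1 + 1) : ℕ) : ℝ) =
        (δ.choose (i + 1) : ℝ) * ((δ : ℝ) - ((i + 1 : ℕ) : ℝ)) /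
          (((i + 1 : ℕ) : ℝ) + 1) := by
      rw [← hD]; field_simp
    rw [cW, cW, ← hl, ← hδ, hC2, hD2, h6]
    set g := cG F A0 (i + 1) with hg
    set c := cw F A0 (i + 1) with hc
    have hkey : (g + c) / (((l + (i + 1) : ℕ) : ℝ) + 1) ≤ g / (((i + 1 : ℕ) : ℝ) + 1) := by
      rw [div_le_div_iff₀ (by positivity) (by positivity)]
      push_cast
      nlinarith
    have h9 : (δ : ℝ) - ((l + (i + 1) : ℕ) : ℝ) ≤ (δ : ℝ) - ((i + 1 : ℕ) : ℝ) := by
      push_cast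
      have : (0 : ℝ) ≤ (l : ℝ) := Nat.cast_nonneg _
      linarith
    have hP : (0 : ℝ) ≤ (δ.choose (l + (i + 1)) : ℝ) * (δ.choose (i + 1) : ℝ) := by positivity
    have hQ : 0 ≤ g / (((i + 1 : ℕ) : ℝ) + 1) := by positivity
    calc (δ.choose (l + (i + 1)) : ℝ) * ((δ : ℝ) - ((l + (i + 1) : ℕ) : ℝ)) /
          (((l + (i + 1) : ℕ) : ℝ) + 1) * (g + c) * (δ.choose (i + 1) : ℝ)
        = ((δ.choose (l + (i + 1)) : ℝ) * (δ.choose (i + 1) : ℝ)) *
          (((δ : ℝ) - ((l + (i + 1) : ℕ) : ℝ)) *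
            ((g + c) / (((l + (i + 1) : ℕ) : ℝ) + 1))) := by ring
      _ ≤ ((δ.choose (l + (i + 1)) : ℝ) * (δ.choose (i + 1) : ℝ)) *
          (((δ : ℝ) - ((i + 1 : ℕ) : ℝ)) * (g / (((i + 1 : ℕ) : ℝ) + 1))) := by
          refine mul_le_mul_of_nonneg_left ?_ hP
          calc ((δ : ℝ) - ((l + (i + 1) : ℕ) : ℝ)) * ((g + c) / (((l + (i + 1) : ℕ) : ℝ) + 1))
              ≤ ((δ : ℝ) - ((l + (i + 1) : ℕ) : ℝ)) * (g / (((i + 1 : ℕ) : ℝ) + 1)) :=
                mul_le_mul_of_nonneg_left hkey hx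
            _ ≤ _ := mul_le_mul_of_nonneg_right h9 hQ
      _ = _ := by ring

theorem tele_one (F : Finset (Sym2 V)) (A0 : Finset (Sym2 V)) (hA0 : A0 ⊆ F)
    (e : Sym2 V) (he : e ∈ F) (hne : ¬ pr e ≤ ps A0) :
    cW F A0 1 = ((cls F A0 0).card : ℝ) / ((rk (ps A0) : ℝ) + 1) := by
  classical
  have heA : e ∉ A0 := fun h => hne (pr_le_ps h)
  have h1 : A0.card < F.card := Finset.card_lt_card ⟨hA0, fun h => heA (h he)⟩
  have h2 := rk_ps_le A0
  set l := rk (ps A0) with hl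
  set δ := F.card with hδ
  have hC : ((δ.choose (l + 1) : ℕ) : ℝ) * ((l : ℝ) + 1) =
      (δ.choose l : ℝ) * ((δ : ℝ) - (l : ℝ)) := choose_rec δ l (by omega)
  have hp2 : (0 : ℝ) < (δ.choose l : ℝ) := by
    exact_mod_cast Nat.choose_pos (by omega)
  have hp4 : (0 : ℝ) < (δ : ℝ) - (l : ℝ) := by
    have : (l : ℝ) < (δ : ℝ) := by exact_mod_cast (by omega : l < δ)
    linarith
  have hC2 : ((δ.choose (l + 1) : ℕ) : ℝ) =
      (δ.choose l : ℝ) * ((δ : ℝ) - (l : ℝ)) / ((l : ℝ) + 1) := by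
    rw [← hC]; field_simp
  rw [cW, cG, Finset.sum_range_one, cw, Finset.sum_const, nsmul_eq_mul, ← hl, ← hδ, hC2]
  simp only [add_zero]
  field_simp

end

end Pool.Agent.Y373.HV
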