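import Mathlib
import Pool.Agent.Y373.HV.Def
import Pool.Agent.Y373.HV.Core
import Pool.Agent.Y373.HV.TeleM

set_option autoImplicit false

/-! First stage of the telescoping argument. -/

namespace Pool.Agent.Y373.HV

open Polynomial Finset

section
variable {V : Type} [Fintype V] [DecidableEq V]

/-- double counting of pairs -/
theorem sum_insert_card (F : Finset (Sym2 V)) (j : ℕ) (h : Finset (Sym2 V) → ℝ[X]) :
    ∑ A ∈ powersetCard j F, ∑ e ∈ F \ A, h (insert e A) =
      ((j : ℝ[X]) + 1) * ∑ A ∈ powersetCard (j + 1) F, h A := by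
  classical
  have h1 : ∑ A ∈ powersetCard (j + 1) F, ∑ _e ∈ A, h A =
      ((j : ℝ[X]) + 1) * ∑ A ∈ powersetCard (j + 1) F, h A := by
    rw [Finset.mul_sum]
    refine Finset.sum_congr rfl fun A hA => ?_
    rw [Finset.sum_const, (Finset.mem_powersetCard.1 hA).2, nsmul_eq_mul]
    push_cast
    ring
  rw [← h1, Finset.sum_sigma', Finset.sum_sigma']
  refine Finset.sum_bij' (fun p _ => ⟨insert p.2 p.1, p.2⟩) (fun p _ => ⟨p.1.erase p.2, p.2⟩)
    ?_ ?_ ?_ ?_ ?_
  · rintro ⟨A, e⟩ hp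
    simp only [Finset.mem_sigma, Finset.mem_powersetCard, Finset.mem_sdiff] at hp ⊢
    refine ⟨⟨Finset.insert_subset hp.2.1 hp.1.1, ?_⟩, Finset.mem_insert_self _ _⟩
    rw [Finset.card_insert_of_notMem hp.2.2, hp.1.2]
  · rintro ⟨A, e⟩ hp
    simp only [Finset.mem_sigma, Finset.mem_powersetCard, Finset.mem_sdiff] at hp ⊢
    refine ⟨⟨(Finset.erase_subset _ _).trans hp.1.1, ?_⟩, hp.1.1 hp.2,
      Finset.notMem_erase _ _⟩
    rw [Finset.card_erase_of_mem hp.2, hp.1.2]; rfl
  · rintro ⟨A, e⟩ hp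
    simp only [Finset.mem_sigma, Finset.mem_sdiff] at hp
    simp only [Finset.erase_insert hp.2.2]
  · rintro ⟨A, e⟩ hp
    simp only [Finset.mem_sigma] at hp
    simp only [Finset.insert_erase hp.2]
  · rintro ⟨A, e⟩ hp
    rfl

/-- one step for fixed `k` -/
theorem step_jk (F : Finset (Sym2 V)) (g : Finset (Sym2 V) → ℝ[X]) (j : ℕ) (hj : j < F.card)
    (c : ℝ) :
    (∑ A ∈ powersetCard (j + 1) F, C (c / (F.card.choose (j + 1) : ℝ)) * g A) -
      ∑ A ∈ powersetCard j F, C (c / (F.card.choose j : ℝ)) * g A =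
    ∑ A ∈ powersetCard j F, ∑ e ∈ F \ A,
      C (c / ((F.card.choose j : ℝ) * ((F.card : ℝ) - (j : ℝ)))) * (g (insert e A) - g A) := by
  classical
  set δ := F.card with hδ
  have hC : ((δ.choose (j + 1) : ℕ) : ℝ) * ((j : ℝ) + 1) =
      (δ.choose j : ℝ) * ((δ : ℝ) - (j : ℝ)) := choose_rec δ j hj.le
  have hp1 : (0 : ℝ) < (δ.choose (j + 1) : ℝ) := by
    exact_mod_cast Nat.choose_pos (by omega)
  have hp2 : (0 : ℝ) < (δ.choose j : ℝ) := by
    exact_mod_cast Nat.choose_pos (by omega)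
  have hp3 : (0 : ℝ) < (δ : ℝ) - (j : ℝ) := by
    have : (j : ℝ) < (δ : ℝ) := by exact_mod_cast hj
    linarith
  have e1 : ∀ A ∈ powersetCard j F, ∑ e ∈ F \ A,
      C (c / ((δ.choose j : ℝ) * ((δ : ℝ) - (j : ℝ)))) * (g (insert e A) - g A) =
      C (c / ((δ.choose j : ℝ) * ((δ : ℝ) - (j : ℝ)))) * (∑ e ∈ F \ A, g (insert e A)) -
        C (c / (δ.choose j : ℝ)) * g A := by
    intro A hA
    rw [Finset.mem_powersetCard] at hA
    rw [← Finset.mul_sum, Finset.sum_sub_distrib, mul_sub, Finset.sum_const,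
      Finset.card_sdiff_of_subset hA.1, hA.2, ← hδ, nsmul_eq_mul, ← mul_assoc]
    congr 2
    have h1 : ((δ - j : ℕ) : ℝ[X]) = C (((δ - j : ℕ) : ℝ)) := by simp
    rw [h1, ← C_mul, Nat.cast_sub hj.le]
    congr 1
    field_simp
  rw [Finset.sum_congr rfl e1, Finset.sum_sub_distrib]
  congr 1
  rw [← Finset.mul_sum, ← Finset.mul_sum, sum_insert_card, ← mul_assoc]
  congr 1
  have h2 : ((j : ℝ[X]) + 1) = C ((j : ℝ) + 1) := by simp
  rw [h2, ← C_mul, ← hC]
  congr 1
  field_simp

/-- telescoping for fixed `k` -/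
theorem tel_k (F : Finset (Sym2 V)) (g : Finset (Sym2 V) → ℝ[X]) (k : ℕ) (hk : k ≤ F.card) :
    ∑ A ∈ powersetCard k F, g A = C (F.card.choose k : ℝ) * g ∅ +
      ∑ j ∈ range k, ∑ A ∈ powersetCard j F, ∑ e ∈ F \ A,
        C ((F.card.choose k : ℝ) / ((F.card.choose j : ℝ) * ((F.card : ℝ) - (j : ℝ)))) *
          (g (insert e A) - g A) := by
  classical
  set c : ℝ := (F.card.choose k : ℝ) with hc
  have h1 : ∑ j ∈ range k, ∑ A ∈ powersetCard j F, ∑ e ∈ F \ A,
        C (c / ((F.card.choose j : ℝ) * ((F.card : ℝ) - (j : ℝ)))) *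
          (g (insert e A) - g A) =
      ∑ j ∈ range k, ((∑ A ∈ powersetCard (j + 1) F, C (c / (F.card.choose (j + 1) : ℝ)) * g A) -
        ∑ A ∈ powersetCard j F, C (c / (F.card.choose j : ℝ)) * g A) := by
    refine Finset.sum_congr rfl fun j hj => ?_
    rw [step_jk F g j ((Finset.mem_range.1 hj).trans_le hk) c]
  rw [h1, Finset.sum_range_sub
    (fun j => ∑ A ∈ powersetCard j F, C (c / (F.card.choose j : ℝ)) * g A) k]
  have hpos : (F.card.choose k : ℝ) ≠ 0 := by
    have : 0 < F.card.choose k := Nat.choose_pos hk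
    exact_mod_cast this.ne'
  have h2 : c / (F.card.choose k : ℝ) = 1 := div_self hpos
  rw [h2]
  simp

/-- sums over small subsets -/
theorem sum_small (F : Finset (Sym2 V)) (f : Finset (Sym2 V) → ℝ[X]) (k : ℕ)
    (hk : k ≤ F.card) :
    ∑ j ∈ range k, ∑ A ∈ powersetCard j F, f A =
      ∑ A ∈ F.powerset, if A.card < k then f A else 0 := by
  classical
  rw [Finset.sum_powerset]
  have h1 : ∀ j ∈ range (F.card + 1), ∑ A ∈ powersetCard j F, (if A.card < k then f A else 0) =
      if j < k then ∑ A ∈ powersetCard j F, f A else 0 := by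
    intro j _
    split_ifs with h
    · refine Finset.sum_congr rfl fun A hA => ?_
      rw [(Finset.mem_powersetCard.1 hA).2, if_pos h]
    · refine Finset.sum_eq_zero fun A hA => ?_
      rw [(Finset.mem_powersetCard.1 hA).2, if_neg h]
  rw [Finset.sum_congr rfl h1, ← Finset.sum_filter]
  congr 1
  ext j
  simp only [Finset.mem_filter, Finset.mem_range]
  omega

variable (τ : Setoid V → ℕ → ℝ[X])

/-- the increment -/
noncomputable def EE (π : Setoid V) (e : Sym2 V) (i : ℕ) : ℝ[X] :=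
  τ (π ⊔ pr e) i - τ π (i + 1)

open Classical in
/-- the total increment at `A` -/
noncomputable def Phi (F A : Finset (Sym2 V)) : ℝ[X] :=
  ∑ e ∈ F.filter (fun e => ¬ pr e ≤ ps A), ∑ i ∈ Icc 1 F.card,
    if A.card < rk (ps A) + i then
      C ((F.card.choose (rk (ps A) + i) : ℝ) *
        (1 / ((F.card.choose A.card : ℝ) * ((F.card : ℝ) - (A.card : ℝ))))) * EE τ (ps A) e i
    else 0

theorem phi_eq (F A : Finset (Sym2 V)) (hA : A ⊆ F) :
    (∑ k ∈ range (F.card + 1), if A.card < k then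
      ∑ e ∈ F \ A, C ((F.card.choose k : ℝ) /
        ((F.card.choose A.card : ℝ) * ((F.card : ℝ) - (A.card : ℝ)))) *
          (τ (ps (insert e A)) (1 + k - rk (ps (insert e A))) -
            τ (ps A) (1 + k - rk (ps A))) else 0) = Phi τ F A := by
  classical
  set l := rk (ps A) with hl
  set δ := F.card with hδ
  have hlA : l ≤ A.card := rk_ps_le A
  have hAδ : A.card ≤ δ := Finset.card_le_card hA
  set w : ℝ := 1 / ((δ.choose A.card : ℝ) * ((δ : ℝ) - (A.card : ℝ))) with hw
  -- inner sums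
  have h1 : ∀ k ∈ range (δ + 1), (if A.card < k then
      ∑ e ∈ F \ A, C ((δ.choose k : ℝ) /
        ((δ.choose A.card : ℝ) * ((δ : ℝ) - (A.card : ℝ)))) *
          (τ (ps (insert e A)) (1 + k - rk (ps (insert e A))) -
            τ (ps A) (1 + k - l)) else 0) =
      ∑ e ∈ F.filter (fun e => ¬ pr e ≤ ps A), if A.card < k then
        C ((δ.choose k : ℝ) * w) * EE τ (ps A) e (k - l) else 0 := by
    intro k _
    split_ifs with hk
    · have hs : F.filter (fun e => ¬ pr e ≤ ps A) ⊆ F \ A := by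
        intro e he
        rw [Finset.mem_filter] at he
        rw [Finset.mem_sdiff]
        exact ⟨he.1, fun h => he.2 (pr_le_ps h)⟩
      rw [← Finset.sum_subset hs]
      · refine Finset.sum_congr rfl fun e he => ?_
        rw [Finset.mem_filter] at he
        rw [ps_insert, rk_sup _ _ he.2, ← hl, EE]
        have e1 : 1 + k - (l + 1) = k - l := by omega
        have e2 : 1 + k - l = k - l + 1 := by omega
        rw [e1, e2, hw]
        congr 2
        ring
      · intro e he he2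
        rw [Finset.mem_filter, not_and, not_not] at he2
        have h3 := he2 (Finset.mem_sdiff.1 he).1
        rw [ps_insert, sup_eq_left.2 h3, ← hl, sub_self, mul_zero]
    · simp
  rw [Finset.sum_congr rfl h1, Finset.sum_comm, Phi, ← hl, ← hδ]
  refine Finset.sum_congr rfl fun e _ => ?_
  rw [← Finset.sum_filter]
  have h2 : ∑ i ∈ Icc 1 δ, (if A.card < l + i then
      C ((δ.choose (l + i) : ℝ) * w) * EE τ (ps A) e i else 0) =
      ∑ i ∈ (Icc 1 δ).filter (fun i => A.card < l + i ∧ l + i ≤ δ),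
        C ((δ.choose (l + i) : ℝ) * w) * EE τ (ps A) e i := by
    rw [Finset.sum_filter]
    refine Finset.sum_congr rfl fun i _ => ?_
    by_cases ha : A.card < l + i
    · by_cases hb : l + i ≤ δ
      · rw [if_pos ha, if_pos ⟨ha, hb⟩]
      · rw [if_pos ha, if_neg (fun h => hb h.2), Nat.choose_eq_zero_of_lt (by omega)]
        simp
    · rw [if_neg ha, if_neg (fun h => ha h.1)]
  rw [h2]
  refine Finset.sum_bij' (fun k _ => k - l) (fun i _ => l + i) ?_ ?_ ?_ ?_ ?_
  · intro k hk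
    rw [Finset.mem_filter, Finset.mem_range] at hk
    rw [Finset.mem_filter, Finset.mem_Icc]
    omega
  · intro i hi
    rw [Finset.mem_filter, Finset.mem_Icc] at hi
    rw [Finset.mem_filter, Finset.mem_range]
    omega
  · intro k hk
    rw [Finset.mem_filter, Finset.mem_range] at hk
    omega
  · intro i hi
    omega
  · intro k hk
    rw [Finset.mem_filter, Finset.mem_range] at hk
    have : l + (k - l) = k := by omega
    rw [this]

/-- the identity -/
theorem tele_identity (F : Finset (Sym2 V)) :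
    ∑ A ∈ F.powerset, τ (ps A) (1 + (A.card - rk (ps A))) =
      (∑ k ∈ range (F.card + 1), C ((F.card.choose k : ℕ) : ℝ) * τ ⊥ (k + 1)) +
        ∑ A ∈ F.powerset, Phi τ F A := by
  classical
  have h1 : ∑ A ∈ F.powerset, τ (ps A) (1 + (A.card - rk (ps A))) =
      ∑ k ∈ range (F.card + 1), ∑ A ∈ powersetCard k F, τ (ps A) (1 + k - rk (ps A)) := by
    rw [Finset.sum_powerset]
    refine Finset.sum_congr rfl fun k _ => Finset.sum_congr rfl fun A hA => ?_
    have h2 := (Finset.mem_powersetCard.1 hA).2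
    have h3 := rk_ps_le A
    rw [h2]
    congr 1
    omega
  have h2 : ∀ k ∈ range (F.card + 1), ∑ A ∈ powersetCard k F, τ (ps A) (1 + k - rk (ps A)) =
      C ((F.card.choose k : ℕ) : ℝ) * τ ⊥ (k + 1) +
        ∑ A ∈ F.powerset, if A.card < k then
      ∑ e ∈ F \ A, C ((F.card.choose k : ℝ) /
        ((F.card.choose A.card : ℝ) * ((F.card : ℝ) - (A.card : ℝ)))) *
          (τ (ps (insert e A)) (1 + k - rk (ps (insert e A))) -
            τ (ps A) (1 + k - rk (ps A))) else 0 := by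
    intro k hk
    have hk' : k ≤ F.card := by rw [Finset.mem_range] at hk; omega
    rw [tel_k F (fun A => τ (ps A) (1 + k - rk (ps A))) k hk', ← sum_small F _ k hk']
    congr 1
    · simp only [ps_empty, rk_bot]
      congr 2
      omega
    · refine Finset.sum_congr rfl fun j _ => Finset.sum_congr rfl fun A hA => ?_
      rw [(Finset.mem_powersetCard.1 hA).2]
  rw [h1, Finset.sum_congr rfl h2, Finset.sum_add_distrib, Finset.sum_comm]
  congr 1
  refine Finset.sum_congr rfl fun A hA => ?_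
  exact phi_eq τ F A (Finset.mem_powerset.1 hA)

open Classical in
/-- the weights as sums over the fibre -/
theorem cG_eq (F A0 : Finset (Sym2 V)) (i : ℕ) :
    cG F A0 i = ∑ A ∈ F.powerset.filter (fun A => ps A = ps A0),
      if A.card < rk (ps A0) + i then
        1 / ((F.card.choose A.card : ℝ) * ((F.card : ℝ) - (A.card : ℝ))) else 0 := by
  classical
  have h1 : ∀ ν ∈ range i, cw F A0 ν =
      ∑ A ∈ F.powerset.filter (fun A => ps A = ps A0), if A.card = rk (ps A0) + ν then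
        1 / ((F.card.choose A.card : ℝ) * ((F.card : ℝ) - (A.card : ℝ))) else 0 := by
    intro ν _
    rw [← Finset.sum_filter, Finset.filter_filter, cw]
    refine Finset.sum_congr ?_ ?_
    · ext A
      simp [cls]
    · intro A hA
      rw [Finset.mem_filter] at hA
      rw [hA.2.2]
  rw [cG, Finset.sum_congr rfl h1, Finset.sum_comm]
  refine Finset.sum_congr rfl fun A hA => ?_
  rw [Finset.mem_filter] at hA
  have hl : rk (ps A0) ≤ A.card := by
    rw [← hA.2]; exact rk_ps_le A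
  split_ifs with h
  · rw [Finset.sum_eq_single (A.card - rk (ps A0))]
    · rw [if_pos (by omega)]
    · intro ν _ hν
      rw [if_neg (by omega)]
    · intro hν
      exact absurd (Finset.mem_range.2 (by omega)) hν
  · refine Finset.sum_eq_zero fun ν hν => ?_
    rw [Finset.mem_range] at hν
    rw [if_neg (by omega)]

open Classical in
/-- the fibre sum -/
theorem phi_fibre (F A0 : Finset (Sym2 V)) :
    ∑ A ∈ F.powerset.filter (fun A => ps A = ps A0), Phi τ F A =
      ∑ e ∈ F.filter (fun e => ¬ pr e ≤ ps A0), ∑ i ∈ Icc 1 F.card,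
        C (cW F A0 i) * EE τ (ps A0) e i := by
  classical
  have h1 : ∀ A ∈ F.powerset.filter (fun A => ps A = ps A0), Phi τ F A =
      ∑ e ∈ F.filter (fun e => ¬ pr e ≤ ps A0), ∑ i ∈ Icc 1 F.card,
        C ((F.card.choose (rk (ps A0) + i) : ℝ) * (if A.card < rk (ps A0) + i then
        1 / ((F.card.choose A.card : ℝ) * ((F.card : ℝ) - (A.card : ℝ))) else 0)) *
          EE τ (ps A0) e i := by
    intro A hA
    rw [Finset.mem_filter] at hA
    rw [Phi, hA.2]
    refine Finset.sum_congr rfl fun e _ => Finset.sum_congr rfl fun i _ => ?_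
    split_ifs with h
    · rfl
    · simp
  rw [Finset.sum_congr rfl h1, Finset.sum_comm]
  refine Finset.sum_congr rfl fun e _ => ?_
  rw [Finset.sum_comm]
  refine Finset.sum_congr rfl fun i _ => ?_
  rw [← Finset.sum_mul, ← map_sum, ← Finset.mul_sum, ← cG_eq, cW]

/-- first stage -/
theorem tele1 (F : Finset (Sym2 V)) (hF : ∀ e ∈ F, ¬ e.IsDiag)
    (hτ : ∀ π i, 0 ≤ τ π i)
    (HE : ∀ A ⊆ F, ∀ e ∈ F, ¬ pr e ≤ ps A → ∀ v : ℕ → ℝ, (∀ i, 0 ≤ v i) →
      (∀ i j, 1 ≤ i → i ≤ j → v j ≤ v i) →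
      ∑ i ∈ Icc 1 F.card, C (v i * (F.card.choose i : ℝ)) *
        (τ (ps A ⊔ pr e) i - τ (ps A) (i + 1)) ≤
      C (2 * F.card * v 1 / (F.card + 1)) * τ (ps A) 1) :
    ∑ A ∈ F.powerset, τ (ps A) (1 + (A.card - rk (ps A))) ≤
      (∑ k ∈ range (F.card + 1), C ((F.card.choose k : ℕ) : ℝ) * τ ⊥ (k + 1)) +
      ∑ A ∈ F.powerset.filter (fun A => rk (ps A) = A.card),
        C (2 * ((F.card : ℝ) - (A.card : ℝ)) / (((F.card : ℝ) + 1) * ((A.card : ℝ) + 1))) *
          τ (ps A) 1 := by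
  classical
  rw [tele_identity]
  refine add_le_add le_rfl ?_
  rw [Finset.sum_filter,
    ← Finset.sum_fiberwise_of_maps_to (s := F.powerset) (t := F.powerset.image ps) (g := ps)
      (fun A hA => Finset.mem_image_of_mem ps hA) (f := fun A => Phi τ F A),
    ← Finset.sum_fiberwise_of_maps_to (s := F.powerset) (t := F.powerset.image ps) (g := ps)
      (fun A hA => Finset.mem_image_of_mem ps hA)
      (f := fun A => if rk (ps A) = A.card then
        C (2 * ((F.card : ℝ) - (A.card : ℝ)) / (((F.card : ℝ) + 1) * ((A.card : ℝ) + 1))) *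
          τ (ps A) 1 else 0)]
  refine Finset.sum_le_sum fun π hπ => ?_
  obtain ⟨A0, hA0, rfl⟩ := Finset.mem_image.1 hπ
  rw [Finset.mem_powerset] at hA0
  rw [phi_fibre]
  set δ := F.card with hδ
  set l := rk (ps A0) with hl
  -- the right side
  have hR : ∑ A ∈ F.powerset.filter (fun A => ps A = ps A0), (if rk (ps A) = A.card then
        C (2 * ((δ : ℝ) - (A.card : ℝ)) / (((δ : ℝ) + 1) * ((A.card : ℝ) + 1))) *
          τ (ps A) 1 else 0) =
      C (((cls F A0 0).card : ℝ) * (2 * ((δ : ℝ) - (l : ℝ)) / (((δ : ℝ) + 1) * ((l : ℝ) + 1)))) *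
        τ (ps A0) 1 := by
    rw [← Finset.sum_filter, Finset.filter_filter]
    have h1 : F.powerset.filter (fun A => ps A = ps A0 ∧ rk (ps A) = A.card) = cls F A0 0 := by
      ext A
      simp only [Finset.mem_filter, mem_cls, Finset.mem_powerset, add_zero]
      constructor
      · rintro ⟨h1, h2, h3⟩
        exact ⟨h1, h2, by rw [← h3, h2]⟩
      · rintro ⟨h1, h2, h3⟩
        exact ⟨h1, h2, by rw [h3, h2]⟩
    rw [h1]
    have h2 : ∀ A ∈ cls F A0 0,
        C (2 * ((δ : ℝ) - (A.card : ℝ)) / (((δ : ℝ) + 1) * ((A.card : ℝ) + 1))) *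
          τ (ps A) 1 = C (2 * ((δ : ℝ) - (l : ℝ)) / (((δ : ℝ) + 1) * ((l : ℝ) + 1))) *
          τ (ps A0) 1 := by
      intro A hA
      rw [mem_cls, add_zero] at hA
      rw [hA.2.1, hA.2.2]
    rw [Finset.sum_congr rfl h2, Finset.sum_const, nsmul_eq_mul, C_mul, ← mul_assoc]
    simp
  rw [hR]
  -- each `e`
  have hE : ∀ e ∈ F.filter (fun e => ¬ pr e ≤ ps A0),
      ∑ i ∈ Icc 1 δ, C (cW F A0 i) * EE τ (ps A0) e i ≤
        C (2 * ((cls F A0 0).card : ℝ) / (((δ : ℝ) + 1) * ((l : ℝ) + 1))) * τ (ps A0) 1 := by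
    intro e he
    rw [Finset.mem_filter] at he
    have hδ0 : 0 < δ := Finset.card_pos.2 ⟨e, he.1⟩
    have hG : ∀ i, 0 ≤ cG F A0 i := fun i =>
      Finset.sum_nonneg fun ν _ => cw_nonneg F A0 e he.1 he.2 ν
    have hW : ∀ i, 0 ≤ cW F A0 i := fun i => mul_nonneg (Nat.cast_nonneg _) (hG i)
    have hmono : ∀ i, 1 ≤ i → cW F A0 (i + 1) / (δ.choose (i + 1) : ℝ) ≤
        cW F A0 i / (δ.choose i : ℝ) := by
      intro i hi
      rcases Nat.lt_or_ge δ (i + 1) with h | h
      · rw [Nat.choose_eq_zero_of_lt h, Nat.cast_zero, div_zero]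
        exact div_nonneg (hW i) (Nat.cast_nonneg _)
      · have hp1 : (0 : ℝ) < (δ.choose (i + 1) : ℝ) := by
          exact_mod_cast Nat.choose_pos h
        have hp2 : (0 : ℝ) < (δ.choose i : ℝ) := by
          exact_mod_cast Nat.choose_pos (by omega)
        rw [div_le_div_iff₀ hp1 hp2]
        exact tele_mono F hF A0 e he.1 he.2 i hi
    have hanti : ∀ i j, 1 ≤ i → i ≤ j → cW F A0 j / (δ.choose j : ℝ) ≤
        cW F A0 i / (δ.choose i : ℝ) := by
      intro i j hi hij
      induction j, hij using Nat.le_induction with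
      | base => exact le_rfl
      | succ j hij ih => exact (hmono j (hi.trans hij)).trans ih
    have h1 := HE A0 hA0 e he.1 he.2 (fun i => cW F A0 i / (δ.choose i : ℝ))
      (fun i => div_nonneg (hW i) (Nat.cast_nonneg _)) hanti
    have h2 : ∑ i ∈ Icc 1 δ, C (cW F A0 i) * EE τ (ps A0) e i =
        ∑ i ∈ Icc 1 δ, C (cW F A0 i / (δ.choose i : ℝ) * (δ.choose i : ℝ)) *
          (τ (ps A0 ⊔ pr e) i - τ (ps A0) (i + 1)) := by
      refine Finset.sum_congr rfl fun i hi => ?_
      rw [Finset.mem_Icc] at hi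
      have hp2 : (δ.choose i : ℝ) ≠ 0 := by
        have : 0 < δ.choose i := Nat.choose_pos hi.2
        exact_mod_cast this.ne'
      rw [div_mul_cancel₀ _ hp2, EE]
    rw [h2]
    refine h1.trans (le_of_eq ?_)
    congr 2
    rw [tele_one F A0 hA0 e he.1 he.2, ← hl, Nat.choose_one_right]
    have hδ1 : (0 : ℝ) < (δ : ℝ) := by exact_mod_cast hδ0
    field_simp
  refine (Finset.sum_le_sum hE).trans ?_
  rw [Finset.sum_const, nsmul_eq_mul, ← mul_assoc]
  refine mul_le_mul_of_nonneg_right ?_ (hτ _ _)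
  have h3 : (((F.filter (fun e => ¬ pr e ≤ ps A0)).card : ℕ) : ℝ[X]) =
      C (((F.filter (fun e => ¬ pr e ≤ ps A0)).card : ℕ) : ℝ) := by simp
  rw [h3, ← C_mul, ← sub_nonneg, ← C_sub]
  apply C_nonneg
  rw [sub_nonneg]
  rcases Finset.eq_empty_or_nonempty (cls F A0 0) with hem | ⟨A1, hA1⟩
  · rw [hem]; simp
  · have hA1' := hA1
    rw [mem_cls, add_zero] at hA1'
    have h4 : (F.filter (fun e => ¬ pr e ≤ ps A0)).card ≤ δ - l := by
      have h5 : F.filter (fun e => ¬ pr e ≤ ps A0) ⊆ F \ A1 := by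
        intro e he
        rw [Finset.mem_filter] at he
        rw [Finset.mem_sdiff]
        exact ⟨he.1, fun h => he.2 (hA1'.2.1 ▸ pr_le_ps h)⟩
      have h6 := Finset.card_le_card h5
      rw [Finset.card_sdiff_of_subset hA1'.1, hA1'.2.2] at h6
      exact h6
    have h7 : l ≤ δ := by
      rw [hl, ← hA1'.2.2]; exact Finset.card_le_card hA1'.1
    have h8 : (((F.filter (fun e => ¬ pr e ≤ ps A0)).card : ℕ) : ℝ) ≤ (δ : ℝ) - (l : ℝ) := by
      rw [← Nat.cast_sub h7]; exact_mod_cast h4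
    have h9 : (0 : ℝ) ≤ 2 * ((cls F A0 0).card : ℝ) / (((δ : ℝ) + 1) * ((l : ℝ) + 1)) := by
      positivity
    calc (((F.filter (fun e => ¬ pr e ≤ ps A0)).card : ℕ) : ℝ) *
          (2 * ((cls F A0 0).card : ℝ) / (((δ : ℝ) + 1) * ((l : ℝ) + 1)))
        ≤ ((δ : ℝ) - (l : ℝ)) *
          (2 * ((cls F A0 0).card : ℝ) / (((δ : ℝ) + 1) * ((l : ℝ) + 1))) :=
          mul_le_mul_of_nonneg_right h8 h9
      _ = _ := by ring

end

end Pool.Agent.Y373.HV
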