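import Mathlib
import Pool.Agent.Y373.HV.Stm
import Pool.Agent.Y373.HV.Core

set_option autoImplicit false

/-! HV-TELE-2: second stage of the telescoping argument and the final iteration. -/

namespace Pool.Agent.Y373.HV.Tele2

open Finset

section abstractPart

variable {α : Type*} [DecidableEq α]

/-- weight of a pair -/
noncomputable def cw (k j : ℕ) : ℝ := ((k.choose j : ℝ) * ((k - j : ℕ) : ℝ))⁻¹

omit [DecidableEq α] in
theorem cw_mul (k j : ℕ) (h : j < k) : ((k - j : ℕ) : ℝ) * cw k j = ((k.choose j : ℝ))⁻¹ := by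
  have h1 : (0 : ℝ) < ((k - j : ℕ) : ℝ) := by exact_mod_cast Nat.sub_pos_of_lt h
  have h2 : (0 : ℝ) < (k.choose j : ℝ) := by exact_mod_cast Nat.choose_pos h.le
  unfold cw
  field_simp

omit [DecidableEq α] in
theorem cw_mul_succ (k j : ℕ) (h : j < k) :
    ((j + 1 : ℕ) : ℝ) * cw k j = ((k.choose (j + 1) : ℝ))⁻¹ := by
  have h1 : (0 : ℝ) < ((k - j : ℕ) : ℝ) := by exact_mod_cast Nat.sub_pos_of_lt h
  have h2 : (0 : ℝ) < (k.choose j : ℝ) := by exact_mod_cast Nat.choose_pos h.le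
  have h3 : (0 : ℝ) < (k.choose (j + 1) : ℝ) := by exact_mod_cast Nat.choose_pos h
  have h4 : (k.choose (j + 1) : ℝ) * ((j + 1 : ℕ) : ℝ) = (k.choose j : ℝ) * ((k - j : ℕ) : ℝ) := by
    exact_mod_cast Nat.choose_succ_right_eq k j
  unfold cw
  rw [← h4]
  have h5 : (0 : ℝ) < ((j + 1 : ℕ) : ℝ) := by positivity
  field_simp

/-- pairs `(A1, e)` with `e` outside `A1` versus pairs `(A2, e)` with `e` inside -/
theorem sum_pairs (A : Finset α) (f : Finset α → α → ℝ) :
    ∑ B ∈ A.powerset, ∑ e ∈ A \ B, f (insert e B) e =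
      ∑ B ∈ A.powerset, ∑ e ∈ B, f B e := by
  rw [Finset.sum_sigma', Finset.sum_sigma']
  refine Finset.sum_bij' (fun p _ => ⟨insert p.2 p.1, p.2⟩) (fun p _ => ⟨p.1.erase p.2, p.2⟩)
    ?_ ?_ ?_ ?_ ?_
  · rintro ⟨B, e⟩ h
    simp only [mem_sigma, mem_powerset, mem_sdiff] at h ⊢
    exact ⟨insert_subset h.2.1 h.1, mem_insert_self _ _⟩
  · rintro ⟨B, e⟩ h
    simp only [mem_sigma, mem_powerset, mem_sdiff] at h ⊢
    exact ⟨(erase_subset _ _).trans h.1, h.1 h.2, notMem_erase _ _⟩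
  · rintro ⟨B, e⟩ h
    simp only [mem_sigma, mem_powerset, mem_sdiff] at h
    simp only [erase_insert h.2.2]
  · rintro ⟨B, e⟩ h
    simp only [mem_sigma, mem_powerset] at h
    simp only [insert_erase h.2]
  · rintro ⟨B, e⟩ _
    rfl

/-- telescoping inside one set -/
theorem tele_one (A : Finset α) (h : Finset α → ℝ) :
    ∑ B ∈ A.powerset, ∑ e ∈ A \ B, cw A.card B.card * (h (insert e B) - h B) = h A - h ∅ := by
  have h1 : ∑ B ∈ A.powerset, ∑ e ∈ A \ B, cw A.card B.card * (h (insert e B) - h B) =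
      ∑ B ∈ A.powerset, ∑ e ∈ A \ B, (fun D (_ : α) => cw A.card (D.card - 1) * h D) (insert e B) e
      - ∑ B ∈ A.powerset, ∑ e ∈ A \ B, cw A.card B.card * h B := by
    rw [← Finset.sum_sub_distrib]
    refine Finset.sum_congr rfl fun B _ => ?_
    rw [← Finset.sum_sub_distrib]
    refine Finset.sum_congr rfl fun e he => ?_
    have he' : e ∉ B := (mem_sdiff.1 he).2
    simp only [card_insert_of_notMem he', Nat.add_sub_cancel]
    ring
  rw [h1, sum_pairs A (fun D (_ : α) => cw A.card (D.card - 1) * h D)]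
  have h2 : ∑ B ∈ A.powerset, ∑ e ∈ B, (fun D (_ : α) => cw A.card (D.card - 1) * h D) B e =
      ∑ B ∈ A.powerset.erase ∅, ((A.card.choose B.card : ℝ))⁻¹ * h B := by
    rw [← Finset.add_sum_erase _ _ (Finset.empty_mem_powerset A)]
    simp only [Finset.sum_empty, zero_add]
    refine Finset.sum_congr rfl fun B hB => ?_
    have hB0 : B ≠ ∅ := (mem_erase.1 hB).1
    have hBA : B ⊆ A := mem_powerset.1 (mem_erase.1 hB).2
    have hc : 0 < B.card := Finset.card_pos.2 (Finset.nonempty_iff_ne_empty.2 hB0)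
    have hc2 : B.card ≤ A.card := card_le_card hBA
    rw [Finset.sum_const, nsmul_eq_mul, ← mul_assoc]
    have := cw_mul_succ A.card (B.card - 1) (by omega)
    rw [Nat.sub_add_cancel hc] at this
    rw [this]
  have h3 : ∑ B ∈ A.powerset, ∑ e ∈ A \ B, cw A.card B.card * h B =
      ∑ B ∈ A.powerset.erase A, ((A.card.choose B.card : ℝ))⁻¹ * h B := by
    rw [← Finset.add_sum_erase _ _ (Finset.mem_powerset_self A)]
    simp only [Finset.sdiff_self, Finset.sum_empty, zero_add]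
    refine Finset.sum_congr rfl fun B hB => ?_
    have hB0 : B ≠ A := (mem_erase.1 hB).1
    have hBA : B ⊆ A := mem_powerset.1 (mem_erase.1 hB).2
    have hc2 : B.card < A.card := card_lt_card (hBA.ssubset_of_ne hB0)
    rw [Finset.sum_const, nsmul_eq_mul, ← mul_assoc, card_sdiff_of_subset hBA]
    rw [cw_mul _ _ hc2]
  rw [h2, h3]
  have h4 := Finset.add_sum_erase A.powerset (fun B => ((A.card.choose B.card : ℝ))⁻¹ * h B)
    (Finset.empty_mem_powerset A)
  have h5 := Finset.add_sum_erase A.powerset (fun B => ((A.card.choose B.card : ℝ))⁻¹ * h B)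
    (Finset.mem_powerset_self A)
  simp only [card_empty, Nat.choose_zero_right, Nat.cast_one, inv_one, one_mul,
    Nat.choose_self] at h4 h5
  linarith

/-- number of members of the family of given cardinality containing `D` -/
def Nn (𝓕 : Finset (Finset α)) (D : Finset α) (k : ℕ) : ℕ :=
  (𝓕.filter (fun A => D ⊆ A ∧ A.card = k)).card

/-- double counting -/
theorem Nn_succ (F : Finset α) (𝓕 : Finset (Finset α)) (h1 : ∀ A ∈ 𝓕, A ⊆ F)
    (h2 : ∀ A ∈ 𝓕, ∀ B ⊆ A, B ∈ 𝓕) (D : Finset α) (k : ℕ) :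
    Nn 𝓕 D (k + 1) * (k + 1 - D.card) ≤ Nn 𝓕 D k * (F.card - k) := by
  unfold Nn
  refine Finset.card_mul_le_card_mul (fun A' A : Finset α => A ⊆ A') ?_ ?_
  · intro A' hA'
    simp only [mem_filter] at hA'
    have hsub : (A' \ D).image (fun f => A'.erase f) ⊆
        (𝓕.filter (fun A => D ⊆ A ∧ A.card = k)).bipartiteAbove (fun A' A => A ⊆ A') A' := by
      intro B hB
      simp only [mem_image, mem_sdiff] at hB
      obtain ⟨f, ⟨hf1, hf2⟩, rfl⟩ := hB
      simp only [Finset.mem_bipartiteAbove, mem_filter]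
      refine ⟨⟨h2 _ hA'.1 _ (erase_subset _ _), ?_, ?_⟩, erase_subset _ _⟩
      · intro y hy
        exact mem_erase.2 ⟨fun h => hf2 (h ▸ hy), hA'.2.1 hy⟩
      · rw [card_erase_of_mem hf1, hA'.2.2]; rfl
    have hcard : ((A' \ D).image (fun f => A'.erase f)).card = (A' \ D).card := by
      apply Finset.card_image_of_injOn
      intro f hf g hg hfg
      have hf' : f ∈ A' := (mem_sdiff.1 (mem_coe.1 hf)).1
      by_contra hne
      have : f ∈ A'.erase g := mem_erase.2 ⟨hne, hf'⟩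
      have hfg' : A'.erase f = A'.erase g := hfg
      rw [← hfg'] at this
      exact notMem_erase _ _ this
    have := Finset.card_le_card hsub
    rw [hcard, card_sdiff_of_subset hA'.2.1, hA'.2.2] at this
    exact this
  · intro A hA
    simp only [mem_filter] at hA
    have hsub : (𝓕.filter (fun A => D ⊆ A ∧ A.card = k + 1)).bipartiteBelow
        (fun A' A => A ⊆ A') A ⊆ (F \ A).image (fun f => insert f A) := by
      intro B hB
      simp only [Finset.mem_bipartiteBelow, mem_filter] at hB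
      obtain ⟨⟨hB1, hB2, hB3⟩, hAB⟩ := hB
      have hc : (B \ A).card = 1 := by
        rw [card_sdiff_of_subset hAB, hB3, hA.2.2]; omega
      obtain ⟨f, hf⟩ := Finset.card_eq_one.1 hc
      have hfB : f ∈ B \ A := by rw [hf]; exact mem_singleton_self _
      refine mem_image.2 ⟨f, mem_sdiff.2 ⟨h1 _ hB1 (mem_sdiff.1 hfB).1, (mem_sdiff.1 hfB).2⟩, ?_⟩
      have h3 : A ∪ (B \ A) = B := Finset.union_sdiff_of_subset hAB
      rw [hf] at h3
      rw [← h3, Finset.union_comm]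
      rfl
    refine (Finset.card_le_card hsub).trans (Finset.card_image_le.trans ?_)
    rw [card_sdiff_of_subset (h1 _ hA.1), hA.2.2]


theorem antitone_aux (w : ℕ → ℝ) (hw : ∀ i, 0 ≤ w i) (hw' : ∀ i j, i ≤ j → w j ≤ w i)
    (F : Finset α) (𝓕 : Finset (Finset α)) (h1 : ∀ A ∈ 𝓕, A ⊆ F)
    (h2 : ∀ A ∈ 𝓕, ∀ B ⊆ A, B ∈ 𝓕) (D : Finset α) (j : ℕ) (hD : D.card = j + 1) (i : ℕ)
    (hi : 1 ≤ i) :
    w (j + (i + 1)) * cw (j + (i + 1)) j * (Nn 𝓕 D (j + (i + 1)) : ℝ) /
        (F.card.choose (i + 1) : ℝ) ≤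
      w (j + i) * cw (j + i) j * (Nn 𝓕 D (j + i) : ℝ) / (F.card.choose i : ℝ) := by
  have hcwn : ∀ k j, 0 ≤ cw k j := fun k j => by unfold cw; positivity
  by_cases hδ : F.card < i + 1
  · rw [Nat.choose_eq_zero_of_lt hδ, Nat.cast_zero, div_zero]
    have := hw (j + i)
    have := hcwn (j + i) j
    positivity
  · push Not at hδ
    have e1 := Nn_succ F 𝓕 h1 h2 D (j + i)
    rw [hD] at e1
    have e1' : (Nn 𝓕 D (j + (i + 1)) : ℝ) * (i : ℝ) ≤
        (Nn 𝓕 D (j + i) : ℝ) * ((F.card - (j + i) : ℕ) : ℝ) := by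
      have : j + i + 1 - (j + 1) = i := by omega
      rw [this] at e1
      exact_mod_cast e1
    set N' : ℝ := (Nn 𝓕 D (j + (i + 1)) : ℝ) with hN'
    set N : ℝ := (Nn 𝓕 D (j + i) : ℝ) with hN
    have hN0 : 0 ≤ N := by rw [hN]; positivity
    have hN0' : 0 ≤ N' := by rw [hN']; positivity
    set a : ℝ := ((j + i).choose j : ℝ) with ha
    have ha0 : 0 < a := by rw [ha]; exact_mod_cast Nat.choose_pos (Nat.le_add_right _ _)
    have hi0 : (0 : ℝ) < (i : ℝ) := by exact_mod_cast hi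
    have hcw1 : cw (j + i) j = (a * (i : ℝ))⁻¹ := by
      unfold cw
      rw [Nat.add_sub_cancel_left]
    have hcw2 : cw (j + (i + 1)) j = (a * ((j : ℝ) + i + 1))⁻¹ := by
      unfold cw
      congr 1
      rw [Nat.add_sub_cancel_left, ← add_assoc]
      have h := Nat.choose_mul_succ_eq (j + i) j
      have h' : j + i + 1 - j = i + 1 := by omega
      rw [h'] at h
      rw [ha]
      exact_mod_cast h.symm
    set c : ℝ := (F.card.choose i : ℝ) with hc
    have hc0 : 0 < c := by rw [hc]; exact_mod_cast Nat.choose_pos (by omega)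
    set d : ℝ := ((F.card - i : ℕ) : ℝ) with hd
    have hd0 : 0 < d := by rw [hd]; exact_mod_cast (by omega : 0 < F.card - i)
    have hC : (F.card.choose (i + 1) : ℝ) = c * d / ((i : ℝ) + 1) := by
      rw [eq_div_iff (by positivity), hc, hd]
      exact_mod_cast Nat.choose_succ_right_eq F.card i
    rw [hcw1, hcw2, hC]
    have l1 : w (j + (i + 1)) * (a * ((j : ℝ) + i + 1))⁻¹ * N' / (c * d / ((i : ℝ) + 1)) =
        (w (j + (i + 1)) * N' * ((i : ℝ) + 1)) / (a * ((j : ℝ) + i + 1) * c * d) := by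
      field_simp
    have l2 : w (j + i) * (a * (i : ℝ))⁻¹ * N / c = (w (j + i) * N) / (a * i * c) := by
      field_simp
    rw [l1, l2, div_le_div_iff₀ (by positivity) (by positivity)]
    have hww := hw' (j + i) (j + (i + 1)) (by omega)
    have hw1 := hw (j + i)
    have hw2 := hw (j + (i + 1))
    have m1 : ((F.card - (j + i) : ℕ) : ℝ) * ((i : ℝ) + 1) ≤ ((j : ℝ) + i + 1) * d := by
      have m0 : ((F.card - (j + i) : ℕ) : ℝ) ≤ d := by
        rw [hd]; exact_mod_cast (by omega : F.card - (j + i) ≤ F.card - i)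
      have : (i : ℝ) + 1 ≤ (j : ℝ) + i + 1 := by
        have : (0 : ℝ) ≤ (j : ℝ) := by positivity
        linarith
      calc ((F.card - (j + i) : ℕ) : ℝ) * ((i : ℝ) + 1) ≤ d * ((j : ℝ) + i + 1) :=
            mul_le_mul m0 this (by positivity) hd0.le
        _ = _ := by ring
    calc w (j + (i + 1)) * N' * ((i : ℝ) + 1) * (a * i * c)
        = w (j + (i + 1)) * (N' * i) * ((i : ℝ) + 1) * (a * c) := by ring
      _ ≤ w (j + i) * (N * ((F.card - (j + i) : ℕ) : ℝ)) * ((i : ℝ) + 1) * (a * c) := by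
          gcongr
      _ = w (j + i) * N * (((F.card - (j + i) : ℕ) : ℝ) * ((i : ℝ) + 1)) * (a * c) := by ring
      _ ≤ w (j + i) * N * (((j : ℝ) + i + 1) * d) * (a * c) := by
          gcongr
      _ = w (j + i) * N * (a * ((j : ℝ) + i + 1) * c * d) := by ring

/-- the contribution of one pair -/
theorem pair_bound (w : ℕ → ℝ) (hw : ∀ i, 0 ≤ w i) (hw' : ∀ i j, i ≤ j → w j ≤ w i)
    (F : Finset α) (𝓕 : Finset (Finset α)) (h1 : ∀ A ∈ 𝓕, A ⊆ F)
    (h2 : ∀ A ∈ 𝓕, ∀ B ⊆ A, B ∈ 𝓕) (g : Finset α → ℕ → ℝ) (hg : ∀ A i, 0 ≤ g A i)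
    (HE : ∀ A e, e ∉ A → insert e A ∈ 𝓕 → ∀ v : ℕ → ℝ, (∀ i, 0 ≤ v i) →
      (∀ i j, 1 ≤ i → i ≤ j → v j ≤ v i) →
      ∑ i ∈ Icc 1 F.card, v i * (F.card.choose i : ℝ) * (g (insert e A) i - g A (i + 1)) ≤
        2 * F.card * v 1 / (F.card + 1) * g A 1)
    (B : Finset α) (e : α) (he : e ∈ F \ B) :
    ∑ A ∈ 𝓕.filter (fun A => insert e B ⊆ A), w A.card * (cw A.card B.card *
        (g (insert e B) (A.card - B.card) - g B (A.card - B.card + 1))) ≤
      2 * w (B.card + 1) / ((B.card + 1) * (F.card + 1)) * g B 1 := by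
  have heF : e ∈ F := (mem_sdiff.1 he).1
  have heB : e ∉ B := (mem_sdiff.1 he).2
  have hrhs : 0 ≤ 2 * w (B.card + 1) / ((B.card + 1) * (F.card + 1)) * g B 1 := by
    have := hw (B.card + 1)
    have := hg B 1
    positivity
  by_cases hin : insert e B ∈ 𝓕
  swap
  · rw [Finset.filter_eq_empty_iff.2, Finset.sum_empty]
    · exact hrhs
    · intro A hA hsub
      exact hin (h2 A hA _ hsub)
  have hcardI : (insert e B).card = B.card + 1 := card_insert_of_notMem heB
  have hcwn : ∀ k j, 0 ≤ cw k j := fun k j => by unfold cw; positivity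
  -- group by cardinality
  have hmaps : ∀ A ∈ 𝓕.filter (fun A => insert e B ⊆ A), A.card - B.card ∈ Icc 1 F.card := by
    intro A hA
    rw [mem_filter] at hA
    have c1 := card_le_card hA.2
    have c2 := card_le_card (h1 A hA.1)
    rw [mem_Icc]
    omega
  rw [← Finset.sum_fiberwise_of_maps_to hmaps]
  set u : ℕ → ℝ := fun i => w (B.card + i) * cw (B.card + i) B.card *
    (Nn 𝓕 (insert e B) (B.card + i) : ℝ) with hu
  set v : ℕ → ℝ := fun i => u i / (F.card.choose i : ℝ) with hv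
  have hgrp : ∀ i ∈ Icc 1 F.card,
      ∑ A ∈ (𝓕.filter (fun A => insert e B ⊆ A)).filter (fun A => A.card - B.card = i),
        w A.card * (cw A.card B.card *
          (g (insert e B) (A.card - B.card) - g B (A.card - B.card + 1))) =
      v i * (F.card.choose i : ℝ) * (g (insert e B) i - g B (i + 1)) := by
    intro i hi
    rw [mem_Icc] at hi
    have hc : (F.card.choose i : ℝ) ≠ 0 := by
      have := Nat.choose_pos hi.2
      positivity
    have hvi : v i * (F.card.choose i : ℝ) = u i := by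
      simp only [hv]
      field_simp
    rw [hvi]
    have hset : (𝓕.filter (fun A => insert e B ⊆ A)).filter (fun A => A.card - B.card = i) =
        𝓕.filter (fun A => insert e B ⊆ A ∧ A.card = B.card + i) := by
      ext A
      simp only [mem_filter]
      constructor
      · rintro ⟨⟨hA1, hA2⟩, hA3⟩
        have c1 := card_le_card hA2
        exact ⟨hA1, hA2, by omega⟩
      · rintro ⟨hA1, hA2, hA3⟩
        exact ⟨⟨hA1, hA2⟩, by omega⟩
    rw [hset]
    have hconst : ∀ A ∈ 𝓕.filter (fun A => insert e B ⊆ A ∧ A.card = B.card + i),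
        w A.card * (cw A.card B.card *
          (g (insert e B) (A.card - B.card) - g B (A.card - B.card + 1))) =
        w (B.card + i) * (cw (B.card + i) B.card * (g (insert e B) i - g B (i + 1))) := by
      intro A hA
      rw [mem_filter] at hA
      rw [hA.2.2, Nat.add_sub_cancel_left]
    rw [Finset.sum_congr rfl hconst, Finset.sum_const, nsmul_eq_mul]
    simp only [hu, Nn]
    ring
  rw [Finset.sum_congr rfl hgrp]
  have hv0 : ∀ i, 0 ≤ v i := by
    intro i
    simp only [hv, hu]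
    have := hw (B.card + i)
    have := hcwn (B.card + i) B.card
    positivity
  have hvstep : ∀ i, 1 ≤ i → v (i + 1) ≤ v i := fun i hi =>
    antitone_aux w hw hw' F 𝓕 h1 h2 (insert e B) B.card hcardI i hi
  have hvanti : ∀ i j, 1 ≤ i → i ≤ j → v j ≤ v i := by
    intro i j hi hij
    induction j, hij using Nat.le_induction with
    | base => exact le_rfl
    | succ j hj ih => exact (hvstep j (hi.trans hj)).trans ih
  refine (HE B e heB hin v hv0 hvanti).trans ?_
  have hF : 0 < F.card := Finset.card_pos.2 ⟨e, heF⟩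
  have hF' : (0 : ℝ) < (F.card : ℝ) := by exact_mod_cast hF
  have hN1 : (Nn 𝓕 (insert e B) (B.card + 1) : ℝ) ≤ 1 := by
    have : Nn 𝓕 (insert e B) (B.card + 1) ≤ 1 := by
      unfold Nn
      rw [Finset.card_le_one]
      intro A hA A' hA'
      rw [mem_filter] at hA hA'
      have q1 : insert e B = A := Finset.eq_of_subset_of_card_le hA.2.1 (by rw [hcardI, hA.2.2])
      have q2 : insert e B = A' := Finset.eq_of_subset_of_card_le hA'.2.1 (by rw [hcardI, hA'.2.2])
      rw [← q1, ← q2]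
    exact_mod_cast this
  have hcw1 : cw (B.card + 1) B.card = ((B.card : ℝ) + 1)⁻¹ := by
    unfold cw
    rw [Nat.add_sub_cancel_left, Nat.choose_succ_self_right]
    push_cast
    ring
  have hv1 : 2 * F.card * v 1 / (F.card + 1) ≤
      2 * w (B.card + 1) / ((B.card + 1) * (F.card + 1)) := by
    have e2 : (F.card : ℝ) * v 1 = u 1 := by
      simp only [hv, Nat.choose_one_right]
      field_simp
    have e3 : u 1 ≤ w (B.card + 1) / ((B.card : ℝ) + 1) := by
      simp only [hu, hcw1]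
      have := hw (B.card + 1)
      calc w (B.card + 1) * ((B.card : ℝ) + 1)⁻¹ * (Nn 𝓕 (insert e B) (B.card + 1) : ℝ)
          ≤ w (B.card + 1) * ((B.card : ℝ) + 1)⁻¹ * 1 := by gcongr
        _ = _ := by rw [mul_one, div_eq_mul_inv]
    calc 2 * F.card * v 1 / (F.card + 1) = 2 * u 1 / (F.card + 1) := by rw [mul_assoc, e2]
      _ ≤ 2 * (w (B.card + 1) / ((B.card : ℝ) + 1)) / (F.card + 1) := by gcongr
      _ = _ := by field_simp
  exact mul_le_mul_of_nonneg_right hv1 (hg B 1)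

/-- the second stage, abstract form -/
theorem tele2_abs (w : ℕ → ℝ) (hw : ∀ i, 0 ≤ w i) (hw' : ∀ i j, i ≤ j → w j ≤ w i)
    (F : Finset α) (𝓕 : Finset (Finset α)) (h1 : ∀ A ∈ 𝓕, A ⊆ F)
    (h2 : ∀ A ∈ 𝓕, ∀ B ⊆ A, B ∈ 𝓕) (g : Finset α → ℕ → ℝ) (hg : ∀ A i, 0 ≤ g A i)
    (HE : ∀ A e, e ∉ A → insert e A ∈ 𝓕 → ∀ v : ℕ → ℝ, (∀ i, 0 ≤ v i) →
      (∀ i j, 1 ≤ i → i ≤ j → v j ≤ v i) →
      ∑ i ∈ Icc 1 F.card, v i * (F.card.choose i : ℝ) * (g (insert e A) i - g A (i + 1)) ≤
        2 * F.card * v 1 / (F.card + 1) * g A 1) :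
    ∑ A ∈ 𝓕, w A.card * g A 1 ≤
      ∑ k ∈ range (F.card + 1), w k * (F.card.choose k : ℝ) * g ∅ (k + 1) +
      ∑ A ∈ 𝓕, w (A.card + 1) * (2 * ((F.card - A.card : ℕ) : ℝ)) /
        ((F.card + 1) * (A.card + 1)) * g A 1 := by
  -- telescoping
  have s1 : ∑ A ∈ 𝓕, w A.card * (g A 1 - g ∅ (A.card + 1)) =
      ∑ A ∈ 𝓕, ∑ B ∈ A.powerset, ∑ e ∈ A \ B, w A.card * (cw A.card B.card *
        (g (insert e B) (A.card - B.card) - g B (A.card - B.card + 1))) := by
    refine Finset.sum_congr rfl fun A _ => ?_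
    have t := tele_one A (fun B => g B (A.card - B.card + 1))
    simp only [Nat.sub_self, zero_add, card_empty, Nat.sub_zero] at t
    rw [← t, Finset.mul_sum]
    refine Finset.sum_congr rfl fun B hB => ?_
    rw [Finset.mul_sum]
    refine Finset.sum_congr rfl fun e he => ?_
    have he' := mem_sdiff.1 he
    have hBA := mem_powerset.1 hB
    have hlt : B.card < A.card :=
      card_lt_card ⟨hBA, fun h => he'.2 (h he'.1)⟩
    rw [card_insert_of_notMem he'.2]
    have : A.card - (B.card + 1) + 1 = A.card - B.card := by omega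
    rw [this]
  have s2 : ∑ A ∈ 𝓕, ∑ B ∈ A.powerset, ∑ e ∈ A \ B, w A.card * (cw A.card B.card *
        (g (insert e B) (A.card - B.card) - g B (A.card - B.card + 1))) =
      ∑ B ∈ 𝓕, ∑ e ∈ F \ B, ∑ A ∈ 𝓕.filter (fun A => insert e B ⊆ A),
        w A.card * (cw A.card B.card *
        (g (insert e B) (A.card - B.card) - g B (A.card - B.card + 1))) := by
    rw [Finset.sum_comm' (s' := fun B => 𝓕.filter (fun A => B ⊆ A)) (t' := 𝓕)]
    · refine Finset.sum_congr rfl fun B _ => ?_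
      rw [Finset.sum_comm' (s' := fun e => 𝓕.filter (fun A => insert e B ⊆ A)) (t' := F \ B)]
      intro A e
      simp only [mem_filter, mem_sdiff, insert_subset_iff]
      constructor
      · rintro ⟨⟨hA1, hA2⟩, he1, he2⟩
        exact ⟨⟨hA1, he1, hA2⟩, h1 A hA1 he1, he2⟩
      · rintro ⟨⟨hA1, he1, hA2⟩, _, he2⟩
        exact ⟨⟨hA1, hA2⟩, he1, he2⟩
    · intro A B
      simp only [mem_filter, mem_powerset]
      constructor
      · rintro ⟨hA1, hA2⟩
        exact ⟨⟨hA1, hA2⟩, h2 A hA1 B hA2⟩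
      · rintro ⟨⟨hA1, hA2⟩, _⟩
        exact ⟨hA1, hA2⟩
  have s3 : ∑ B ∈ 𝓕, ∑ e ∈ F \ B, ∑ A ∈ 𝓕.filter (fun A => insert e B ⊆ A),
        w A.card * (cw A.card B.card *
        (g (insert e B) (A.card - B.card) - g B (A.card - B.card + 1))) ≤
      ∑ A ∈ 𝓕, w (A.card + 1) * (2 * ((F.card - A.card : ℕ) : ℝ)) /
        ((F.card + 1) * (A.card + 1)) * g A 1 := by
    refine Finset.sum_le_sum fun B hB => ?_
    refine (Finset.sum_le_sum fun e he =>
      pair_bound w hw hw' F 𝓕 h1 h2 g hg HE B e he).trans ?_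
    rw [Finset.sum_const, nsmul_eq_mul, card_sdiff_of_subset (h1 B hB)]
    apply le_of_eq
    field_simp
  have s4 : ∑ A ∈ 𝓕, w A.card * g ∅ (A.card + 1) ≤
      ∑ k ∈ range (F.card + 1), w k * (F.card.choose k : ℝ) * g ∅ (k + 1) := by
    have hsub : 𝓕 ⊆ F.powerset := fun A hA => mem_powerset.2 (h1 A hA)
    refine (Finset.sum_le_sum_of_subset_of_nonneg hsub
      (fun A _ _ => mul_nonneg (hw _) (hg _ _))).trans (le_of_eq ?_)
    rw [Finset.sum_powerset_apply_card (fun k => w k * g ∅ (k + 1))]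
    refine Finset.sum_congr rfl fun k _ => ?_
    rw [nsmul_eq_mul]
    ring
  have s5 : ∑ A ∈ 𝓕, w A.card * (g A 1 - g ∅ (A.card + 1)) =
      ∑ A ∈ 𝓕, w A.card * g A 1 - ∑ A ∈ 𝓕, w A.card * g ∅ (A.card + 1) := by
    rw [← Finset.sum_sub_distrib]
    exact Finset.sum_congr rfl fun A _ => by ring
  rw [s2] at s1
  linarith


/-- iteration of the second stage -/
theorem tele_final_abs (F : Finset α) (𝓕 : Finset (Finset α)) (h1 : ∀ A ∈ 𝓕, A ⊆ F)
    (h2 : ∀ A ∈ 𝓕, ∀ B ⊆ A, B ∈ 𝓕) (g : Finset α → ℕ → ℝ) (hg : ∀ A i, 0 ≤ g A i)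
    (HE : ∀ A e, e ∉ A → insert e A ∈ 𝓕 → ∀ v : ℕ → ℝ, (∀ i, 0 ≤ v i) →
      (∀ i j, 1 ≤ i → i ≤ j → v j ≤ v i) →
      ∑ i ∈ Icc 1 F.card, v i * (F.card.choose i : ℝ) * (g (insert e A) i - g A (i + 1)) ≤
        2 * F.card * v 1 / (F.card + 1) * g A 1) (L : ℕ) :
    ∀ w : ℕ → ℝ, (∀ i, 0 ≤ w i) → (∀ i j, i ≤ j → w j ≤ w i) → (∀ k, L < k → w k = 0) →
    ∑ A ∈ 𝓕, w A.card * g A 1 ≤
      ∑ k ∈ range (F.card + 1), (∑ j ∈ range (F.card + 1), (2 / ((F.card : ℝ) + 1)) ^ j *
        (F.card.choose (k + j) : ℝ) * w (k + j)) * g ∅ (k + 1) := by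
  have hx0 : (0 : ℝ) ≤ 2 / ((F.card : ℝ) + 1) := by positivity
  induction L with
  | zero =>
    intro w hw hw' hL
    refine (tele2_abs w hw hw' F 𝓕 h1 h2 g hg HE).trans ?_
    have hz : ∑ A ∈ 𝓕, w (A.card + 1) * (2 * ((F.card - A.card : ℕ) : ℝ)) /
        ((F.card + 1) * (A.card + 1)) * g A 1 = 0 := by
      refine Finset.sum_eq_zero fun A _ => ?_
      rw [hL _ (Nat.succ_pos _)]
      ring
    rw [hz, add_zero]
    refine Finset.sum_le_sum fun k _ => ?_
    refine mul_le_mul_of_nonneg_right ?_ (hg _ _)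
    have : w k * (F.card.choose k : ℝ) = (2 / ((F.card : ℝ) + 1)) ^ 0 *
        (F.card.choose (k + 0) : ℝ) * w (k + 0) := by
      simp only [pow_zero, add_zero, one_mul]; ring
    rw [this]
    refine Finset.single_le_sum (f := fun j => (2 / ((F.card : ℝ) + 1)) ^ j *
        (F.card.choose (k + j) : ℝ) * w (k + j)) (fun j _ => ?_) (mem_range.2 (Nat.succ_pos _))
    exact mul_nonneg (mul_nonneg (pow_nonneg hx0 _) (by positivity)) (hw _)
  | succ L ih =>
    intro w hw hw' hL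
    refine (tele2_abs w hw hw' F 𝓕 h1 h2 g hg HE).trans ?_
    set w2 : ℕ → ℝ := fun k => w (k + 1) * (2 * ((F.card - k : ℕ) : ℝ)) /
        ((F.card + 1) * (k + 1)) with hw2
    have hw2n : ∀ i, 0 ≤ w2 i := by
      intro i
      simp only [hw2]
      have := hw (i + 1)
      positivity
    have hw2a : ∀ i j, i ≤ j → w2 j ≤ w2 i := by
      intro i j hij
      simp only [hw2]
      have a1 := hw' (i + 1) (j + 1) (by omega)
      have a2 : ((F.card - j : ℕ) : ℝ) ≤ ((F.card - i : ℕ) : ℝ) := by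
        exact_mod_cast (by omega : F.card - j ≤ F.card - i)
      have a3 : (i : ℝ) + 1 ≤ (j : ℝ) + 1 := by
        have : (i : ℝ) ≤ (j : ℝ) := by exact_mod_cast hij
        linarith
      have a4 := hw (j + 1)
      have a5 := hw (i + 1)
      gcongr
    have hw2z : ∀ k, L < k → w2 k = 0 := by
      intro k hk
      simp only [hw2]
      rw [hL (k + 1) (by omega)]
      ring
    have hih := ih w2 hw2n hw2a hw2z
    refine (add_le_add_right hih _).trans (le_of_eq ?_)
    rw [← Finset.sum_add_distrib]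
    refine Finset.sum_congr rfl fun k _ => ?_
    rw [← add_mul]
    congr 1
    have hterm : ∀ j, (2 / ((F.card : ℝ) + 1)) ^ j * (F.card.choose (k + j) : ℝ) * w2 (k + j) =
        (2 / ((F.card : ℝ) + 1)) ^ (j + 1) * (F.card.choose (k + (j + 1)) : ℝ) *
          w (k + (j + 1)) := by
      intro j
      simp only [hw2]
      have hC : (F.card.choose (k + (j + 1)) : ℝ) * (((k + j : ℕ) : ℝ) + 1) =
          (F.card.choose (k + j) : ℝ) * ((F.card - (k + j) : ℕ) : ℝ) := by
        exact_mod_cast Nat.choose_succ_right_eq F.card (k + j)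
      have hpos : (0 : ℝ) < ((k + j : ℕ) : ℝ) + 1 := by positivity
      have hpos2 : (0 : ℝ) < (F.card : ℝ) + 1 := by positivity
      have e1 : (F.card.choose (k + (j + 1)) : ℝ) =
          (F.card.choose (k + j) : ℝ) * ((F.card - (k + j) : ℕ) : ℝ) / (((k + j : ℕ) : ℝ) + 1) := by
        rw [eq_div_iff hpos.ne', hC]
      rw [e1, pow_succ, add_assoc k j 1]
      field_simp
    have e2 : ∑ j ∈ range (F.card + 1), (2 / ((F.card : ℝ) + 1)) ^ j *
        (F.card.choose (k + j) : ℝ) * w2 (k + j) =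
        ∑ j ∈ range (F.card + 1), (2 / ((F.card : ℝ) + 1)) ^ (j + 1) *
          (F.card.choose (k + (j + 1)) : ℝ) * w (k + (j + 1)) :=
      Finset.sum_congr rfl fun j _ => hterm j
    rw [e2]
    rw [Finset.sum_range_succ (fun j => (2 / ((F.card : ℝ) + 1)) ^ (j + 1) *
          (F.card.choose (k + (j + 1)) : ℝ) * w (k + (j + 1))) F.card]
    rw [Finset.sum_range_succ' (fun j => (2 / ((F.card : ℝ) + 1)) ^ j *
          (F.card.choose (k + j) : ℝ) * w (k + j)) F.card]
    rw [Nat.choose_eq_zero_of_lt (show F.card < k + (F.card + 1) by omega)]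
    simp only [Nat.cast_zero, mul_zero, zero_mul, add_zero, pow_zero, one_mul]
    ring

end abstractPart

section numeric

theorem pow_bound (d : ℕ) : (1 + 2 / ((d : ℝ) + 1)) ^ d ≤ (d : ℝ) + 1 := by
  by_cases h7 : d < 7
  · interval_cases d <;> norm_num
  · push Not at h7
    have h7' : (7 : ℝ) ≤ (d : ℝ) := by exact_mod_cast h7
    have h1 : 1 + 2 / ((d : ℝ) + 1) ≤ Real.exp (2 / ((d : ℝ) + 1)) := by
      have := Real.add_one_le_exp (2 / ((d : ℝ) + 1))
      linarith
    have h2 : (1 + 2 / ((d : ℝ) + 1)) ^ d ≤ (Real.exp (2 / ((d : ℝ) + 1))) ^ d :=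
      pow_le_pow_left₀ (by positivity) h1 d
    have h3 : (Real.exp (2 / ((d : ℝ) + 1))) ^ d = Real.exp ((d : ℝ) * (2 / ((d : ℝ) + 1))) := by
      rw [← Real.exp_nat_mul]
    have h4 : (d : ℝ) * (2 / ((d : ℝ) + 1)) ≤ 2 := by
      rw [mul_div_assoc', div_le_iff₀ (by positivity)]
      linarith
    have h5 : Real.exp 2 ≤ 8 := by
      have h6 : Real.exp 2 = Real.exp 1 * Real.exp 1 := by
        rw [← Real.exp_add]; norm_num
      have h7 := Real.exp_one_lt_d9
      have h8 := Real.exp_pos 1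
      rw [h6]
      nlinarith
    rw [h3] at h2
    have h6 := Real.exp_le_exp.2 h4
    linarith

theorem choose_bound (d k j : ℕ) :
    (d.choose (k + (j + 1)) : ℝ) * d ≤ (d.choose (j + 1) : ℝ) * (d.choose (k + 1) : ℝ) := by
  induction j with
  | zero =>
    rw [zero_add, Nat.choose_one_right, mul_comm]
  | succ j ih =>
    have e1 : (d.choose (k + (j + 1) + 1) : ℝ) * ((k : ℝ) + j + 1 + 1) =
        (d.choose (k + (j + 1)) : ℝ) * ((d - (k + (j + 1)) : ℕ) : ℝ) := by
      have := Nat.choose_succ_right_eq d (k + (j + 1))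
      have h' : ((d.choose (k + (j + 1) + 1) * (k + (j + 1) + 1) : ℕ) : ℝ) =
        ((d.choose (k + (j + 1)) * (d - (k + (j + 1))) : ℕ) : ℝ) := by rw [this]
      push_cast at h'
      rw [← h']
      ring
    have e2 : (d.choose (j + 1 + 1) : ℝ) * ((j : ℝ) + 1 + 1) =
        (d.choose (j + 1) : ℝ) * ((d - (j + 1) : ℕ) : ℝ) := by
      exact_mod_cast Nat.choose_succ_right_eq d (j + 1)
    have hp1 : (0 : ℝ) < (k : ℝ) + j + 1 + 1 := by positivity
    have hp2 : (0 : ℝ) < (j : ℝ) + 1 + 1 := by positivity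
    have q1 : (d.choose (k + (j + 1 + 1)) : ℝ) =
        (d.choose (k + (j + 1)) : ℝ) * ((d - (k + (j + 1)) : ℕ) : ℝ) / ((k : ℝ) + j + 1 + 1) := by
      rw [eq_div_iff hp1.ne', ← e1]
      rfl
    have q2 : (d.choose (j + 1 + 1) : ℝ) =
        (d.choose (j + 1) : ℝ) * ((d - (j + 1) : ℕ) : ℝ) / ((j : ℝ) + 1 + 1) := by
      rw [eq_div_iff hp2.ne', ← e2]
    rw [q1, q2]
    have m1 : ((d - (k + (j + 1)) : ℕ) : ℝ) ≤ ((d - (j + 1) : ℕ) : ℝ) := by
      exact_mod_cast (by omega : d - (k + (j + 1)) ≤ d - (j + 1))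
    have m2 : (j : ℝ) + 1 + 1 ≤ (k : ℝ) + j + 1 + 1 := by
      have : (0 : ℝ) ≤ (k : ℝ) := by positivity
      linarith
    calc (d.choose (k + (j + 1)) : ℝ) * ((d - (k + (j + 1)) : ℕ) : ℝ) / ((k : ℝ) + j + 1 + 1) * d
        = ((d.choose (k + (j + 1)) : ℝ) * d) * ((d - (k + (j + 1)) : ℕ) : ℝ) /
            ((k : ℝ) + j + 1 + 1) := by ring
      _ ≤ ((d.choose (j + 1) : ℝ) * (d.choose (k + 1) : ℝ)) * ((d - (j + 1) : ℕ) : ℝ) /
            ((j : ℝ) + 1 + 1) := by gcongr
      _ = _ := by ring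

theorem sum_bound (d k : ℕ) :
    ∑ j ∈ range (d + 1), (2 / ((d : ℝ) + 1)) ^ (j + 1) * (d.choose (k + (j + 1)) : ℝ) ≤
      (d.choose (k + 1) : ℝ) := by
  rcases Nat.eq_zero_or_pos d with rfl | hd
  · simp
  have hd' : (0 : ℝ) < (d : ℝ) := by exact_mod_cast hd
  have hx0 : (0 : ℝ) ≤ 2 / ((d : ℝ) + 1) := by positivity
  have h1 : ∑ j ∈ range (d + 1), (2 / ((d : ℝ) + 1)) ^ (j + 1) * (d.choose (k + (j + 1)) : ℝ) ≤
      (d.choose (k + 1) : ℝ) / d *
        ∑ j ∈ range (d + 1), (2 / ((d : ℝ) + 1)) ^ (j + 1) * (d.choose (j + 1) : ℝ) := by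
    rw [Finset.mul_sum]
    refine Finset.sum_le_sum fun j _ => ?_
    have hb := choose_bound d k j
    have hb' : (d.choose (k + (j + 1)) : ℝ) ≤
        (d.choose (k + 1) : ℝ) / d * (d.choose (j + 1) : ℝ) := by
      rw [div_mul_eq_mul_div, le_div_iff₀ hd']
      linarith
    calc (2 / ((d : ℝ) + 1)) ^ (j + 1) * (d.choose (k + (j + 1)) : ℝ)
        ≤ (2 / ((d : ℝ) + 1)) ^ (j + 1) *
            ((d.choose (k + 1) : ℝ) / d * (d.choose (j + 1) : ℝ)) := by gcongr
      _ = _ := by ring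
  have h2 : ∑ j ∈ range (d + 1), (2 / ((d : ℝ) + 1)) ^ (j + 1) * (d.choose (j + 1) : ℝ) =
      (1 + 2 / ((d : ℝ) + 1)) ^ d - 1 := by
    have hbin : (2 / ((d : ℝ) + 1) + 1) ^ d =
        ∑ m ∈ range (d + 1), (2 / ((d : ℝ) + 1)) ^ m * (d.choose m : ℝ) := by
      rw [add_pow]
      exact Finset.sum_congr rfl fun m _ => by rw [one_pow, mul_one]
    rw [add_comm 1, hbin, Finset.sum_range_succ' (fun m => (2 / ((d : ℝ) + 1)) ^ m *
        (d.choose m : ℝ)) d,
      Finset.sum_range_succ (fun j => (2 / ((d : ℝ) + 1)) ^ (j + 1) *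
        (d.choose (j + 1) : ℝ)) d, Nat.choose_succ_self]
    simp
  rw [h2] at h1
  refine h1.trans ?_
  have h3 := pow_bound d
  calc (d.choose (k + 1) : ℝ) / d * ((1 + 2 / ((d : ℝ) + 1)) ^ d - 1)
      ≤ (d.choose (k + 1) : ℝ) / d * d := by
        apply mul_le_mul_of_nonneg_left _ (by positivity)
        linarith
    _ = _ := by field_simp

end numeric

section final

variable {α : Type*} [DecidableEq α]

/-- the use of the iteration -/
theorem use_abs (F : Finset α) (𝓕 : Finset (Finset α)) (h1 : ∀ A ∈ 𝓕, A ⊆ F)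
    (h2 : ∀ A ∈ 𝓕, ∀ B ⊆ A, B ∈ 𝓕) (g : Finset α → ℕ → ℝ) (hg : ∀ A i, 0 ≤ g A i)
    (HE : ∀ A e, e ∉ A → insert e A ∈ 𝓕 → ∀ v : ℕ → ℝ, (∀ i, 0 ≤ v i) →
      (∀ i j, 1 ≤ i → i ≤ j → v j ≤ v i) →
      ∑ i ∈ Icc 1 F.card, v i * (F.card.choose i : ℝ) * (g (insert e A) i - g A (i + 1)) ≤
        2 * F.card * v 1 / (F.card + 1) * g A 1) :
    ∑ k ∈ range (F.card + 1), (F.card.choose k : ℝ) * g ∅ (k + 1) +
      ∑ A ∈ 𝓕, (2 * ((F.card - A.card : ℕ) : ℝ)) / ((F.card + 1) * (A.card + 1)) * g A 1 ≤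
    ∑ k ∈ range (F.card + 1), ((F.card + 1).choose (k + 1) : ℝ) * g ∅ (k + 1) := by
  set w : ℕ → ℝ := fun k => (2 * ((F.card - k : ℕ) : ℝ)) / ((F.card + 1) * (k + 1)) with hw
  have hwn : ∀ i, 0 ≤ w i := by
    intro i
    simp only [hw]
    positivity
  have hwa : ∀ i j, i ≤ j → w j ≤ w i := by
    intro i j hij
    simp only [hw]
    have a2 : ((F.card - j : ℕ) : ℝ) ≤ ((F.card - i : ℕ) : ℝ) := by
      exact_mod_cast (by omega : F.card - j ≤ F.card - i)
    have a3 : (i : ℝ) + 1 ≤ (j : ℝ) + 1 := by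
      have : (i : ℝ) ≤ (j : ℝ) := by exact_mod_cast hij
      linarith
    gcongr
  have hwz : ∀ k, F.card < k → w k = 0 := by
    intro k hk
    simp only [hw]
    rw [Nat.sub_eq_zero_of_le hk.le]
    simp
  have hfin := tele_final_abs F 𝓕 h1 h2 g hg HE F.card w hwn hwa hwz
  refine (add_le_add_right hfin _).trans ?_
  rw [← Finset.sum_add_distrib]
  refine Finset.sum_le_sum fun k _ => ?_
  rw [← add_mul]
  refine mul_le_mul_of_nonneg_right ?_ (hg _ _)
  have hterm : ∀ j, (2 / ((F.card : ℝ) + 1)) ^ j * (F.card.choose (k + j) : ℝ) * w (k + j) =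
      (2 / ((F.card : ℝ) + 1)) ^ (j + 1) * (F.card.choose (k + (j + 1)) : ℝ) := by
    intro j
    simp only [hw]
    have hC : (F.card.choose (k + (j + 1)) : ℝ) * (((k + j : ℕ) : ℝ) + 1) =
        (F.card.choose (k + j) : ℝ) * ((F.card - (k + j) : ℕ) : ℝ) := by
      exact_mod_cast Nat.choose_succ_right_eq F.card (k + j)
    have hpos : (0 : ℝ) < ((k + j : ℕ) : ℝ) + 1 := by positivity
    have hpos2 : (0 : ℝ) < (F.card : ℝ) + 1 := by positivity
    have e1 : (F.card.choose (k + (j + 1)) : ℝ) =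
        (F.card.choose (k + j) : ℝ) * ((F.card - (k + j) : ℕ) : ℝ) / (((k + j : ℕ) : ℝ) + 1) := by
      rw [eq_div_iff hpos.ne', hC]
    rw [e1, pow_succ]
    field_simp
  rw [Finset.sum_congr rfl (fun j _ => hterm j)]
  have hs := sum_bound F.card k
  have hP : ((F.card + 1).choose (k + 1) : ℝ) = (F.card.choose k : ℝ) + (F.card.choose (k + 1) : ℝ) := by
    exact_mod_cast Nat.choose_succ_succ F.card k
  rw [hP]
  linarith

end final

section setoids

open Polynomial

variable {V : Type} [Fintype V] [DecidableEq V]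

theorem rk_union (B D : Finset (Sym2 V)) : rk (ps (B ∪ D)) ≤ rk (ps B) + D.card := by
  induction D using Finset.induction_on with
  | empty => rw [Finset.union_empty]; simp
  | insert e D he ih =>
    rw [Finset.union_insert, ps_insert, Finset.card_insert_of_notMem he]
    by_cases h : pr e ≤ ps (B ∪ D)
    · rw [sup_eq_left.2 h]; omega
    · rw [rk_sup _ _ h]; omega

theorem rk_closed (A B : Finset (Sym2 V)) (hA : rk (ps A) = A.card) (hB : B ⊆ A) :
    rk (ps B) = B.card := by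
  have h1 := rk_union B (A \ B)
  rw [Finset.union_sdiff_of_subset hB, card_sdiff_of_subset hB, hA] at h1
  have h2 := rk_ps_le B
  have h3 := card_le_card hB
  omega

/-- from the output of the first stage to the conclusion of `TeleStm` -/
theorem tele2_use (F : Finset (Sym2 V)) (τ : Setoid V → ℕ → ℝ[X])
    (h0 : ∀ π i, 0 ≤ τ π i)
    (HE : ∀ A ⊆ F, ∀ e ∈ F, ¬ pr e ≤ ps A → ∀ v : ℕ → ℝ, (∀ i, 0 ≤ v i) →
      (∀ i j, 1 ≤ i → i ≤ j → v j ≤ v i) →
      ∑ i ∈ Icc 1 F.card, C (v i * (F.card.choose i : ℝ)) *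
          (τ (ps A ⊔ pr e) i - τ (ps A) (i + 1)) ≤
        C (2 * F.card * v 1 / (F.card + 1)) * τ (ps A) 1)
    (H1 : ∑ A ∈ F.powerset, τ (ps A) (1 + (A.card - rk (ps A))) ≤
      ∑ k ∈ range (F.card + 1), C (F.card.choose k : ℝ) * τ ⊥ (k + 1) +
      ∑ A ∈ F.powerset.filter (fun A => rk (ps A) = A.card),
        C (2 * ((F.card : ℝ) - A.card) / ((F.card + 1) * (A.card + 1))) * τ (ps A) 1) :
    ∑ A ∈ F.powerset, τ (ps A) (1 + (A.card - rk (ps A))) ≤
      ∑ k ∈ range (F.card + 1), C (((F.card + 1).choose (k + 1) : ℕ) : ℝ) * τ ⊥ (k + 1) := by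
  refine H1.trans ?_
  intro c
  rw [coeff_add, finsetSum_coeff, finsetSum_coeff, finsetSum_coeff]
  simp only [coeff_C_mul]
  have hmain := use_abs F (F.powerset.filter (fun A => rk (ps A) = A.card))
    (fun A hA => mem_powerset.1 (mem_filter.1 hA).1)
    (fun A hA B hB => by
      rw [mem_filter, mem_powerset] at hA ⊢
      exact ⟨hB.trans hA.1, rk_closed A B hA.2 hB⟩)
    (fun A i => (τ (ps A) i).coeff c)
    (fun A i => (nonneg_iff _).1 (h0 (ps A) i) c)
    (by
      intro A e heA hin v hv0 hva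
      rw [mem_filter, mem_powerset] at hin
      have hAF : A ⊆ F := (subset_insert e A).trans hin.1
      have heF : e ∈ F := hin.1 (mem_insert_self _ _)
      have hne : ¬ pr e ≤ ps A := by
        intro h
        have h1 := hin.2
        rw [ps_insert, sup_eq_left.2 h, card_insert_of_notMem heA] at h1
        have := rk_ps_le A
        omega
      have h := HE A hAF e heF hne v hv0 hva c
      rw [finsetSum_coeff] at h
      simp only [coeff_C_mul, coeff_sub] at h
      simp only [ps_insert]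
      exact h)
  rw [ps_empty] at hmain
  refine le_trans (le_of_eq ?_) hmain
  congr 1
  refine Finset.sum_congr rfl fun A hA => ?_
  have hc : A.card ≤ F.card := card_le_card (mem_powerset.1 (mem_filter.1 hA).1)
  rw [Nat.cast_sub hc]

end setoids

end Pool.Agent.Y373.HV.Tele2
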