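import Pool.Agent.Y373.HV.Stm
import Pool.Agent.Y373.HV.Tele1
import Pool.Agent.Y373.HV.Tele2

set_option autoImplicit false

/-! The telescoping argument: both stages together. -/

namespace Pool.Agent.Y373.HV

open Polynomial Finset

theorem tele : TeleStm := by
  intro V _ _ F τ hF h0 HE
  refine Tele2.tele2_use F τ h0 HE ?_
  exact tele1 τ F hF h0 HE

end Pool.Agent.Y373.HV
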