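import Pool.Agent.Y373.HV.Exch
import Pool.Agent.Y373.HV.Kel
import Pool.Agent.Y373.HV.Dense
import Pool.Agent.Y373.HV.Mom
import Pool.Agent.Y373.HV.Alg4
import Pool.Agent.Y373.HV.Link
import Pool.Agent.Y373.HV.Lp
import Pool.Agent.Y373.HV.Sing
import Pool.Agent.Y373.HV.EI
import Pool.Agent.Y373.HV.Coll
import Pool.Agent.Y373.HV.Tele
import Pool.Agent.Y373.HV.Main
import Pool.Agent.Y373.HV.Fin

set_option autoImplicit false

/-! Everything together. -/

namespace Pool.Agent.Y373.HV

theorem kel_stm : KelStm := kel exch_stm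

theorem dense_stm : DenseStm := dense exch_stm kel_stm

theorem pm_stm : PmStm := link mom alg

theorem ei_stm : EIStm := ei pm_stm sing

theorem coll_stm : CollapseStm := coll lp tele ei_stm

theorem main : MainStm := main_stm kel_stm dense_stm coll_stm

end Pool.Agent.Y373.HV
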