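import Pool.Agent.Y373.HV.Stm
import Pool.Agent.Y373.HV.Core

set_option autoImplicit false

/-! The exchange inequality `ExchStm`. -/

namespace Pool.Agent.Y373.HV

open Polynomial Finset

section
variable {V : Type}

theorem sp_iff (s : Setoid V) (a b x y : V) :
    (s ⊔ pr s(a, b)) x y ↔ s x y ∨ (s x a ∧ s b y) ∨ (s x b ∧ s a y) := sup_pr_iff s a b x y

/-- two edges agree modulo `s` -/
def me (s : Setoid V) (e e' : Sym2 V) : Prop :=
  ∃ a b a' b', e = s(a, b) ∧ e' = s(a', b') ∧ s a a' ∧ s b b'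

theorem perm_swap4 {α : Type} (A B C : List α) : (A ++ (B ++ C)).Perm (B ++ (A ++ C)) := by
  rw [← List.append_assoc, ← List.append_assoc]
  exact List.Perm.append_right _ List.perm_append_comm

/-- edges from `h` to a list -/
def fl (h : V) (A : List V) : List (Sym2 V) := A.map (fun w => s(h, w))

theorem fl_append (h : V) (A B : List V) : fl h (A ++ B) = fl h A ++ fl h B := List.map_append

theorem fl_perm (h : V) {A B : List V} (hp : A.Perm B) : (fl h A).Perm (fl h B) := hp.map _

theorem mem_fl {h : V} {A : List V} {e : Sym2 V} (he : e ∈ fl h A) : ∃ w ∈ A, s(h, w) = e :=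
  List.mem_map.1 he

theorem me_h (s : Setoid V) (h : V) {w w' : V} (hw : s w w') : me s s(h, w) s(h, w') :=
  ⟨h, w, h, w', rfl, rfl, s.refl h, hw⟩

/-- the edges joining the blocks of `h`, `z` to the outside -/
def Q (s : Setoid V) (h z : V) (e : Sym2 V) : Prop :=
  ∃ x t, e = s(x, t) ∧ (s h x ∨ s z x) ∧ ¬ s h t ∧ ¬ s z t

theorem Q_swap {s : Setoid V} {h z : V} {x y : V} (hQ : ¬ Q s h z s(x, y)) :
    ((s h x ∨ s z x) ∧ (s h y ∨ s z y)) ∨ ((¬ s h x ∧ ¬ s z x) ∧ (¬ s h y ∧ ¬ s z y)) := by
  by_cases hx : s h x ∨ s z x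
  · left
    refine ⟨hx, ?_⟩
    by_contra hy
    rw [not_or] at hy
    exact hQ ⟨x, y, rfl, hx, hy⟩
  · right
    rw [not_or] at hx
    refine ⟨hx, ?_⟩
    by_contra hy
    rw [← not_or, not_not] at hy
    exact hQ ⟨y, x, Sym2.eq_swap, hy, hx⟩

theorem cbt_congr (s s' : Setoid V) (h t : V) (l : List (Sym2 V)) (hs : ∀ x, s h x ↔ s' h x) :
    cbt s h t l = cbt s' h t l := by
  unfold cbt
  congr 1
  refine List.filter_congr fun e _ => ?_
  exact decide_eq_decide.2 (exists_congr fun x => and_congr_left' (hs x))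

theorem cbt_app (s : Setoid V) (h t : V) (l l' : List (Sym2 V)) :
    cbt s h t (l ++ l') = cbt s h t l + cbt s h t l' := by
  unfold cbt
  rw [List.filter_append, List.length_append]

theorem cbt_perm (s : Setoid V) (h t : V) {l l' : List (Sym2 V)} (hp : l.Perm l') :
    cbt s h t l = cbt s h t l' := (hp.filter _).length_eq

theorem cbt_zero (s : Setoid V) (h t : V) (l : List (Sym2 V))
    (hl : ∀ e ∈ l, ¬ ∃ x, s h x ∧ e = s(x, t)) : cbt s h t l = 0 := by
  classical
  unfold cbt
  rw [List.length_eq_zero_iff, List.filter_eq_nil_iff]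
  intro e he h5
  exact hl e he (of_decide_eq_true h5)

theorem cbt_cons (s : Setoid V) (h t : V) (e : Sym2 V) (l : List (Sym2 V)) (P : Prop)
    [Decidable P] (hP : (∃ x, s h x ∧ e = s(x, t)) ↔ P) :
    cbt s h t (e :: l) = cbt s h t l + if P then 1 else 0 := by
  classical
  unfold cbt
  rw [List.filter_cons]
  by_cases h1 : P
  · rw [if_pos h1, if_pos (decide_eq_true (hP.2 h1))]
    rfl
  · rw [if_neg h1, if_neg (fun h2 => h1 (hP.1 (of_decide_eq_true h2)))]
    rfl

variable [Fintype V]

theorem T_me (s : Setoid V) {e e' : Sym2 V} (h : me s e e') (l : List (Sym2 V)) :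
    T (e :: l) s = T (e' :: l) s := by
  obtain ⟨a, b, a', b', rfl, rfl, ha, hb⟩ := h
  exact tc_mod _ _ _ _ _ _ _ ha hb

theorem T_map {α : Type} (s : Setoid V) (f g : α → Sym2 V) (L : List α) :
    (∀ x ∈ L, me s (f x) (g x)) → ∀ R : List (Sym2 V), T (L.map f ++ R) s = T (L.map g ++ R) s := by
  induction L with
  | nil => intro _ R; rfl
  | cons x L ih =>
    intro hL R
    have h1 : ∀ x ∈ L, me s (f x) (g x) := fun y hy => hL y (List.mem_cons_of_mem _ hy)
    calc T ((x :: L).map f ++ R) s = T (f x :: (L.map f ++ R)) s := rfl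
      _ = T (g x :: (L.map f ++ R)) s := T_me s (hL x List.mem_cons_self) _
      _ = T (L.map f ++ g x :: R) s := T_perm List.perm_middle.symm s
      _ = T (L.map g ++ g x :: R) s := ih h1 _
      _ = T (g x :: (L.map g ++ R)) s := T_perm List.perm_middle s
      _ = T ((x :: L).map g ++ R) s := rfl

/-- geometric sums -/
noncomputable def mm (n : ℕ) : ℝ[X] := ∑ i ∈ range n, X ^ i

theorem mm_nonneg (n : ℕ) : 0 ≤ mm n :=
  Finset.sum_nonneg fun i _ => pow_nonneg X_nonneg i

theorem mm_add (p q : ℕ) : mm (p + q) = mm p + X ^ p * mm q := by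
  unfold mm
  rw [Finset.sum_range_add, Finset.mul_sum]
  congr 1
  exact Finset.sum_congr rfl fun i _ => pow_add _ _ _

theorem pow_mm (n : ℕ) : (X : ℝ[X]) ^ n = 1 + (X - 1) * mm n := by
  have := geom_sum_mul (X : ℝ[X]) n
  unfold mm
  linear_combination -this

open Classical in
/-- splitting off the part of the lists in the block of `w0` -/
theorem T_split (s : Setoid V) (h z w0 : V) (L M : List V) :
    T (fl h L ++ fl z M) s =
      T (List.replicate (L.filter (fun t => s w0 t)).length s(h, w0) ++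
        (List.replicate (M.filter (fun t => s w0 t)).length s(z, w0) ++
          (fl h (L.filter (fun t => ¬ s w0 t)) ++ fl z (M.filter (fun t => ¬ s w0 t))))) s := by
  have hL : (L.filter (fun t => s w0 t) ++ L.filter (fun t => ¬ s w0 t)).Perm L := by
    have := List.filter_append_perm (fun t => decide (s w0 t)) L
    simpa using this
  have hM : (M.filter (fun t => s w0 t) ++ M.filter (fun t => ¬ s w0 t)).Perm M := by
    have := List.filter_append_perm (fun t => decide (s w0 t)) M
    simpa using this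
  set L1 := L.filter (fun t => s w0 t) with hL1
  set L2 := L.filter (fun t => ¬ s w0 t) with hL2
  set M1 := M.filter (fun t => s w0 t) with hM1
  set M2 := M.filter (fun t => ¬ s w0 t) with hM2
  have e1 : T (fl h L ++ fl z M) s = T (fl h L1 ++ (fl z M1 ++ (fl h L2 ++ fl z M2))) s := by
    apply T_perm
    have h1 : (fl h L ++ fl z M).Perm (fl h (L1 ++ L2) ++ fl z (M1 ++ M2)) :=
      (fl_perm h hL.symm).append (fl_perm z hM.symm)
    refine h1.trans ?_
    rw [fl_append, fl_append, List.append_assoc]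
    refine List.Perm.append_left _ ?_
    rw [← List.append_assoc, ← List.append_assoc]
    exact List.Perm.append_right _ List.perm_append_comm
  have key : ∀ (c : V) (Q : List V) (R : List (Sym2 V)), (∀ q ∈ Q, s w0 q) →
      T (fl c Q ++ R) s = T (List.replicate Q.length s(c, w0) ++ R) s := by
    intro c Q R hQ
    have := T_map s (fun w => s(c, w)) (fun _ => s(c, w0)) Q
      (fun q hq => me_h s c (s.symm (hQ q hq))) R
    rw [List.map_const'] at this
    exact this
  rw [e1, key h L1 _ (fun q hq => by simpa [hL1] using (List.mem_filter.1 hq).2)]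
  have e2 : T (List.replicate L1.length s(h, w0) ++ (fl z M1 ++ (fl h L2 ++ fl z M2))) s =
      T (fl z M1 ++ (List.replicate L1.length s(h, w0) ++ (fl h L2 ++ fl z M2))) s := by
    apply T_perm
    exact perm_swap4 _ _ _
  rw [e2, key z M1 _ (fun q hq => by simpa [hM1] using (List.mem_filter.1 hq).2)]
  apply T_perm
  exact perm_swap4 _ _ _

/-- expansion of the parallel edges from `h` and `z` to `w0` -/
theorem T_exp (s : Setoid V) (h z w0 : V) (hhz : ¬ s h z) (hw : ¬ s h w0) (zw : ¬ s z w0)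
    (a b : ℕ) (l : List (Sym2 V)) (hl : ∀ e ∈ l, ∀ x ∈ e, ¬ s w0 x) :
    T (List.replicate a s(h, w0) ++ (List.replicate b s(z, w0) ++ l)) s =
      (mm a + mm b) * T l (s ⊔ pr s(h, w0)) +
        mm a * mm b * T l (s ⊔ pr s(h, w0) ⊔ pr s(h, z)) := by
  have hw' : ¬ s w0 h := fun h' => hw (s.symm h')
  have zw' : ¬ s w0 z := fun h' => zw (s.symm h')
  have h1 : ¬ pr s(h, w0) ≤ s := by rwa [pr_le_iff]
  have h2 : ¬ pr s(z, w0) ≤ s := by rwa [pr_le_iff]
  have h3 : ¬ pr s(z, w0) ≤ s ⊔ pr s(h, w0) := by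
    intro h4
    rcases (sup_pr_iff _ _ _ _ _).1 ((pr_le_iff _ _ _).1 h4) with h | ⟨h, -⟩ | ⟨h, -⟩
    · exact zw h
    · exact hhz (s.symm h)
    · exact zw h
  have h0 : T l s = 0 := tc_isolated _ l s w0 h (mem_univ _) (mem_univ _) hw' hl
  have habs : T l (s ⊔ pr s(z, w0)) = T l (s ⊔ pr s(h, w0)) :=
    tc_absorb _ l s w0 z h (mem_univ _) (mem_univ _) (mem_univ _) zw' hw' hl
  have e1 : T (List.replicate a s(h, w0) ++ (List.replicate b s(z, w0) ++ l)) s =
      T (List.replicate b s(z, w0) ++ l) s +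
        mm a * T (List.replicate b s(z, w0) ++ l) (s ⊔ pr s(h, w0)) :=
    tc_replicate _ _ _ _ _ (fun _ _ => mem_univ _) h1
  have e2 : T (List.replicate b s(z, w0) ++ l) s = T l s + mm b * T l (s ⊔ pr s(z, w0)) :=
    tc_replicate _ _ _ _ _ (fun _ _ => mem_univ _) h2
  have e3 : T (List.replicate b s(z, w0) ++ l) (s ⊔ pr s(h, w0)) =
      T l (s ⊔ pr s(h, w0)) + mm b * T l (s ⊔ pr s(h, w0) ⊔ pr s(z, w0)) :=
    tc_replicate _ _ _ _ _ (fun _ _ => mem_univ _) h3
  have h4 : s ⊔ pr s(h, w0) ⊔ pr s(h, z) = s ⊔ pr s(h, w0) ⊔ pr s(z, w0) := by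
    refine pr_exch h3 ?_
    refine (pr_le_iff _ _ _).2 ((sup_pr_iff _ _ _ _ _).2 (Or.inr (Or.inr ⟨?_, ?_⟩)))
    · exact (s ⊔ pr s(h, w0)).refl z
    · exact (sup_pr_iff _ _ _ _ _).2 (Or.inr (Or.inl ⟨s.refl h, s.refl w0⟩))
  rw [e1, e2, e3, h0, habs, h4]
  ring

/-- the final computation -/
theorem arith (a b k : ℕ) (N P M : ℝ[X]) (hNP : N ≤ P) (hM : X * N ≤ N + M) :
    (mm (b + a + k) + mm b) * N + mm (b + a + k) * mm b * M ≤
      (mm (b + a) + mm (b + k)) * P + mm (b + a) * mm (b + k) * M := by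
  have h1 : (mm (b + a) + mm (b + k)) * N ≤ (mm (b + a) + mm (b + k)) * P :=
    mul_le_mul_of_nonneg_left hNP (add_nonneg (mm_nonneg _) (mm_nonneg _))
  have h2 : 0 ≤ X ^ b * mm a * mm k * (N + M - X * N) :=
    mul_nonneg (mul_nonneg (mul_nonneg (pow_nonneg X_nonneg _) (mm_nonneg _)) (mm_nonneg _))
      (sub_nonneg.2 hM)
  have h3 : (mm (b + a) + mm (b + k)) * N + mm (b + a) * mm (b + k) * M =
      (mm (b + a + k) + mm b) * N + mm (b + a + k) * mm b * M +
        X ^ b * mm a * mm k * (N + M - X * N) := by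
    rw [mm_add (b + a) k, mm_add b a, mm_add b k, pow_add, pow_mm b, pow_mm a]
    ring
  calc (mm (b + a + k) + mm b) * N + mm (b + a + k) * mm b * M
      ≤ (mm (b + a + k) + mm b) * N + mm (b + a + k) * mm b * M +
        X ^ b * mm a * mm k * (N + M - X * N) := le_add_of_nonneg_right h2
    _ = (mm (b + a) + mm (b + k)) * N + mm (b + a) * mm (b + k) * M := h3.symm
    _ ≤ _ := add_le_add h1 le_rfl

open Classical in
theorem base_aux : ∀ (n : ℕ) (s : Setoid V) (h z : V) (A B W : List V),
    (univ.filter (fun t => ¬ s h t ∧ ¬ s z t)).card ≤ n → ¬ s h z →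
    (∀ t ∈ A, ¬ s h t ∧ ¬ s z t) → (∀ t ∈ B, ¬ s h t ∧ ¬ s z t) →
    (∀ t ∈ W, ¬ s h t ∧ ¬ s z t) →
    T (fl h (B ++ A ++ W) ++ fl z B) s ≤ T (fl h (B ++ A) ++ fl z (B ++ W)) s := by
  intro n
  induction n with
  | zero =>
    intro s h z A B W hc hhz hA hB hW
    have hno : ∀ t, ¬ (¬ s h t ∧ ¬ s z t) := by
      intro t ht
      have : t ∈ univ.filter (fun t => ¬ s h t ∧ ¬ s z t) := by simpa using ht
      rw [Finset.card_eq_zero.1 (Nat.le_zero.1 hc)] at this
      simp at this
    have hA' : A = [] := List.eq_nil_iff_forall_not_mem.2 fun t ht => hno t (hA t ht)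
    have hB' : B = [] := List.eq_nil_iff_forall_not_mem.2 fun t ht => hno t (hB t ht)
    have hW' : W = [] := List.eq_nil_iff_forall_not_mem.2 fun t ht => hno t (hW t ht)
    subst hA' hB' hW'
    exact le_rfl
  | succ n ih =>
    intro s h z A B W hc hhz hA hB hW
    by_cases hex : ∃ t, ¬ s h t ∧ ¬ s z t
    swap
    · have hno : ∀ t, ¬ (¬ s h t ∧ ¬ s z t) := fun t ht => hex ⟨t, ht⟩
      have hA' : A = [] := List.eq_nil_iff_forall_not_mem.2 fun t ht => hno t (hA t ht)
      have hB' : B = [] := List.eq_nil_iff_forall_not_mem.2 fun t ht => hno t (hB t ht)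
      have hW' : W = [] := List.eq_nil_iff_forall_not_mem.2 fun t ht => hno t (hW t ht)
      subst hA' hB' hW'
      exact le_rfl
    obtain ⟨w0, hw, zw⟩ := hex
    -- the parts outside the block of `w0`
    have hfil : ∀ L : List V, (∀ t ∈ L, ¬ s h t ∧ ¬ s z t) →
        ∀ t ∈ L.filter (fun t => ¬ s w0 t), ¬ s h t ∧ ¬ s z t ∧ ¬ s w0 t := by
      intro L hL t ht
      rw [List.mem_filter] at ht
      have := hL t ht.1
      exact ⟨this.1, this.2, by simpa using ht.2⟩
    set A2 := A.filter (fun t => ¬ s w0 t) with hA2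
    set B2 := B.filter (fun t => ¬ s w0 t) with hB2
    set W2 := W.filter (fun t => ¬ s w0 t) with hW2
    set a := (A.filter (fun t => s w0 t)).length with ha
    set b := (B.filter (fun t => s w0 t)).length with hb
    set k := (W.filter (fun t => s w0 t)).length with hk
    have hA3 := hfil A hA
    have hB3 := hfil B hB
    have hW3 := hfil W hW
    rw [← hA2] at hA3
    rw [← hB2] at hB3
    rw [← hW2] at hW3
    have hw' : ¬ s w0 h := fun h' => hw (s.symm h')
    have zw' : ¬ s w0 z := fun h' => zw (s.symm h')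
    have hunt : ∀ (L M : List V), (∀ t ∈ L, ¬ s h t ∧ ¬ s z t ∧ ¬ s w0 t) →
        (∀ t ∈ M, ¬ s h t ∧ ¬ s z t ∧ ¬ s w0 t) →
        ∀ e ∈ fl h L ++ fl z M, ∀ x ∈ e, ¬ s w0 x := by
      intro L M hL hM e he x hx
      rw [List.mem_append] at he
      rcases he with he | he
      · obtain ⟨w, hwL, rfl⟩ := mem_fl he
        rcases Sym2.mem_iff.1 hx with rfl | rfl
        · exact hw'
        · exact (hL _ hwL).2.2
      · obtain ⟨w, hwM, rfl⟩ := mem_fl he
        rcases Sym2.mem_iff.1 hx with rfl | rfl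
        · exact zw'
        · exact (hM _ hwM).2.2
    have hall1 : ∀ t ∈ B2 ++ A2 ++ W2, ¬ s h t ∧ ¬ s z t ∧ ¬ s w0 t := by
      intro t ht
      rw [List.mem_append, List.mem_append] at ht
      rcases ht with (ht | ht) | ht
      · exact hB3 t ht
      · exact hA3 t ht
      · exact hW3 t ht
    have hall2 : ∀ t ∈ B2 ++ A2, ¬ s h t ∧ ¬ s z t ∧ ¬ s w0 t := fun t ht =>
      hall1 t (List.mem_append_left _ ht)
    have hall3 : ∀ t ∈ B2 ++ W2, ¬ s h t ∧ ¬ s z t ∧ ¬ s w0 t := by
      intro t ht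
      rw [List.mem_append] at ht
      rcases ht with ht | ht
      · exact hB3 t ht
      · exact hW3 t ht
    rw [T_split s h z w0 (B ++ A ++ W) B, T_split s h z w0 (B ++ A) (B ++ W)]
    simp only [List.filter_append, List.length_append]
    rw [← hA2, ← hB2, ← hW2, ← ha, ← hb, ← hk]
    rw [T_exp s h z w0 hhz hw zw _ _ _ (hunt _ _ hall1 hB3),
      T_exp s h z w0 hhz hw zw _ _ _ (hunt _ _ hall2 hall3)]
    set s1 := s ⊔ pr s(h, w0) with hs1
    have hs1h : ∀ t, s1 h t ↔ s h t ∨ s w0 t := by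
      intro t
      refine Iff.trans (sup_pr_iff _ _ _ _ _) ?_
      constructor
      · rintro (h1 | ⟨-, h1⟩ | ⟨h1, -⟩)
        · exact Or.inl h1
        · exact Or.inr h1
        · exact absurd h1 hw
      · rintro (h1 | h1)
        · exact Or.inl h1
        · exact Or.inr (Or.inl ⟨s.refl h, h1⟩)
    have hs1z : ∀ t, s1 z t ↔ s z t := by
      intro t
      refine Iff.trans (sup_pr_iff _ _ _ _ _) ?_
      constructor
      · rintro (h1 | ⟨h1, -⟩ | ⟨h1, -⟩)
        · exact h1
        · exact absurd (s.symm h1) hhz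
        · exact absurd h1 zw
      · exact Or.inl
    have hhz1 : ¬ s1 h z := by
      intro h1
      rcases (hs1h z).1 h1 with h1 | h1
      · exact hhz h1
      · exact zw' h1
    have hM : T (fl h (B2 ++ A2 ++ W2) ++ fl z B2) (s1 ⊔ pr s(h, z)) =
        T (fl h (B2 ++ A2) ++ fl z (B2 ++ W2)) (s1 ⊔ pr s(h, z)) := by
      have e1 : T (fl h (B2 ++ A2) ++ fl z (B2 ++ W2)) (s1 ⊔ pr s(h, z)) =
          T (fl z W2 ++ (fl h (B2 ++ A2) ++ fl z B2)) (s1 ⊔ pr s(h, z)) := by
        apply T_perm
        rw [fl_append z, ← List.append_assoc]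
        exact List.perm_append_comm
      have e2 : T (fl z W2 ++ (fl h (B2 ++ A2) ++ fl z B2)) (s1 ⊔ pr s(h, z)) =
          T (fl h W2 ++ (fl h (B2 ++ A2) ++ fl z B2)) (s1 ⊔ pr s(h, z)) := by
        refine T_map _ (fun w => s(z, w)) (fun w => s(h, w)) W2 (fun w _ => ?_) _
        refine ⟨z, w, h, w, rfl, rfl, ?_, Setoid.refl' _ w⟩
        exact (sup_pr_iff _ _ _ _ _).2 (Or.inr (Or.inr ⟨Setoid.refl' _ z, Setoid.refl' _ h⟩))
      have e3 : T (fl h W2 ++ (fl h (B2 ++ A2) ++ fl z B2)) (s1 ⊔ pr s(h, z)) =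
          T (fl h (B2 ++ A2 ++ W2) ++ fl z B2) (s1 ⊔ pr s(h, z)) := by
        apply T_perm
        rw [fl_append h (B2 ++ A2) W2, ← List.append_assoc]
        exact List.Perm.append_right _ List.perm_append_comm
      rw [e1, e2, e3]
    rw [← hM]
    have hcard : (univ.filter (fun t => ¬ s1 h t ∧ ¬ s1 z t)).card ≤ n := by
      have : (univ.filter (fun t => ¬ s1 h t ∧ ¬ s1 z t)) ⊂
          (univ.filter (fun t => ¬ s h t ∧ ¬ s z t)) := by
        rw [Finset.ssubset_iff_of_subset]
        · refine ⟨w0, by simpa using ⟨hw, zw⟩, ?_⟩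
          simp only [Finset.mem_filter, Finset.mem_univ, true_and, not_and, not_not]
          intro h1
          exact absurd ((hs1h w0).2 (Or.inr (s.refl w0))) h1
        · intro t ht
          simp only [Finset.mem_filter, Finset.mem_univ, true_and] at ht ⊢
          exact ⟨fun h1 => ht.1 ((hs1h t).2 (Or.inl h1)), fun h1 => ht.2 ((hs1z t).2 h1)⟩
      have := Finset.card_lt_card this
      omega
    have hcv : ∀ L : List V, (∀ t ∈ L, ¬ s h t ∧ ¬ s z t ∧ ¬ s w0 t) →
        ∀ t ∈ L, ¬ s1 h t ∧ ¬ s1 z t := by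
      intro L hL t ht
      have := hL t ht
      exact ⟨fun h1 => ((hs1h t).1 h1).elim this.1 this.2.2, fun h1 => this.2.1 ((hs1z t).1 h1)⟩
    have hih := ih s1 h z A2 B2 W2 hcard hhz1 (hcv _ hA3) (hcv _ hB3) (hcv _ hW3)
    exact arith a b k _ _ _ hih (X_mul_T_le _ _ _ (by rwa [pr_le_iff]))

/-- normal form of the edges joining the blocks of `h`, `z` to the outside -/
theorem norm_form [DecidableEq V] (s : Setoid V) (h z : V) (hhz : ¬ s h z) (l : List (Sym2 V)) :
    (∀ e ∈ l, Q s h z e) → ∃ A B : List V, (∀ t ∈ A, ¬ s h t ∧ ¬ s z t) ∧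
      (∀ t ∈ B, ¬ s h t ∧ ¬ s z t) ∧
      (∀ t, ¬ s h t → ¬ s z t → A.count t = cbt s h t l ∧ B.count t = cbt s z t l) ∧
      ∀ R : List (Sym2 V), T (l ++ R) s = T (fl h A ++ (fl z B ++ R)) s := by
  induction l with
  | nil =>
    intro _
    exact ⟨[], [], by simp, by simp, by simp [cbt], fun R => rfl⟩
  | cons e l ih =>
    intro hl
    obtain ⟨A, B, hA, hB, hc, hT⟩ := ih fun e he => hl e (List.mem_cons_of_mem _ he)
    obtain ⟨x, t, rfl, hx, ht⟩ := hl e List.mem_cons_self
    rcases hx with hx | hx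
    · refine ⟨t :: A, B, ?_, hB, ?_, ?_⟩
      · intro t' ht'
        rcases List.mem_cons.1 ht' with rfl | ht'
        · exact ht
        · exact hA t' ht'
      · intro t' ht1 ht2
        obtain ⟨h1, h2⟩ := hc t' ht1 ht2
        constructor
        · rw [cbt_cons s h t' s(x, t) l (t = t'), List.count_cons, h1]
          · simp
          · constructor
            · rintro ⟨x', hx', he⟩
              rcases Sym2.eq_iff.1 he with ⟨-, h3⟩ | ⟨h3, h4⟩
              · exact h3
              · exact absurd (h3 ▸ hx) ht1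
            · rintro rfl
              exact ⟨x, hx, rfl⟩
        · rw [cbt_cons s z t' s(x, t) l False, h2]
          · simp
          · constructor
            · rintro ⟨x', hx', he⟩
              rcases Sym2.eq_iff.1 he with ⟨h3, h4⟩ | ⟨h3, h4⟩
              · exact hhz (s.trans hx (s.symm (h3 ▸ hx')))
              · exact absurd (h3 ▸ hx) ht1
            · exact False.elim
      · intro R
        calc T (s(x, t) :: (l ++ R)) s = T (s(h, t) :: (l ++ R)) s :=
              T_me s ⟨x, t, h, t, rfl, rfl, s.symm hx, s.refl t⟩ _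
          _ = T (l ++ s(h, t) :: R) s := T_perm List.perm_middle.symm s
          _ = T (fl h A ++ (fl z B ++ s(h, t) :: R)) s := hT _
          _ = T (s(h, t) :: (fl h A ++ (fl z B ++ R))) s := by
            apply T_perm
            rw [← List.append_assoc, ← List.append_assoc]
            exact List.perm_middle
          _ = T (fl h (t :: A) ++ (fl z B ++ R)) s := rfl
    · refine ⟨A, t :: B, hA, ?_, ?_, ?_⟩
      · intro t' ht'
        rcases List.mem_cons.1 ht' with rfl | ht'
        · exact ht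
        · exact hB t' ht'
      · intro t' ht1 ht2
        obtain ⟨h1, h2⟩ := hc t' ht1 ht2
        constructor
        · rw [cbt_cons s h t' s(x, t) l False, h1]
          · simp
          · constructor
            · rintro ⟨x', hx', he⟩
              rcases Sym2.eq_iff.1 he with ⟨h3, h4⟩ | ⟨h3, h4⟩
              · exact hhz (s.trans (h3 ▸ hx') (s.symm hx))
              · exact absurd (h3 ▸ hx) ht2
            · exact False.elim
        · rw [cbt_cons s z t' s(x, t) l (t = t'), List.count_cons, h2]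
          · simp
          · constructor
            · rintro ⟨x', hx', he⟩
              rcases Sym2.eq_iff.1 he with ⟨-, h3⟩ | ⟨h3, h4⟩
              · exact h3
              · exact absurd (h3 ▸ hx) ht2
            · rintro rfl
              exact ⟨x, hx, rfl⟩
      · intro R
        calc T (s(x, t) :: (l ++ R)) s = T (s(z, t) :: (l ++ R)) s :=
              T_me s ⟨x, t, z, t, rfl, rfl, s.symm hx, s.refl t⟩ _
          _ = T (l ++ s(z, t) :: R) s := T_perm List.perm_middle.symm s
          _ = T (fl h A ++ (fl z B ++ s(z, t) :: R)) s := hT _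
          _ = T (fl h A ++ (s(z, t) :: (fl z B ++ R))) s := by
            apply T_perm
            exact List.Perm.append_left _ List.perm_middle
          _ = T (fl h A ++ (fl z (t :: B) ++ R)) s := rfl

/-- the case where all edges join the two blocks to the outside -/
theorem step1 [DecidableEq V] (s : Setoid V) (h z : V) (hhz : ¬ s h z) (l : List (Sym2 V))
    (hl : ∀ e ∈ l, Q s h z e) (ws : List V) (hws : ∀ w ∈ ws, ¬ s h w ∧ ¬ s z w)
    (hcb : ∀ t, ¬ s h t → ¬ s z t → cbt s z t l ≤ cbt s h t l) :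
    T (l ++ fl h ws) s ≤ T (l ++ fl z ws) s := by
  classical
  obtain ⟨A, B, hA, hB, hc, hT⟩ := norm_form s h z hhz l hl
  rw [hT, hT]
  have hp : (B ++ A.diff B).Perm A := by
    apply List.subperm_append_diff_self_of_count_le
    intro t ht
    have h1 := hB t ht
    rw [(hc t h1.1 h1.2).1, (hc t h1.1 h1.2).2]
    exact hcb t h1.1 h1.2
  set A' := A.diff B with hA'
  have hA'' : ∀ t ∈ A', ¬ s h t ∧ ¬ s z t := fun t ht =>
    hA t (hp.subset (List.mem_append_right _ ht))
  have h1 := base_aux _ s h z A' B ws le_rfl hhz hA'' hB hws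
  have e1 : T (fl h (B ++ A' ++ ws) ++ fl z B) s = T (fl h A ++ (fl z B ++ fl h ws)) s := by
    apply T_perm
    rw [fl_append h (B ++ A') ws, List.append_assoc]
    exact (fl_perm h hp).append List.perm_append_comm
  have e2 : T (fl h (B ++ A') ++ fl z (B ++ ws)) s = T (fl h A ++ (fl z B ++ fl z ws)) s := by
    apply T_perm
    rw [fl_append z]
    exact (fl_perm h hp).append (List.Perm.refl _)
  rw [← e1, ← e2]
  exact h1

theorem step2 [DecidableEq V] (h z : V) (l2 : List (Sym2 V)) (ws : List V) (l1 : List (Sym2 V)) :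
    ∀ s : Setoid V, ¬ s h z → (∀ e ∈ l1, ¬ Q s h z e) → (∀ e ∈ l2, Q s h z e) →
    (∀ w ∈ ws, ¬ s h w ∧ ¬ s z w) →
    (∀ t, ¬ s h t → ¬ s z t → cbt s z t l2 ≤ cbt s h t l2) →
    T (l1 ++ (l2 ++ fl h ws)) s ≤ T (l1 ++ (l2 ++ fl z ws)) s := by
  induction l1 with
  | nil =>
    intro s hhz _ h2 hws hcb
    exact step1 s h z hhz l2 h2 ws hws hcb
  | cons e l1 ih =>
    intro s hhz h1 h2 hws hcb
    have h1' : ∀ e ∈ l1, ¬ Q s h z e := fun e he => h1 e (List.mem_cons_of_mem _ he)
    have hbase := ih s hhz h1' h2 hws hcb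
    by_cases hlp : pr e ≤ s
    · rw [List.cons_append, List.cons_append, T_loop _ _ _ hlp, T_loop _ _ _ hlp]
      exact mul_le_mul_of_nonneg_left hbase X_nonneg
    · rw [List.cons_append, List.cons_append, T_cons _ _ _ hlp, T_cons _ _ _ hlp]
      refine add_le_add hbase ?_
      have hQe := h1 e List.mem_cons_self
      induction e using Sym2.ind with
      | _ x y =>
      rw [pr_le_iff] at hlp
      rcases Q_swap hQe with ⟨hx, hy⟩ | ⟨hx, hy⟩
      · -- joins the two blocks
        have hzh : (s ⊔ pr s(x, y)) z h := by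
          refine (sup_pr_iff _ _ _ _ _).2 ?_
          rcases hx with hx | hx
          · rcases hy with hy | hy
            · exact absurd (s.trans (s.symm hx) hy) hlp
            · exact Or.inr (Or.inr ⟨hy, s.symm hx⟩)
          · rcases hy with hy | hy
            · exact Or.inr (Or.inl ⟨hx, s.symm hy⟩)
            · exact absurd (s.trans (s.symm hx) hy) hlp
        apply le_of_eq
        have e1 : ∀ c : V, T (l1 ++ (l2 ++ fl c ws)) (s ⊔ pr s(x, y)) =
            T (fl c ws ++ (l1 ++ l2)) (s ⊔ pr s(x, y)) := by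
          intro c
          apply T_perm
          rw [← List.append_assoc]
          exact List.perm_append_comm
        rw [e1, e1]
        exact T_map _ (fun w => s(h, w)) (fun w => s(z, w)) ws
          (fun w _ => ⟨h, w, z, w, rfl, rfl, Setoid.symm' _ hzh, Setoid.refl' _ w⟩) _
      · -- inside the complement
        have hs' : ∀ c, (¬ s c x ∧ ¬ s c y) → ∀ t, (s ⊔ pr s(x, y)) c t ↔ s c t := by
          intro c hc t
          refine Iff.trans (sup_pr_iff _ _ _ _ _) ?_
          constructor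
          · rintro (h1 | ⟨h1, -⟩ | ⟨h1, -⟩)
            · exact h1
            · exact absurd h1 hc.1
            · exact absurd h1 hc.2
          · exact Or.inl
        have hsh := hs' h ⟨hx.1, hy.1⟩
        have hsz := hs' z ⟨hx.2, hy.2⟩
        have hQQ : ∀ e, Q (s ⊔ pr s(x, y)) h z e ↔ Q s h z e := by
          intro e
          refine exists_congr fun x' => exists_congr fun t => and_congr_right fun _ => ?_
          exact and_congr (or_congr (hsh x') (hsz x'))
            (and_congr (not_congr (hsh t)) (not_congr (hsz t)))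
        refine ih (s ⊔ pr s(x, y)) (fun h3 => hhz ((hsh z).1 h3))
          (fun e he h3 => h1' e he ((hQQ e).1 h3)) (fun e he => (hQQ e).2 (h2 e he))
          (fun w hw => ⟨fun h3 => (hws w hw).1 ((hsh w).1 h3),
            fun h3 => (hws w hw).2 ((hsz w).1 h3)⟩) ?_
        intro t ht1 ht2
        rw [cbt_congr (s ⊔ pr s(x, y)) s z t l2 hsz, cbt_congr (s ⊔ pr s(x, y)) s h t l2 hsh]
        exact hcb t (fun h3 => ht1 ((hsh t).2 h3)) (fun h3 => ht2 ((hsz t).2 h3))

end

/-- the exchange inequality -/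
theorem exch_stm : ExchStm := by
  classical
  intro V _ _ s h z hhz l ws hws hcb
  set l1 := l.filter (fun e => ¬ Q s h z e) with hl1
  set l2 := l.filter (fun e => Q s h z e) with hl2
  have hp : (l2 ++ l1).Perm l := by
    have h0 := List.filter_append_perm (fun e => decide (Q s h z e)) l
    have h3 : l1 = List.filter (fun x => !decide (Q s h z x)) l := by
      rw [hl1]
      refine List.filter_congr fun e _ => ?_
      simp
    rw [h3, hl2]
    exact h0
  have h1 : ∀ e ∈ l1, ¬ Q s h z e := fun e he => of_decide_eq_true (List.mem_filter.1 he).2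
  have h2 : ∀ e ∈ l2, Q s h z e := fun e he => of_decide_eq_true (List.mem_filter.1 he).2
  have hcb2 : ∀ c t, (s h c ∨ s z c) → ¬ s h t → ¬ s z t → cbt s c t l = cbt s c t l2 := by
    intro c t hc ht1 ht2
    rw [cbt_perm s c t hp.symm, cbt_app, cbt_zero s c t l1, add_zero]
    rintro e he ⟨x, hx, rfl⟩
    refine h1 _ he ⟨x, t, rfl, ?_, ht1, ht2⟩
    rcases hc with hc | hc
    · exact Or.inl (s.trans hc hx)
    · exact Or.inr (s.trans hc hx)
  have hmain := step2 h z l2 ws l1 s hhz h1 h2 hws (by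
    intro t ht1 ht2
    rw [← hcb2 z t (Or.inr (s.refl z)) ht1 ht2, ← hcb2 h t (Or.inl (s.refl h)) ht1 ht2]
    exact hcb t ht1 ht2)
  have e1 : ∀ c : V, T (l ++ ws.map (fun w => s(c, w))) s = T (l1 ++ (l2 ++ fl c ws)) s := by
    intro c
    apply T_perm
    rw [← List.append_assoc]
    exact (hp.symm.trans List.perm_append_comm).append_right _
  rw [e1 h, e1 z]
  exact hmain

end Pool.Agent.Y373.HV
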